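import Pool.Agent.Helper317.CADS.Sig

/-!
Adjoining a number.
-/

namespace Pool.Agent.Helper317.CADS

open Function Filter

variable {FF : Set (ℕ → ℕ)} {I M X : Set H}

/-- the numbers coded over `M` by `c` -/
def adj (M : Set H) (c : H) : Set H := {x | ∃ g ∈ M, x = ap2 ev g c}

/-- pointwise application of `F` to a coded function of length `n`, `w = (n,g)` -/
def fmo (F : ℕ → ℕ) : ℕ → ℕ := fun w => lamc (fun u => F (ev w.unpair.2 u)) w.unpair.1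

/-- functions on codes needed for adjoining a number -/
structure OpsC (FF : Set (ℕ → ℕ)) : Prop where
  fmo : ∀ F ∈ FF, fmo F ∈ FF
  zip : (fun w : ℕ => lamc (fun u => Nat.pair (ev w.unpair.2.unpair.1 u)
    (ev w.unpair.2.unpair.2 u)) w.unpair.1) ∈ FF
  cst : (fun w : ℕ => lamc (fun _ => w.unpair.2) w.unpair.1) ∈ FF
  idl : (fun w : ℕ => lamc (fun u => u) w) ∈ FF
  mxl : (fun w : ℕ => (Finset.range w.unpair.1).sup fun u => ev w.unpair.2 u) ∈ FF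


theorem ev_fmo_H {F : ℕ → ℕ} {n g c : H} (hc : c < n) :
    ap2 ev (ap (fmo F) (pp n g)) c = ap F (ap2 ev g c) := by
  obtain ⟨n, rfl⟩ := n.rep
  obtain ⟨g, rfl⟩ := g.rep
  obtain ⟨c, rfl⟩ := c.rep
  simp only [lt_coe] at hc
  simp only [ap_coe, pp_coe, ap2_coe, eq_coe, fmo, Nat.unpair_pair]
  exact hc.mp fun k hk => ev_lamc hk

theorem ev_zip_H {n g h c : H} (hc : c < n) :
    ap2 ev (ap (fun w : ℕ => lamc (fun u => Nat.pair (ev w.unpair.2.unpair.1 u)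
      (ev w.unpair.2.unpair.2 u)) w.unpair.1) (pp n (pp g h))) c =
      pp (ap2 ev g c) (ap2 ev h c) := by
  obtain ⟨n, rfl⟩ := n.rep
  obtain ⟨g, rfl⟩ := g.rep
  obtain ⟨h, rfl⟩ := h.rep
  obtain ⟨c, rfl⟩ := c.rep
  simp only [lt_coe] at hc
  simp only [ap_coe, pp_coe, ap2_coe, eq_coe, Nat.unpair_pair]
  exact hc.mp fun k hk => ev_lamc hk

theorem ev_cst_H {n x c : H} (hc : c < n) :
    ap2 ev (ap (fun w : ℕ => lamc (fun _ => w.unpair.2) w.unpair.1) (pp n x)) c = x := by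
  obtain ⟨n, rfl⟩ := n.rep
  obtain ⟨x, rfl⟩ := x.rep
  obtain ⟨c, rfl⟩ := c.rep
  simp only [lt_coe] at hc
  simp only [ap_coe, pp_coe, ap2_coe, eq_coe, Nat.unpair_pair]
  exact hc.mp fun k hk => ev_lamc (g := fun _ => x k) hk

theorem ev_idl_H {n c : H} (hc : c < n) :
    ap2 ev (ap (fun w : ℕ => lamc (fun u => u) w) n) c = c := by
  obtain ⟨n, rfl⟩ := n.rep
  obtain ⟨c, rfl⟩ := c.rep
  simp only [lt_coe] at hc
  simp only [ap_coe, ap2_coe, eq_coe]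
  exact hc.mp fun k hk => ev_lamc (g := fun u => u) hk

theorem ev_mxl_H {n g c : H} (hc : c < n) :
    ap2 ev g c ≤
      ap (fun w : ℕ => (Finset.range w.unpair.1).sup fun u => ev w.unpair.2 u) (pp n g) := by
  obtain ⟨n, rfl⟩ := n.rep
  obtain ⟨g, rfl⟩ := g.rep
  obtain ⟨c, rfl⟩ := c.rep
  simp only [lt_coe] at hc
  simp only [ap_coe, pp_coe, ap2_coe, le_coe, Nat.unpair_pair]
  exact hc.mp fun k hk =>
    Finset.le_sup (f := fun u => ev (g k) u) (Finset.mem_range.2 hk)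

/-- TARGET -/
theorem adj_good (hF : Ops FF) (hC : OpsC FF) (hG : Good FF I M X) {n c : H} (hn : n ∈ M)
    (hc : c < n) : Good FF I (adj M c) X ∧ M ⊆ adj M c ∧ c ∈ adj M c := by
  have hsub : M ⊆ adj M c := fun x hx =>
    ⟨_, hG.mdl.ap _ hC.cst _ (hG.mdl.pp n hn x hx), (ev_cst_H hc).symm⟩
  have hcm : c ∈ adj M c := ⟨_, hG.mdl.ap _ hC.idl _ hn, (ev_idl_H hc).symm⟩
  have hmdl : Mdl FF (adj M c) := by
    refine ⟨fun k => hsub (hG.mdl.st k), ?_, ?_⟩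
    · rintro F hFF x ⟨g, hg, rfl⟩
      exact ⟨_, hG.mdl.ap _ (hC.fmo F hFF) _ (hG.mdl.pp n hn g hg), (ev_fmo_H hc).symm⟩
    · rintro x ⟨g, hg, rfl⟩ y ⟨h, hh, rfl⟩
      exact ⟨_, hG.mdl.ap _ hC.zip _ (hG.mdl.pp n hn _ (hG.mdl.pp g hg h hh)),
        (ev_zip_H hc).symm⟩
  have hbd : ∀ x ∈ adj M c, ∃ b ∈ M, x ≤ b := by
    rintro x ⟨g, hg, rfl⟩
    exact ⟨_, hG.mdl.ap _ hC.mxl _ (hG.mdl.pp n hn g hg), ev_mxl_H hc⟩
  refine ⟨⟨hmdl, ?_, ?_, hG.down, hG.xsub, ?_, hG.sc⟩, hsub, hcm⟩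
  · intro x hx
    obtain ⟨b, hb, hxb⟩ := hbd x hx
    exact hG.down b (hG.sub b hb) x hxb
  · intro x hx
    obtain ⟨b, hb, hxb⟩ := hG.cof x hx
    exact ⟨b, hsub hb, hxb⟩
  · intro b hb
    obtain ⟨b0, hb0, hbb⟩ := hbd b hb
    obtain ⟨z0, hz0, hseg⟩ := hG.cod b0 hb0
    exact ⟨_, hmdl.ap _ hF.cut _ (hmdl.pp b hb z0 (hsub hz0)), seg_cut hseg hbb⟩

/-- TARGET -/
theorem adj_countable (hM : M.Countable) (c : H) : (adj M c).Countable := by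
  have h : adj M c = (fun g => ap2 ev g c) '' M := by
    ext x
    constructor
    · rintro ⟨g, hg, rfl⟩
      exact ⟨g, hg, rfl⟩
    · rintro ⟨g, hg, rfl⟩
      exact ⟨g, hg, rfl⟩
  rw [h]
  exact hM.image _


end Pool.Agent.Helper317.CADS
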