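import Pool.Agent.Helper317.CADS.Base

/-!
The greedy construction of the partial assignments.
-/

namespace Pool.Agent.Helper317.CADS

open Function Filter

/-- `t` extends `s` on `[0,n)` -/
def Extd (n s t : H) : Prop := ∀ i < n, mem i (ap (fun x => x.unpair.1) s) →
  mem i (ap (fun x => x.unpair.1) t) ∧
    (mem i (ap (fun x => x.unpair.2) s) ↔ mem i (ap (fun x => x.unpair.2) t))

/-- one greedy step -/
noncomputable def greedy (m : ℕ) (n K f s : ℕ) : ℕ :=
  mu fun t => extd n s t ∧ dcard n t ≤ dcard n s + 1 ∧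
    4 * m * cntc n K f t ≤ (4 * m - 1) * cntc n K f s

/-- change of one bit -/
def setb (v i : ℕ) (b : Bool) : ℕ := if v.testBit i = b then v else v ^^^ 2 ^ i

theorem testBit_setb (v i : ℕ) (b : Bool) (j : ℕ) :
    (setb v i b).testBit j = if j = i then b else v.testBit j := by
  unfold setb
  by_cases h : v.testBit i = b
  · rw [if_pos h]
    by_cases hj : j = i
    · subst hj; rw [if_pos rfl, h]
    · rw [if_neg hj]
  · rw [if_neg h, Nat.testBit_xor, Nat.testBit_two_pow]
    by_cases hj : j = i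
    · subst hj
      rw [if_pos rfl]
      cases b <;> cases hh : v.testBit j <;> simp_all
    · rw [if_neg hj]
      have : ¬ i = j := fun h => hj h.symm
      simp [this]

/-- finite combinatorics: the greedy step is possible -/
theorem greedy_nat (m n K f s : ℕ) (hn : 0 < n) (hs : 2 * m * dcard n s ≤ n)
    (hf : ∀ u < K, n ≤ m * dcard n (ev f u)) :
    ∃ t, extd n s t ∧ dcard n t ≤ dcard n s + 1 ∧
      4 * m * cntc n K f t ≤ (4 * m - 1) * cntc n K f s := by
  classical
  have hrefl : extd n s s := fun i _ h => ⟨h, rfl⟩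
  rcases Nat.eq_zero_or_pos m with rfl | hm
  · exact ⟨s, hrefl, by omega, by simp⟩
  set U : Finset ℕ := (Finset.range K).filter fun u => compat n (ev f u) s with hU
  have hUc : cntc n K f s = U.card := rfl
  rcases U.eq_empty_or_nonempty with hU0 | hU1
  · refine ⟨s, hrefl, by omega, ?_⟩
    rw [hUc, hU0]; simp
  set I : Finset ℕ := (Finset.range n).filter fun i => ¬ s.unpair.1.testBit i = true with hI
  let A : ℕ → Finset ℕ := fun u => I.filter fun i => (ev f u).unpair.1.testBit i = true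
  have hA : ∀ u ∈ U, n ≤ 2 * m * (A u).card := by
    intro u hu
    have hu' := Finset.mem_filter.1 hu
    have h1 := hf u (Finset.mem_range.1 hu'.1)
    have h2 : dcard n (ev f u) ≤ (A u).card + dcard n s := by
      unfold dcard bcard
      rw [← Finset.card_union_of_disjoint]
      · apply Finset.card_le_card
        intro i hi
        rw [Finset.mem_filter] at hi
        rw [Finset.mem_union]
        by_cases his : s.unpair.1.testBit i = true
        · exact Or.inr (Finset.mem_filter.2 ⟨hi.1, his⟩)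
        · exact Or.inl (Finset.mem_filter.2 ⟨Finset.mem_filter.2 ⟨hi.1, his⟩, hi.2⟩)
      · rw [Finset.disjoint_left]
        intro i hi hi'
        exact (Finset.mem_filter.1 (Finset.mem_filter.1 hi).1).2 (Finset.mem_filter.1 hi').2
    have h3 : 2 * n ≤ 2 * m * (A u).card + 2 * m * dcard n s := by
      calc 2 * n ≤ 2 * (m * dcard n (ev f u)) := by omega
        _ ≤ 2 * (m * ((A u).card + dcard n s)) := by gcongr
        _ = _ := by ring
    omega
  have hIpos : 0 < I.card := by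
    obtain ⟨u, hu⟩ := hU1
    have h1 := hA u hu
    have h2 : (A u).card ≤ I.card := Finset.card_le_card (Finset.filter_subset _ _)
    by_contra h3
    have h4 : (A u).card = 0 := by omega
    rw [h4] at h1
    omega
  have hIn : I.card ≤ n := by
    have := Finset.card_le_card (Finset.filter_subset (fun i => ¬ s.unpair.1.testBit i = true) (Finset.range n))
    rwa [Finset.card_range] at this
  let c : ℕ → ℕ := fun i => (U.filter fun u => (ev f u).unpair.1.testBit i = true).card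
  have hdc : ∑ i ∈ I, c i = ∑ u ∈ U, (A u).card := by
    simp only [c, A, Finset.card_filter]
    exact Finset.sum_comm
  have hex : ∃ i ∈ I, U.card ≤ 2 * m * c i := by
    by_contra hcon
    push Not at hcon
    have h1 : ∑ i ∈ I, 2 * m * c i < ∑ i ∈ I, U.card :=
      Finset.sum_lt_sum_of_nonempty (Finset.card_pos.1 hIpos) hcon
    rw [← Finset.mul_sum, hdc, Finset.sum_const, smul_eq_mul, Finset.mul_sum] at h1
    have h2 : ∑ u ∈ U, n ≤ ∑ u ∈ U, 2 * m * (A u).card := Finset.sum_le_sum hA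
    rw [Finset.sum_const, smul_eq_mul] at h2
    have h3 : I.card * U.card ≤ U.card * n := by
      rw [mul_comm]; gcongr
    omega
  obtain ⟨i, hiI, hi⟩ := hex
  have hin : i < n := Finset.mem_range.1 (Finset.mem_filter.1 hiI).1
  have his : ¬ s.unpair.1.testBit i = true := (Finset.mem_filter.1 hiI).2
  let V : Bool → Finset ℕ := fun b => U.filter fun u => (ev f u).unpair.1.testBit i = true ∧ (ev f u).unpair.2.testBit i ≠ b
  have hV : c i ≤ (V true).card + (V false).card := by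
    rw [← Finset.card_union_of_disjoint]
    · apply Finset.card_le_card
      intro u hu
      rw [Finset.mem_filter] at hu
      rw [Finset.mem_union]
      cases hb : (ev f u).unpair.2.testBit i
      · exact Or.inl (Finset.mem_filter.2 ⟨hu.1, hu.2, by simp [hb]⟩)
      · exact Or.inr (Finset.mem_filter.2 ⟨hu.1, hu.2, by simp [hb]⟩)
    · rw [Finset.disjoint_left]
      intro u h1 h2
      have h3 := (Finset.mem_filter.1 h1).2.2
      have h4 := (Finset.mem_filter.1 h2).2.2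
      cases hb : (ev f u).unpair.2.testBit i
      · exact h4 hb
      · exact h3 hb
  have hb : ∃ b, U.card ≤ 4 * m * (V b).card := by
    rcases Nat.le_total (V true).card (V false).card with h | h
    · refine ⟨false, hi.trans ?_⟩
      calc 2 * m * c i ≤ 2 * m * (2 * (V false).card) := by gcongr; omega
        _ = _ := by ring
    · refine ⟨true, hi.trans ?_⟩
      calc 2 * m * c i ≤ 2 * m * (2 * (V true).card) := by gcongr; omega
        _ = _ := by ring
  obtain ⟨b, hb⟩ := hb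
  set t : ℕ := Nat.pair (setb s.unpair.1 i true) (setb s.unpair.2 i b) with ht
  have ht1 : t.unpair.1 = setb s.unpair.1 i true := by rw [ht, Nat.unpair_pair]
  have ht2 : t.unpair.2 = setb s.unpair.2 i b := by rw [ht, Nat.unpair_pair]
  have hext : extd n s t := by
    intro j hj hjs
    have hji : j ≠ i := by rintro rfl; exact his hjs
    rw [ht1, ht2, testBit_setb, testBit_setb, if_neg hji, if_neg hji]
    exact ⟨hjs, rfl⟩
  refine ⟨t, hext, ?_, ?_⟩
  · unfold dcard bcard
    have : ((Finset.range n).filter fun j => t.unpair.1.testBit j = true) ⊆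
        insert i ((Finset.range n).filter fun j => s.unpair.1.testBit j = true) := by
      intro j hj
      rw [Finset.mem_filter, ht1, testBit_setb] at hj
      rw [Finset.mem_insert, Finset.mem_filter]
      by_cases hji : j = i
      · exact Or.inl hji
      · rw [if_neg hji] at hj
        exact Or.inr hj
    exact (Finset.card_le_card this).trans (Finset.card_insert_le _ _)
  · have hsub : ((Finset.range K).filter fun u => compat n (ev f u) t) ⊆ U \ V b := by
      intro u hu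
      rw [Finset.mem_filter] at hu
      have hcs : compat n (ev f u) s := by
        intro j hj h1 h2
        obtain ⟨h3, h4⟩ := hext j hj h2
        rw [h4]
        exact hu.2 j hj h1 h3
      rw [Finset.mem_sdiff]
      refine ⟨Finset.mem_filter.2 ⟨hu.1, hcs⟩, fun hV => ?_⟩
      obtain ⟨h5, h6⟩ := (Finset.mem_filter.1 hV).2
      have h7 := hu.2 i hin h5 (by rw [ht1, testBit_setb, if_pos rfl])
      rw [ht2, testBit_setb, if_pos rfl] at h7
      exact h6 h7
    have h8 : cntc n K f t ≤ U.card - (V b).card := by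
      unfold cntc
      refine (Finset.card_le_card hsub).trans ?_
      rw [Finset.card_sdiff_of_subset (Finset.filter_subset _ _)]
    have h9 : (V b).card ≤ U.card := Finset.card_le_card (Finset.filter_subset _ _)
    rw [hUc]
    have h10 : cntc n K f t + (V b).card ≤ U.card := by omega
    have h11 : 4 * m * cntc n K f t + 4 * m * (V b).card ≤ 4 * m * U.card := by
      rw [← mul_add]; gcongr
    rw [Nat.sub_mul, one_mul]
    omega

theorem Extd_coe {n s t : ℕ → ℕ} : Extd (n : H) (s : H) (t : H) ↔ Ev fun i => extd (n i) (s i) (t i) := by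
  unfold Extd extd
  simp only [H.all, ap_coe, mem_coe, lt_coe, ← ev_and, ← ev_iff, ← ev_imp]
  refine (ev_all (P := fun k i => i < n k → (s k).unpair.1.testBit i = true →
    ((t k).unpair.1.testBit i = true ∧ ((s k).unpair.2.testBit i = true ↔
      (t k).unpair.2.testBit i = true)))).symm.trans ?_
  constructor <;> intro h <;> refine h.mp ?_
  · intro k hk i hi h1
    obtain ⟨h2, h3⟩ := hk i hi h1
    refine ⟨h2, ?_⟩
    revert h3
    cases (s k).unpair.2.testBit i <;> cases (t k).unpair.2.testBit i <;> simp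
  · intro k hk i hi h1
    obtain ⟨h2, h3⟩ := hk i hi h1
    exact ⟨h2, by rw [h3]⟩

theorem Extd_refl (n s : H) : Extd n s s := fun _ _ h => ⟨h, Iff.rfl⟩

theorem Extd_trans {n s t u : H} (h1 : Extd n s t) (h2 : Extd n t u) : Extd n s u := by
  intro i hi h
  obtain ⟨h3, h4⟩ := h1 i hi h
  obtain ⟨h5, h6⟩ := h2 i hi h3
  exact ⟨h5, h4.trans h6⟩

/-- one step -/
theorem greedy_step (m : ℕ) (n K f s : H) (hbig : ∀ k : ℕ, st k < n)
    (hs : ∃ k : ℕ, ap2 dcard n s ≤ st k)
    (hf : ∀ u < K, n ≤ st m * ap2 dcard n (ap2 ev f u)) :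
    Extd n s (ap4 (greedy m) n K f s) ∧
    (∃ k : ℕ, ap2 dcard n (ap4 (greedy m) n K f s) ≤ st k) ∧
    st (4 * m) * ap4 cntc n K f (ap4 (greedy m) n K f s) ≤ st (4 * m - 1) * ap4 cntc n K f s := by
  obtain ⟨n, rfl⟩ := n.rep
  obtain ⟨K, rfl⟩ := K.rep
  obtain ⟨f, rfl⟩ := f.rep
  obtain ⟨s, rfl⟩ := s.rep
  obtain ⟨k, hk⟩ := hs
  have hb : ∀ k : ℕ, Ev fun i => k < n i := by
    intro k
    have := hbig k
    rwa [st_coe, lt_coe] at this
  simp only [ap2_coe, st_coe, le_coe] at hk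
  simp only [H.all, ap2_coe, st_coe, lt_coe, le_coe, mul_coe, ← ev_imp] at hf
  replace hf := (ev_all (P := fun k u => u < K k → n k ≤ m * dcard (n k) (ev (f k) u))).2 hf
  have key : Ev fun i => extd (n i) (s i) (greedy m (n i) (K i) (f i) (s i)) ∧
      dcard (n i) (greedy m (n i) (K i) (f i) (s i)) ≤ dcard (n i) (s i) + 1 ∧
      4 * m * cntc (n i) (K i) (f i) (greedy m (n i) (K i) (f i) (s i)) ≤
        (4 * m - 1) * cntc (n i) (K i) (f i) (s i) := by
    refine (((hk.and hf).and (hb 0)).and (hb (2 * m * k))).mp ?_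
    rintro i ⟨⟨⟨h1, h2⟩, h3⟩, h4⟩
    have h5 : 2 * m * dcard (n i) (s i) ≤ n i := by
      refine le_trans ?_ h4.le
      gcongr
    exact mu_spec (greedy_nat m (n i) (K i) (f i) (s i) h3 h5 h2)
  refine ⟨?_, ⟨k + 1, ?_⟩, ?_⟩
  · rw [ap4_coe, Extd_coe]
    exact key.mp fun i hi => hi.1
  · rw [ap4_coe, ap2_coe, st_coe, le_coe]
    refine (key.and hk).mp fun i hi => ?_
    have := hi.1.2.1
    have := hi.2
    omega
  · rw [ap4_coe, ap4_coe, ap4_coe, st_coe, st_coe, mul_coe, mul_coe, le_coe]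
    exact key.mp fun i hi => hi.2.2

theorem cntc_le (n K f s : H) : ap4 cntc n K f s ≤ K := by
  obtain ⟨n, rfl⟩ := n.rep
  obtain ⟨K, rfl⟩ := K.rep
  obtain ⟨f, rfl⟩ := f.rep
  obtain ⟨s, rfl⟩ := s.rep
  rw [ap4_coe, le_coe]
  refine ev_of_forall fun i => ?_
  unfold cntc
  refine (Finset.card_le_card (Finset.filter_subset _ _)).trans ?_
  rw [Finset.card_range]

theorem pow_choice (m m' : ℕ) (hm : 0 < m) : ∃ r : ℕ, m' * (4 * m - 1) ^ r ≤ (4 * m) ^ r := by
  have h1 : (1 : ℝ) < (4 * m : ℝ) / (4 * m - 1) := by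
    have : (1 : ℝ) ≤ m := by exact_mod_cast hm
    rw [lt_div_iff₀ (by linarith)]
    linarith
  obtain ⟨r, hr⟩ := pow_unbounded_of_one_lt (m' : ℝ) h1
  refine ⟨r, ?_⟩
  have hmr : (1 : ℝ) ≤ m := by exact_mod_cast hm
  rw [div_pow, lt_div_iff₀ (pow_pos (by linarith) _)] at hr
  have h2 : ((4 * m - 1 : ℕ) : ℝ) = 4 * m - 1 := by
    rw [Nat.cast_sub (by omega)]; push_cast; ring
  have h3 : ((m' * (4 * m - 1) ^ r : ℕ) : ℝ) ≤ (((4 * m) ^ r : ℕ) : ℝ) := by
    push_cast [h2]
    exact hr.le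
  exact_mod_cast h3

theorem big_step (M0 : Set H) (n : H) (hbig : ∀ k : ℕ, st k < n)
    (m m' : ℕ) (K f : H) (hg : ∀ s ∈ M0, ap4 (greedy m) n K f s ∈ M0)
    (s : H) (hsM : s ∈ M0) (hs : ∃ k : ℕ, ap2 dcard n s ≤ st k) :
    ∃ t ∈ M0, Extd n s t ∧ (∃ k : ℕ, ap2 dcard n t ≤ st k) ∧
      (st 0 < K → (∀ u < K, n ≤ st m * ap2 dcard n (ap2 ev f u)) →
        st m' * ap4 cntc n K f t ≤ K) := by
  by_cases hH : st 0 < K ∧ (∀ u < K, n ≤ st m * ap2 dcard n (ap2 ev f u))
  swap
  · exact ⟨s, hsM, Extd_refl n s, hs, fun h1 h2 => absurd ⟨h1, h2⟩ hH⟩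
  obtain ⟨hK, hf⟩ := hH
  have hm : 0 < m := by
    rcases Nat.eq_zero_or_pos m with rfl | h
    · exfalso
      have h1 := hf (st 0) hK
      obtain ⟨n, rfl⟩ := n.rep
      obtain ⟨f, rfl⟩ := f.rep
      simp only [st_coe, ap2_coe, mul_coe, le_coe] at h1
      have h2 := hbig 0
      rw [st_coe, lt_coe] at h2
      have h3 : Ev fun _ => False := (h1.and h2).mp fun i hi => by
        have := hi.1; have := hi.2; simp at *; omega
      exact ev_const.1 h3
    · exact h
  obtain ⟨r, hr⟩ := pow_choice m m' hm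
  have hit : ∀ r : ℕ, ∃ t ∈ M0, Extd n s t ∧ (∃ k : ℕ, ap2 dcard n t ≤ st k) ∧
      st ((4 * m) ^ r) * ap4 cntc n K f t ≤ st ((4 * m - 1) ^ r) * ap4 cntc n K f s := by
    intro r
    induction r with
    | zero =>
      refine ⟨s, hsM, Extd_refl n s, hs, ?_⟩
      simp
    | succ r ih =>
      obtain ⟨t, htM, ht1, ht2, ht3⟩ := ih
      obtain ⟨h1, h2, h3⟩ := greedy_step m n K f t hbig ht2 hf
      refine ⟨_, hg t htM, Extd_trans ht1 h1, h2, ?_⟩
      generalize ap4 cntc n K f (ap4 (greedy m) n K f t) = a at *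
      generalize ap4 cntc n K f t = b at *
      generalize ap4 cntc n K f s = c at *
      obtain ⟨a, rfl⟩ := a.rep
      obtain ⟨b, rfl⟩ := b.rep
      obtain ⟨c, rfl⟩ := c.rep
      simp only [st_coe, mul_coe, le_coe] at *
      refine (h3.and ht3).mp ?_
      rintro i ⟨h4, h5⟩
      calc (4 * m) ^ (r + 1) * a i = (4 * m) ^ r * (4 * m * a i) := by ring
        _ ≤ (4 * m) ^ r * ((4 * m - 1) * b i) := by gcongr
        _ = (4 * m - 1) * ((4 * m) ^ r * b i) := by ring
        _ ≤ (4 * m - 1) * ((4 * m - 1) ^ r * c i) := by gcongr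
        _ = (4 * m - 1) ^ (r + 1) * c i := by ring
  obtain ⟨t, htM, ht1, ht2, ht3⟩ := hit r
  refine ⟨t, htM, ht1, ht2, fun _ _ => ?_⟩
  have h4 := cntc_le n K f s
  generalize ap4 cntc n K f t = a at *
  generalize ap4 cntc n K f s = c at *
  obtain ⟨a, rfl⟩ := a.rep
  obtain ⟨c, rfl⟩ := c.rep
  obtain ⟨K, rfl⟩ := K.rep
  rw [st_coe, mul_coe, st_coe, mul_coe, le_coe] at ht3
  rw [le_coe] at h4
  rw [st_coe, mul_coe, le_coe]
  refine (ht3.and h4).mp ?_
  rintro i ⟨h5, h6⟩
  have h7 : 0 < (4 * m - 1) ^ r := pow_pos (by omega) _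
  refine Nat.le_of_mul_le_mul_left ?_ h7
  calc (4 * m - 1) ^ r * (m' * a i) = (m' * (4 * m - 1) ^ r) * a i := by ring
    _ ≤ (4 * m) ^ r * a i := by gcongr
    _ ≤ (4 * m - 1) ^ r * c i := h5
    _ ≤ (4 * m - 1) ^ r * K i := by gcongr

theorem dcard_zero (n : H) : ap2 dcard n (st 0) ≤ st 0 := by
  obtain ⟨n, rfl⟩ := n.rep
  rw [st_coe, ap2_coe, le_coe]
  refine ev_of_forall fun i => ?_
  simp [dcard, bcard]

/-- TARGET -/
theorem bn_init (M0 : Set H) (hc : M0.Countable) (n : H) (hn : n ∈ M0) (hbig : ∀ k : ℕ, st k < n)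
    (hst : ∀ k : ℕ, st k ∈ M0)
    (hg : ∀ m : ℕ, ∀ K ∈ M0, ∀ f ∈ M0, ∀ s ∈ M0, ap4 (greedy m) n K f s ∈ M0) :
    ∃ ρ : ℕ → H, (∀ j, ρ j ∈ M0) ∧ (∀ j, Extd n (ρ j) (ρ (j + 1))) ∧
      (∀ j, ∃ k : ℕ, ap2 dcard n (ρ j) ≤ st k) ∧ BN n M0 M0 ρ := by
  classical
  have : Countable M0 := hc.to_subtype
  have : Nonempty M0 := ⟨⟨st 0, hst 0⟩⟩
  obtain ⟨e, he⟩ := exists_surjective_nat (M0 × M0 × ℕ × ℕ)
  let S := {s : H // s ∈ M0 ∧ ∃ k : ℕ, ap2 dcard n s ≤ st k}
  have hstep : ∀ (q : M0 × M0 × ℕ × ℕ) (s : S), ∃ t : S, Extd n s.1 t.1 ∧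
      (st 0 < q.1.1 → (∀ u < q.1.1, n ≤ st q.2.2.1 * ap2 dcard n (ap2 ev q.2.1.1 u)) →
        st q.2.2.2 * ap4 cntc n q.1.1 q.2.1.1 t.1 ≤ q.1.1) := by
    intro q s
    obtain ⟨t, h1, h2, h3, h4⟩ := big_step M0 n hbig q.2.2.1 q.2.2.2 q.1.1 q.2.1.1
      (fun s hs => hg _ _ q.1.2 _ q.2.1.2 s hs) s.1 s.2.1 s.2.2
    exact ⟨⟨t, h1, h3⟩, h2, h4⟩
  choose nxt hnxt1 hnxt2 using hstep
  let ρ : ℕ → S := fun j => Nat.rec ⟨st 0, hst 0, 0, dcard_zero n⟩ (fun i s => nxt (e i) s) j
  refine ⟨fun j => (ρ j).1, fun j => (ρ j).2.1, fun j => hnxt1 (e j) (ρ j), fun j => (ρ j).2.2, ?_⟩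
  intro K hK f hf m m' hK0 hH
  obtain ⟨i, hi⟩ := he (⟨K, hK⟩, ⟨f, hf⟩, m, m')
  refine ⟨i + 1, ?_⟩
  have h := hnxt2 (e i) (ρ i)
  rw [hi] at h
  have h' := h hK0 hH
  have : (ρ (i + 1)) = nxt (⟨K, hK⟩, ⟨f, hf⟩, m, m') (ρ i) := by
    change nxt (e i) (ρ i) = _
    rw [hi]
  change st m' * ap4 cntc n K f (ρ (i + 1)).1 ≤ K
  rw [this]
  exact h'


end Pool.Agent.Helper317.CADS
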