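import Pool.Agent.Helper317.CADS.Base

/-!
Preservation of the density condition.
-/

namespace Pool.Agent.Helper317.CADS

open Function Filter

/-- flattening: `g` codes `n` functions, each coding `K` assignments; bad ones are replaced by the
total zero assignment -/
noncomputable def flat (m : ℕ) (n K g : ℕ) : ℕ :=
  lamc (fun w => if (∀ u < K, n ≤ m * dcard n (ev (ev g (w / K)) u)) then ev (ev g (w / K)) (w % K)
    else Nat.pair (2 ^ n - 1) 0) (n * K)


theorem bcard_full (n : ℕ) : bcard n (2 ^ n - 1) = n := by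
  unfold bcard
  rw [Finset.filter_true_of_mem]
  · exact Finset.card_range n
  · intro i hi
    rw [Nat.testBit_two_pow_sub_one]
    exact decide_eq_true (Finset.mem_range.1 hi)

theorem bn_A (m n K g w : ℕ) (hm : 1 ≤ m) (hw : w < n * K) :
    n ≤ m * dcard n (ev (flat m n K g) w) := by
  unfold flat
  rw [ev_lamc hw]
  have hK : 0 < K := by
    rcases Nat.eq_zero_or_pos K with h | h
    · rw [h, Nat.mul_zero] at hw; exact absurd hw (Nat.not_lt_zero _)
    · exact h
  split_ifs with h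
  · exact h _ (Nat.mod_lt _ hK)
  · unfold dcard
    rw [Nat.unpair_pair]
    simp only
    rw [bcard_full]
    exact Nat.le_mul_of_pos_left n hm

theorem bn_B (m m' m'' n K g t : ℕ) (hK : 0 < K)
    (h : (m' * m'') * cntc n (n * K) (flat m n K g) t ≤ n * K) :
    ∃ z, m'' * bcard n z ≤ n ∧ ∀ c < n, ¬ (z.testBit c = true) →
      (∀ u < K, n ≤ m * dcard n (ev (ev g c) u)) → m' * cntc n K (ev g c) t ≤ K := by
  classical
  let Pr : ℕ → Prop := fun v => (∀ u < K, n ≤ m * dcard n (ev (ev g v) u)) ∧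
    K < m' * cntc n K (ev g v) t
  refine ⟨cpc Pr n, ?_, ?_⟩
  · set Z : Finset ℕ := (Finset.range n).filter fun i => (cpc Pr n).testBit i = true with hZ
    have hb : bcard n (cpc Pr n) = Z.card := rfl
    have hZm : ∀ v ∈ Z, v < n ∧ Pr v := by
      intro v hv
      rw [hZ, Finset.mem_filter] at hv
      exact testBit_cpc.1 hv.2
    -- counting
    have h1 : ∑ v ∈ Z, cntc n K (ev g v) t ≤ cntc n (n * K) (flat m n K g) t := by
      unfold cntc
      rw [← Finset.card_sigma]
      apply Finset.card_le_card_of_injOn (fun p : (Σ _ : ℕ, ℕ) => p.1 * K + p.2)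
      · rintro ⟨v, u⟩ hp
        have hp' := Finset.mem_sigma.1 (Finset.mem_coe.1 hp)
        obtain ⟨hv, hu⟩ := hp'
        simp only at hv hu
        rw [Finset.mem_filter, Finset.mem_range] at hu
        obtain ⟨hvn, hPr⟩ := hZm v hv
        have hlt : v * K + u < n * K := by
          calc v * K + u < v * K + K := by omega
            _ = (v + 1) * K := by ring
            _ ≤ n * K := Nat.mul_le_mul_right K hvn
        rw [Finset.mem_coe, Finset.mem_filter, Finset.mem_range]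
        refine ⟨hlt, ?_⟩
        have hdiv : (v * K + u) / K = v := by
          rw [Nat.add_comm, Nat.add_mul_div_right _ _ hK, Nat.div_eq_of_lt hu.1, Nat.zero_add]
        have hmod : (v * K + u) % K = u := by
          rw [Nat.add_comm, Nat.add_mul_mod_self_right, Nat.mod_eq_of_lt hu.1]
        have hev : ev (flat m n K g) (v * K + u) = ev (ev g v) u := by
          unfold flat
          rw [ev_lamc hlt, hdiv, hmod, if_pos hPr.1]
        simp only
        rw [hev]
        exact hu.2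
      · rintro ⟨v, u⟩ hp ⟨v', u'⟩ hp' heq
        have hu := (Finset.mem_sigma.1 (Finset.mem_coe.1 hp)).2
        have hu' := (Finset.mem_sigma.1 (Finset.mem_coe.1 hp')).2
        simp only [Finset.mem_filter, Finset.mem_range] at hu hu'
        simp only at heq
        have hv : v = v' := by
          have e1 : (v * K + u) / K = v := by
            rw [Nat.add_comm, Nat.add_mul_div_right _ _ hK, Nat.div_eq_of_lt hu.1, Nat.zero_add]
          have e2 : (v' * K + u') / K = v' := by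
            rw [Nat.add_comm, Nat.add_mul_div_right _ _ hK, Nat.div_eq_of_lt hu'.1, Nat.zero_add]
          rw [← e1, ← e2, heq]
        subst hv
        have : u = u' := by omega
        subst this
        rfl
    have h2 : Z.card * K ≤ m' * ∑ v ∈ Z, cntc n K (ev g v) t := by
      rw [Finset.mul_sum, ← smul_eq_mul, ← Finset.sum_const]
      exact Finset.sum_le_sum fun v hv => (hZm v hv).2.2.le
    rw [hb]
    have h3 : (m'' * Z.card) * K ≤ n * K := by
      calc (m'' * Z.card) * K = m'' * (Z.card * K) := by ring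
        _ ≤ m'' * (m' * ∑ v ∈ Z, cntc n K (ev g v) t) := Nat.mul_le_mul_left _ h2
        _ ≤ m'' * (m' * cntc n (n * K) (flat m n K g) t) :=
            Nat.mul_le_mul_left _ (Nat.mul_le_mul_left _ h1)
        _ = (m' * m'') * cntc n (n * K) (flat m n K g) t := by ring
        _ ≤ n * K := h
    exact Nat.le_of_mul_le_mul_right h3 hK
  · intro c hc hcz hgood
    by_contra hcon
    push Not at hcon
    exact hcz (testBit_cpc.2 ⟨hc, hgood, hcon⟩)

theorem bn_A_H (m : ℕ) (hm : 1 ≤ m) (n K g u : H) (hu : u < n * K) :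
    n ≤ st m * ap2 dcard n (ap2 ev (ap3 (flat m) n K g) u) := by
  obtain ⟨n, rfl⟩ := n.rep
  obtain ⟨K, rfl⟩ := K.rep
  obtain ⟨g, rfl⟩ := g.rep
  obtain ⟨u, rfl⟩ := u.rep
  simp only [ap2_coe, ap3_coe, st_coe, mul_coe, lt_coe, le_coe] at hu ⊢
  exact hu.mp fun i hi => bn_A m _ _ _ _ hm hi

theorem bn_B_H (m m' m'' : ℕ) (n K g t : H) (hK : st 0 < K)
    (h : st (m' * m'') * ap4 cntc n (n * K) (ap3 (flat m) n K g) t ≤ n * K) :
    ∃ z : H, st m'' * ap2 bcard n z ≤ n ∧ ∀ c < n, ¬ mem c z →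
      (∀ u < K, n ≤ st m * ap2 dcard n (ap2 ev (ap2 ev g c) u)) →
        st m' * ap4 cntc n K (ap2 ev g c) t ≤ K := by
  obtain ⟨n, rfl⟩ := n.rep
  obtain ⟨K, rfl⟩ := K.rep
  obtain ⟨g, rfl⟩ := g.rep
  obtain ⟨t, rfl⟩ := t.rep
  simp only [H.all, H.ex, ap2_coe, ap3_coe, ap4_coe, st_coe, mul_coe, lt_coe, le_coe, mem_coe]
    at hK h ⊢
  have key := (hK.and h).mp fun i hi => bn_B m m' m'' _ _ _ _ hi.1 hi.2
  simp only [ev_ex, ev_and, ev_all, ev_imp, ev_const] at key
  exact key

theorem bn_pos_H (n K : H) (hn : st 0 < n) (hK : st 0 < K) : st 0 < n * K := by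
  obtain ⟨n, rfl⟩ := n.rep
  obtain ⟨K, rfl⟩ := K.rep
  simp only [st_coe, mul_coe, lt_coe] at hn hK ⊢
  exact (hn.and hK).mp fun i hi => Nat.mul_pos hi.1 hi.2

theorem bn_m0_H (n K X : H) (hn : st 0 < n) (h : n ≤ st 0 * X) : False := by
  obtain ⟨n, rfl⟩ := n.rep
  obtain ⟨X, rfl⟩ := X.rep
  simp only [st_coe, mul_coe, lt_coe, le_coe] at hn h
  have h1 : Ev fun _ => False := (hn.and h).mp fun i hi => by
    have h2 := hi.1
    have h3 := hi.2
    rw [Nat.zero_mul] at h3
    omega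
  exact ev_const.1 h1

theorem bn_z0_H (n : H) (m'' : ℕ) : st m'' * ap2 bcard n (st 0) ≤ n := by
  obtain ⟨n, rfl⟩ := n.rep
  simp only [ap2_coe, st_coe, mul_coe, le_coe]
  apply ev_of_forall
  intro i
  have : bcard (n i) 0 = 0 := by
    unfold bcard
    simp
  rw [this, Nat.mul_zero]
  exact Nat.zero_le _

/-- TARGET -/
theorem bn_step (n : H) (hn : ∀ k : ℕ, st k < n) (M0 M : Set H) (ρ : ℕ → H) (hBN : BN n M0 M ρ)
    (hnM : n ∈ M0) (hmul : ∀ x ∈ M0, ∀ y ∈ M0, x * y ∈ M0)
    (hflat : ∀ m : ℕ, ∀ K ∈ M0, ∀ g ∈ M, ap3 (flat m) n K g ∈ M)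
    (g : H) (hg : g ∈ M) (K : H) (hK : K ∈ M0) (hK0 : st 0 < K) (m m' m'' : ℕ) :
    ∃ j, ∃ z : H, st m'' * ap2 bcard n z ≤ n ∧ ∀ c < n, ¬ mem c z →
      (∀ u < K, n ≤ st m * ap2 dcard n (ap2 ev (ap2 ev g c) u)) →
        st m' * ap4 cntc n K (ap2 ev g c) (ρ j) ≤ K := by
  rcases Nat.eq_zero_or_pos m with hm | hm
  · subst hm
    refine ⟨0, st 0, bn_z0_H n m'', ?_⟩
    intro c _ _ hgood
    exact absurd (hgood (st 0) hK0) (fun h => bn_m0_H n K _ (hn 0) h)
  · obtain ⟨j, hj⟩ := hBN (n * K) (hmul n hnM K hK) (ap3 (flat m) n K g) (hflat m K hK g hg) m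
      (m' * m'') (bn_pos_H n K (hn 0) hK0) (fun u hu => bn_A_H m hm n K g u hu)
    exact ⟨j, bn_B_H m m' m'' n K g (ρ j) hK0 hj⟩


end Pool.Agent.Helper317.CADS
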