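import Pool.Agent.Helper317.CADS.Hyp

/-!
Coding on the natural numbers, segments, the class of relations.
-/

namespace Pool.Agent.Helper317.CADS

open Function Filter

/-- value of the finite function coded by `f` -/
def ev (f i : ℕ) : ℕ := (Denumerable.ofNat (List ℕ) f).getD i 0

/-- code of the finite function `i ↦ g i`, `i < n` -/
def lamc (g : ℕ → ℕ) (n : ℕ) : ℕ := Encodable.encode ((List.range n).map g)

theorem ev_lamc {g : ℕ → ℕ} {n i : ℕ} (h : i < n) : ev (lamc g n) i = g i := by
  unfold ev lamc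
  rw [Denumerable.ofNat_encode]
  simp [List.getD_eq_getElem?_getD, h]

/-- code of the finite set of all `i < n` with `P i` -/
noncomputable def cpc (P : ℕ → Prop) : ℕ → ℕ
  | 0 => 0
  | n + 1 => by classical exact if P n then cpc P n + 2 ^ n else cpc P n

theorem cpc_lt (P : ℕ → Prop) (n : ℕ) : cpc P n < 2 ^ n := by
  classical
  induction n with
  | zero => simp [cpc]
  | succ n ih =>
    unfold cpc
    rw [pow_succ]
    split_ifs <;> omega

theorem testBit_cpc {P : ℕ → Prop} {n i : ℕ} : (cpc P n).testBit i = true ↔ i < n ∧ P i := by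
  classical
  induction n with
  | zero => simp [cpc]
  | succ n ih =>
    unfold cpc
    split_ifs with h
    · rw [add_comm]
      by_cases hi : i = n
      · subst hi
        rw [Nat.testBit_two_pow_add_eq, Nat.testBit_eq_false_of_lt (cpc_lt P i)]
        simp [h]
      · rcases Nat.lt_or_gt_of_ne hi with hlt | hgt
        · rw [Nat.testBit_two_pow_add_gt hlt, ih]
          constructor
          · rintro ⟨_, h2⟩; exact ⟨by omega, h2⟩
          · rintro ⟨_, h2⟩; exact ⟨by omega, h2⟩
        · constructor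
          · intro h1
            exfalso
            have h2 : 2 ^ n + cpc P n < 2 ^ i := by
              have h3 := cpc_lt P n
              have h4 : 2 ^ (n + 1) ≤ 2 ^ i := Nat.pow_le_pow_right (by norm_num) hgt
              rw [pow_succ] at h4
              omega
            rw [Nat.testBit_eq_false_of_lt h2] at h1
            exact absurd h1 (by simp)
          · rintro ⟨h1, _⟩; omega
    · rw [ih]
      constructor
      · rintro ⟨h1, h2⟩; exact ⟨by omega, h2⟩
      · rintro ⟨h1, h2⟩
        refine ⟨?_, h2⟩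
        rcases Nat.lt_succ_iff_lt_or_eq.1 h1 with h3 | rfl
        · exact h3
        · exact absurd h2 h

/-- number of members of `z` below `n` -/
def bcard (n z : ℕ) : ℕ := ((Finset.range n).filter fun i => z.testBit i = true).card

/-- Partial assignments are pairs: bits of the domain, bits of the values.
Compatibility on `[0,n)`. -/
def compat (n s t : ℕ) : Prop := ∀ i < n, s.unpair.1.testBit i = true → t.unpair.1.testBit i = true →
  s.unpair.2.testBit i = t.unpair.2.testBit i

instance (n s t : ℕ) : Decidable (compat n s t) := by unfold compat; infer_instance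

/-- number of `u < K` such that the assignment `f(u)` is compatible with `t` -/
def cntc (n K f t : ℕ) : ℕ := ((Finset.range K).filter fun u => compat n (ev f u) t).card

/-- number of elements of the domain of `s` below `n` -/
def dcard (n s : ℕ) : ℕ := bcard n s.unpair.1

/-- `t` extends `s` -/
def extd (n s t : ℕ) : Prop := ∀ i < n, s.unpair.1.testBit i = true → t.unpair.1.testBit i = true ∧
  s.unpair.2.testBit i = t.unpair.2.testBit i

instance (n s t : ℕ) : Decidable (extd n s t) := by unfold extd; infer_instance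

/-- Closure of the family of functions under composition and pairing. -/
structure Fam (FF : Set (ℕ → ℕ)) : Prop where
  id : (fun x => x) ∈ FF
  const : ∀ k : ℕ, (fun _ => k) ∈ FF
  fst : (fun x : ℕ => x.unpair.1) ∈ FF
  snd : (fun x : ℕ => x.unpair.2) ∈ FF
  comp : ∀ F ∈ FF, ∀ G ∈ FF, (fun x => F (G x)) ∈ FF
  pair : ∀ F ∈ FF, ∀ G ∈ FF, (fun x => Nat.pair (F x) (G x)) ∈ FF
  add : (fun x : ℕ => x.unpair.1 + x.unpair.2) ∈ FF
  mul : (fun x : ℕ => x.unpair.1 * x.unpair.2) ∈ FF
  cut : (fun x : ℕ => x.unpair.2 % 2 ^ x.unpair.1) ∈ FF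

/-- Closed sets of numbers. -/
structure Mdl (FF : Set (ℕ → ℕ)) (M : Set H) : Prop where
  st : ∀ k : ℕ, st k ∈ M
  ap : ∀ F ∈ FF, ∀ x ∈ M, ap F x ∈ M
  pp : ∀ x ∈ M, ∀ y ∈ M, pp x y ∈ M

/-- `z` codes the part of `X` below `b` -/
def Seg (X : Set H) (b z : H) : Prop := ∀ x, mem x z ↔ x < b ∧ x ∈ X

/-- `X` is coded in `M` -/
def Cod (M X : Set H) : Prop := ∀ b ∈ M, ∃ z ∈ M, Seg X b z

/-- the basic relation: `F` accepts `y` from the part of `X` below `b` -/
def T (F : ℕ → ℕ) (X : Set H) (y b : H) : Prop := ∃ z, Seg X b z ∧ ap F (pp y (pp b z)) = st 1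

/-- bounded comprehension/collection for the relations on the cut `I` -/
def SC (FF : Set (ℕ → ℕ)) (I X : Set H) : Prop :=
  ∀ F ∈ FF, ∀ m ∈ I, ∃ s ∈ I, ∀ b ∈ I, ∀ y < m, T F X y b → ∃ c ≤ s, T F X y c

/-- a state: `M` a closed set cofinal in the cut `I`, `X` coded in `M` -/
structure Good (FF : Set (ℕ → ℕ)) (I M X : Set H) : Prop where
  mdl : Mdl FF M
  sub : ∀ x ∈ M, x ∈ I
  cof : ∀ x ∈ I, ∃ b ∈ M, x ≤ b
  down : ∀ x ∈ I, ∀ y ≤ x, y ∈ I
  xsub : ∀ x ∈ X, x ∈ I
  cod : Cod M X
  sc : SC FF I X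

/-- semi-decidable relations with parameters in `M` -/
def Sig (FF : Set (ℕ → ℕ)) (I M X : Set H) (P : H → Prop) : Prop :=
  ∃ F ∈ FF, ∃ p ∈ M, ∀ y ∈ I, (P y ↔ ∃ b ∈ I, T F X (pp p y) b)

/-- decidable sets with parameters in `M` -/
def Del (FF : Set (ℕ → ℕ)) (I M X : Set H) (A : Set H) : Prop :=
  (∀ x ∈ A, x ∈ I) ∧ Sig FF I M X (· ∈ A) ∧ Sig FF I M X (· ∉ A)

/-- join of two sets -/
noncomputable def join (X G : Set H) : Set H :=
  {x | (∃ y ∈ X, x = ap (fun y => 2 * y) y) ∨ ∃ y ∈ G, x = ap (fun y => 2 * y + 1) y}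

/-- code of the join of `x` and `z` below `b` -/
noncomputable def jn (b x z : ℕ) : ℕ :=
  cpc (fun i => if i % 2 = 0 then x.testBit (i / 2) = true else z.testBit (i / 2) = true) b

/-- many assignments with large domain are incompatible with the assignments `ρ j` -/
def BN (n : H) (M0 M : Set H) (ρ : ℕ → H) : Prop :=
  ∀ K ∈ M0, ∀ f ∈ M, ∀ m m' : ℕ, st 0 < K → (∀ u < K, n ≤ st m * ap2 dcard n (ap2 ev f u)) →
    ∃ j, st m' * ap4 cntc n K f (ρ j) ≤ K

end Pool.Agent.Helper317.CADS
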