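import Pool.Agent.Helper317.CADS.Stage
import Pool.Agent.Helper317.CADS.BInit

/-!
Definitions for the initial stage.
-/

namespace Pool.Agent.Helper317.CADS

open Function Filter

variable {FF : Set (ℕ → ℕ)} {I M X : Set H}

/-- least stages, `w` is the bound -/
noncomputable def opSc (F : ℕ → ℕ) : ℕ → ℕ := fun w =>
  (Finset.range w).sup fun y => mu fun b => F (Nat.pair y (Nat.pair b 0)) = 1

/-- `w` codes a pair `(i,x)` such that bit `i` of the next element after `x` of the set coded by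
`z` below `b` is `v` -/
def rel0 (b z w : ℕ) (v : Bool) : Prop := ∃ i ≤ w, ∃ x ≤ w, w = pr i x ∧ ∃ y < b,
  z.testBit y = true ∧ x < y ∧ (∀ y' < y, z.testBit y' = true → y' ≤ x) ∧ y.testBit i = v

/-- closure conditions for the base stage -/
structure OpsB (FF : Set (ℕ → ℕ)) : Prop where
  sc : ∀ F ∈ FF, opSc F ∈ FF
  greedy : ∀ m : ℕ, (fun w : ℕ => greedy m w.unpair.1 w.unpair.2.unpair.1
    w.unpair.2.unpair.2.unpair.1 w.unpair.2.unpair.2.unpair.2) ∈ FF
  /-- `w = ((n,r),y)` -/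
  agree : chi (fun w : ℕ => ∀ i < w.unpair.1.unpair.1,
    w.unpair.1.unpair.2.unpair.1.testBit i = true →
      w.unpair.2.testBit i = w.unpair.1.unpair.2.unpair.2.testBit i) ∈ FF
  /-- `w = (n,(v,b))` -/
  patch : (fun w : ℕ => w.unpair.2.unpair.1 % 2 ^ w.unpair.1 + 2 ^ w.unpair.1 *
    w.unpair.2.unpair.2) ∈ FF
  relT : chi (fun w : ℕ => rel0 w.unpair.2.unpair.1 w.unpair.2.unpair.2 w.unpair.1.unpair.2 true)
    ∈ FF
  relF : chi (fun w : ℕ => (¬ ∃ i ≤ w.unpair.1.unpair.2, ∃ x ≤ w.unpair.1.unpair.2,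
      w.unpair.1.unpair.2 = pr i x) ∨
    rel0 w.unpair.2.unpair.1 w.unpair.2.unpair.2 w.unpair.1.unpair.2 false) ∈ FF


end Pool.Agent.Helper317.CADS
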