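import Pool.Agent.Helper317.CADS.BaseDef

/-!
The initial stage.
-/

namespace Pool.Agent.Helper317.CADS

open Function Filter

variable {FF : Set (ℕ → ℕ)} {I M X : Set H}


/-! ### auxiliary lemmas for the initial stage -/

section baseaux

theorem b_not_mem_zero (x : H) : ¬ mem x (st 0) := by
  obtain ⟨x, rfl⟩ := x.rep
  rw [st_coe, mem_coe, ← ev_not]
  exact ev_of_forall fun n => by simp

theorem b_le_sc_nat (F : ℕ → ℕ) (w y b : ℕ) (hy : y < w) (h : F (Nat.pair y (Nat.pair b 0)) = 1) :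
    ∃ c ≤ opSc F w, F (Nat.pair y (Nat.pair c 0)) = 1 := by
  refine ⟨mu fun b => F (Nat.pair y (Nat.pair b 0)) = 1, ?_, ?_⟩
  · exact Finset.le_sup (f := fun y => mu fun b => F (Nat.pair y (Nat.pair b 0)) = 1)
      (Finset.mem_range.2 hy)
  · exact mu_spec (P := fun b => F (Nat.pair y (Nat.pair b 0)) = 1) ⟨b, h⟩

theorem b_le_sc (F : ℕ → ℕ) (w y b : H) (hy : y < w) (h : ap F (pp y (pp b (st 0))) = st 1) :
    ∃ c ≤ ap (opSc F) w, ap F (pp y (pp c (st 0))) = st 1 := by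
  obtain ⟨w, rfl⟩ := w.rep
  obtain ⟨y, rfl⟩ := y.rep
  obtain ⟨b, rfl⟩ := b.rep
  simp only [H.ex, ap_coe, pp_coe, st_coe, eq_coe, lt_coe, le_coe] at hy h ⊢
  simp only [← ev_and]
  rw [← ev_ex (P := fun n c => c ≤ opSc F (w n) ∧ F (Nat.pair (y n) (Nat.pair c 0)) = 1)]
  exact (hy.and h).mp fun n hn => by
    obtain ⟨c, h1, h2⟩ := b_le_sc_nat F (w n) (y n) (b n) hn.1 hn.2
    exact ⟨c, h1, h2⟩

/-- the acceptance function for agreement -/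
noncomputable def agreeF : ℕ → ℕ := chi (fun w : ℕ => ∀ i < w.unpair.1.unpair.1,
    w.unpair.1.unpair.2.unpair.1.testBit i = true →
      w.unpair.2.testBit i = w.unpair.1.unpair.2.unpair.2.testBit i)

theorem b_agreeF_eq : agreeF = chi (fun w : ℕ => ∀ i < w.unpair.1.unpair.1,
    w.unpair.1.unpair.2.unpair.1.testBit i = true →
      (w.unpair.2.testBit i = true ↔ w.unpair.1.unpair.2.unpair.2.testBit i = true)) := by
  unfold agreeF
  congr 1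
  funext w
  apply propext
  refine forall_congr' fun i => imp_congr_right fun _ => imp_congr_right fun _ => ?_
  exact Bool.eq_iff_iff

theorem b_agree (n r y : H) : ap agreeF (pp (pp n r) y) = st 1 ↔
    ∀ i < n, mem i (ap (fun x => x.unpair.1) r) → (mem i y ↔ mem i (ap (fun x => x.unpair.2) r)) := by
  obtain ⟨n, rfl⟩ := n.rep
  obtain ⟨r, rfl⟩ := r.rep
  obtain ⟨y, rfl⟩ := y.rep
  simp only [b_agreeF_eq, H.all, ap_coe, pp_coe, st_coe, eq_coe, lt_coe, mem_coe, chi_eq,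
    Nat.unpair_pair, ev_iff, ev_imp, ev_all]

/-- the patching function -/
def patchF : ℕ → ℕ := fun w : ℕ => w.unpair.2.unpair.1 % 2 ^ w.unpair.1 + 2 ^ w.unpair.1 *
    w.unpair.2.unpair.2

theorem b_patch_le (n v b : H) : b ≤ ap patchF (pp n (pp v b)) := by
  obtain ⟨n, rfl⟩ := n.rep
  obtain ⟨v, rfl⟩ := v.rep
  obtain ⟨b, rfl⟩ := b.rep
  simp only [patchF, ap_coe, pp_coe, le_coe, Nat.unpair_pair]
  exact ev_of_forall fun k => by
    have h1 : 1 ≤ 2 ^ (n k) := Nat.one_le_two_pow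
    have h2 : 1 * b k ≤ 2 ^ (n k) * b k := Nat.mul_le_mul_right _ h1
    omega

theorem b_patch_mem (n v b i : H) (hi : i < n) : mem i (ap patchF (pp n (pp v b))) ↔ mem i v := by
  obtain ⟨n, rfl⟩ := n.rep
  obtain ⟨v, rfl⟩ := v.rep
  obtain ⟨b, rfl⟩ := b.rep
  obtain ⟨i, rfl⟩ := i.rep
  rw [lt_coe] at hi
  simp only [patchF, ap_coe, pp_coe, mem_coe, Nat.unpair_pair, ← ev_iff]
  exact hi.mp fun k hk => by
    have : (v k % 2 ^ n k + 2 ^ n k * b k) = 2 ^ n k * b k + v k % 2 ^ n k := by ring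
    rw [this, Nat.testBit_two_pow_mul_add _ (Nat.mod_lt _ (by positivity)), if_pos hk,
      Nat.testBit_mod_two_pow]
    simp [hk]

/-- half -/
noncomputable def hlf (b : H) : H := ap (fun x => x / 2) b

theorem b_opSnd (F : ℕ → ℕ) (y b z : H) : ∃ z', (∀ x, mem x z' ↔ x < hlf b ∧
    mem (ap (fun x => 2 * x + 1) x) z) ∧
    (ap (opSnd F) (pp y (pp b z)) = st 1 ↔ ap F (pp y (pp (hlf b) z')) = st 1) := by
  obtain ⟨y, rfl⟩ := y.rep
  obtain ⟨b, rfl⟩ := b.rep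
  obtain ⟨z, rfl⟩ := z.rep
  refine ⟨((fun k => cpc (fun i => (z k).testBit (2 * i + 1) = true) (b k / 2) : ℕ → ℕ) : H), ?_, ?_⟩
  · intro x
    obtain ⟨x, rfl⟩ := x.rep
    simp only [hlf, ap_coe, mem_coe, lt_coe, ← ev_and, testBit_cpc]
  · simp only [hlf, opSnd, ap_coe, pp_coe, st_coe, eq_coe, Nat.unpair_pair]

theorem b_odd_lt {x b : H} (h : x < hlf b) : ap (fun x => 2 * x + 1) x < b := by
  obtain ⟨x, rfl⟩ := x.rep
  obtain ⟨b, rfl⟩ := b.rep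
  simp only [hlf, ap_coe, lt_coe] at h ⊢
  exact h.mp fun k hk => by omega

theorem b_odd_inj {x y : H} (h : ap (fun x => 2 * x + 1) x = ap (fun x => 2 * x + 1) y) : x = y := by
  obtain ⟨x, rfl⟩ := x.rep
  obtain ⟨y, rfl⟩ := y.rep
  simp only [ap_coe, eq_coe] at h ⊢
  exact h.mp fun k hk => by omega

theorem b_lt_half (y : H) : y < hlf (st 2 * y + st 2) := by
  obtain ⟨y, rfl⟩ := y.rep
  simp only [hlf, st_coe, mul_coe, add_coe, ap_coe, lt_coe]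
  exact ev_of_forall fun k => by omega

theorem b_odd_mem {Y : Set H} {x : H} : ap (fun x => 2 * x + 1) x ∈ join ∅ Y ↔ x ∈ Y := by
  constructor
  · rintro (⟨y, hy, _⟩ | ⟨y, hy, h⟩)
    · exact absurd hy (Set.notMem_empty _)
    · rwa [b_odd_inj h]
  · intro h
    exact Or.inr ⟨x, h, rfl⟩

theorem b_T_opSnd {Y : Set H} {F : ℕ → ℕ} {y b z : H} (hz : Seg (join ∅ Y) b z) :
    T (opSnd F) (join ∅ Y) y b ↔ T F Y y (hlf b) := by
  rw [T_iff hz]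
  obtain ⟨z', h1, h2⟩ := b_opSnd F y b z
  rw [h2]
  have h3 : Seg Y (hlf b) z' := by
    intro x
    rw [h1, hz]
    constructor
    · rintro ⟨h4, _, h5⟩; exact ⟨h4, b_odd_mem.1 h5⟩
    · rintro ⟨h4, h5⟩; exact ⟨h4, b_odd_lt h4, b_odd_mem.2 h5⟩
  rw [T_iff h3]

/-- acceptance function for positive membership -/
noncomputable def FTf : ℕ → ℕ :=
  chi fun w : ℕ => rel0 w.unpair.2.unpair.1 w.unpair.2.unpair.2 w.unpair.1.unpair.2 true

/-- acceptance function for negative membership -/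
noncomputable def FFf : ℕ → ℕ :=
  chi fun w : ℕ => (¬ ∃ i ≤ w.unpair.1.unpair.2, ∃ x ≤ w.unpair.1.unpair.2,
      w.unpair.1.unpair.2 = pr i x) ∨
    rel0 w.unpair.2.unpair.1 w.unpair.2.unpair.2 w.unpair.1.unpair.2 false

theorem b_rel0T (p w b z : H) : ap FTf (pp (pp p w) (pp b z)) = st 1 ↔
    ∃ i ≤ w, ∃ x ≤ w, w = ap2 pr i x ∧ ∃ y < b, mem y z ∧ x < y ∧
      (∀ y' < y, mem y' z → y' ≤ x) ∧ mem i y := by
  obtain ⟨p, rfl⟩ := p.rep
  obtain ⟨w, rfl⟩ := w.rep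
  obtain ⟨b, rfl⟩ := b.rep
  obtain ⟨z, rfl⟩ := z.rep
  simp only [FTf, rel0, H.all, H.ex, ap_coe, ap2_coe, pp_coe, mem_coe, st_coe, eq_coe, lt_coe,
    le_coe, chi_eq, ev_and, ev_imp, ev_all, ev_ex, Nat.unpair_pair]

theorem b_rel0F (p w b z : H) : ap FFf (pp (pp p w) (pp b z)) = st 1 ↔
    (¬ ∃ i ≤ w, ∃ x ≤ w, w = ap2 pr i x) ∨
    ∃ i ≤ w, ∃ x ≤ w, w = ap2 pr i x ∧ ∃ y < b, mem y z ∧ x < y ∧
      (∀ y' < y, mem y' z → y' ≤ x) ∧ ¬ mem i y := by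
  obtain ⟨p, rfl⟩ := p.rep
  obtain ⟨w, rfl⟩ := w.rep
  obtain ⟨b, rfl⟩ := b.rep
  obtain ⟨z, rfl⟩ := z.rep
  simp only [FFf, rel0, H.all, H.ex, ap_coe, ap2_coe, pp_coe, mem_coe, st_coe, eq_coe, lt_coe,
    le_coe, chi_eq, ev_and, ev_imp, ev_all, ev_ex, ev_or, ev_not, Nat.unpair_pair,
    ← Bool.not_eq_true, ev_const, imp_false]

theorem b_pr_inj_nat {i x i' x' : ℕ} (h : pr i x = pr i' x') : i = i' ∧ x = x' := by
  unfold pr at h
  have h1 : i + x = i' + x' := by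
    rcases Nat.lt_trichotomy (i + x) (i' + x') with h1 | h1 | h1
    · exfalso; nlinarith
    · exact h1
    · exfalso; nlinarith
  rw [h1] at h
  have h2 : i = i' := by omega
  exact ⟨h2, by omega⟩

theorem b_pr_inj {i x i' x' : H} (h : ap2 pr i x = ap2 pr i' x') : i = i' ∧ x = x' := by
  obtain ⟨i, rfl⟩ := i.rep
  obtain ⟨x, rfl⟩ := x.rep
  obtain ⟨i', rfl⟩ := i'.rep
  obtain ⟨x', rfl⟩ := x'.rep
  simp only [ap2_coe, eq_coe, ← ev_and] at h ⊢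
  exact h.mp fun k hk => b_pr_inj_nat hk

theorem b_le_pr (i x : H) : i ≤ ap2 pr i x ∧ x ≤ ap2 pr i x := by
  obtain ⟨i, rfl⟩ := i.rep
  obtain ⟨x, rfl⟩ := x.rep
  simp only [ap2_coe, le_coe, ← ev_and]
  exact ev_of_forall fun k => by
    unfold pr
    constructor
    · omega
    · nlinarith

theorem b_pr_mono {i x i' x' : H} (hi : i ≤ i') (hx : x ≤ x') : ap2 pr i x ≤ ap2 pr i' x' := by
  obtain ⟨i, rfl⟩ := i.rep
  obtain ⟨x, rfl⟩ := x.rep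
  obtain ⟨i', rfl⟩ := i'.rep
  obtain ⟨x', rfl⟩ := x'.rep
  simp only [ap2_coe, le_coe] at hi hx ⊢
  exact (hi.and hx).mp fun k hk => by
    unfold pr
    obtain ⟨h1, h2⟩ := hk
    have h3 : i k + x k ≤ i' k + x' k := by omega
    have := Nat.mul_le_mul h3 h3
    omega

theorem b_next {x y1 z : H} (h1 : mem y1 z) (h2 : x < y1) :
    ∃ y, mem y z ∧ x < y ∧ y ≤ y1 ∧ ∀ y' < y, mem y' z → y' ≤ x := by
  obtain ⟨x, rfl⟩ := x.rep
  obtain ⟨y1, rfl⟩ := y1.rep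
  obtain ⟨z, rfl⟩ := z.rep
  simp only [H.all, H.ex, mem_coe, lt_coe, le_coe] at h1 h2 ⊢
  simp only [← ev_imp]
  have : Ev fun k => ∃ y, (z k).testBit y = true ∧ x k < y ∧ y ≤ y1 k ∧
      ∀ y', y' < y → (z k).testBit y' = true → y' ≤ x k := by
    refine (h1.and h2).mp fun k hk => ?_
    classical
    have hex : ∃ y, (z k).testBit y = true ∧ x k < y := ⟨y1 k, hk⟩
    refine ⟨Nat.find hex, (Nat.find_spec hex).1, (Nat.find_spec hex).2, Nat.find_min' hex hk, ?_⟩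
    intro y' hy' hm
    by_contra hc
    exact Nat.find_min hex hy' ⟨hm, by omega⟩
  simpa only [ev_ex, ev_and, ev_imp, ev_all] using this


theorem b_stage {Y : Set H} (F : ℕ → ℕ) (w : H) {b z : H} (hz : Seg (join ∅ Y) b z) :
    ∃ z', Seg Y (hlf b) z' ∧ (T (opSnd F) (join ∅ Y) (pp (st 0) w) b ↔
      ap F (pp (pp (st 0) w) (pp (hlf b) z')) = st 1) := by
  obtain ⟨z', h1, h2⟩ := b_opSnd F (pp (st 0) w) b z
  have h3 : Seg Y (hlf b) z' := by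
    intro x
    rw [h1, hz]
    constructor
    · rintro ⟨h4, _, h5⟩; exact ⟨h4, b_odd_mem.1 h5⟩
    · rintro ⟨h4, h5⟩; exact ⟨h4, b_odd_lt h4, b_odd_mem.2 h5⟩
  refine ⟨z', h3, ?_⟩
  rw [T_iff hz, h2]

theorem b_add (x y : H) : ap (fun x => x.unpair.1 + x.unpair.2) (pp x y) = x + y := by
  obtain ⟨x, rfl⟩ := x.rep
  obtain ⟨y, rfl⟩ := y.rep
  simp only [ap_coe, pp_coe, add_coe, Nat.unpair_pair]

theorem b_mul (x y : H) : ap (fun x => x.unpair.1 * x.unpair.2) (pp x y) = x * y := by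
  obtain ⟨x, rfl⟩ := x.rep
  obtain ⟨y, rfl⟩ := y.rep
  simp only [ap_coe, pp_coe, mul_coe, Nat.unpair_pair]

theorem b_lin_mono {x y : H} (h : x ≤ y) : st 2 * x + st 2 ≤ st 2 * y + st 2 := by
  obtain ⟨x, rfl⟩ := x.rep
  obtain ⟨y, rfl⟩ := y.rep
  simp only [st_coe, mul_coe, add_coe, le_coe] at h ⊢
  exact h.mp fun k hk => by omega

theorem b_lt_lin (x : H) : x < st 2 * x + st 2 := by
  obtain ⟨x, rfl⟩ := x.rep
  simp only [st_coe, mul_coe, add_coe, lt_coe]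
  exact ev_of_forall fun k => by omega

/-- `y` is the next element of `Y` after `x` -/
def Nx (Y : Set H) (x y : H) : Prop := y ∈ Y ∧ x < y ∧ ∀ y' ∈ Y, y' < y → y' ≤ x

theorem Nx.unique {Y : Set H} {x y y' : H} (h : Nx Y x y) (h' : Nx Y x y') : y = y' := by
  rcases lt_trichotomy y y' with h1 | h1 | h1
  · exact absurd (h'.2.2 y h.1 h1) (not_le.2 h.2.1)
  · exact h1
  · exact absurd (h.2.2 y' h'.1 h1) (not_le.2 h'.2.1)

theorem b_nx_of {Y : Set H} {b z x y : H} (hz : Seg Y b z) (hy : y < b) (hm : mem y z) (hxy : x < y)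
    (h : ∀ y' < y, mem y' z → y' ≤ x) : Nx Y x y :=
  ⟨((hz y).1 hm).2, hxy, fun y' h1 h2 => h y' h2 ((hz y').2 ⟨h2.trans hy, h1⟩)⟩

theorem b_nx_to {Y : Set H} {b z x y : H} (hz : Seg Y b z) (hy : y < b) (h : Nx Y x y) :
    mem y z ∧ x < y ∧ ∀ y' < y, mem y' z → y' ≤ x :=
  ⟨(hz y).2 ⟨hy, h.1⟩, h.2.1, fun y' h1 h2 => h.2.2 y' ((hz y').1 h2).2 h1⟩

end baseaux

/-- TARGET: the initial stage -/
theorem base (hF : OpsS FF) (hB : OpsB FF) : ∃ (I M0 X R0 : Set H) (n : H) (ρ : ℕ → H),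
    Mdl FF M0 ∧ n ∈ M0 ∧ (∀ k : ℕ, st k < n) ∧ Inv FF I n M0 ρ R0 M0 X ∧
    ∀ j, ∀ i < n, mem i (ap (fun x => x.unpair.1) (ρ j)) → ∃ b ∈ I, ∀ z ∈ I, b ≤ z →
      (ap2 pr i z ∈ R0 ↔ mem i (ap (fun x => x.unpair.2) (ρ j))) := by
  classical
  obtain ⟨N, hN⟩ : ∃ N : H, N = ((fun k => k : ℕ → ℕ) : H) := ⟨_, rfl⟩
  have fam : Fam FF := hF.ops.toFam
  obtain ⟨M0, hM0⟩ : ∃ M0 : Set H, M0 = {x | ∃ F ∈ FF, x = ap F N} := ⟨_, rfl⟩
  have hmem : ∀ x, x ∈ M0 ↔ ∃ F ∈ FF, x = ap F N := by intro x; rw [hM0]; rfl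
  have hcount : M0.Countable := by
    have : M0 = (fun F => ap F N) '' FF := by
      ext x
      rw [hmem]
      constructor
      · rintro ⟨F, hF, rfl⟩; exact ⟨F, hF, rfl⟩
      · rintro ⟨F, hF, rfl⟩; exact ⟨F, hF, rfl⟩
    rw [this]
    exact hF.cnt.image _
  have hapM : ∀ F ∈ FF, ∀ x ∈ M0, ap F x ∈ M0 := by
    intro F hFF x hx
    rw [hmem] at hx ⊢
    obtain ⟨G, hG, rfl⟩ := hx
    exact ⟨fun x => F (G x), fam.comp F hFF G hG, by rw [hN]; rfl⟩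
  have hppM : ∀ x ∈ M0, ∀ y ∈ M0, pp x y ∈ M0 := by
    intro x hx y hy
    rw [hmem] at hx hy ⊢
    obtain ⟨F, hFF, rfl⟩ := hx
    obtain ⟨G, hG, rfl⟩ := hy
    exact ⟨fun x => Nat.pair (F x) (G x), fam.pair F hFF G hG, by rw [hN]; rfl⟩
  have hstM : ∀ k : ℕ, st k ∈ M0 := by
    intro k
    rw [hmem]
    exact ⟨fun _ => k, fam.const k, by rw [hN]; rfl⟩
  have hNM : N ∈ M0 := by
    rw [hmem]
    exact ⟨fun x => x, fam.id, by rw [hN]; rfl⟩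
  have hmdl : Mdl FF M0 := ⟨hstM, hapM, hppM⟩
  have hbig : ∀ k : ℕ, st k < N := by
    intro k
    rw [st_coe, hN, lt_coe]
    exact (ev_ge (k + 1)).mp fun n hn => hn
  obtain ⟨I, hI⟩ : ∃ I : Set H, I = {h | ∃ b ∈ M0, h ≤ b} := ⟨_, rfl⟩
  have hmemI : ∀ x, x ∈ I ↔ ∃ b ∈ M0, x ≤ b := by intro x; rw [hI]; rfl
  have hMI : ∀ x ∈ M0, x ∈ I := fun x hx => (hmemI x).2 ⟨x, hx, le_rfl⟩
  have hcof : ∀ x ∈ I, ∃ b ∈ M0, x ≤ b := fun x hx => (hmemI x).1 hx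
  have hdown : ∀ x ∈ I, ∀ y ≤ x, y ∈ I := by
    intro x hx y hy
    rw [hmemI] at hx ⊢
    obtain ⟨b, hb, hxb⟩ := hx
    exact ⟨b, hb, hy.trans hxb⟩
  -- the empty set
  have hseg0 : ∀ b : H, Seg (∅ : Set H) b (st 0) := by
    intro b x
    constructor
    · intro h; exact absurd h (b_not_mem_zero x)
    · rintro ⟨_, h⟩; exact absurd h (Set.notMem_empty _)
  have hcod0 : Cod M0 (∅ : Set H) := fun b _ => ⟨st 0, hstM 0, hseg0 b⟩
  have hsc0 : SC FF I (∅ : Set H) := by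
    intro F hFF m hm
    obtain ⟨m0, hm0, hmm⟩ := hcof m hm
    refine ⟨ap (opSc F) m0, hMI _ (hapM _ (hB.sc F hFF) _ hm0), ?_⟩
    intro b hb y hy hT
    rw [T_iff (hseg0 b)] at hT
    obtain ⟨c, hc1, hc2⟩ := b_le_sc F m0 y b (lt_of_lt_of_le hy hmm) hT
    exact ⟨c, hc1, (T_iff (hseg0 c)).2 hc2⟩
  have hG0 : Good FF I M0 (∅ : Set H) :=
    ⟨hmdl, hMI, hcof, hdown, fun x hx => absurd hx (Set.notMem_empty _), hcod0, hsc0⟩
  -- arithmetic closure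
  have hlin : ∀ y ∈ I, st 2 * y + st 2 ∈ I := by
    intro y hy
    obtain ⟨b, hb, hyb⟩ := hcof y hy
    refine hdown _ (hMI (st 2 * b + st 2) ?_) _ (b_lin_mono hyb)
    rw [← b_add, ← b_mul]
    exact hapM _ fam.add _ (hppM _ (hapM _ fam.mul _ (hppM _ (hstM 2) _ hb)) _ (hstM 2))
  obtain ⟨ρ, hρM, hρE, hρk, hBN⟩ := bn_init M0 hcount N hNM hbig hstM (by
    intro m K hK f hf s hs
    exact hapM _ (hB.greedy m) _ (hppM _ hNM _ (hppM _ hK _ (hppM _ hf _ hs))))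
  obtain ⟨Y, hYI, hYcod, hYsc, hYunb, hYW⟩ := lemmaA hF.cnt hF.ops hF.opsA hcount hG0
    (fun j y => ap agreeF (pp (pp N (ρ j)) y) = st 1)
    (fun j => Sig.int hF.ops hG0 hB.agree (hppM _ hNM _ (hρM j)))
    (by
      intro j y _ h
      simp only [b_agree] at h ⊢
      intro i hi hm
      obtain ⟨h1, h2⟩ := hρE j i hi hm
      rw [h2]
      exact h i hi h1)
    (by
      intro j b hb
      obtain ⟨b0, hb0, hbb⟩ := hcof b hb
      refine ⟨ap patchF (pp N (pp (ap (fun x => x.unpair.2) (ρ j)) b0)),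
        hMI _ (hapM _ hB.patch _ (hppM _ hNM _ (hppM _ (hapM _ fam.snd _ (hρM j)) _ hb0))),
        hbb.trans (b_patch_le _ _ _), ?_⟩
      simp only [b_agree]
      intro i hi _
      rw [b_patch_mem _ _ _ _ hi])
  have hGX : Good FF I M0 (join ∅ Y) := Good.join hF.ops hG0 hYI hYcod hYsc
  -- next elements exist
  have hnext : ∀ x ∈ I, ∃ y, Nx Y x y := by
    intro x hx
    obtain ⟨y1, hy1, hxy1⟩ := hYunb _ (hlin x hx)
    have hx1 : x < y1 := lt_of_lt_of_le (b_lt_lin x) hxy1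
    obtain ⟨b, hb, hyb⟩ := hcof _ (hlin y1 (hYI y1 hy1))
    have hyb' : y1 < b := lt_of_lt_of_le (b_lt_lin y1) hyb
    obtain ⟨z, _, hz⟩ := hYcod b hb
    obtain ⟨y, h1, h2, h3, h4⟩ := b_next ((hz y1).2 ⟨hyb', hy1⟩) hx1
    exact ⟨y, b_nx_of hz (lt_of_le_of_lt h3 hyb') h1 h2 h4⟩
  have hstage : ∀ y ∈ Y, ∃ b ∈ I, y < hlf b := fun y hy =>
    ⟨_, hlin y (hYI y hy), b_lt_half y⟩
  -- description of positive and negative membership
  have hT : ∀ w ∈ I, (∃ b ∈ I, T (opSnd FTf) (join ∅ Y) (pp (st 0) w) b) ↔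
      ∃ i ≤ w, ∃ x ≤ w, w = ap2 pr i x ∧ ∃ y, Nx Y x y ∧ mem i y := by
    intro w hw
    constructor
    · rintro ⟨b, hb, h⟩
      obtain ⟨z, hz⟩ := hGX.seg hb
      obtain ⟨z', hz', h'⟩ := b_stage FTf w hz
      rw [h', b_rel0T] at h
      obtain ⟨i, hi, x, hx, hwx, y, hy, h1, h2, h3, h4⟩ := h
      exact ⟨i, hi, x, hx, hwx, y, b_nx_of hz' hy h1 h2 h3, h4⟩
    · rintro ⟨i, hi, x, hx, hwx, y, hy, h4⟩
      obtain ⟨b, hb, hyb⟩ := hstage y hy.1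
      obtain ⟨z, hz⟩ := hGX.seg hb
      obtain ⟨z', hz', h'⟩ := b_stage FTf w hz
      refine ⟨b, hb, ?_⟩
      rw [h', b_rel0T]
      obtain ⟨h1, h2, h3⟩ := b_nx_to hz' hyb hy
      exact ⟨i, hi, x, hx, hwx, y, hyb, h1, h2, h3, h4⟩
  have hTF : ∀ w ∈ I, (∃ b ∈ I, T (opSnd FFf) (join ∅ Y) (pp (st 0) w) b) ↔
      (¬ ∃ i ≤ w, ∃ x ≤ w, w = ap2 pr i x) ∨
      ∃ i ≤ w, ∃ x ≤ w, w = ap2 pr i x ∧ ∃ y, Nx Y x y ∧ ¬ mem i y := by
    intro w hw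
    constructor
    · rintro ⟨b, hb, h⟩
      obtain ⟨z, hz⟩ := hGX.seg hb
      obtain ⟨z', hz', h'⟩ := b_stage FFf w hz
      rw [h', b_rel0F] at h
      rcases h with h | ⟨i, hi, x, hx, hwx, y, hy, h1, h2, h3, h4⟩
      · exact Or.inl h
      · exact Or.inr ⟨i, hi, x, hx, hwx, y, b_nx_of hz' hy h1 h2 h3, h4⟩
    · rintro (h | ⟨i, hi, x, hx, hwx, y, hy, h4⟩)
      · obtain ⟨z, hz⟩ := hGX.seg hw
        obtain ⟨z', hz', h'⟩ := b_stage FFf w hz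
        refine ⟨w, hw, ?_⟩
        rw [h', b_rel0F]
        exact Or.inl h
      · obtain ⟨b, hb, hyb⟩ := hstage y hy.1
        obtain ⟨z, hz⟩ := hGX.seg hb
        obtain ⟨z', hz', h'⟩ := b_stage FFf w hz
        refine ⟨b, hb, ?_⟩
        rw [h', b_rel0F]
        obtain ⟨h1, h2, h3⟩ := b_nx_to hz' hyb hy
        exact Or.inr ⟨i, hi, x, hx, hwx, y, hyb, h1, h2, h3, h4⟩
  obtain ⟨R0, hR0⟩ : ∃ R0 : Set H, R0 = {w | w ∈ I ∧
    ∃ b ∈ I, T (opSnd FTf) (join ∅ Y) (pp (st 0) w) b} := ⟨_, rfl⟩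
  have hmemR : ∀ w, w ∈ R0 ↔ w ∈ I ∧
    ∃ b ∈ I, T (opSnd FTf) (join ∅ Y) (pp (st 0) w) b := by intro w; rw [hR0]; rfl
  have hR0' : ∀ w ∈ I, (w ∈ R0 ↔ ∃ i ≤ w, ∃ x ≤ w, w = ap2 pr i x ∧ ∃ y, Nx Y x y ∧ mem i y) := by
    intro w hw
    rw [hmemR, hT w hw]
    exact ⟨fun h => h.2, fun h => ⟨hw, h⟩⟩
  -- value at a pair
  have hpair : ∀ i x y, ap2 pr i x ∈ I → Nx Y x y → (ap2 pr i x ∈ R0 ↔ mem i y) := by
    intro i x y hw hy
    rw [hR0' _ hw]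
    constructor
    · rintro ⟨i', _, x', _, h, y', hy', h4⟩
      obtain ⟨rfl, rfl⟩ := b_pr_inj h
      rwa [hy.unique hy']
    · intro h
      exact ⟨i, (b_le_pr i x).1, x, (b_le_pr i x).2, rfl, y, hy, h⟩
  have hdel : Del FF I M0 (join ∅ Y) R0 := by
    refine ⟨fun x hx => ((hmemR x).1 hx).1, ⟨opSnd FTf, hF.ops.snd' _ hB.relT, st 0, hstM 0, ?_⟩,
      ⟨opSnd FFf, hF.ops.snd' _ hB.relF, st 0, hstM 0, ?_⟩⟩
    · intro y hy
      show y ∈ R0 ↔ _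
      rw [hmemR]
      exact ⟨fun h => h.2, fun h => ⟨hy, h⟩⟩
    · intro w hw
      show w ∉ R0 ↔ _
      rw [hTF w hw]
      constructor
      · intro h
        by_cases hex : ∃ i ≤ w, ∃ x ≤ w, w = ap2 pr i x
        · right
          obtain ⟨i, hi, x, hx, hwx⟩ := hex
          obtain ⟨y, hy⟩ := hnext x (hdown w hw x hx)
          refine ⟨i, hi, x, hx, hwx, y, hy, ?_⟩
          intro hm
          apply h
          rw [hR0' w hw]
          exact ⟨i, hi, x, hx, hwx, y, hy, hm⟩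
        · exact Or.inl hex
      · rintro (h | ⟨i, hi, x, hx, hwx, y, hy, h4⟩) hmem
        · rw [hR0' w hw] at hmem
          obtain ⟨i, hi, x, hx, hwx, _⟩ := hmem
          exact h ⟨i, hi, x, hx, hwx⟩
        · subst hwx
          rw [hpair i x y hw hy] at hmem
          exact h4 hmem
  refine ⟨I, M0, join ∅ Y, R0, N, ρ, hmdl, hNM, hbig, ⟨hcount, hGX, le_refl M0, hBN, hdel⟩, ?_⟩
  intro j i hi hm
  obtain ⟨b, hb, hbW⟩ := hYW j
  refine ⟨b, hb, fun z hz hbz => ?_⟩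
  obtain ⟨y, hy⟩ := hnext z hz
  have hW := hbW y hy.1 (hbz.trans hy.2.1.le)
  simp only [b_agree] at hW
  obtain ⟨z0, hz0, hzz⟩ := hcof z hz
  have hw : ap2 pr i z ∈ I := by
    refine hdown _ (hMI (ap2 pr N z0) ?_) _ (b_pr_mono hi.le hzz)
    exact hapM _ hF.opsN.pr _ (hppM _ hNM _ hz0)
  rw [hpair i z y hw hy]
  exact hW i hi hm


end Pool.Agent.Helper317.CADS
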