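import Mathlib

/-!
Bookkeeping.
-/

namespace Pool.Agent.Helper317.CADS

/-- TARGET: bookkeeping. `step s t s'` says that `s'` is a legitimate successor of `s` which
handles the task `t`. -/
theorem bookkeeping {S U : Type*} (Inv : S → Prop) (tasks : S → Set U) (le : S → S → Prop)
    (step : S → U → S → Prop)
    (hrefl : ∀ s, le s s) (htrans : ∀ a b c, le a b → le b c → le a c)
    (hcount : ∀ s, Inv s → (tasks s).Countable)
    (hmono : ∀ s s', Inv s → Inv s' → le s s' → tasks s ⊆ tasks s')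
    (hstep : ∀ s, Inv s → ∀ t ∈ tasks s, ∃ s', Inv s' ∧ le s s' ∧ step s t s')
    (hne : ∀ s, Inv s → (tasks s).Nonempty)
    (s0 : S) (h0 : Inv s0) :
    ∃ f : ℕ → S, f 0 = s0 ∧ (∀ k, Inv (f k)) ∧ (∀ k, le (f k) (f (k + 1))) ∧
      (∀ k, ∃ t, step (f k) t (f (k + 1))) ∧
      ∀ k, ∀ t ∈ tasks (f k), ∃ l, k ≤ l ∧ step (f l) t (f (l + 1)) := by
  classical
  have he : ∀ s : {s // Inv s}, ∃ e : ℕ → U, tasks s.1 = Set.range e := fun s =>
    (hcount s.1 s.2).exists_eq_range (hne s.1 s.2)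
  choose e he using he
  have hn : ∀ (s : {s // Inv s}) (t : U), ∃ s' : {s // Inv s}, le s.1 s'.1 ∧
      (t ∈ tasks s.1 → step s.1 t s'.1) := by
    intro s t
    by_cases ht : t ∈ tasks s.1
    · obtain ⟨s', h1, h2, h3⟩ := hstep s.1 s.2 t ht
      exact ⟨⟨s', h1⟩, h2, fun _ => h3⟩
    · exact ⟨s, hrefl _, fun h => absurd h ht⟩
  choose nx hnx1 hnx2 using hn
  let G : ℕ → (ℕ → {s // Inv s}) := fun k => Nat.rec (fun _ => ⟨s0, h0⟩)
    (fun k g => fun n => if n ≤ k then g n else nx (g k) (e (g (Nat.unpair k).1) (Nat.unpair k).2)) k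
  have hG0 : G 0 = fun _ => ⟨s0, h0⟩ := rfl
  have hGs : ∀ k, G (k + 1) = fun n => if n ≤ k then G k n else
      nx (G k k) (e (G k (Nat.unpair k).1) (Nat.unpair k).2) := fun k => rfl
  have hGn : ∀ n d, G (n + d) n = G n n := by
    intro n d
    induction d with
    | zero => rfl
    | succ d ih =>
      rw [← add_assoc, hGs]
      simp only [if_pos (Nat.le_add_right n d)]
      exact ih
  have hGle : ∀ n k, n ≤ k → G k n = G n n := by
    intro n k h
    obtain ⟨d, rfl⟩ := Nat.exists_eq_add_of_le h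
    exact hGn n d
  have hf : ∀ k, G (k + 1) (k + 1) = nx (G k k)
      (e (G (Nat.unpair k).1 (Nat.unpair k).1) (Nat.unpair k).2) := by
    intro k
    rw [hGs]
    simp only [if_neg (Nat.not_succ_le_self k)]
    rw [hGle (Nat.unpair k).1 k (Nat.unpair_left_le k)]
  have hle1 : ∀ k, le (G k k).1 (G (k + 1) (k + 1)).1 := by
    intro k
    rw [hf]
    exact hnx1 _ _
  have hle : ∀ n d, le (G n n).1 (G (n + d) (n + d)).1 := by
    intro n d
    induction d with
    | zero => exact hrefl _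
    | succ d ih => exact htrans _ _ _ ih (hle1 (n + d))
  have hst : ∀ k, step (G k k).1 (e (G (Nat.unpair k).1 (Nat.unpair k).1) (Nat.unpair k).2)
      (G (k + 1) (k + 1)).1 := by
    intro k
    rw [hf]
    apply hnx2
    obtain ⟨d, hd⟩ := Nat.exists_eq_add_of_le (Nat.unpair_left_le k)
    have h1 : le (G (Nat.unpair k).1 (Nat.unpair k).1).1 (G k k).1 := by
      have := hle (Nat.unpair k).1 d
      rwa [← hd] at this
    apply hmono _ _ (G (Nat.unpair k).1 (Nat.unpair k).1).2 (G k k).2 h1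
    rw [he]
    exact ⟨_, rfl⟩
  refine ⟨fun k => (G k k).1, rfl, fun k => (G k k).2, hle1, fun k => ⟨_, hst k⟩, ?_⟩
  intro k t ht
  rw [he] at ht
  obtain ⟨j, rfl⟩ := ht
  refine ⟨Nat.pair k j, Nat.left_le_pair k j, ?_⟩
  have := hst (Nat.pair k j)
  simp only [Nat.unpair_pair] at this
  exact this

end Pool.Agent.Helper317.CADS
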