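import Pool.Agent.Helper317.CADS.Base

/-!
Choice of a number avoiding null families.
-/

namespace Pool.Agent.Helper317.CADS

open Function Filter

theorem nat_choose_c (m N : ℕ) (hN : 0 < N) (g : ℕ → ℕ)
    (h : ∀ i < m + 1, 2 ^ (i + 2) * bcard N (g i) ≤ N) :
    ∃ u, u < N ∧ ∀ i ≤ m, ¬ (g i).testBit u = true := by
  classical
  have key : ∀ M ≤ m + 1, (∑ i ∈ Finset.range M, (bcard N (g i) : ℚ)) ≤ N / 2 - N / 2 ^ (M + 1) := by
    intro M
    induction M with
    | zero => intro _; simp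
    | succ M ih =>
      intro hM
      have h1 := ih (by omega)
      have h2 := h M (by omega)
      have h3 : (2 : ℚ) ^ (M + 2) * bcard N (g M) ≤ N := by exact_mod_cast h2
      rw [Finset.sum_range_succ]
      have h4 : (bcard N (g M) : ℚ) ≤ N / 2 ^ (M + 2) := by
        rw [le_div_iff₀ (by positivity)]
        linarith
      have h5 : (N : ℚ) / 2 ^ (M + 1) = 2 * (N / 2 ^ (M + 2)) := by
        field_simp
        ring
      have h6 : (N : ℚ) / 2 ^ (M + 1 + 1) = N / 2 ^ (M + 2) := rfl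
      rw [h6]
      linarith
  by_contra hc
  push Not at hc
  have hsub : Finset.range N ⊆ (Finset.range (m + 1)).biUnion
      (fun i => (Finset.range N).filter fun u => (g i).testBit u = true) := by
    intro u hu
    obtain ⟨i, hi, hi'⟩ := hc u (Finset.mem_range.1 hu)
    exact Finset.mem_biUnion.2 ⟨i, Finset.mem_range.2 (by omega), Finset.mem_filter.2 ⟨hu, hi'⟩⟩
  have h1 := (Finset.card_le_card hsub).trans Finset.card_biUnion_le
  rw [Finset.card_range] at h1
  have h2 : (N : ℚ) ≤ ∑ i ∈ Finset.range (m + 1), (bcard N (g i) : ℚ) := by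
    have : N ≤ ∑ i ∈ Finset.range (m + 1), bcard N (g i) := h1
    exact_mod_cast this
  have h3 := key (m + 1) le_rfl
  have h4 : (0 : ℚ) < N := by exact_mod_cast hN
  have h5 : (0 : ℚ) < N / 2 ^ (m + 1 + 1) := by positivity
  linarith

/-- TARGET: choice of a new number avoiding a member of each null family -/
theorem choose_c (n : H) (hn : ∀ k : ℕ, st k < n) (C : ℕ → Set H)
    (hC : ∀ i, ∀ m : ℕ, ∃ z ∈ C i, st m * ap2 bcard n z ≤ n) :
    ∃ c, c < n ∧ ∀ i, ∃ z ∈ C i, ¬ mem c z := by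
  choose z hz hz2 using fun i => hC i (2 ^ (i + 2))
  choose f hf using fun i => (z i).rep
  obtain ⟨N, rfl⟩ := n.rep
  have h0 : Ev fun s => 0 < N s := by
    have := hn 0
    rwa [st_coe, lt_coe] at this
  have h1 : ∀ i, Ev fun s => 2 ^ (i + 2) * bcard (N s) (f i s) ≤ N s := by
    intro i
    have := hz2 i
    rw [hf i, ap2_coe, st_coe, mul_coe, le_coe] at this
    exact this
  obtain ⟨y, hy⟩ := saturation (fun m s u => u < N s ∧ ∀ i ≤ m, ¬ (f i s).testBit u = true)
    (fun m s u h => ⟨h.1, fun i hi => h.2 i (by omega)⟩)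
    (fun m => ((ev_forall_lt (m + 1) fun i _ => h1 i).and h0).mp fun s hs =>
      nat_choose_c m (N s) hs.2 (fun i => f i s) hs.1)
  refine ⟨(y : H), ?_, fun i => ⟨z i, hz i, ?_⟩⟩
  · rw [lt_coe]
    exact (hy 0).mp fun s hs => hs.1
  · rw [hf i, mem_coe, ← ev_not]
    exact (hy i).mp fun s hs => hs.2 i le_rfl


end Pool.Agent.Helper317.CADS
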