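import Mathlib

/-!
Countable closures of families of functions.
-/

namespace Pool.Agent.Helper317.CADS

/-- stages of the closure -/
def cloStage (B : Set (ℕ → ℕ)) (U : Set ((ℕ → ℕ) → (ℕ → ℕ)))
    (W : Set ((ℕ → ℕ) → (ℕ → ℕ) → (ℕ → ℕ))) : ℕ → Set (ℕ → ℕ)
  | 0 => B
  | n + 1 => cloStage B U W n ∪
      ((fun q : ((ℕ → ℕ) → (ℕ → ℕ)) × (ℕ → ℕ) => q.1 q.2) '' (U ×ˢ cloStage B U W n) ∪
       (fun q : ((ℕ → ℕ) → (ℕ → ℕ) → (ℕ → ℕ)) × ((ℕ → ℕ) × (ℕ → ℕ)) => q.1 q.2.1 q.2.2) ''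
        (W ×ˢ (cloStage B U W n ×ˢ cloStage B U W n)))

theorem cloStage_mono {B : Set (ℕ → ℕ)} {U : Set ((ℕ → ℕ) → (ℕ → ℕ))}
    {W : Set ((ℕ → ℕ) → (ℕ → ℕ) → (ℕ → ℕ))} {m n : ℕ} (h : m ≤ n) :
    cloStage B U W m ⊆ cloStage B U W n := by
  induction n, h using Nat.le_induction with
  | base => exact subset_rfl
  | succ n _ ih => exact ih.trans Set.subset_union_left

theorem exists_closure (B : Set (ℕ → ℕ)) (hB : B.Countable) (U : Set ((ℕ → ℕ) → (ℕ → ℕ)))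
    (hU : U.Countable) (W : Set ((ℕ → ℕ) → (ℕ → ℕ) → (ℕ → ℕ))) (hW : W.Countable) :
    ∃ FF : Set (ℕ → ℕ), FF.Countable ∧ B ⊆ FF ∧ (∀ u ∈ U, ∀ F ∈ FF, u F ∈ FF) ∧
      ∀ w ∈ W, ∀ F ∈ FF, ∀ G ∈ FF, w F G ∈ FF := by
  have hc : ∀ n, (cloStage B U W n).Countable := by
    intro n
    induction n with
    | zero => exact hB
    | succ n ih =>
      exact ih.union (((hU.prod ih).image _).union ((hW.prod (ih.prod ih)).image _))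
  refine ⟨⋃ n, cloStage B U W n, Set.countable_iUnion hc, Set.subset_iUnion (cloStage B U W) 0,
    ?_, ?_⟩
  · intro u hu F hF
    obtain ⟨n, hn⟩ := Set.mem_iUnion.1 hF
    exact Set.mem_iUnion.2 ⟨n + 1, Or.inr (Or.inl ⟨(u, F), ⟨hu, hn⟩, rfl⟩)⟩
  · intro w hw F hF G hG
    obtain ⟨n, hn⟩ := Set.mem_iUnion.1 hF
    obtain ⟨m, hm⟩ := Set.mem_iUnion.1 hG
    exact Set.mem_iUnion.2 ⟨max n m + 1, Or.inr (Or.inr ⟨(w, (F, G)),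
      ⟨hw, cloStage_mono (le_max_left _ _) hn, cloStage_mono (le_max_right _ _) hm⟩, rfl⟩)⟩

end Pool.Agent.Helper317.CADS
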