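import Pool.Agent.Helper317.CADS.FM

/-!
Bounded formulas.
-/

namespace Pool.Agent.Helper317.CADS

open Function Filter

variable {FF : Set (ℕ → ℕ)} {I M X : Set H}

open Pool.Agent.Helper317.SOA


theorem FF_congr {F G : ℕ → ℕ} (hF : F ∈ FF) (h : ∀ x, F x = G x) : G ∈ FF := by
  have : F = G := funext h
  rwa [← this]

theorem tmv_FF (hF : Ops FF) (hU : OpsU FF) (t : Tm) : tmv t ∈ FF := by
  induction t with
  | var i =>
    exact FF_congr (hF.comp _ hU.ev _ (hF.pair _ hF.id _ (hF.const i))) fun x => by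
      simp [tmv, Nat.unpair_pair]
  | zero => exact FF_congr (hF.const 0) fun x => rfl
  | one => exact FF_congr (hF.const 1) fun x => rfl
  | add s t ihs iht =>
    exact FF_congr (hF.comp _ hF.add _ (hF.pair _ ihs _ iht)) fun x => by
      simp [tmv, Nat.unpair_pair]
  | mul s t ihs iht =>
    exact FF_congr (hF.comp _ hF.mul _ (hF.pair _ ihs _ iht)) fun x => by
      simp [tmv, Nat.unpair_pair]

theorem ap_tmv (hF : Fam FF) (hM : Mdl FF M) (S : Set (Set H)) (t : Tm) {N : ℕ}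
    {v : ℕ → (FM hF hM S).Num} {e : H} (he : Enc N (fun i => (v i).1) e) (ht : t.bd ≤ N) :
    ap (tmv t) e = (t.val (FM hF hM S) v).1 := by
  induction t with
  | var i =>
    have h : ap2 ev e (st i) = (v i).1 := he i (by simp only [Tm.bd] at ht; omega)
    show ap (fun e => ev e i) e = (v i).1
    refine Eq.trans ?_ h
    clear h he
    obtain ⟨e, rfl⟩ := e.rep
    simp only [ap_coe, ap2_coe, st_coe]
  | zero =>
    show ap (fun _ => 0) e = st 0
    obtain ⟨e, rfl⟩ := e.rep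
    simp only [ap_coe, st_coe]
  | one =>
    show ap (fun _ => 1) e = st 1
    obtain ⟨e, rfl⟩ := e.rep
    simp only [ap_coe, st_coe]
  | add s t ihs iht =>
    simp only [Tm.bd] at ht
    have h1 := ihs ((le_max_left _ _).trans ht)
    have h2 := iht ((le_max_right _ _).trans ht)
    show ap (fun e => tmv s e + tmv t e) e =
      ap2 (fun a b => a + b) (s.val (FM hF hM S) v).1 (t.val (FM hF hM S) v).1
    rw [← h1, ← h2]
    clear h1 h2 ihs iht he
    obtain ⟨e, rfl⟩ := e.rep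
    simp only [ap_coe, ap2_coe]
  | mul s t ihs iht =>
    simp only [Tm.bd] at ht
    have h1 := ihs ((le_max_left _ _).trans ht)
    have h2 := iht ((le_max_right _ _).trans ht)
    show ap (fun e => tmv s e * tmv t e) e =
      ap2 (fun a b => a * b) (s.val (FM hF hM S) v).1 (t.val (FM hF hM S) v).1
    rw [← h1, ← h2]
    clear h1 h2 ihs iht he
    obtain ⟨e, rfl⟩ := e.rep
    simp only [ap_coe, ap2_coe]

theorem val_fresh {K : Model} (v : ℕ → K.Num) (i : ℕ) (a : K.Num) (t : Tm) (h : t.Fresh i) :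
    t.val K (update v i a) = t.val K v := by
  induction t with
  | var j =>
    simp only [Tm.Fresh] at h
    simp only [Tm.val]
    rw [update_of_ne h]
  | zero => rfl
  | one => rfl
  | add s t ihs iht =>
    simp only [Tm.Fresh] at h
    simp only [Tm.val, ihs h.1, iht h.2]
  | mul s t ihs iht =>
    simp only [Tm.Fresh] at h
    simp only [Tm.val, ihs h.1, iht h.2]

theorem Sig.congr {P Q : H → Prop} (hP : Sig FF I M X P) (h : ∀ y ∈ I, (P y ↔ Q y)) :
    Sig FF I M X Q := by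
  obtain ⟨F, hF, p, hp, h1⟩ := hP
  exact ⟨F, hF, p, hp, fun y hy => (h y hy).symm.trans (h1 y hy)⟩

theorem ap_snd_st {F : ℕ → ℕ} {y : H} : ap (fun x => F x.unpair.2) (pp (st 0) y) = ap F y := by
  obtain ⟨y, rfl⟩ := y.rep
  simp only [ap_coe, pp_coe, st_coe, Nat.unpair_pair]

theorem FF_snd (hF : Ops FF) {F : ℕ → ℕ} (h : F ∈ FF) : (fun x : ℕ => F x.unpair.2) ∈ FF :=
  hF.comp _ h _ hF.snd

/-- an internal relation without parameter -/
theorem Sig.int0 (hF : Ops FF) (hG : Good FF I M X) {F : ℕ → ℕ} (h : F ∈ FF) :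
    Sig FF I M X fun y => ap F y = st 1 := by
  have h1 := Sig.int hF hG (FF_snd hF h) (hG.mdl.st 0)
  simp only [ap_snd_st] at h1
  exact h1

/-- substitution without parameter -/
theorem Sig.sub0 (hF : Ops FF) (hG : Good FF I M X) {P : H → Prop} (hP : Sig FF I M X P)
    {G : ℕ → ℕ} (h : G ∈ FF) : Sig FF I M X fun y => P (ap G y) := by
  have h1 := Sig.sub hF hG hP (FF_snd hF h) (hG.mdl.st 0)
  simp only [ap_snd_st] at h1
  exact h1

theorem I_ap0 (hF : Ops FF) (hG : Good FF I M X) {G : ℕ → ℕ} (h : G ∈ FF) {y : H}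
    (hy : y ∈ I) : ap G y ∈ I := by
  have := I_ap hF hG (FF_snd hF h) (hG.sub _ (hG.mdl.st 0)) hy
  rwa [ap_snd_st] at this

theorem H_not_lt {x y : H} : ¬ x < y ↔ y ≤ x := by
  obtain ⟨x, rfl⟩ := x.rep
  obtain ⟨y, rfl⟩ := y.rep
  rw [lt_coe, le_coe, ← ev_not]
  simp only [not_lt]

/-- the update as a function of `(u, e)` -/
noncomputable def updi (i : ℕ) : ℕ → ℕ := fun w => upd w.unpair.2 i w.unpair.1

theorem updi_FF (hF : Ops FF) (hU : OpsU FF) (i : ℕ) : updi i ∈ FF :=
  FF_congr (hF.comp _ hU.upd _ (hF.pair _ hF.snd _ (hF.pair _ (hF.const i) _ hF.fst)))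
    fun x => by simp [updi, Nat.unpair_pair]

theorem enc_updi (hF : Fam FF) (hM : Mdl FF M) (S : Set (Set H)) {N N' : ℕ}
    {v : ℕ → (FM hF hM S).Num} {e : H} (he : Enc N (fun i => (v i).1) e) (hN : N' ≤ N) (i : ℕ)
    (a : (FM hF hM S).Num) :
    Enc N' (fun j => ((update v i a) j).1) (ap (updi i) (pp a.1 e)) := by
  intro j hj
  have h1 := he j (hj.trans_le hN)
  by_cases hji : j = i
  · subst hji
    have : (update v j a j).1 = a.1 := by rw [update_self]
    show _ = (update v j a j).1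
    rw [this]
    clear this h1 he
    obtain ⟨e, rfl⟩ := e.rep
    obtain ⟨b, hb⟩ := (a.1 : H).rep
    rw [hb]
    simp only [ap_coe, pp_coe, ap2_coe, st_coe, updi, Nat.unpair_pair, ev_upd, if_true]
  · have : (update v i a j).1 = (v j).1 := by rw [update_of_ne hji]
    show _ = (update v i a j).1
    rw [this]
    have h2 : ap2 ev e (st j) = (v j).1 := h1
    rw [← h2]
    clear this h1 h2 he
    obtain ⟨e, rfl⟩ := e.rep
    obtain ⟨b, hb⟩ := (a.1 : H).rep
    rw [hb]
    simp only [ap_coe, pp_coe, ap2_coe, st_coe, updi, Nat.unpair_pair, ev_upd, if_neg hji]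

/-- TARGET: bounded formulas define decidable sets of (codes of) assignments -/
theorem delta0_del (hF : Ops FF) (hU : OpsU FF) (hG : Good FF I M X) (S : Set (Set H)) {φ : Fm}
    (hφ : IsDelta0 φ) (V : ℕ → Set (FM hF.toFam hG.mdl S).Num) (A : ℕ → Set H)
    (hA : ∀ j, Del FF I M X (A j)) (hV : ∀ j, V j = {x | x.1 ∈ A j}) :
    ∃ D : Set H, Del FF I M X D ∧ ∀ e ∈ M, ∀ v : ℕ → (FM hF.toFam hG.mdl S).Num,
      Enc φ.bd (fun i => (v i).1) e → (Sat (FM hF.toFam hG.mdl S) v V φ ↔ e ∈ D) := by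
  induction hφ with
  | eq s t =>
    refine ⟨{e | e ∈ I ∧ ap (tmv s) e = ap (tmv t) e}, ⟨fun x hx => hx.1, ?_, ?_⟩, ?_⟩
    · have h1 := Sig.int0 hF hG (hF.comp _ hU.eq _ (hF.pair _ (tmv_FF hF hU s) _ (tmv_FF hF hU t)))
      refine h1.congr fun y hy => ?_
      simp only [Set.mem_ofPred_eq, hy, true_and]
      clear hy
      obtain ⟨y, rfl⟩ := y.rep
      simp only [ap_coe, st_coe, eq_coe, chi_eq, Nat.unpair_pair]
    · have h1 := Sig.int0 hF hG (hF.comp _ hU.ne _ (hF.pair _ (tmv_FF hF hU s) _ (tmv_FF hF hU t)))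
      refine h1.congr fun y hy => ?_
      simp only [Set.mem_ofPred_eq, hy, true_and]
      clear hy
      obtain ⟨y, rfl⟩ := y.rep
      simp only [ap_coe, st_coe, eq_coe, chi_eq, Nat.unpair_pair, ← ev_not, ne_eq]
    · intro e he v hv
      rw [sat_eq, Set.mem_ofPred_eq, ap_tmv hF.toFam hG.mdl S s hv (le_max_left _ _),
        ap_tmv hF.toFam hG.mdl S t hv (le_max_right _ _)]
      exact ⟨fun h => ⟨hG.sub e he, by rw [h]⟩, fun h => Subtype.ext h.2⟩
  | lt s t =>
    refine ⟨{e | e ∈ I ∧ ap (tmv s) e < ap (tmv t) e}, ⟨fun x hx => hx.1, ?_, ?_⟩, ?_⟩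
    · have h1 := Sig.int0 hF hG (hF.comp _ hU.lt _ (hF.pair _ (tmv_FF hF hU s) _ (tmv_FF hF hU t)))
      refine h1.congr fun y hy => ?_
      simp only [Set.mem_ofPred_eq, hy, true_and]
      clear hy
      obtain ⟨y, rfl⟩ := y.rep
      simp only [ap_coe, st_coe, eq_coe, lt_coe, chi_eq, Nat.unpair_pair]
    · have h1 := Sig.int0 hF hG (hF.comp _ hU.le _ (hF.pair _ (tmv_FF hF hU t) _ (tmv_FF hF hU s)))
      refine h1.congr fun y hy => ?_
      simp only [Set.mem_ofPred_eq, hy, true_and, H_not_lt]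
      clear hy
      obtain ⟨y, rfl⟩ := y.rep
      simp only [ap_coe, st_coe, eq_coe, le_coe, chi_eq, Nat.unpair_pair]
    · intro e he v hv
      rw [sat_lt, Set.mem_ofPred_eq, ap_tmv hF.toFam hG.mdl S s hv (le_max_left _ _),
        ap_tmv hF.toFam hG.mdl S t hv (le_max_right _ _)]
      exact ⟨fun h => ⟨hG.sub e he, h⟩, fun h => h.2⟩
  | mem t j =>
    refine ⟨{e | e ∈ I ∧ ap (tmv t) e ∈ A j}, ⟨fun x hx => hx.1, ?_, ?_⟩, ?_⟩
    · refine (Sig.sub0 hF hG (hA j).2.1 (tmv_FF hF hU t)).congr fun y hy => ?_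
      simp only [Set.mem_ofPred_eq, hy, true_and]
    · refine (Sig.sub0 hF hG (hA j).2.2 (tmv_FF hF hU t)).congr fun y hy => ?_
      simp only [Set.mem_ofPred_eq, hy, true_and]
    · intro e he v hv
      rw [sat_mem, Set.mem_ofPred_eq, ap_tmv hF.toFam hG.mdl S t hv le_rfl, hV j]
      exact ⟨fun h => ⟨hG.sub e he, h⟩, fun h => h.2⟩
  | @neg φ hφ ih =>
    obtain ⟨D, ⟨hD1, hD2, hD3⟩, hD4⟩ := ih
    refine ⟨{e | e ∈ I ∧ e ∉ D}, ⟨fun x hx => hx.1, ?_, ?_⟩, ?_⟩
    · refine hD3.congr fun y hy => ?_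
      simp only [Set.mem_ofPred_eq, hy, true_and]
    · refine hD2.congr fun y hy => ?_
      simp only [Set.mem_ofPred_eq, hy, true_and, not_not]
    · intro e he v hv
      rw [sat_neg, hD4 e he v hv, Set.mem_ofPred_eq]
      exact ⟨fun h => ⟨hG.sub e he, h⟩, fun h => h.2⟩
  | @and φ ψ h1 h2 ih1 ih2 =>
    obtain ⟨D, ⟨hD1, hD2, hD3⟩, hD4⟩ := ih1
    obtain ⟨E, ⟨hE1, hE2, hE3⟩, hE4⟩ := ih2
    refine ⟨D ∩ E, ⟨fun x hx => hD1 x hx.1, ?_, ?_⟩, ?_⟩
    · exact Sig.and hF hG hD2 hE2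
    · refine (Sig.or hF hG hD3 hE3).congr fun y hy => ?_
      rw [Set.mem_inter_iff]
      tauto
    · intro e he v hv
      rw [sat_and, hD4 e he v (fun i hi => hv i (hi.trans_le (le_max_left _ _))),
        hE4 e he v (fun i hi => hv i (hi.trans_le (le_max_right _ _)))]
      rfl
  | @ball i t φ ht hφ ih =>
    obtain ⟨D, ⟨hD1, hD2, hD3⟩, hD4⟩ := ih
    have hu := updi_FF hF hU i
    have htF := tmv_FF hF hU t
    -- the relation `w = (u, e)`: `u < t(e)` and the update is not in `D`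
    have hlt : Sig FF I M X fun w => ap (fun x : ℕ => x.unpair.1) w <
        ap (fun x : ℕ => tmv t x.unpair.2) w := by
      have h1 := Sig.int0 hF hG (hF.comp _ hU.lt _ (hF.pair _ hF.fst _ (FF_snd hF htF)))
      refine h1.congr fun y hy => ?_
      clear hy
      obtain ⟨y, rfl⟩ := y.rep
      simp only [ap_coe, st_coe, eq_coe, lt_coe, chi_eq, Nat.unpair_pair]
    have hR : Sig FF I M X fun w => ap (fun x : ℕ => x.unpair.1) w <
        ap (fun x : ℕ => tmv t x.unpair.2) w ∧ ap (updi i) w ∉ D :=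
      Sig.and hF hG hlt (Sig.sub0 hF hG hD3 hu)
    have e1 : ∀ u e : H, ap (fun x : ℕ => x.unpair.1) (pp u e) = u := by
      intro u e
      obtain ⟨u, rfl⟩ := u.rep
      obtain ⟨e, rfl⟩ := e.rep
      simp only [ap_coe, pp_coe, Nat.unpair_pair]
    have e2 : ∀ u e : H, ap (fun x : ℕ => tmv t x.unpair.2) (pp u e) = ap (tmv t) e := by
      intro u e
      obtain ⟨u, rfl⟩ := u.rep
      obtain ⟨e, rfl⟩ := e.rep
      simp only [ap_coe, pp_coe, Nat.unpair_pair]
    have e3 : ∀ u e : H, ap (fun x : ℕ => x.unpair.2) (pp u e) = e := by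
      intro u e
      obtain ⟨u, rfl⟩ := u.rep
      obtain ⟨e, rfl⟩ := e.rep
      simp only [ap_coe, pp_coe, Nat.unpair_pair]
    refine ⟨{e | e ∈ I ∧ ∀ u < ap (tmv t) e, ap (updi i) (pp u e) ∈ D},
      ⟨fun x hx => hx.1, ?_, ?_⟩, ?_⟩
    · have h1 := Sig.ball hF hG (Sig.sub0 hF hG hD2 hu)
      have h2 := Sig.sub0 hF hG h1 (hF.pair _ htF _ hF.id)
      refine h2.congr fun y hy => ?_
      simp only [Set.mem_ofPred_eq, hy, true_and]
      have e4 : ap (fun x => Nat.pair (tmv t x) x) y = pp (ap (tmv t) y) y := by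
        clear hy
        obtain ⟨y, rfl⟩ := y.rep
        simp only [ap_coe, pp_coe]
      rw [e4, e1, e3]
    · have h1 := Sig.ex hF hG hR
      refine h1.congr fun y hy => ?_
      simp only [Set.mem_ofPred_eq, hy, true_and, e1, e2]
      push Not
      constructor
      · rintro ⟨u, _, hu1, hu2⟩
        exact ⟨u, hu1, hu2⟩
      · rintro ⟨u, hu1, hu2⟩
        exact ⟨u, hG.down _ (I_ap0 hF hG htF hy) _ hu1.le, hu1, hu2⟩
    · intro e he v hv
      have hbd : (Fm.all i (Fm.imp (Fm.lt (Tm.var i) t) φ)).bd =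
          max (i + 1) (max (max (i + 1) t.bd) φ.bd) := rfl
      rw [hbd] at hv
      have htv : ap (tmv t) e = (t.val (FM hF.toFam hG.mdl S) v).1 :=
        ap_tmv hF.toFam hG.mdl S t hv (by omega)
      have key : ∀ a : (FM hF.toFam hG.mdl S).Num, Sat (FM hF.toFam hG.mdl S) (update v i a) V φ ↔
          ap (updi i) (pp a.1 e) ∈ D := by
        intro a
        refine hD4 _ (hG.mdl.ap _ hu _ (hG.mdl.pp _ a.2 _ he)) _ ?_
        exact enc_updi hF.toFam hG.mdl S hv (by omega) i a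
      have hval : ∀ a : (FM hF.toFam hG.mdl S).Num, (FM hF.toFam hG.mdl S).lt
          ((Tm.var i).val (FM hF.toFam hG.mdl S) (update v i a))
          (t.val (FM hF.toFam hG.mdl S) (update v i a)) ↔ a.1 < ap (tmv t) e := by
        intro a
        rw [val_fresh v i a t ht, htv]
        have : (Tm.var i).val (FM hF.toFam hG.mdl S) (update v i a) = a := by
          show update v i a i = a
          rw [update_self]
        rw [this]
        rfl
      rw [sat_all]
      simp only [sat_imp, sat_lt, hval, key]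
      rw [Set.mem_ofPred_eq]
      constructor
      · intro h
        refine ⟨hG.sub e he, ?_⟩
        by_contra hc
        push Not at hc
        obtain ⟨u, hu1, hu2⟩ := hc
        have hswap : (fun w : ℕ => Nat.pair w.unpair.2 w.unpair.1) ∈ FF :=
          hF.pair _ hF.snd _ hF.fst
        have h1 := Sig.sub hF hG hR hswap he
        have e5 : ∀ y : H, ap (fun w : ℕ => Nat.pair w.unpair.2 w.unpair.1) (pp e y) = pp y e := by
          intro y
          clear * -
          obtain ⟨y, rfl⟩ := y.rep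
          obtain ⟨e, rfl⟩ := e.rep
          simp only [ap_coe, pp_coe, Nat.unpair_pair]
        simp only [e5, e1, e2] at h1
        obtain ⟨a, ha, ha1, ha2⟩ := Sig.witness hF hG h1
          ⟨u, hG.down _ (I_ap0 hF hG htF (hG.sub e he)) _ hu1.le, hu1, hu2⟩
        exact ha2 (h ⟨a, ha⟩ ha1)
      · rintro ⟨_, h⟩ a ha
        exact h a.1 ha


end Pool.Agent.Helper317.CADS
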