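import Pool.Agent.Helper317.CADS.Sig
import Pool.Agent.Helper317.Syn

/-!
The structure.
-/

namespace Pool.Agent.Helper317.CADS

open Function Filter

variable {FF : Set (ℕ → ℕ)} {I M X : Set H}

open Pool.Agent.Helper317.SOA

/-- the two-sorted structure with number domain `M` and the traces of the members of `S` -/
noncomputable def FM (hF : Fam FF) (hM : Mdl FF M) (S : Set (Set H)) : Model where
  Num := M
  zero := ⟨st 0, hM.st 0⟩
  one := ⟨st 1, hM.st 1⟩
  add := fun x y => ⟨ap2 (fun a b => a + b) x.1 y.1, hM.ap _ hF.add _ (hM.pp _ x.2 _ y.2)⟩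
  mul := fun x y => ⟨ap2 (fun a b => a * b) x.1 y.1, hM.ap _ hF.mul _ (hM.pp _ x.2 _ y.2)⟩
  lt := fun x y => x.1 < y.1
  sets := {V | ∃ A ∈ S, V = {x | x.1 ∈ A}}

/-- replace the value at `i` by `a` -/
noncomputable def upd (e i a : ℕ) : ℕ := lamc (fun j => if j = i then a else ev e j) (e + i + 1)

theorem ev_of_ge {e j : ℕ} (h : e ≤ j) : ev e j = 0 := by
  unfold ev
  have : ∀ l : List ℕ, l.length ≤ Encodable.encode l := by
    intro l
    induction l with
    | nil => simp
    | cons a l ih =>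
      rw [Encodable.encode_list_cons, List.length_cons]
      exact Nat.succ_le_succ (ih.trans (Nat.right_le_pair _ _))
  have h1 := this (Denumerable.ofNat (List ℕ) e)
  rw [Denumerable.encode_ofNat] at h1
  rw [List.getD_eq_getElem?_getD, List.getElem?_eq_none (h1.trans h)]
  rfl

theorem ev_upd (e i a j : ℕ) : ev (upd e i a) j = if j = i then a else ev e j := by
  by_cases h : j < e + i + 1
  · unfold upd
    rw [ev_lamc h]
  · rw [if_neg (by omega), ev_of_ge (show e ≤ j by omega)]
    unfold upd ev lamc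
    rw [Denumerable.ofNat_encode]
    simp [List.getD_eq_getElem?_getD, h]

/-- value of a term at a coded assignment -/
def tmv : Tm → ℕ → ℕ
  | .var i, e => ev e i
  | .zero, _ => 0
  | .one, _ => 1
  | .add s t, e => tmv s e + tmv t e
  | .mul s t, e => tmv s e * tmv t e

/-- closure conditions for the evaluation of formulas -/
structure OpsU (FF : Set (ℕ → ℕ)) : Prop where
  ev : (fun w : ℕ => ev w.unpair.1 w.unpair.2) ∈ FF
  upd : (fun w : ℕ => upd w.unpair.1 w.unpair.2.unpair.1 w.unpair.2.unpair.2) ∈ FF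
  eq : chi (fun w : ℕ => w.unpair.1 = w.unpair.2) ∈ FF
  ne : chi (fun w : ℕ => w.unpair.1 ≠ w.unpair.2) ∈ FF
  lt : chi (fun w : ℕ => w.unpair.1 < w.unpair.2) ∈ FF
  le : chi (fun w : ℕ => w.unpair.1 ≤ w.unpair.2) ∈ FF

/-- `e` codes the first `N` values of `v` -/
def Enc (N : ℕ) (v : ℕ → H) (e : H) : Prop := ∀ i < N, ap2 ev e (st i) = v i

end Pool.Agent.Helper317.CADS
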