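import Pool.Agent.Helper317.CADS.BaseDef
import Pool.Agent.Helper317.CADS.FM
import Pool.Agent.Helper317.CADS.Clo

/-!
Existence of a countable family of functions with all closure conditions.
-/

namespace Pool.Agent.Helper317.CADS

open Function Filter

/-- functions for the standard linear order of the cut -/
structure OpsF (FF : Set (ℕ → ℕ)) : Prop where
  leT : chi (fun w : ℕ => ∃ x ≤ w.unpair.2, ∃ y ≤ w.unpair.2, w.unpair.2 = pr x y ∧ x ≤ y) ∈ FF
  leF : chi (fun w : ℕ => ¬ ∃ x ≤ w.unpair.2, ∃ y ≤ w.unpair.2, w.unpair.2 = pr x y ∧ x ≤ y) ∈ FF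

/-- base functions -/
noncomputable def baseFn : ℕ → ℕ → (ℕ → ℕ)
  | 0, _ => fun x => x
  | 1, k => fun _ => k
  | 2, _ => fun x => x.unpair.1
  | 3, _ => fun x => x.unpair.2
  | 4, _ => fun x => x.unpair.1 + x.unpair.2
  | 5, _ => fun x => x.unpair.1 * x.unpair.2
  | 6, _ => fun x => x.unpair.2 % 2 ^ x.unpair.1
  | 7, k => opMem (k == 1)
  | 8, _ => fun w => jn w.unpair.1 w.unpair.2.unpair.1 w.unpair.2.unpair.2
  | 9, _ => fun w => lamc (fun u => Nat.pair (ev w.unpair.2.unpair.1 u)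
      (ev w.unpair.2.unpair.2 u)) w.unpair.1
  | 10, _ => fun w => lamc (fun _ => w.unpair.2) w.unpair.1
  | 11, _ => fun w => lamc (fun u => u) w
  | 12, _ => fun w => (Finset.range w.unpair.1).sup fun u => ev w.unpair.2 u
  | 13, _ => fun w => pr w.unpair.1 w.unpair.2
  | 14, _ => chi (fun w : ℕ => w.unpair.1 ≤ w.unpair.2)
  | 15, _ => fun w => lamc (fun _ => Nat.pair
      (cpc (fun i => ¬ (w.unpair.2.unpair.1.testBit i = true ∧
        w.unpair.2.unpair.2.testBit i = true)) w.unpair.1) w.unpair.2.unpair.1) 1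
  | 16, _ => chi (fun w : ℕ => w.unpair.1 = w.unpair.2)
  | 17, _ => chi (fun w : ℕ => w.unpair.1 ≠ w.unpair.2)
  | 18, m => fun w => flat m w.unpair.1 w.unpair.2.unpair.1 w.unpair.2.unpair.2
  | 19, k => fun w => topc k.unpair.1 k.unpair.2 w.unpair.1 w.unpair.2.unpair.1
      w.unpair.2.unpair.2.unpair.1 w.unpair.2.unpair.2.unpair.2
  | 20, k => fun w => botc k.unpair.1 k.unpair.2 w.unpair.1 w.unpair.2.unpair.1
      w.unpair.2.unpair.2.unpair.1 w.unpair.2.unpair.2.unpair.2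
  | 21, m => fun w => greedy m w.unpair.1 w.unpair.2.unpair.1
      w.unpair.2.unpair.2.unpair.1 w.unpair.2.unpair.2.unpair.2
  | 22, _ => chi (fun w : ℕ => ∀ i < w.unpair.1.unpair.1,
      w.unpair.1.unpair.2.unpair.1.testBit i = true →
        w.unpair.2.testBit i = w.unpair.1.unpair.2.unpair.2.testBit i)
  | 23, _ => fun w => w.unpair.2.unpair.1 % 2 ^ w.unpair.1 + 2 ^ w.unpair.1 *
      w.unpair.2.unpair.2
  | 24, _ => chi (fun w : ℕ => rel0 w.unpair.2.unpair.1 w.unpair.2.unpair.2 w.unpair.1.unpair.2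
      true)
  | 25, _ => chi (fun w : ℕ => (¬ ∃ i ≤ w.unpair.1.unpair.2, ∃ x ≤ w.unpair.1.unpair.2,
        w.unpair.1.unpair.2 = pr i x) ∨
      rel0 w.unpair.2.unpair.1 w.unpair.2.unpair.2 w.unpair.1.unpair.2 false)
  | 26, _ => fun w => ev w.unpair.1 w.unpair.2
  | 27, _ => fun w => upd w.unpair.1 w.unpair.2.unpair.1 w.unpair.2.unpair.2
  | 28, _ => chi (fun w : ℕ => w.unpair.1 < w.unpair.2)
  | 29, _ => chi (fun w : ℕ => ∃ x ≤ w.unpair.2, ∃ y ≤ w.unpair.2, w.unpair.2 = pr x y ∧ x ≤ y)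
  | 30, _ => chi (fun w : ℕ => ¬ ∃ x ≤ w.unpair.2, ∃ y ≤ w.unpair.2,
      w.unpair.2 = pr x y ∧ x ≤ y)
  | _ + 31, _ => fun x => x

/-- unary operators -/
noncomputable def opU : ℕ → ((ℕ → ℕ) → (ℕ → ℕ))
  | 0 => hat
  | 1 => opInt
  | 2 => opMax
  | 3 => opEx
  | 4 => opBall
  | 5 => opLw
  | 6 => opCp
  | 7 => opFst
  | 8 => opSnd
  | 9 => one
  | 10 => fmo
  | 11 => opSc
  | _ + 12 => fun F => F

/-- binary operators -/
noncomputable def opW : ℕ → ((ℕ → ℕ) → (ℕ → ℕ) → (ℕ → ℕ))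
  | 0 => fun F G x => F (G x)
  | 1 => fun F G x => Nat.pair (F x) (G x)
  | 2 => opAnd
  | 3 => opOr
  | 4 => opSub
  | 5 => psi
  | 6 => nxt
  | _ + 7 => fun F _ => F

theorem exists_family : ∃ FF : Set (ℕ → ℕ), OpsS FF ∧ OpsB FF ∧ OpsU FF ∧ OpsF FF := by
  obtain ⟨FF, hc, hB, hU, hW⟩ := exists_closure
    (Set.range fun q : ℕ × ℕ => baseFn q.1 q.2) (Set.countable_range _)
    (Set.range opU) (Set.countable_range _) (Set.range opW) (Set.countable_range _)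
  have hb : ∀ i k, baseFn i k ∈ FF := fun i k => hB ⟨(i, k), rfl⟩
  have hu : ∀ i, ∀ F ∈ FF, opU i F ∈ FF := fun i F hF => hU _ ⟨i, rfl⟩ F hF
  have hw : ∀ i, ∀ F ∈ FF, ∀ G ∈ FF, opW i F G ∈ FF := fun i F hF G hG => hW _ ⟨i, rfl⟩ F hF G hG
  have hfam : Fam FF :=
    { id := hb 0 0
      const := fun k => hb 1 k
      fst := hb 2 0
      snd := hb 3 0
      comp := fun F hF G hG => hw 0 F hF G hG
      pair := fun F hF G hG => hw 1 F hF G hG
      add := hb 4 0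
      mul := hb 5 0
      cut := hb 6 0 }
  have hops : Ops FF :=
    { toFam := hfam
      hat := hu 0
      int := hu 1
      mem := fun b => by cases b; exacts [hb 7 0, hb 7 1]
      and := hw 2
      or := hw 3
      sub := hw 4
      max := hu 2
      ex := hu 3
      ball := hu 4
      lw := hu 5
      cp := hu 6
      fst' := hu 7
      snd' := hu 8
      jn := hb 8 0 }
  refine ⟨FF, ⟨hc, hops, ⟨hw 5, hw 6, fun E hE => hu 9 E hE⟩, ⟨hu 10, hb 9 0, hb 10 0, hb 11 0, hb 12 0⟩,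
    ⟨hb 13 0, hb 14 0, hb 15 0⟩, hb 16 0, hb 17 0, fun m => hb 18 m, fun l m' => ?_, fun l m' => ?_⟩,
    ⟨hu 11, fun m => hb 21 m, hb 22 0, hb 23 0, hb 24 0, hb 25 0⟩,
    ⟨hb 26 0, hb 27 0, hb 16 0, hb 17 0, hb 28 0, hb 14 0⟩, hb 29 0, hb 30 0⟩
  · have := hb 19 (Nat.pair l m')
    simpa only [baseFn, Nat.unpair_pair] using this
  · have := hb 20 (Nat.pair l m')
    simpa only [baseFn, Nat.unpair_pair] using this

end Pool.Agent.Helper317.CADS
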