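import Pool.Agent.Helper317.CADS.Delta

/-!
The structure satisfies RCA0.
-/

namespace Pool.Agent.Helper317.CADS

open Function Filter

variable {FF : Set (ℕ → ℕ)} {I M X : Set H}

open Pool.Agent.Helper317.SOA

/-! auxiliary -/

theorem Sig.congr17 {P Q : H → Prop} (h : Sig FF I M X P) (hPQ : ∀ y ∈ I, (P y ↔ Q y)) :
    Sig FF I M X Q := by
  obtain ⟨F, hF, p, hp, h⟩ := h
  exact ⟨F, hF, p, hp, fun y hy => (hPQ y hy).symm.trans (h y hy)⟩

theorem upd_H (e a : H) (i j : ℕ) :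
    ap2 ev (ap3 upd e (st i) a) (st j) = if j = i then a else ap2 ev e (st j) := by
  obtain ⟨e, rfl⟩ := e.rep
  obtain ⟨a, rfl⟩ := a.rep
  by_cases h : j = i
  · rw [if_pos h]
    simp only [ap2_coe, ap3_coe, st_coe, eq_coe]
    exact ev_of_forall fun n => by rw [ev_upd, if_pos h]
  · rw [if_neg h]
    simp only [ap2_coe, ap3_coe, st_coe, eq_coe]
    exact ev_of_forall fun n => by rw [ev_upd, if_neg h]

theorem upd_M (hU : OpsU FF) (hM : Mdl FF M) {e a : H} (he : e ∈ M) (ha : a ∈ M) (i : ℕ) :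
    ap3 upd e (st i) a ∈ M :=
  hM.ap _ hU.upd _ (hM.pp _ he _ (hM.pp _ (hM.st i) _ ha))

theorem exists_code (hU : OpsU FF) (hM : Mdl FF M) (v : ℕ → H) (hv : ∀ i, v i ∈ M) (N : ℕ) :
    ∃ e ∈ M, Enc N v e := by
  induction N with
  | zero => exact ⟨st 0, hM.st 0, fun i hi => absurd hi (Nat.not_lt_zero _)⟩
  | succ N ih =>
    obtain ⟨e, he, h⟩ := ih
    refine ⟨ap3 upd e (st N) (v N), upd_M hU hM he (hv N) N, ?_⟩
    intro j hj
    rw [upd_H]
    split_ifs with h1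
    · rw [h1]
    · exact h j (by omega)

theorem del_empty (hF : Ops FF) (hG : Good FF I M X) : Del FF I M X ∅ := by
  have h0 : (fun _ : ℕ => 0) ∈ FF := hF.const 0
  have h1 : (fun _ : ℕ => 1) ∈ FF := hF.const 1
  refine ⟨fun x hx => absurd hx (Set.notMem_empty x), ?_, ?_⟩
  · refine (Sig.int hF hG h0 (hG.mdl.st 0)).congr17 fun y _ => ?_
    obtain ⟨y, rfl⟩ := y.rep
    simp only [st_coe, pp_coe, ap_coe, eq_coe, Set.mem_empty_iff_false, iff_false]
    rw [ev_const]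
    exact zero_ne_one
  · refine (Sig.int hF hG h1 (hG.mdl.st 0)).congr17 fun y _ => ?_
    obtain ⟨y, rfl⟩ := y.rep
    simp only [st_coe, pp_coe, ap_coe, Set.mem_empty_iff_false, not_false_eq_true]

/-- `x < m` and `x` is not in the set coded by `z` -/
theorem sig_nmem (hF : Ops FF) (hG : Good FF I M X) {m z : H} (hm : m ∈ M) (hz : z ∈ M) (b : Bool) :
    Sig FF I M X fun x => x < m ∧ (mem x z ↔ b = true) := by
  have h1 : (fun w : ℕ => opMem b (Nat.pair (Nat.pair ((fun _ => 0) w) (w.unpair.2)) (w.unpair.1))) ∈ FF :=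
    hF.comp _ (hF.mem b) _ (hF.pair _ (hF.pair _ (hF.const 0) _ hF.snd) _ hF.fst)
  refine (Sig.int hF hG h1 (hG.mdl.pp _ hm _ hz)).congr17 fun y _ => ?_
  obtain ⟨y, rfl⟩ := y.rep
  obtain ⟨m, rfl⟩ := m.rep
  obtain ⟨z, rfl⟩ := z.rep
  simp only [st_coe, pp_coe, ap_coe, eq_coe, lt_coe, mem_coe, opMem, chi_eq, Nat.unpair_pair, ev_and]
  refine and_congr_right fun _ => ?_
  cases b
  · simp only [Bool.false_eq_true, iff_false]
    rw [← ev_not]
    simp only [Bool.not_eq_true]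
  · simp only [iff_true]

theorem sig_le (hF : Ops FF) (hU : OpsU FF) (hG : Good FF I M X) {m : H} (hm : m ∈ M) :
    Sig FF I M X fun x => m ≤ x := by
  refine (Sig.int hF hG hU.le hm).congr17 fun y _ => ?_
  obtain ⟨y, rfl⟩ := y.rep
  obtain ⟨m, rfl⟩ := m.rep
  simp only [st_coe, pp_coe, ap_coe, eq_coe, le_coe, chi_eq, Nat.unpair_pair]

theorem sig_succ (hF : Ops FF) (hU : OpsU FF) (hG : Good FF I M X) {x : H} (hx : x ∈ M) :
    Sig FF I M X fun y => x = ap2 (fun a b => a + b) y (st 1) := by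
  have h1 : (fun w : ℕ => chi (fun w : ℕ => w.unpair.1 = w.unpair.2)
      (Nat.pair (w.unpair.1) ((fun x : ℕ => x.unpair.1 + x.unpair.2)
        (Nat.pair (w.unpair.2) ((fun _ => 1) w))))) ∈ FF :=
    hF.comp _ hU.eq _ (hF.pair _ hF.fst _ (hF.comp _ hF.add _ (hF.pair _ hF.snd _ (hF.const 1))))
  refine (Sig.int hF hG h1 hx).congr17 fun y _ => ?_
  obtain ⟨y, rfl⟩ := y.rep
  obtain ⟨x, rfl⟩ := x.rep
  simp only [st_coe, pp_coe, ap_coe, ap2_coe, eq_coe, chi_eq, Nat.unpair_pair]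

theorem sig_mono17 {Xs : ℕ → Set H}
    (hmono : ∀ k, ∀ P : H → Prop, Sig FF I M (Xs k) P → Sig FF I M (Xs (k + 1)) P)
    {k k' : ℕ} (hk : k ≤ k') {P : H → Prop} (h : Sig FF I M (Xs k) P) : Sig FF I M (Xs k') P := by
  induction k', hk using Nat.le_induction with
  | base => exact h
  | succ l _ ih => exact hmono l P ih

theorem del_mono17 {Xs : ℕ → Set H}
    (hmono : ∀ k, ∀ P : H → Prop, Sig FF I M (Xs k) P → Sig FF I M (Xs (k + 1)) P)
    {k k' : ℕ} (hk : k ≤ k') {A : Set H} (h : Del FF I M (Xs k) A) : Del FF I M (Xs k') A :=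
  ⟨h.1, sig_mono17 hmono hk h.2.1, sig_mono17 hmono hk h.2.2⟩

theorem choose_k (hF : Ops FF) (hM : Mdl FF M) (Xs : ℕ → Set H)
    (hG : ∀ k, Good FF I M (Xs k))
    (hmono : ∀ k, ∀ P : H → Prop, Sig FF I M (Xs k) P → Sig FF I M (Xs (k + 1)) P)
    (V : ℕ → Set (FM hF.toFam hM {A | ∃ k, Del FF I M (Xs k) A}).Num)
    (hV : (FM hF.toFam hM {A | ∃ k, Del FF I M (Xs k) A}).SetAsg V) (N : ℕ) :
    ∃ k, ∃ A : ℕ → Set H, (∀ j, Del FF I M (Xs k) (A j)) ∧
      ∀ j < N, V j = {x | x.1 ∈ A j} := by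
  have h1 : ∀ j, ∃ A : Set H, ∃ k, Del FF I M (Xs k) A ∧ V j = {x | x.1 ∈ A} := by
    intro j
    obtain ⟨A, ⟨k, hk⟩, h⟩ := hV j
    exact ⟨A, k, hk, h⟩
  choose A kk hA hVA using h1
  refine ⟨(Finset.range N).sup kk, fun j => if j < N then A j else ∅, ?_, ?_⟩
  · intro j
    by_cases hj : j < N
    · simp only [if_pos hj]
      exact del_mono17 hmono (Finset.le_sup (Finset.mem_range.2 hj)) (hA j)
    · simp only [if_neg hj]
      exact del_empty hF (hG _)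
  · intro j hj
    simp only [if_pos hj]
    exact hVA j

theorem sig_def (hF : Ops FF) (hU : OpsU FF) (hM : Mdl FF M) (Xs : ℕ → Set H)
    (hG : ∀ k, Good FF I M (Xs k))
    (hmono : ∀ k, ∀ P : H → Prop, Sig FF I M (Xs k) P → Sig FF I M (Xs (k + 1)) P)
    {ψ : Fm} (hψ : IsDelta0 ψ) (l i : ℕ)
    (v : ℕ → (FM hF.toFam hM {A | ∃ k, Del FF I M (Xs k) A}).Num)
    (V : ℕ → Set (FM hF.toFam hM {A | ∃ k, Del FF I M (Xs k) A}).Num)
    (hV : (FM hF.toFam hM {A | ∃ k, Del FF I M (Xs k) A}).SetAsg V) :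
    ∃ k, ∃ P : H → Prop, Sig FF I M (Xs k) P ∧
      ∀ a : (FM hF.toFam hM {A | ∃ k, Del FF I M (Xs k) A}).Num,
        ((∃ y, Sat (FM hF.toFam hM {A | ∃ k, Del FF I M (Xs k) A})
          (update (update v i a) l y) V ψ) ↔ P a.1) := by
  obtain ⟨k, A, hA, hVA⟩ := choose_k hF hM Xs hG hmono V hV ψ.bdS
  obtain ⟨D, hD, hDs⟩ := delta0_del hF hU (hG k) {A | ∃ k, Del FF I M (Xs k) A} hψ
    (fun j => {x | x.1 ∈ A j}) A hA (fun j => rfl)
  obtain ⟨e, he, hEnc⟩ := exists_code hU hM (fun i => (v i).1) (fun i => (v i).2) ψ.bd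
  -- the coded assignment
  have hcode : ∀ a y : H, ∀ j < ψ.bd, ap2 ev (ap3 upd (ap3 upd e (st i) a) (st l) y) (st j) =
      if j = l then y else if j = i then a else (v j).1 := by
    intro a y j hj
    rw [upd_H, upd_H]
    by_cases h1 : j = l
    · rw [if_pos h1, if_pos h1]
    · rw [if_neg h1, if_neg h1]
      by_cases h2 : j = i
      · rw [if_pos h2, if_pos h2]
      · rw [if_neg h2, if_neg h2]
        exact hEnc j hj
  have hsat : ∀ a y : (FM hF.toFam hM {A | ∃ k, Del FF I M (Xs k) A}).Num,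
      Sat (FM hF.toFam hM {A | ∃ k, Del FF I M (Xs k) A}) (update (update v i a) l y) V ψ ↔
        ap3 upd (ap3 upd e (st i) a.1) (st l) y.1 ∈ D := by
    intro a y
    rw [sat_congr ψ (v' := update (update v i a) l y) (V' := fun j => {x | x.1 ∈ A j}) (fun _ _ => rfl) hVA]
    refine hDs _ (upd_M hU hM (upd_M hU hM he a.2 i) y.2 l) (update (update v i a) l y) ?_
    intro j hj
    refine (hcode a.1 y.1 j hj).trans ?_
    show (if j = l then y.1 else if j = i then a.1 else (v j).1) = (update (update v i a) l y j).1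
    by_cases h2 : j = l
    · subst h2
      rw [if_pos rfl, update_self]
    · rw [if_neg h2, update_of_ne h2]
      by_cases h3 : j = i
      · subst h3
        rw [if_pos rfl, update_self]
      · rw [if_neg h3, update_of_ne h3]
  -- the relation
  have g1 : (fun w : ℕ => (fun w : ℕ => upd w.unpair.1 w.unpair.2.unpair.1 w.unpair.2.unpair.2)
      (Nat.pair ((fun w : ℕ => upd w.unpair.1 w.unpair.2.unpair.1 w.unpair.2.unpair.2)
        (Nat.pair w.unpair.1 (Nat.pair ((fun _ => i) w) ((fun w : ℕ => w.unpair.2) ((fun w : ℕ => w.unpair.2) w)))))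
        (Nat.pair ((fun _ => l) w) ((fun w : ℕ => w.unpair.1) ((fun w : ℕ => w.unpair.2) w))))) ∈ FF :=
    hF.comp _ hU.upd _ (hF.pair _ (hF.comp _ hU.upd _ (hF.pair _ hF.fst _ (hF.pair _ (hF.const i) _
      (hF.comp _ hF.snd _ hF.snd)))) _ (hF.pair _ (hF.const l) _ (hF.comp _ hF.fst _ hF.snd)))
  have g2 : (fun w : ℕ => (fun w : ℕ => upd w.unpair.1 w.unpair.2.unpair.1 w.unpair.2.unpair.2)
      (Nat.pair ((fun w : ℕ => upd w.unpair.1 w.unpair.2.unpair.1 w.unpair.2.unpair.2)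
        (Nat.pair ((fun w : ℕ => w.unpair.1) ((fun w : ℕ => w.unpair.1) w))
          (Nat.pair ((fun _ => i) w) ((fun w : ℕ => w.unpair.2) ((fun w : ℕ => w.unpair.1) w)))))
        (Nat.pair ((fun _ => l) w) (w.unpair.2)))) ∈ FF :=
    hF.comp _ hU.upd _ (hF.pair _ (hF.comp _ hU.upd _ (hF.pair _ (hF.comp _ hF.fst _ hF.fst) _
      (hF.pair _ (hF.const i) _ (hF.comp _ hF.snd _ hF.fst)))) _ (hF.pair _ (hF.const l) _ hF.snd))
  have hP := Sig.ex hF (hG k) (Sig.sub hF (hG k) hD.2.1 g1 he)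
  refine ⟨k, _, hP, fun a => ?_⟩
  have e1 : ∀ a u : H, ap (fun w : ℕ => (fun w : ℕ => upd w.unpair.1 w.unpair.2.unpair.1 w.unpair.2.unpair.2)
      (Nat.pair ((fun w : ℕ => upd w.unpair.1 w.unpair.2.unpair.1 w.unpair.2.unpair.2)
        (Nat.pair w.unpair.1 (Nat.pair ((fun _ => i) w) ((fun w : ℕ => w.unpair.2) ((fun w : ℕ => w.unpair.2) w)))))
        (Nat.pair ((fun _ => l) w) ((fun w : ℕ => w.unpair.1) ((fun w : ℕ => w.unpair.2) w)))))
        (pp e (pp u a)) = ap3 upd (ap3 upd e (st i) a) (st l) u := by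
    intro a u
    obtain ⟨e, rfl⟩ := e.rep
    obtain ⟨a, rfl⟩ := a.rep
    obtain ⟨u, rfl⟩ := u.rep
    simp only [ap_coe, pp_coe, ap3_coe, st_coe, Nat.unpair_pair]
  have e2 : ∀ a u : H, ap (fun w : ℕ => (fun w : ℕ => upd w.unpair.1 w.unpair.2.unpair.1 w.unpair.2.unpair.2)
      (Nat.pair ((fun w : ℕ => upd w.unpair.1 w.unpair.2.unpair.1 w.unpair.2.unpair.2)
        (Nat.pair ((fun w : ℕ => w.unpair.1) ((fun w : ℕ => w.unpair.1) w))
          (Nat.pair ((fun _ => i) w) ((fun w : ℕ => w.unpair.2) ((fun w : ℕ => w.unpair.1) w)))))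
        (Nat.pair ((fun _ => l) w) (w.unpair.2))))
        (pp (pp e a) u) = ap3 upd (ap3 upd e (st i) a) (st l) u := by
    intro a u
    obtain ⟨e, rfl⟩ := e.rep
    obtain ⟨a, rfl⟩ := a.rep
    obtain ⟨u, rfl⟩ := u.rep
    simp only [ap_coe, pp_coe, ap3_coe, st_coe, Nat.unpair_pair]
  constructor
  · rintro ⟨y, hy⟩
    refine ⟨y.1, (hG k).sub _ y.2, ?_⟩
    rw [e1]
    exact (hsat a y).1 hy
  · rintro ⟨y, hyI, hy⟩
    rw [e1] at hy
    have hw := Sig.witness hF (hG k) (Sig.sub hF (hG k) hD.2.1 g2 (hM.pp _ he _ a.2))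
      ⟨y, hyI, by rw [e2]; exact hy⟩
    obtain ⟨y', hy'M, hy'⟩ := hw
    rw [e2] at hy'
    exact ⟨⟨y', hy'M⟩, (hsat a ⟨y', hy'M⟩).2 hy'⟩

theorem add_one_M (hF : Ops FF) (hM : Mdl FF M) {x : H} (hx : x ∈ M) :
    ap2 (fun a b => a + b) x (st 1) ∈ M := hM.ap _ hF.add _ (hM.pp _ hx _ (hM.st 1))

theorem lt_succ_H (x y : H) : x < ap2 (fun a b => a + b) y (st 1) ↔ x ≤ y := by
  obtain ⟨x, rfl⟩ := x.rep
  obtain ⟨y, rfl⟩ := y.rep
  simp only [ap2_coe, st_coe, lt_coe, le_coe, Nat.lt_succ_iff]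

theorem pred_H (x : H) : x = st 0 ∨ ∃ y < x, x = ap2 (fun a b => a + b) y (st 1) := by
  obtain ⟨x, rfl⟩ := x.rep
  simp only [H.ex, ap2_coe, st_coe, lt_coe, eq_coe, ← ev_and]
  rw [← ev_ex (P := fun n y => y < x n ∧ x n = y + 1), ← ev_or]
  refine ev_of_forall fun n => ?_
  rcases Nat.eq_zero_or_pos (x n) with h | h
  · exact Or.inl h
  · exact Or.inr ⟨x n - 1, by omega, by omega⟩

theorem sig_induction (hF : Ops FF) (hU : OpsU FF) (hG : Good FF I M X) {P : H → Prop}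
    (hP : Sig FF I M X P) (h0 : P (st 0))
    (hs : ∀ a ∈ M, P a → P (ap2 (fun a b => a + b) a (st 1))) : ∀ a ∈ M, P a := by
  intro a ha
  by_contra hPa
  have hm := add_one_M hF hG.mdl ha
  set m := ap2 (fun a b => a + b) a (st 1) with hmdef
  obtain ⟨z, hz, hzm⟩ := Sig.coded hF hG hP hm
  have hA : Del FF I M X {x | x < m ∧ ¬ mem x z} := by
    refine ⟨fun x hx => hG.down m (hG.sub m hm) x hx.1.le, ?_, ?_⟩
    · refine (sig_nmem hF hG hm hz false).congr17 fun y _ => ?_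
      simp
    · refine (Sig.or hF hG (sig_le hF hU hG hm) (sig_nmem hF hG hm hz true)).congr17 fun y _ => ?_
      simp only [iff_true, Set.mem_ofPred_eq, not_and, not_not]
      constructor
      · rintro (h | ⟨_, h⟩)
        · intro h'; exact absurd h' (not_lt.2 h)
        · exact fun _ => h
      · intro h
        rcases lt_or_ge y m with h' | h'
        · exact Or.inr ⟨h', h h'⟩
        · exact Or.inl h'
  obtain ⟨x, hxM, ⟨hxm, hxz⟩, hmin⟩ := Del.least hF hG hA ⟨a, (lt_succ_H a a).2 le_rfl, fun h =>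
    hPa ((hzm a).1 h).2⟩
  rcases pred_H x with h | ⟨y, hyx, hy⟩
  · exact hxz ((hzm x).2 ⟨hxm, by rw [h]; exact h0⟩)
  · obtain ⟨y', hy'M, hy'⟩ := Sig.witness hF hG (sig_succ hF hU hG hxM)
      ⟨y, hG.down x (hG.sub x hxM) y hyx.le, hy⟩
    have hyx' : y' < x := by rw [hy']; exact (lt_succ_H y' y').2 le_rfl
    have hym : y' < m := hyx'.trans hxm
    have hPy : P y' := by
      by_contra hcon
      have := hmin y' ⟨hym, fun h => hcon ((hzm y').1 h).2⟩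
      exact absurd hyx' (not_lt.2 this)
    have hPx : P x := by rw [hy']; exact hs y' hy'M hPy
    exact hxz ((hzm x).2 ⟨hxm, hPx⟩)

theorem del_of_compl (hF : Ops FF) (hG : Good FF I M X) {P Q : H → Prop}
    (hP : Sig FF I M X P) (hQ : Sig FF I M X Q) (h : ∀ a ∈ M, (P a ↔ ¬ Q a)) :
    Del FF I M X {a | a ∈ I ∧ P a} := by
  have h1 : ∀ a ∈ I, ¬ (P a ∧ Q a) := by
    intro a ha hPQ
    obtain ⟨y, hyM, hy⟩ := Sig.witness hF hG (Sig.and hF hG hP hQ) ⟨a, ha, hPQ⟩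
    exact (h y hyM).1 hy.1 hy.2
  have h2 : ∀ a ∈ I, P a ∨ Q a := by
    intro a ha
    by_contra hcon
    rw [not_or] at hcon
    obtain ⟨b, hb, hab⟩ := hG.cof a ha
    have hm := add_one_M hF hG.mdl hb
    obtain ⟨z, hz, hzm⟩ := Sig.coded hF hG hP hm
    obtain ⟨z', hz', hzm'⟩ := Sig.coded hF hG hQ hm
    obtain ⟨y, hyM, hy1, hy2⟩ := Sig.witness hF hG (Sig.and hF hG (sig_nmem hF hG hm hz false)
      (sig_nmem hF hG hm hz' false)) ⟨a, ha, ⟨(lt_succ_H a b).2 hab, by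
        simp only [Bool.false_eq_true, iff_false]
        exact fun h' => hcon.1 ((hzm a).1 h').2⟩, (lt_succ_H a b).2 hab, by
        simp only [Bool.false_eq_true, iff_false]
        exact fun h' => hcon.2 ((hzm' a).1 h').2⟩
    have hy3 : ¬ mem y z := by simpa using hy1.2
    have hy4 : ¬ mem y z' := by simpa using hy2.2
    have hnP : ¬ P y := fun h' => hy3 ((hzm y).2 ⟨hy1.1, h'⟩)
    have hnQ : ¬ Q y := fun h' => hy4 ((hzm' y).2 ⟨hy1.1, h'⟩)
    exact hnP ((h y hyM).2 hnQ)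
  refine ⟨fun x hx => hx.1, ?_, ?_⟩
  · exact hP.congr17 fun y hy => ⟨fun h' => ⟨hy, h'⟩, fun h' => h'.2⟩
  · refine hQ.congr17 fun y hy => ⟨fun h' h'' => h1 y hy ⟨h''.2, h'⟩, fun h' => ?_⟩
    rcases h2 y hy with h3 | h3
    · exact absurd ⟨hy, h3⟩ h'
    · exact h3

theorem fm_basic (hF : Fam FF) (hM : Mdl FF M) (S : Set (Set H)) : Basic (FM hF hM S) := by
  refine ⟨?_, ?_, ?_, ?_, ?_, ?_, ?_, ?_⟩
  · rintro ⟨n, hn⟩ h
    have h1 : ap2 (fun a b => a + b) n (st 1) = st 0 := congrArg Subtype.val h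
    obtain ⟨n, rfl⟩ := n.rep
    simp only [ap2_coe, st_coe, eq_coe] at h1
    exact ev_not.1 (ev_of_forall fun k => Nat.succ_ne_zero (n k)) h1
  · rintro ⟨m, hm⟩ ⟨n, hn⟩ h
    have h1 : ap2 (fun a b => a + b) m (st 1) = ap2 (fun a b => a + b) n (st 1) := congrArg Subtype.val h
    apply Subtype.ext
    show m = n
    obtain ⟨n, rfl⟩ := n.rep
    obtain ⟨m, rfl⟩ := m.rep
    simp only [ap2_coe, st_coe, eq_coe] at h1 ⊢
    exact h1.mp fun k hk => by omega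
  · rintro ⟨m, hm⟩
    apply Subtype.ext
    show ap2 (fun a b => a + b) m (st 0) = m
    obtain ⟨m, rfl⟩ := m.rep
    simp only [ap2_coe, st_coe, eq_coe]
    exact ev_of_forall fun k => rfl
  · rintro ⟨m, hm⟩ ⟨n, hn⟩
    apply Subtype.ext
    show ap2 (fun a b => a + b) m (ap2 (fun a b => a + b) n (st 1)) =
      ap2 (fun a b => a + b) (ap2 (fun a b => a + b) m n) (st 1)
    obtain ⟨n, rfl⟩ := n.rep
    obtain ⟨m, rfl⟩ := m.rep
    simp only [ap2_coe, st_coe, eq_coe]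
    exact ev_of_forall fun k => rfl
  · rintro ⟨m, hm⟩
    apply Subtype.ext
    show ap2 (fun a b => a * b) m (st 0) = st 0
    obtain ⟨m, rfl⟩ := m.rep
    simp only [ap2_coe, st_coe, eq_coe]
    exact ev_of_forall fun k => rfl
  · rintro ⟨m, hm⟩ ⟨n, hn⟩
    apply Subtype.ext
    show ap2 (fun a b => a * b) m (ap2 (fun a b => a + b) n (st 1)) =
      ap2 (fun a b => a + b) (ap2 (fun a b => a * b) m n) m
    obtain ⟨n, rfl⟩ := n.rep
    obtain ⟨m, rfl⟩ := m.rep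
    simp only [ap2_coe, st_coe, eq_coe]
    exact ev_of_forall fun k => rfl
  · rintro ⟨m, hm⟩ h
    have h1 : m < st 0 := h
    obtain ⟨m, rfl⟩ := m.rep
    simp only [st_coe, lt_coe] at h1
    exact ev_not.1 (ev_of_forall fun k => Nat.not_lt_zero (m k)) h1
  · rintro ⟨m, hm⟩ ⟨n, hn⟩
    have h1 : m < ap2 (fun a b => a + b) n (st 1) ↔ m < n ∨ m = n := by
      rw [lt_succ_H, le_iff_lt_or_eq]
    exact h1.trans (or_congr Iff.rfl ⟨fun h => Subtype.ext h, fun h => congrArg Subtype.val h⟩)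

/-- TARGET -/
theorem fm_rca (hF : Ops FF) (hU : OpsU FF) (hM : Mdl FF M) (Xs : ℕ → Set H)
    (hG : ∀ k, Good FF I M (Xs k))
    (hmono : ∀ k, ∀ P : H → Prop, Sig FF I M (Xs k) P → Sig FF I M (Xs (k + 1)) P) :
    RCA0 (FM hF.toFam hM {A | ∃ k, Del FF I M (Xs k) A}) := by
  refine ⟨fm_basic _ _ _, ?_, ?_⟩
  · intro φ hφ i v V hV h0 hs a
    obtain ⟨l, ψ, rfl, hψ⟩ := hφ
    obtain ⟨k, P, hP, hPs⟩ := sig_def hF hU hM Xs hG hmono hψ l i v V hV
    have hPs' : ∀ a, Sat (FM hF.toFam hM {A | ∃ k, Del FF I M (Xs k) A}) (update v i a) V (.ex l ψ) ↔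
        P a.1 := fun a => sat_ex.trans (hPs a)
    rw [hPs']
    refine sig_induction hF hU (hG k) hP ((hPs' _).1 h0) ?_ a.1 a.2
    intro b hb hPb
    exact (hPs' _).1 (hs ⟨b, hb⟩ ((hPs' ⟨b, hb⟩).2 hPb))
  · intro φ φ' hφ hφ' i v V hV h
    obtain ⟨l, ψ, rfl, hψ⟩ := hφ
    obtain ⟨l', ψ', rfl, hψ'⟩ := hφ'
    obtain ⟨k, P, hP, hPs⟩ := sig_def hF hU hM Xs hG hmono hψ l i v V hV
    obtain ⟨k', Q, hQ, hQs⟩ := sig_def hF hU hM Xs hG hmono (IsDelta0.neg hψ') l' i v V hV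
    have hP' := sig_mono17 hmono (le_max_left k k') hP
    have hQ' := sig_mono17 hmono (le_max_right k k') hQ
    have hPQ : ∀ a ∈ M, (P a ↔ ¬ Q a) := by
      intro a ha
      have h1 := hPs ⟨a, ha⟩
      have h2 := hQs ⟨a, ha⟩
      have h3 := h ⟨a, ha⟩
      rw [sat_ex, sat_all] at h3
      rw [← h1, ← h2, h3]
      simp only [sat_neg, not_exists, not_not]
    refine ⟨{a | a ∈ I ∧ P a}, ⟨max k k', del_of_compl hF (hG _) hP' hQ' hPQ⟩, ?_⟩
    ext a
    have h1 := hPs a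
    rw [Set.mem_ofPred_eq, sat_ex, h1]
    exact ⟨fun h' => ⟨(hG 0).sub _ a.2, h'⟩, fun h' => h'.2⟩


end Pool.Agent.Helper317.CADS
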