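import Pool.Agent.Helper317.CADS.Prin
import Pool.Agent.Helper317.Syn

/-!
From decided elements to stable suborders.
-/

namespace Pool.Agent.Helper317.SOA

open Function

namespace TrimAux

/-- pairing term -/
def prT (s t : Tm) : Tm := .add (.mul (.add s t) (.add s t)) s

theorem ind0 {M : Model} (hM : RCA0 M) (φ : Fm) (hφ : IsDelta0 φ) (v : ℕ → M.Num)
    (V : ℕ → Set M.Num) (hV : M.SetAsg V) (P : M.Num → Prop)
    (hP : ∀ a c, Sat M (update (update v 0 a) 9 c) V φ ↔ P a)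
    (h0 : P M.zero) (hs : ∀ a, P a → P (M.add a M.one)) : ∀ a, P a := by
  have key : ∀ a, Sat M (update v 0 a) V (Fm.ex 9 φ) ↔ P a := by
    intro a
    rw [sat_ex]
    constructor
    · rintro ⟨c, hc⟩
      exact (hP a c).1 hc
    · intro h
      exact ⟨M.zero, (hP a _).2 h⟩
  have := hM.induction (Fm.ex 9 φ) ⟨9, φ, rfl, hφ⟩ 0 v V hV ((key _).2 h0)
    (fun a ha => (key _).2 (hs a ((key a).1 ha)))
  intro a
  exact (key a).1 (this a)

theorem ca0 {M : Model} (hM : RCA0 M) (φ : Fm) (hφ : IsDelta0 φ) (v : ℕ → M.Num)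
    (V : ℕ → Set M.Num) (hV : M.SetAsg V) (P : M.Num → Prop)
    (hP : ∀ a c, Sat M (update (update v 0 a) 9 c) V φ ↔ P a) : {a | P a} ∈ M.sets := by
  have key : ∀ a, Sat M (update v 0 a) V (Fm.ex 9 φ) ↔ P a := by
    intro a
    rw [sat_ex]
    constructor
    · rintro ⟨c, hc⟩
      exact (hP a c).1 hc
    · intro h
      exact ⟨M.zero, (hP a _).2 h⟩
  have key2 : ∀ a, Sat M (update v 0 a) V (Fm.all 9 φ) ↔ P a := by
    intro a
    rw [sat_all]
    constructor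
    · intro h
      exact (hP a M.zero).1 (h _)
    · intro h c
      exact (hP a c).2 h
  have := hM.comprehension (Fm.ex 9 φ) (Fm.all 9 φ) ⟨9, φ, rfl, hφ⟩ ⟨9, φ, rfl, hφ⟩ 0 v V hV
    (fun a => (key a).trans (key2 a).symm)
  have e : {a | Sat M (update v 0 a) V (Fm.ex 9 φ)} = {a | P a} := by
    ext a
    exact key a
  rw [e] at this
  exact this

/-- two set parameters -/
def VV {M : Model} (C R : Set M.Num) : ℕ → Set M.Num := fun i => if i = 0 then C else R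

theorem VV_ok {M : Model} {C R : Set M.Num} (hC : C ∈ M.sets) (hR : R ∈ M.sets) :
    M.SetAsg (VV C R) := by
  intro j
  unfold VV
  split_ifs
  · exact hC
  · exact hR

theorem mem_inter {M : Model} (hM : RCA0 M) {C D : Set M.Num} (hC : C ∈ M.sets)
    (hD : D ∈ M.sets) : {a | a ∈ C ∧ a ∈ D} ∈ M.sets := by
  refine ca0 hM (.and (.mem (.var 0) 0) (.mem (.var 0) 1))
    (.and (.mem _ _) (.mem _ _)) (fun _ => M.zero) (VV C D) (VV_ok hC hD) _ ?_
  intro a c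
  simp [Tm.val, VV]

theorem mem_lower {M : Model} (hM : RCA0 M) {R : Set M.Num} (hR : R ∈ M.sets) (x : M.Num) :
    {a | M.Le R a x} ∈ M.sets := by
  refine ca0 hM (.mem (prT (.var 0) (.var 1)) 0)
    (.mem _ _) (fun _ => x) (VV R R) (VV_ok hR hR) _ ?_
  intro a c
  simp [Tm.val, VV, prT, Model.Le, Model.pair]

theorem mem_upper {M : Model} (hM : RCA0 M) {R : Set M.Num} (hR : R ∈ M.sets) (x : M.Num) :
    {a | M.Le R x a} ∈ M.sets := by
  refine ca0 hM (.mem (prT (.var 1) (.var 0)) 0)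
    (.mem _ _) (fun _ => x) (VV R R) (VV_ok hR hR) _ ?_
  intro a c
  simp [Tm.val, VV, prT, Model.Le, Model.pair]

theorem mem_ne {M : Model} (hM : RCA0 M) {R : Set M.Num} (hR : R ∈ M.sets) (x : M.Num) :
    {a | a ≠ x} ∈ M.sets := by
  refine ca0 hM (.neg (.eq (.var 0) (.var 1)))
    (.neg (.eq _ _)) (fun _ => x) (VV R R) (VV_ok hR hR) _ ?_
  intro a c
  simp [Tm.val]

/-- the induction predicate -/
def PP (M : Model) (C : Set M.Num) (L : M.Num → M.Num → Prop) (b : M.Num) : Prop :=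
  (∃ y, M.lt y b ∧ y ∈ C) → ∃ y, M.lt y b ∧ y ∈ C ∧ ∀ z, M.lt z b → z ∈ C → L z y

theorem max_of_ind {M : Model} (hB : Basic M) (C : Set M.Num) (L : M.Num → M.Num → Prop)
    (hind : PP M C L M.zero → (∀ a, PP M C L a → PP M C L (M.add a M.one)) → ∀ a, PP M C L a)
    (hrefl : ∀ x ∈ C, L x x) (htot : ∀ x ∈ C, ∀ y ∈ C, L x y ∨ L y x)
    (htr : ∀ x ∈ C, ∀ y ∈ C, ∀ z ∈ C, L x y → L y z → L x z)
    (hfin : M.Fin C) (hne : ∃ x, x ∈ C) : ∃ m ∈ C, ∀ z ∈ C, L z m := by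
  have h0 : PP M C L M.zero := by
    rintro ⟨y, hy, _⟩
    exact absurd hy (hB.not_lt_zero y)
  have hs : ∀ a, PP M C L a → PP M C L (M.add a M.one) := by
    intro a ha hex
    by_cases h1 : ∃ y, M.lt y a ∧ y ∈ C
    · obtain ⟨m, hm, hmC, hmax⟩ := ha h1
      by_cases haC : a ∈ C
      · rcases htot m hmC a haC with h | h
        · refine ⟨a, (hB.lt_succ a a).2 (Or.inr rfl), haC, ?_⟩
          intro z hz hzC
          rcases (hB.lt_succ z a).1 hz with hz | rfl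
          · exact htr z hzC m hmC a haC (hmax z hz hzC) h
          · exact hrefl _ hzC
        · refine ⟨m, (hB.lt_succ m a).2 (Or.inl hm), hmC, ?_⟩
          intro z hz hzC
          rcases (hB.lt_succ z a).1 hz with hz | rfl
          · exact hmax z hz hzC
          · exact h
      · refine ⟨m, (hB.lt_succ m a).2 (Or.inl hm), hmC, ?_⟩
        intro z hz hzC
        rcases (hB.lt_succ z a).1 hz with hz | rfl
        · exact hmax z hz hzC
        · exact absurd hzC haC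
    · obtain ⟨y, hy, hyC⟩ := hex
      rcases (hB.lt_succ y a).1 hy with hy | rfl
      · exact absurd ⟨y, hy, hyC⟩ h1
      · refine ⟨y, (hB.lt_succ y y).2 (Or.inr rfl), hyC, ?_⟩
        intro z hz hzC
        rcases (hB.lt_succ z y).1 hz with hz | rfl
        · exact absurd ⟨z, hz, hzC⟩ h1
        · exact hrefl _ hzC
  obtain ⟨b, hb⟩ := hfin
  obtain ⟨x, hx⟩ := hne
  obtain ⟨m, _, hmC, hmax⟩ := hind h0 hs b ⟨x, hb x hx, hx⟩
  exact ⟨m, hmC, fun z hz => hmax z (hb z hz) hz⟩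

/-- bounded existential -/
def exb (i : ℕ) (t : Tm) (φ : Fm) : Fm := .neg (.all i (.imp (.lt (.var i) t) (.neg φ)))

theorem exb_delta {i : ℕ} {t : Tm} {φ : Fm} (ht : t.Fresh i) (h : IsDelta0 φ) :
    IsDelta0 (exb i t φ) := .neg (.ball i t ht (.neg h))

theorem imp_delta {φ ψ : Fm} (h : IsDelta0 φ) (h' : IsDelta0 ψ) : IsDelta0 (.imp φ ψ) :=
  .neg (.and h (.neg h'))

theorem ind_max {M : Model} (hM : RCA0 M) {C R : Set M.Num} (hC : C ∈ M.sets) (hR : R ∈ M.sets) :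
    PP M C (fun z y => M.Le R z y) M.zero →
      (∀ a, PP M C (fun z y => M.Le R z y) a → PP M C (fun z y => M.Le R z y) (M.add a M.one)) →
      ∀ a, PP M C (fun z y => M.Le R z y) a := by
  refine ind0 hM (.imp (exb 1 (.var 0) (.mem (.var 1) 0))
    (exb 1 (.var 0) (.and (.mem (.var 1) 0)
      (.all 2 (.imp (.lt (.var 2) (.var 0))
        (.imp (.mem (.var 2) 0) (.mem (prT (.var 2) (.var 1)) 1)))))))
    (imp_delta (exb_delta (by simp [Tm.Fresh]) (.mem _ _))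
      (exb_delta (by simp [Tm.Fresh]) (.and (.mem _ _)
        (.ball 2 _ (by simp [Tm.Fresh]) (imp_delta (.mem _ _) (.mem _ _))))))
    (fun _ => M.zero) (VV C R) (VV_ok hC hR) _ ?_
  intro a c
  simp [exb, Tm.val, VV, prT, Model.Le, Model.pair, PP]

theorem ind_min {M : Model} (hM : RCA0 M) {C R : Set M.Num} (hC : C ∈ M.sets) (hR : R ∈ M.sets) :
    PP M C (fun z y => M.Le R y z) M.zero →
      (∀ a, PP M C (fun z y => M.Le R y z) a → PP M C (fun z y => M.Le R y z) (M.add a M.one)) →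
      ∀ a, PP M C (fun z y => M.Le R y z) a := by
  refine ind0 hM (.imp (exb 1 (.var 0) (.mem (.var 1) 0))
    (exb 1 (.var 0) (.and (.mem (.var 1) 0)
      (.all 2 (.imp (.lt (.var 2) (.var 0))
        (.imp (.mem (.var 2) 0) (.mem (prT (.var 1) (.var 2)) 1)))))))
    (imp_delta (exb_delta (by simp [Tm.Fresh]) (.mem _ _))
      (exb_delta (by simp [Tm.Fresh]) (.and (.mem _ _)
        (.ball 2 _ (by simp [Tm.Fresh]) (imp_delta (.mem _ _) (.mem _ _))))))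
    (fun _ => M.zero) (VV C R) (VV_ok hC hR) _ ?_
  intro a c
  simp [exb, Tm.val, VV, prT, Model.Le, Model.pair, PP]

theorem exists_max {M : Model} (hM : RCA0 M) {A R C : Set M.Num} (hL : M.LinOrd A R)
    (hC : C ∈ M.sets) (hCA : C ⊆ A) (hfin : M.Fin C) (hne : ∃ x, x ∈ C) :
    ∃ m ∈ C, ∀ z ∈ C, M.Le R z m :=
  max_of_ind hM.basic C (fun z y => M.Le R z y) (ind_max hM hC hL.rel)
    (fun x hx => hL.refl x (hCA hx)) (fun x hx y hy => hL.total x (hCA hx) y (hCA hy))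
    (fun x hx y hy z hz h1 h2 => hL.trans x (hCA hx) y (hCA hy) z (hCA hz) h1 h2) hfin hne

theorem exists_min {M : Model} (hM : RCA0 M) {A R C : Set M.Num} (hL : M.LinOrd A R)
    (hC : C ∈ M.sets) (hCA : C ⊆ A) (hfin : M.Fin C) (hne : ∃ x, x ∈ C) :
    ∃ m ∈ C, ∀ z ∈ C, M.Le R m z :=
  max_of_ind hM.basic C (fun z y => M.Le R y z) (ind_min hM hC hL.rel)
    (fun x hx => hL.refl x (hCA hx)) (fun x hx y hy => hL.total y (hCA hy) x (hCA hx))
    (fun x hx y hy z hz h1 h2 => hL.trans z (hCA hz) y (hCA hy) x (hCA hx) h2 h1) hfin hne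

theorem fin_sub {M : Model} {C D : Set M.Num} (h : M.Fin D) (hCD : ∀ x ∈ C, x ∈ D) : M.Fin C := by
  obtain ⟨b, hb⟩ := h
  exact ⟨b, fun x hx => hb x (hCD x hx)⟩

theorem fin_union {M : Model} (hlt : ∀ x y z, M.lt x y → M.lt y z → M.lt x z)
    (htri : ∀ x y, M.lt x y ∨ x = y ∨ M.lt y x) {C D E : Set M.Num} (hC : M.Fin C) (hD : M.Fin D)
    (hE : ∀ x ∈ E, x ∈ C ∨ x ∈ D) : M.Fin E := by
  obtain ⟨b, hb⟩ := hC
  obtain ⟨c, hc⟩ := hD
  rcases htri b c with h | rfl | h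
  · refine ⟨c, fun x hx => ?_⟩
    rcases hE x hx with h1 | h1
    · exact hlt _ _ _ (hb x h1) h
    · exact hc x h1
  · refine ⟨b, fun x hx => ?_⟩
    rcases hE x hx with h1 | h1
    · exact hb x h1
    · exact hc x h1
  · refine ⟨b, fun x hx => ?_⟩
    rcases hE x hx with h1 | h1
    · exact hb x h1
    · exact hlt _ _ _ (hc x h1) h

theorem two_elts {M : Model} (hB : Basic M) {B : Set M.Num} (h : ¬ M.Fin B) :
    ∃ x ∈ B, ∃ y ∈ B, x ≠ y := by
  by_contra hcon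
  push Not at hcon
  apply h
  by_cases hne : ∃ x, x ∈ B
  · obtain ⟨x, hx⟩ := hne
    refine ⟨M.add x M.one, fun y hy => ?_⟩
    exact (hB.lt_succ y x).2 (Or.inr (hcon y hy x hx))
  · exact ⟨M.zero, fun y hy => absurd ⟨y, hy⟩ hne⟩

theorem disc {M : Model} (hM : RCA0 M) {A R B : Set M.Num} (hL : M.LinOrd A R)
    (hB : B ∈ M.sets) (hBA : B ⊆ A)
    (h1 : ∀ x ∈ B, (∃ y ∈ B, y ≠ x ∧ M.Le R y x) →
      ∃ y ∈ B, y ≠ x ∧ M.Le R y x ∧ M.Fin {w | w ∈ B ∧ M.Le R y w ∧ M.Le R w x})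
    (h2 : ∀ x ∈ B, (∃ y ∈ B, y ≠ x ∧ M.Le R x y) →
      ∃ y ∈ B, y ≠ x ∧ M.Le R x y ∧ M.Fin {w | w ∈ B ∧ M.Le R x w ∧ M.Le R w y}) :
    M.Discrete B R := by
  intro x hx
  have hxA := hBA hx
  constructor
  · intro hex
    obtain ⟨y, hy, hyx, hle, hfin⟩ := h1 x hx hex
    have hyA := hBA hy
    have hCs : {w | w ∈ B ∧ w ∈ {w | w ∈ {w | M.Le R y w} ∧
        w ∈ {w | w ∈ {w | M.Le R w x} ∧ w ∈ {w | w ≠ x}}}} ∈ M.sets :=
      mem_inter hM hB (mem_inter hM (mem_upper hM hL.rel y)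
        (mem_inter hM (mem_lower hM hL.rel x) (mem_ne hM hB x)))
    obtain ⟨p, ⟨hpB, hyp, hpx, hpne⟩, hmax⟩ := exists_max hM hL hCs (fun w hw => hBA hw.1)
      (fin_sub hfin fun w hw => ⟨hw.1, hw.2.1, hw.2.2.1⟩) ⟨y, hy, hL.refl y hyA, hle, hyx⟩
    refine ⟨p, hpB, hpne, hpx, ?_⟩
    intro w hw hpw hwx
    by_cases hwx' : w = x
    · exact Or.inr hwx'
    · left
      have hwA := hBA hw
      have hpA := hBA hpB
      have hw' := hmax w ⟨hw, hL.trans y hyA p hpA w hwA hyp hpw, hwx, hwx'⟩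
      exact hL.antisymm w hwA p hpA hw' hpw
  · intro hex
    obtain ⟨y, hy, hyx, hle, hfin⟩ := h2 x hx hex
    have hyA := hBA hy
    have hCs : {w | w ∈ B ∧ w ∈ {w | w ∈ {w | M.Le R x w} ∧
        w ∈ {w | w ∈ {w | M.Le R w y} ∧ w ∈ {w | w ≠ x}}}} ∈ M.sets :=
      mem_inter hM hB (mem_inter hM (mem_upper hM hL.rel x)
        (mem_inter hM (mem_lower hM hL.rel y) (mem_ne hM hB x)))
    obtain ⟨s, ⟨hsB, hxs, hsy, hsne⟩, hmin⟩ := exists_min hM hL hCs (fun w hw => hBA hw.1)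
      (fin_sub hfin fun w hw => ⟨hw.1, hw.2.1, hw.2.2.1⟩) ⟨y, hy, hle, hL.refl y hyA, hyx⟩
    refine ⟨s, hsB, Ne.symm hsne, hxs, ?_⟩
    intro w hw hxw hws
    by_cases hwx' : w = x
    · exact Or.inl hwx'
    · right
      have hwA := hBA hw
      have hsA := hBA hsB
      have hw' := hmin w ⟨hw, hxw, hL.trans w hwA s hsA y hyA hws hsy, hwx'⟩
      exact hL.antisymm w hwA s hsA hws hw'

end TrimAux

open TrimAux in
/-- TARGET -/
theorem trim (M : Model) (hM : RCA0 M)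
    (hlt : ∀ x y z, M.lt x y → M.lt y z → M.lt x z) (htri : ∀ x y, M.lt x y ∨ x = y ∨ M.lt y x)
    (A R : Set M.Num) (hL : M.LinOrd A R) (G : Set M.Num) (hG : G ∈ M.sets) (hGA : G ⊆ A)
    (hinf : ¬ M.Fin G)
    (hdec : ∀ x ∈ G, M.Fin {y | y ∈ G ∧ M.Le R y x} ∨ M.Fin {y | y ∈ G ∧ M.Le R x y}) :
    ∃ B ∈ M.sets, B ⊆ G ∧ M.StableOrd B R := by
  have hnb : ∀ x ∈ G, M.Fin {y | y ∈ G ∧ M.Le R y x} → M.Fin {y | y ∈ G ∧ M.Le R x y} → False := by
    intro x hx h1 h2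
    apply hinf
    refine fin_union hlt htri h1 h2 ?_
    intro y hy
    rcases hL.total y (hGA hy) x (hGA hx) with h | h
    · exact Or.inl ⟨hy, h⟩
    · exact Or.inr ⟨hy, h⟩
  by_cases c1 : ∃ x ∈ G, M.Fin {y | y ∈ G ∧ M.Le R y x} ∧
      ∀ y ∈ G, M.Fin {w | w ∈ G ∧ M.Le R w y} → M.Le R y x
  · obtain ⟨x, hx, hlow, hmax⟩ := c1
    have hBs : {w | w ∈ G ∧ w ∈ {w | w ∈ {w | M.Le R x w} ∧ w ∈ {w | w ≠ x}}} ∈ M.sets :=
      mem_inter hM hG (mem_inter hM (mem_upper hM hL.rel x) (mem_ne hM hG x))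
    obtain ⟨B, hBdef⟩ : ∃ B, B = {w | w ∈ G ∧ w ∈ {w | w ∈ {w | M.Le R x w} ∧ w ∈ {w | w ≠ x}}} :=
      ⟨_, rfl⟩
    rw [← hBdef] at hBs
    have hBm : ∀ w, w ∈ B ↔ w ∈ G ∧ M.Le R x w ∧ w ≠ x := by
      intro w; rw [hBdef]; rfl
    have hBG : B ⊆ G := fun w hw => ((hBm w).1 hw).1
    have hup : ∀ w ∈ B, M.Fin {y | y ∈ G ∧ M.Le R w y} := by
      intro w hw
      obtain ⟨h1, h2, h3⟩ := (hBm w).1 hw
      rcases hdec w h1 with h | h
      · exact absurd (hL.antisymm w (hGA h1) x (hGA hx) (hmax w h1 h) h2) h3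
      · exact h
    have hBinf : ¬ M.Fin B := by
      intro hf
      apply hinf
      refine fin_union hlt htri hlow hf ?_
      intro y hy
      by_cases hyx : y = x
      · subst hyx
        exact Or.inl ⟨hy, hL.refl _ (hGA hy)⟩
      · rcases hL.total y (hGA hy) x (hGA hx) with h | h
        · exact Or.inl ⟨hy, h⟩
        · exact Or.inr ((hBm y).2 ⟨hy, h, hyx⟩)
    refine ⟨B, hBs, hBG, hBinf, ?_, two_elts hM.basic hBinf, ?_⟩
    · apply disc hM hL hBs (hBG.trans hGA)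
      · rintro w hw ⟨y, hy, hne, hle⟩
        exact ⟨y, hy, hne, hle, fin_sub (hup y hy) fun u hu => ⟨hBG hu.1, hu.2.1⟩⟩
      · rintro w hw ⟨y, hy, hne, hle⟩
        exact ⟨y, hy, hne, hle, fin_sub (hup w hw) fun u hu => ⟨hBG hu.1, hu.2.1⟩⟩
    · intro w hw
      right
      exact fin_sub (hup w hw) fun u hu => ⟨hBG hu.1, hu.2.2⟩
  by_cases c2 : ∃ x ∈ G, M.Fin {y | y ∈ G ∧ M.Le R x y} ∧
      ∀ y ∈ G, M.Fin {w | w ∈ G ∧ M.Le R y w} → M.Le R x y
  · obtain ⟨x, hx, hlow, hmax⟩ := c2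
    have hBs : {w | w ∈ G ∧ w ∈ {w | w ∈ {w | M.Le R w x} ∧ w ∈ {w | w ≠ x}}} ∈ M.sets :=
      mem_inter hM hG (mem_inter hM (mem_lower hM hL.rel x) (mem_ne hM hG x))
    obtain ⟨B, hBdef⟩ : ∃ B, B = {w | w ∈ G ∧ w ∈ {w | w ∈ {w | M.Le R w x} ∧ w ∈ {w | w ≠ x}}} :=
      ⟨_, rfl⟩
    rw [← hBdef] at hBs
    have hBm : ∀ w, w ∈ B ↔ w ∈ G ∧ M.Le R w x ∧ w ≠ x := by
      intro w; rw [hBdef]; rfl
    have hBG : B ⊆ G := fun w hw => ((hBm w).1 hw).1
    have hup : ∀ w ∈ B, M.Fin {y | y ∈ G ∧ M.Le R y w} := by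
      intro w hw
      obtain ⟨h1, h2, h3⟩ := (hBm w).1 hw
      rcases hdec w h1 with h | h
      · exact h
      · exact absurd (hL.antisymm w (hGA h1) x (hGA hx) h2 (hmax w h1 h)) h3
    have hBinf : ¬ M.Fin B := by
      intro hf
      apply hinf
      refine fin_union hlt htri hlow hf ?_
      intro y hy
      by_cases hyx : y = x
      · subst hyx
        exact Or.inl ⟨hy, hL.refl _ (hGA hy)⟩
      · rcases hL.total x (hGA hx) y (hGA hy) with h | h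
        · exact Or.inl ⟨hy, h⟩
        · exact Or.inr ((hBm y).2 ⟨hy, h, hyx⟩)
    refine ⟨B, hBs, hBG, hBinf, ?_, two_elts hM.basic hBinf, ?_⟩
    · apply disc hM hL hBs (hBG.trans hGA)
      · rintro w hw ⟨y, hy, hne, hle⟩
        exact ⟨y, hy, hne, hle, fin_sub (hup w hw) fun u hu => ⟨hBG hu.1, hu.2.2⟩⟩
      · rintro w hw ⟨y, hy, hne, hle⟩
        exact ⟨y, hy, hne, hle, fin_sub (hup y hy) fun u hu => ⟨hBG hu.1, hu.2.2⟩⟩
    · intro w hw
      left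
      exact fin_sub (hup w hw) fun u hu => ⟨hBG hu.1, hu.2.2⟩
  push Not at c1 c2
  refine ⟨G, hG, fun _ h => h, hinf, ?_, two_elts hM.basic hinf, ?_⟩
  · apply disc hM hL hG hGA
    · rintro w hw ⟨y, hy, hne, hle⟩
      rcases hdec w hw with h | h
      · exact ⟨y, hy, hne, hle, fin_sub h fun u hu => ⟨hu.1, hu.2.2⟩⟩
      · obtain ⟨z, hz, hz1, hz2⟩ := c2 w hw h
        have hzw : M.Le R z w := (hL.total w (hGA hw) z (hGA hz)).resolve_left hz2
        refine ⟨z, hz, ?_, hzw, fin_sub hz1 fun u hu => ⟨hu.1, hu.2.1⟩⟩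
        rintro rfl
        exact hz2 (hL.refl _ (hGA hz))
    · rintro w hw ⟨y, hy, hne, hle⟩
      rcases hdec w hw with h | h
      · obtain ⟨z, hz, hz1, hz2⟩ := c1 w hw h
        have hzw : M.Le R w z := (hL.total z (hGA hz) w (hGA hw)).resolve_left hz2
        refine ⟨z, hz, ?_, hzw, fin_sub hz1 fun u hu => ⟨hu.1, hu.2.2⟩⟩
        rintro rfl
        exact hz2 (hL.refl _ (hGA hz))
      · exact ⟨y, hy, hne, hle, fin_sub h fun u hu => ⟨hu.1, hu.2.1⟩⟩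
  · intro w hw
    rcases hdec w hw with h | h
    · exact Or.inl (fin_sub h fun u hu => ⟨hu.1, hu.2.2⟩)
    · exact Or.inr (fin_sub h fun u hu => ⟨hu.1, hu.2.2⟩)


end Pool.Agent.Helper317.SOA
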