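import Pool.Agent.Helper317.CADS.BaseSt
import Pool.Agent.Helper317.CADS.Fams
import Pool.Agent.Helper317.CADS.Book
import Pool.Agent.Helper317.CADS.Rca
import Pool.Agent.Helper317.CADS.Trim

/-!
The union of the chain.
-/

namespace Pool.Agent.Helper317.CADS

open Function Filter Pool.Agent.Helper317.SOA

variable {FF : Set (ℕ → ℕ)} {I M X : Set H}

theorem Good.ext (hF : Ops FF) (hG : Good FF I M X) {M' : Set H} (hM' : Mdl FF M')
    (hsub : M ⊆ M') (hI : ∀ x ∈ M', x ∈ I) : Good FF I M' X where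
  mdl := hM'
  sub := hI
  cof := fun x hx => by obtain ⟨b, hb, h⟩ := hG.cof x hx; exact ⟨b, hsub hb, h⟩
  down := hG.down
  xsub := hG.xsub
  cod := by
    intro b hb
    obtain ⟨c, hc, hbc⟩ := hG.cof b (hI b hb)
    obtain ⟨z, hz, hs⟩ := hG.cod c hc
    exact ⟨_, hM'.ap _ hF.cut _ (hM'.pp _ hb _ (hsub hz)), seg_cut hs hbc⟩
  sc := hG.sc

theorem Sig.weak {M' : Set H} (h : M ⊆ M') {P : H → Prop} (hP : Sig FF I M X P) :
    Sig FF I M' X P := by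
  obtain ⟨F, hF, p, hp, h1⟩ := hP
  exact ⟨F, hF, p, h hp, h1⟩

theorem Del.of_sig {M' X' : Set H} (h : ∀ P : H → Prop, Sig FF I M X P → Sig FF I M' X' P)
    {A : Set H} (hA : Del FF I M X A) : Del FF I M' X' A :=
  ⟨hA.1, h _ hA.2.1, h _ hA.2.2⟩

theorem Sig.sub1 (hF : Ops FF) (hG : Good FF I M X) {P : H → Prop} (hP : Sig FF I M X P)
    {G : ℕ → ℕ} (h : G ∈ FF) : Sig FF I M X fun y => P (ap G y) := by
  have h1 := Sig.sub hF hG hP (hF.comp _ h _ hF.snd) (hG.mdl.st 0)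
  refine h1.congr' fun y => ?_
  have : ap (fun x => G x.unpair.2) (pp (st 0) y) = ap G y := by
    obtain ⟨y, rfl⟩ := y.rep
    simp only [ap_coe, pp_coe, st_coe, Nat.unpair_pair]
  rw [this]

theorem Sig.int1 (hF : Ops FF) (hG : Good FF I M X) {F : ℕ → ℕ} (h : F ∈ FF) :
    Sig FF I M X fun y => ap F y = st 1 := by
  have h1 := Sig.int hF hG (hF.comp _ h _ hF.snd) (hG.mdl.st 0)
  refine h1.congr' fun y => ?_
  have : ap (fun x => F x.unpair.2) (pp (st 0) y) = ap F y := by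
    obtain ⟨y, rfl⟩ := y.rep
    simp only [ap_coe, pp_coe, st_coe, Nat.unpair_pair]
  rw [this]

theorem ap_fst_pp (x y : H) : ap (fun x => x.unpair.1) (pp x y) = x := by
  obtain ⟨x, rfl⟩ := x.rep
  obtain ⟨y, rfl⟩ := y.rep
  simp only [ap_coe, pp_coe, Nat.unpair_pair]

theorem ap_snd_pp (x y : H) : ap (fun x => x.unpair.2) (pp x y) = y := by
  obtain ⟨x, rfl⟩ := x.rep
  obtain ⟨y, rfl⟩ := y.rep
  simp only [ap_coe, pp_coe, Nat.unpair_pair]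

theorem ap_21_pp (x y z : H) : ap (fun x => x.unpair.2.unpair.1) (pp x (pp y z)) = y := by
  obtain ⟨x, rfl⟩ := x.rep
  obtain ⟨y, rfl⟩ := y.rep
  obtain ⟨z, rfl⟩ := z.rep
  simp only [ap_coe, pp_coe, Nat.unpair_pair]

theorem ap_22_pp (x y z : H) : ap (fun x => x.unpair.2.unpair.2) (pp x (pp y z)) = z := by
  obtain ⟨x, rfl⟩ := x.rep
  obtain ⟨y, rfl⟩ := y.rep
  obtain ⟨z, rfl⟩ := z.rep
  simp only [ap_coe, pp_coe, Nat.unpair_pair]

theorem ap_comp (F G : ℕ → ℕ) (x : H) : ap (fun y => F (G y)) x = ap F (ap G x) := by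
  obtain ⟨x, rfl⟩ := x.rep
  simp only [ap_coe]

theorem ap_pair (F G : ℕ → ℕ) (x : H) :
    ap (fun y => Nat.pair (F y) (G y)) x = pp (ap F x) (ap G x) := by
  obtain ⟨x, rfl⟩ := x.rep
  simp only [ap_coe, pp_coe]

/-- if the axioms of linear orders hold on `M` they hold on the cut -/
theorem linI_of (hF : Ops FF) (hprF : (fun w : ℕ => pr w.unpair.1 w.unpair.2) ∈ FF)
    (hne : chi (fun w : ℕ => w.unpair.1 ≠ w.unpair.2) ∈ FF) (hG : Good FF I M X)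
    {A R : Set H} (hA : Del FF I M X A) (hR : Del FF I M X R)
    (h1 : ∀ x ∈ M, x ∈ A → leR R x x)
    (h2 : ∀ x ∈ M, ∀ y ∈ M, x ∈ A → y ∈ A → leR R x y → leR R y x → x = y)
    (h3 : ∀ x ∈ M, ∀ y ∈ M, ∀ z ∈ M, x ∈ A → y ∈ A → z ∈ A → leR R x y → leR R y z → leR R x z)
    (h4 : ∀ x ∈ M, ∀ y ∈ M, x ∈ A → y ∈ A → leR R x y ∨ leR R y x) : LinI A R := by
  -- coordinate functions
  have f1 : (fun x : ℕ => x.unpair.1) ∈ FF := hF.fst
  have f2 : (fun x : ℕ => x.unpair.2) ∈ FF := hF.snd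
  have f21 : (fun x : ℕ => x.unpair.2.unpair.1) ∈ FF := hF.comp _ hF.fst _ hF.snd
  have f22 : (fun x : ℕ => x.unpair.2.unpair.2) ∈ FF := hF.comp _ hF.snd _ hF.snd
  have hrel : ∀ (F G : ℕ → ℕ), F ∈ FF → G ∈ FF →
      (Sig FF I M X fun w => leR R (ap F w) (ap G w)) ∧
      (Sig FF I M X fun w => ¬ leR R (ap F w) (ap G w)) := by
    intro F G h5 h6
    have h7 : (fun x : ℕ => pr (Nat.pair (F x) (G x)).unpair.1 (Nat.pair (F x) (G x)).unpair.2) ∈ FF :=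
      hF.comp _ hprF _ (hF.pair _ h5 _ h6)
    have h8 : ∀ w : H, ap (fun x : ℕ => pr (Nat.pair (F x) (G x)).unpair.1
        (Nat.pair (F x) (G x)).unpair.2) w = ap2 pr (ap F w) (ap G w) := by
      intro w
      obtain ⟨w, rfl⟩ := w.rep
      simp only [ap_coe, ap2_coe, Nat.unpair_pair]
    refine ⟨(Sig.sub1 hF hG hR.2.1 h7).congr' fun w => ?_, (Sig.sub1 hF hG hR.2.2 h7).congr' fun w => ?_⟩
    · rw [h8]; rfl
    · rw [h8]; rfl
  have hmemA : ∀ F : ℕ → ℕ, F ∈ FF → Sig FF I M X fun w => ap F w ∈ A := fun F h5 =>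
    Sig.sub1 hF hG hA.2.1 h5
  refine ⟨?_, ?_, ?_, ?_⟩
  · intro x hx
    by_contra hcon
    have hS : Sig FF I M X fun w => ap (fun x => x) w ∈ A ∧ ¬ leR R (ap (fun x => x) w) (ap (fun x => x) w) :=
      Sig.and hF hG (hmemA _ hF.id) (hrel _ _ hF.id hF.id).2
    have hid : ∀ w : H, ap (fun x => x) w = w := by
      intro w
      obtain ⟨w, rfl⟩ := w.rep
      simp only [ap_coe]
    obtain ⟨w, hw, h5⟩ := hS.witness hF hG ⟨x, hA.1 x hx, by rw [hid]; exact ⟨hx, hcon⟩⟩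
    rw [hid] at h5
    exact h5.2 (h1 w hw h5.1)
  · intro x hx y hy hxy hyx
    by_contra hcon
    have hneS : Sig FF I M X fun w => ap (fun x => x.unpair.1) w ≠ ap (fun x => x.unpair.2) w := by
      refine (Sig.int1 hF hG hne).congr' fun w => ?_
      obtain ⟨w, rfl⟩ := w.rep
      simp only [ap_coe, st_coe, eq_coe, chi_eq, ne_eq, ev_not]
    have hS := Sig.and hF hG (Sig.and hF hG (hmemA _ f1) (hmemA _ f2))
      (Sig.and hF hG (Sig.and hF hG (hrel _ _ f1 f2).1 (hrel _ _ f2 f1).1) hneS)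
    obtain ⟨w, hw, ⟨h5, h6⟩, ⟨h7, h8⟩, h9⟩ := hS.witness hF hG ⟨pp x y, I_pp hG (hA.1 x hx) (hA.1 y hy), by
      rw [ap_fst_pp, ap_snd_pp]
      exact ⟨⟨hx, hy⟩, ⟨hxy, hyx⟩, hcon⟩⟩
    exact h9 (h2 _ (hG.mdl.ap _ f1 _ hw) _ (hG.mdl.ap _ f2 _ hw) h5 h6 h7 h8)
  · intro x hx y hy z hz hxy hyz
    by_contra hcon
    have hS := Sig.and hF hG (Sig.and hF hG (hmemA _ f1) (Sig.and hF hG (hmemA _ f21) (hmemA _ f22)))
      (Sig.and hF hG (Sig.and hF hG (hrel _ _ f1 f21).1 (hrel _ _ f21 f22).1) (hrel _ _ f1 f22).2)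
    obtain ⟨w, hw, ⟨h5, h6, h6'⟩, ⟨h7, h8⟩, h9⟩ := hS.witness hF hG
      ⟨pp x (pp y z), I_pp hG (hA.1 x hx) (I_pp hG (hA.1 y hy) (hA.1 z hz)), by
      rw [ap_fst_pp, ap_21_pp, ap_22_pp]
      exact ⟨⟨hx, hy, hz⟩, ⟨hxy, hyz⟩, hcon⟩⟩
    exact h9 (h3 _ (hG.mdl.ap _ f1 _ hw) _ (hG.mdl.ap _ f21 _ hw) _ (hG.mdl.ap _ f22 _ hw) h5 h6 h6' h7 h8)
  · intro x hx y hy
    by_contra hcon
    rw [not_or] at hcon
    have hS := Sig.and hF hG (Sig.and hF hG (hmemA _ f1) (hmemA _ f2))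
      (Sig.and hF hG (hrel _ _ f1 f2).2 (hrel _ _ f2 f1).2)
    obtain ⟨w, hw, ⟨h5, h6⟩, ⟨h7, h8⟩⟩ := hS.witness hF hG ⟨pp x y, I_pp hG (hA.1 x hx) (hA.1 y hy), by
      rw [ap_fst_pp, ap_snd_pp]
      exact ⟨⟨hx, hy⟩, hcon⟩⟩
    rcases h4 _ (hG.mdl.ap _ f1 _ hw) _ (hG.mdl.ap _ f2 _ hw) h5 h6 with h | h
    · exact h7 h
    · exact h8 h

theorem Del.inter (hF : Ops FF) (hG : Good FF I M X) {A B : Set H} (hA : Del FF I M X A)
    (hB : Del FF I M X B) : Del FF I M X {x | x ∈ A ∧ x ∈ B} := by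
  refine ⟨fun x hx => hA.1 x hx.1, Sig.and hF hG hA.2.1 hB.2.1, ?_⟩
  refine (Sig.or hF hG hA.2.2 hB.2.2).congr' fun y => ?_
  rw [Set.mem_ofPred_eq, not_and_or]

theorem fm_pair (hF : Fam FF) (hM : Mdl FF M) (S : Set (Set H)) (x y : (FM hF hM S).Num) :
    ((FM hF hM S).pair x y).1 = ap2 pr x.1 y.1 := by
  change ap2 (fun a b => a + b) (ap2 (fun a b => a * b) (ap2 (fun a b => a + b) x.1 y.1)
    (ap2 (fun a b => a + b) x.1 y.1)) x.1 = ap2 pr x.1 y.1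
  obtain ⟨x, hx⟩ := x
  obtain ⟨y, hy⟩ := y
  simp only
  clear hx hy
  obtain ⟨x, rfl⟩ := x.rep
  obtain ⟨y, rfl⟩ := y.rep
  simp only [ap2_coe, pr]

/-- order between states -/
def leS (FF : Set (ℕ → ℕ)) (I : Set H) (s s' : Set H × Set H) : Prop :=
  s.1 ⊆ s'.1 ∧ (∀ P, Sig FF I s.1 s.2 P → Sig FF I s'.1 s'.2 P) ∧
    ∀ A1 R1 : Set H, Del FF I s.1 s.2 A1 → Del FF I s.1 s.2 R1 → LinI A1 R1 → Unb I A1 →
      Stab I s.1 A1 R1 → Stab I s'.1 A1 R1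

/-- tasks of a state -/
def tasksS (FF : Set (ℕ → ℕ)) (I : Set H) (s : Set H × Set H) : Set (Set H × Set H) :=
  {t | Del FF I s.1 s.2 t.1 ∧ Del FF I s.1 s.2 t.2 ∧ LinI t.1 t.2 ∧ Unb I t.1}

/-- successor steps -/
def stepS (FF : Set (ℕ → ℕ)) (I R0 : Set H) (s t s' : Set H × Set H) : Prop :=
  (∃ G, s'.2 = join s.2 G) ∧
  (∃ A' : Set H, A' ⊆ t.1 ∧ Del FF I s'.1 s'.2 A' ∧ Unb I A' ∧ Stab I s'.1 A' t.2) ∧
  ∀ Z : Set H, Del FF I s.1 s.2 Z → Unb I Z → ∃ c ∈ s'.1, ∀ b ∈ I,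
    (∃ z ∈ Z, b ≤ z ∧ ap2 pr c z ∈ R0) ∧ (∃ z ∈ Z, b ≤ z ∧ ap2 pr c z ∉ R0)

theorem leS_trans (a b c : Set H × Set H) (h1 : leS FF I a b) (h2 : leS FF I b c) :
    leS FF I a c := by
  refine ⟨h1.1.trans h2.1, fun P hP => h2.2.1 P (h1.2.1 P hP), ?_⟩
  intro A1 R1 hA hR hl hu hs
  exact h2.2.2 A1 R1 (hA.of_sig h1.2.1) (hR.of_sig h1.2.1) hl hu (h1.2.2 A1 R1 hA hR hl hu hs)

theorem pr_inj {a b c d : ℕ} (h : pr a b = pr c d) : a = c ∧ b = d := by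
  unfold pr at h
  have h1 : a + b = c + d := by
    rcases Nat.lt_trichotomy (a + b) (c + d) with h2 | h2 | h2
    · exfalso; nlinarith
    · exact h2
    · exfalso; nlinarith
  rw [h1] at h
  omega

/-- the cut has a decidable linear order -/
theorem exists_task (hF : Ops FF) (hpr : (fun w : ℕ => pr w.unpair.1 w.unpair.2) ∈ FF)
    (hFF : OpsF FF) (hG : Good FF I M X) :
    (tasksS FF I (M, X)).Nonempty := by
  have hI : Del FF I M X I := by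
    refine ⟨fun x hx => hx, ?_, ?_⟩
    · have h1 := Sig.int hF hG (hF.const 1) (hG.mdl.st 0)
      obtain ⟨F, hF1, p, hp, h2⟩ := h1
      refine ⟨F, hF1, p, hp, fun y hy => ?_⟩
      rw [← h2 y hy]
      simp only [hy, true_iff]
      obtain ⟨y, rfl⟩ := y.rep
      simp only [ap_coe, pp_coe, st_coe]
    · have h1 := Sig.int hF hG (hF.const 0) (hG.mdl.st 0)
      obtain ⟨F, hF1, p, hp, h2⟩ := h1
      refine ⟨F, hF1, p, hp, fun y hy => ?_⟩
      rw [← h2 y hy]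
      simp only [hy, not_true_eq_false, false_iff]
      obtain ⟨y, rfl⟩ := y.rep
      simp only [ap_coe, pp_coe, st_coe, eq_coe, ev_const]
      omega
  set R : Set H := {w | w ∈ I ∧ ∃ x ≤ w, ∃ y ≤ w, w = ap2 pr x y ∧ x ≤ y} with hR
  have hRD : Del FF I M X R := by
    refine ⟨fun x hx => hx.1, ?_, ?_⟩
    · have h1 := Sig.int hF hG hFF.leT (hG.mdl.st 0)
      obtain ⟨F, hF1, p, hp, h2⟩ := h1
      refine ⟨F, hF1, p, hp, fun w hw => ?_⟩
      rw [← h2 w hw, hR]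
      simp only [Set.mem_ofPred_eq, hw, true_and]
      obtain ⟨w, rfl⟩ := w.rep
      simp only [H.ex, ap_coe, pp_coe, st_coe, eq_coe, le_coe, ap2_coe, chi_eq, ev_and, ev_ex,
        Nat.unpair_pair]
    · have h1 := Sig.int hF hG hFF.leF (hG.mdl.st 0)
      obtain ⟨F, hF1, p, hp, h2⟩ := h1
      refine ⟨F, hF1, p, hp, fun w hw => ?_⟩
      rw [← h2 w hw, hR]
      simp only [Set.mem_ofPred_eq, hw, true_and]
      obtain ⟨w, rfl⟩ := w.rep
      simp only [H.ex, ap_coe, pp_coe, st_coe, eq_coe, le_coe, ap2_coe, chi_eq, ev_and, ev_ex,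
        Nat.unpair_pair, ev_not]
  have hle : ∀ x ∈ I, ∀ y ∈ I, leR R x y ↔ x ≤ y := by
    intro x hx y hy
    have h3 : ap2 pr x y ∈ I := by
      have := I_ap hF hG (G := fun w : ℕ => pr w.unpair.1 w.unpair.2) hpr hx hy
      exact this
    unfold leR
    rw [hR]
    simp only [Set.mem_ofPred_eq, h3, true_and]
    clear hx hy h3 hR hRD hI
    obtain ⟨x, rfl⟩ := x.rep
    obtain ⟨y, rfl⟩ := y.rep
    simp only [H.ex, eq_coe, le_coe, ap2_coe]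
    constructor
    · rintro ⟨u, _, v, _, h6, h7⟩
      exact (h6.and h7).mp fun n ⟨h8, h9⟩ => by
        obtain ⟨h10, h11⟩ := pr_inj h8
        omega
    · intro h
      refine ⟨x, ?_, y, ?_, ?_, h⟩
      · refine ev_of_forall fun n => ?_
        simp only [pr]; nlinarith
      · refine ev_of_forall fun n => ?_
        simp only [pr]
        nlinarith [Nat.le_mul_self (x n + y n)]
      · exact ev_of_forall fun n => rfl
  refine ⟨(I, R), hI, hRD, ⟨?_, ?_, ?_, ?_⟩, ?_⟩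
  · intro x hx; exact (hle x hx x hx).2 le_rfl
  · intro x hx y hy h1 h2
    exact le_antisymm ((hle x hx y hy).1 h1) ((hle y hy x hx).1 h2)
  · intro x hx y hy z hz h1 h2
    exact (hle x hx z hz).2 (((hle x hx y hy).1 h1).trans ((hle y hy z hz).1 h2))
  · intro x hx y hy
    rcases le_total x y with h | h
    · exact Or.inl ((hle x hx y hy).2 h)
    · exact Or.inr ((hle y hy x hx).2 h)
  · intro b hb; exact ⟨b, hb, le_rfl⟩

theorem main : ∃ 𝔐 : Model, RCA0 𝔐 ∧ SOA.CADS 𝔐 ∧ ¬ SOA.COH 𝔐 := by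
  obtain ⟨FF, hS, hB, hU, hFF⟩ := exists_family
  have hF := hS.ops
  obtain ⟨I, M0, X0, R0, n, ρ, hM0, hn, hbig, hInv0, hlim⟩ := base hS hB
  -- the chain
  obtain ⟨f, hf0, hInv, hle, hstep, hbook⟩ := bookkeeping
    (S := Set H × Set H) (U := Set H × Set H)
    (fun s => Inv FF I n M0 ρ R0 s.1 s.2) (tasksS FF I) (leS FF I) (stepS FF I R0)
    (fun s => ⟨subset_rfl, fun P h => h, fun A1 R1 _ _ _ _ h => h⟩)
    (fun a b c h1 h2 => leS_trans a b c h1 h2)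
    (fun s hs => by
      have h1 := j3146_del_countable (I := I) (X := s.2) hS.cnt hs.cnt
      refine (h1.prod h1).mono ?_
      rintro ⟨A, R⟩ ⟨h2, h3, -⟩
      exact ⟨h2, h3⟩)
    (fun s s' _ _ hl t ht => ⟨ht.1.of_sig hl.2.1, ht.2.1.of_sig hl.2.1, ht.2.2⟩)
    (fun s hs t ht => by
      obtain ⟨M', G, h1, h2, h3, h4, h5, h6⟩ := stage hS hM0 hn hbig hlim hs ht.1 ht.2.1 ht.2.2.1
        ht.2.2.2
      exact ⟨(M', join s.2 G), h1, ⟨h2, h4, h5⟩, ⟨G, rfl⟩, h3, h6⟩)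
    (fun s hs => exists_task hF hS.opsN.pr hFF hs.good)
    (M0, X0) hInv0
  set Ms : ℕ → Set H := fun k => (f k).1 with hMs
  set Xs : ℕ → Set H := fun k => (f k).2 with hXs
  have hgood : ∀ k, Good FF I (Ms k) (Xs k) := fun k => (hInv k).good
  have hMmono : ∀ k l, k ≤ l → Ms k ⊆ Ms l := by
    intro k l h
    induction l, h using Nat.le_induction with
    | base => exact subset_rfl
    | succ l _ ih => exact ih.trans (hle l).1
  have hXsucc : ∀ k, ∃ G, Xs (k + 1) = join (Xs k) G := fun k => by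
    obtain ⟨t, ht⟩ := hstep k
    exact ht.1
  set M : Set H := ⋃ k, Ms k with hMdef
  have hsubM : ∀ k, Ms k ⊆ M := fun k => Set.subset_iUnion Ms k
  have hMdl : Mdl FF M := by
    refine ⟨fun k => hsubM 0 ((hgood 0).mdl.st k), ?_, ?_⟩
    · intro F hF1 x hx
      obtain ⟨k, hk⟩ := Set.mem_iUnion.1 hx
      exact hsubM k ((hgood k).mdl.ap F hF1 x hk)
    · intro x hx y hy
      obtain ⟨k, hk⟩ := Set.mem_iUnion.1 hx
      obtain ⟨l, hl⟩ := Set.mem_iUnion.1 hy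
      exact hsubM (max k l) ((hgood _).mdl.pp x (hMmono _ _ (le_max_left _ _) hk) y
        (hMmono _ _ (le_max_right _ _) hl))
  have hMI : ∀ x ∈ M, x ∈ I := by
    intro x hx
    obtain ⟨k, hk⟩ := Set.mem_iUnion.1 hx
    exact (hgood k).sub x hk
  have hgM : ∀ k, Good FF I M (Xs k) := fun k => (hgood k).ext hF hMdl (hsubM k) hMI
  have hgkl : ∀ k l, k ≤ l → Good FF I (Ms l) (Xs k) := fun k l h =>
    (hgood k).ext hF (hgood l).mdl (hMmono k l h) (hgood l).sub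
  have hmono : ∀ k, ∀ P : H → Prop, Sig FF I M (Xs k) P → Sig FF I M (Xs (k + 1)) P := by
    intro k P hP
    obtain ⟨G, hG⟩ := hXsucc k
    have h1 := hgM (k + 1)
    rw [hG] at h1 ⊢
    exact Sig.mono hF (hgM k) subset_rfl h1 hP
  -- relations over the union live at a finite stage
  have hfin : ∀ k, ∀ P : H → Prop, Sig FF I M (Xs k) P → ∃ l, ∀ l' ≥ l, Sig FF I (Ms l') (Xs l') P := by
    rintro k P ⟨F, hF1, p, hp, h1⟩
    obtain ⟨l, hl⟩ := Set.mem_iUnion.1 hp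
    refine ⟨max k l, fun l' hl' => ?_⟩
    have h2 : Sig FF I (Ms l') (Xs k) P :=
      ⟨F, hF1, p, hMmono l l' ((le_max_right _ _).trans hl') hl, h1⟩
    have h3 : ∀ j, k ≤ j → j ≤ l' → Sig FF I (Ms l') (Xs j) P := by
      intro j hj
      induction j, hj using Nat.le_induction with
      | base => exact fun _ => h2
      | succ j hkj ih =>
        intro hjl
        have h4 := ih (by omega)
        obtain ⟨G, hG⟩ := hXsucc j
        have h5 := hgkl (j + 1) l' hjl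
        rw [hG] at h5 ⊢
        exact Sig.mono hF (hgkl j l' (by omega)) subset_rfl h5 h4
    exact h3 l' ((le_max_left _ _).trans hl') le_rfl
  have hfinD : ∀ A : Set H, (∃ k, Del FF I M (Xs k) A) → ∃ l, ∀ l' ≥ l, Del FF I (Ms l') (Xs l') A := by
    rintro A ⟨k, hA⟩
    obtain ⟨l1, h1⟩ := hfin k _ hA.2.1
    obtain ⟨l2, h2⟩ := hfin k _ hA.2.2
    exact ⟨max l1 l2, fun l' hl' => ⟨hA.1, h1 l' ((le_max_left _ _).trans hl'),
      h2 l' ((le_max_right _ _).trans hl')⟩⟩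
  have hup : ∀ l A, Del FF I (Ms l) (Xs l) A → Del FF I M (Xs l) A := fun l A h =>
    h.of_sig fun P hP => hP.weak (hsubM l)
  set S : Set (Set H) := {A | ∃ k, Del FF I M (Xs k) A} with hSdef
  refine ⟨FM hF.toFam hMdl S, fm_rca hF hU hMdl Xs hgM hmono, ?_, ?_⟩
  · -- CADS
    rintro A R hL hinf
    obtain ⟨A1, hA1, rfl⟩ := hL.dom
    obtain ⟨R1, hR1, rfl⟩ := hL.rel
    have hLe : ∀ x y : (FM hF.toFam hMdl S).Num,
        (FM hF.toFam hMdl S).Le {x | x.1 ∈ R1} x y ↔ leR R1 x.1 y.1 := by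
      intro x y
      unfold Model.Le leR
      rw [← fm_pair]
      rfl
    obtain ⟨l1, h1⟩ := hfinD A1 hA1
    obtain ⟨l2, h2⟩ := hfinD R1 hR1
    set l := max l1 l2
    have hA2 := h1 l (le_max_left _ _)
    have hR2 := h2 l (le_max_right _ _)
    have hlin : LinI A1 R1 := by
      refine linI_of hF hS.opsN.pr hS.ne (hgM l) (hup l _ hA2) (hup l _ hR2) ?_ ?_ ?_ ?_
      · intro x hx hxA
        exact (hLe ⟨x, hx⟩ ⟨x, hx⟩).1 (hL.refl ⟨x, hx⟩ hxA)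
      · intro x hx y hy hxA hyA h3 h4
        exact congrArg Subtype.val (hL.antisymm ⟨x, hx⟩ hxA ⟨y, hy⟩ hyA
          ((hLe ⟨x, hx⟩ ⟨y, hy⟩).2 h3) ((hLe ⟨y, hy⟩ ⟨x, hx⟩).2 h4))
      · intro x hx y hy z hz hxA hyA hzA h3 h4
        exact (hLe ⟨x, hx⟩ ⟨z, hz⟩).1 (hL.trans ⟨x, hx⟩ hxA ⟨y, hy⟩ hyA ⟨z, hz⟩ hzA
          ((hLe ⟨x, hx⟩ ⟨y, hy⟩).2 h3) ((hLe ⟨y, hy⟩ ⟨z, hz⟩).2 h4))
      · intro x hx y hy hxA hyA
        exact (hL.total ⟨x, hx⟩ hxA ⟨y, hy⟩ hyA).imp (hLe ⟨x, hx⟩ ⟨y, hy⟩).1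
          (hLe ⟨y, hy⟩ ⟨x, hx⟩).1
    have hunb : Unb I A1 := by
      intro b hb
      obtain ⟨b0, hb0, hbb⟩ := (hgM 0).cof b hb
      by_contra hcon
      push Not at hcon
      exact hinf ⟨⟨b0, hb0⟩, fun x hx => lt_of_lt_of_le (hcon x.1 hx) hbb⟩
    obtain ⟨l', hl', -, ⟨A', hA'A, hA'D, hA'u, hA's⟩, -⟩ := hbook l (A1, R1) ⟨hA2, hR2, hlin, hunb⟩
    have hlin' : LinI A' R1 := ⟨fun x hx => hlin.refl x (hA'A hx),
      fun x hx y hy => hlin.antisymm x (hA'A hx) y (hA'A hy),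
      fun x hx y hy z hz => hlin.trans x (hA'A hx) y (hA'A hy) z (hA'A hz),
      fun x hx y hy => hlin.total x (hA'A hx) y (hA'A hy)⟩
    have hall : ∀ j, l' + 1 ≤ j → Del FF I (Ms j) (Xs j) A' ∧ Del FF I (Ms j) (Xs j) R1 ∧
        Stab I (Ms j) A' R1 := by
      intro j hj
      induction j, hj using Nat.le_induction with
      | base => exact ⟨hA'D, h2 (l' + 1) (by
          have := le_max_right l1 l2
          omega), hA's⟩
      | succ j _ ih =>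
        exact ⟨ih.1.of_sig (hle j).2.1, ih.2.1.of_sig (hle j).2.1,
          (hle j).2.2 A' R1 ih.1 ih.2.1 hlin' hA'u ih.2.2⟩
    have hstab : Stab I M A' R1 := by
      intro x hx hxA
      obtain ⟨k, hk⟩ := Set.mem_iUnion.1 hx
      exact (hall (max k (l' + 1)) (le_max_right _ _)).2.2 x (hMmono _ _ (le_max_left _ _) hk) hxA
    have hA'M := hup (l' + 1) _ hA'D
    refine SOA.trim _ (fm_rca hF hU hMdl Xs hgM hmono) ?_ ?_ _ _ hL {x | x.1 ∈ A'}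
      ⟨A', ⟨l' + 1, hA'M⟩, rfl⟩ (fun x hx => hA'A hx) ?_ ?_ |>.imp fun B hB =>
        ⟨hB.1, hB.2.1.trans fun x hx => hA'A hx, hB.2.2⟩
    · intro x y z h3 h4
      exact lt_trans (a := x.1) h3 h4
    · intro x y
      rcases lt_trichotomy x.1 y.1 with h | h | h
      · exact Or.inl h
      · exact Or.inr (Or.inl (Subtype.ext h))
      · exact Or.inr (Or.inr h)
    · rintro ⟨b, hb⟩
      obtain ⟨y, hy, hby⟩ := hA'u b.1 (hMI _ b.2)
      have hSg : Sig FF I M (Xs (l' + 1)) fun y => y ∈ A' ∧ ap (chi fun w : ℕ =>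
          w.unpair.1 ≤ w.unpair.2) (pp b.1 y) = st 1 :=
        Sig.and hF (hgM _) hA'M.2.1 (Sig.int hF (hgM _) hS.opsN.le b.2)
      have hch : ∀ y : H, ap (chi fun w : ℕ => w.unpair.1 ≤ w.unpair.2) (pp b.1 y) = st 1 ↔ b.1 ≤ y := by
        intro y
        obtain ⟨b', hb'⟩ := b.1.rep
        obtain ⟨y, rfl⟩ := y.rep
        rw [hb']
        simp only [ap_coe, pp_coe, st_coe, eq_coe, le_coe, chi_eq, Nat.unpair_pair]
      obtain ⟨y', hy', h5, h6⟩ := hSg.witness hF (hgM _) ⟨y, hA'M.1 y hy, hy, (hch y).2 hby⟩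
      exact absurd (hb ⟨y', hy'⟩ h5) (not_lt_of_ge ((hch y').1 h6))
    · intro x hx
      have hsuc : ∀ b : H, b ∈ I → ∃ b' : (FM hF.toFam hMdl S).Num, b ≤ b'.1 ∧ x.1 < b'.1 := by
        intro b hb
        obtain ⟨b0, hb0, hbb⟩ := (hgM 0).cof b hb
        rcases le_total b0 x.1 with h | h
        · refine ⟨⟨x.1 + st 1, j3146_add hMdl hF.toFam _ x.2 _ (hMdl.st 1)⟩, ?_, j3146_lt _ _ le_rfl⟩
          exact (hbb.trans h).trans (j3146_lt _ _ le_rfl).le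
        · refine ⟨⟨b0 + st 1, j3146_add hMdl hF.toFam _ hb0 _ (hMdl.st 1)⟩, ?_, j3146_lt _ _ h⟩
          exact hbb.trans (j3146_lt _ _ le_rfl).le
      rcases hstab x.1 x.2 hx with ⟨b, hb, h5⟩ | ⟨b, hb, h5⟩
      · left
        obtain ⟨b', hb', hxb⟩ := hsuc b hb
        refine ⟨b', fun y hy => ?_⟩
        by_contra hcon
        have h6 : b ≤ y.1 := hb'.trans (not_lt.1 hcon)
        have h7 := h5 y.1 hy.1 h6
        have h8 := hlin'.antisymm _ hx _ hy.1 h7 ((hLe y x).1 hy.2)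
        rw [h8] at hxb
        exact hcon hxb
      · right
        obtain ⟨b', hb', hxb⟩ := hsuc b hb
        refine ⟨b', fun y hy => ?_⟩
        by_contra hcon
        have h6 : b ≤ y.1 := hb'.trans (not_lt.1 hcon)
        have h7 := h5 y.1 hy.1 h6
        have h8 := hlin'.antisymm _ hx _ hy.1 ((hLe x y).1 hy.2) h7
        rw [h8] at hxb
        exact hcon hxb
  · -- not COH
    intro hcoh
    have hR0 : Del FF I (Ms 0) (Xs 0) R0 := (hInv 0).r0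
    obtain ⟨C, ⟨Z, hZ, rfl⟩, hCinf, hC⟩ := hcoh {x | x.1 ∈ R0} ⟨R0, ⟨0, hup 0 _ hR0⟩, rfl⟩
    obtain ⟨l, hl⟩ := hfinD Z hZ
    have hZl := hl l le_rfl
    have hunb : Unb I Z := by
      intro b hb
      obtain ⟨b0, hb0, hbb⟩ := (hgM 0).cof b hb
      by_contra hcon
      push Not at hcon
      exact hCinf ⟨⟨b0, hb0⟩, fun x hx => lt_of_lt_of_le (hcon x.1 hx) hbb⟩
    obtain ⟨t, -, -, ht⟩ := hstep l
    obtain ⟨c, hc, hcb⟩ := ht Z hZl hunb
    have hcM : c ∈ M := hsubM (l + 1) hc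
    have hgl := hgM l
    have hZM := hup l _ hZl
    have hR0M : Del FF I M (Xs l) R0 := hup l _ (hInv l).r0
    have hprc : (fun x : ℕ => pr x.unpair.1.unpair.1 x.unpair.2) ∈ FF := by
      have h1 : (fun x : ℕ => pr (Nat.pair x.unpair.1.unpair.1 x.unpair.2).unpair.1
          (Nat.pair x.unpair.1.unpair.1 x.unpair.2).unpair.2) ∈ FF :=
        hF.comp _ hS.opsN.pr _ (hF.pair _ (hF.comp _ hF.fst _ hF.fst) _ hF.snd)
      simpa only [Nat.unpair_pair] using h1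
    have hrel : ∀ b ∈ M, (Sig FF I M (Xs l) fun z => (z ∈ Z ∧ ap2 pr c z ∈ R0) ∧ b ≤ z) ∧
        (Sig FF I M (Xs l) fun z => (z ∈ Z ∧ ap2 pr c z ∉ R0) ∧ b ≤ z) := by
      intro b hb
      have hch : ∀ y : H, ap (chi fun w : ℕ => w.unpair.1 ≤ w.unpair.2) (pp b y) = st 1 ↔ b ≤ y := by
        intro y
        obtain ⟨b, rfl⟩ := b.rep
        obtain ⟨y, rfl⟩ := y.rep
        simp only [ap_coe, pp_coe, st_coe, eq_coe, le_coe, chi_eq, Nat.unpair_pair]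
      have hle' : Sig FF I M (Xs l) fun z => b ≤ z :=
        (Sig.int hF hgl hS.opsN.le hb).congr' hch
      have hpc : ∀ z : H, ap (fun w : ℕ => pr w.unpair.1 w.unpair.2) (pp c z) = ap2 pr c z :=
        fun z => rfl
      have hs1 : Sig FF I M (Xs l) fun z => ap2 pr c z ∈ R0 :=
        (Sig.sub hF hgl hR0M.2.1 hS.opsN.pr hcM).congr' fun z => by rw [hpc]
      have hs2 : Sig FF I M (Xs l) fun z => ap2 pr c z ∉ R0 :=
        (Sig.sub hF hgl hR0M.2.2 hS.opsN.pr hcM).congr' fun z => by rw [hpc]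
      exact ⟨Sig.and hF hgl (Sig.and hF hgl hZM.2.1 hs1) hle',
        Sig.and hF hgl (Sig.and hF hgl hZM.2.1 hs2) hle'⟩
    have hmemR : ∀ z : (FM hF.toFam hMdl S).Num,
        ((FM hF.toFam hMdl S).pair ⟨c, hcM⟩ z ∈ ({x | x.1 ∈ R0} : Set (FM hF.toFam hMdl S).Num) ↔
          ap2 pr c z.1 ∈ R0) := by
      intro z
      have h := fm_pair hF.toFam hMdl S (⟨c, hcM⟩ : (FM hF.toFam hMdl S).Num) z
      constructor
      · intro h2
        have h3 : ((FM hF.toFam hMdl S).pair ⟨c, hcM⟩ z).1 ∈ R0 := h2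
        exact h ▸ h3
      · intro h2
        have h3 : ((FM hF.toFam hMdl S).pair ⟨c, hcM⟩ z).1 ∈ R0 := h.symm ▸ h2
        exact h3
    rcases hC ⟨c, hcM⟩ with ⟨b, hb⟩ | ⟨b, hb⟩
    · obtain ⟨-, z, hz, hbz, hz2⟩ := hcb b.1 (hMI _ b.2)
      obtain ⟨z', hz', ⟨h5, h6⟩, h7⟩ := (hrel b.1 b.2).2.witness hF hgl ⟨z, hZM.1 z hz, ⟨hz, hz2⟩, hbz⟩
      exact absurd (hb ⟨z', hz'⟩ ⟨h5, fun h => h6 ((hmemR ⟨z', hz'⟩).1 h)⟩) (not_lt_of_ge h7)
    · obtain ⟨⟨z, hz, hbz, hz2⟩, -⟩ := hcb b.1 (hMI _ b.2)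
      obtain ⟨z', hz', ⟨h5, h6⟩, h7⟩ := (hrel b.1 b.2).1.witness hF hgl ⟨z, hZM.1 z hz, ⟨hz, hz2⟩, hbz⟩
      exact absurd (hb ⟨z', hz'⟩ ⟨h5, (hmemR ⟨z', hz'⟩).2 h6⟩) (not_lt_of_ge h7)

end Pool.Agent.Helper317.CADS
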