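import Mathlib

/-!
The ultrapower of the natural numbers, pushing of quantifiers, saturation.
-/

namespace Pool.Agent.Helper317.CADS

open Function Filter

/-- eventually along the ultrafilter -/
def Ev (p : ℕ → Prop) : Prop := ∀ᶠ n in (hyperfilter ℕ : Filter ℕ), p n

theorem Ev.mp {p q : ℕ → Prop} (h : Ev p) (hq : ∀ n, p n → q n) : Ev q :=
  Filter.Eventually.mono h hq

theorem Ev.and {p q : ℕ → Prop} (h : Ev p) (hq : Ev q) : Ev fun n => p n ∧ q n :=
  Filter.Eventually.and h hq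

theorem ev_of_forall {p : ℕ → Prop} (h : ∀ n, p n) : Ev p := Filter.Eventually.of_forall h

theorem ev_not {p : ℕ → Prop} : (Ev fun n => ¬ p n) ↔ ¬ Ev p := Ultrafilter.eventually_not

theorem ev_and {p q : ℕ → Prop} : (Ev fun n => p n ∧ q n) ↔ Ev p ∧ Ev q := Filter.eventually_and

theorem ev_or {p q : ℕ → Prop} : (Ev fun n => p n ∨ q n) ↔ Ev p ∨ Ev q := Ultrafilter.eventually_or

theorem ev_imp {p q : ℕ → Prop} : (Ev fun n => p n → q n) ↔ (Ev p → Ev q) := by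
  constructor
  · intro h hp
    exact Filter.Eventually.mp hp h
  · intro h
    by_cases hp : Ev p
    · exact (h hp).mp fun n hn _ => hn
    · exact (ev_not.2 hp).mp fun n hn hp' => absurd hp' hn

theorem ev_iff {p q : ℕ → Prop} : (Ev fun n => (p n ↔ q n)) ↔ (Ev p ↔ Ev q) := by
  simp only [iff_iff_implies_and_implies, ev_and, ev_imp]

theorem ev_const {p : Prop} : (Ev fun _ => p) ↔ p := by
  constructor
  · intro h
    by_contra hp
    have h' : Ev fun _ => ¬ p := ev_of_forall fun _ => hp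
    exact ev_not.1 h' h
  · exact fun h => ev_of_forall fun _ => h

theorem ev_ex {P : ℕ → ℕ → Prop} : (Ev fun n => ∃ y, P n y) ↔ ∃ f : ℕ → ℕ, Ev fun n => P n (f n) := by
  classical
  constructor
  · intro h
    refine ⟨fun n => if h : ∃ y, P n y then h.choose else 0, h.mp fun n hn => ?_⟩
    simp only [dif_pos hn]; exact hn.choose_spec
  · rintro ⟨f, hf⟩
    exact hf.mp fun n hn => ⟨f n, hn⟩

theorem ev_all {P : ℕ → ℕ → Prop} : (Ev fun n => ∀ y, P n y) ↔ ∀ f : ℕ → ℕ, Ev fun n => P n (f n) := by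
  constructor
  · intro h f
    exact h.mp fun n hn => hn _
  · intro h
    by_contra hc
    rw [← ev_not] at hc
    have hc' : Ev fun n => ∃ y, ¬ P n y := hc.mp fun n hn => by push Not at hn; exact hn
    obtain ⟨f, hf⟩ := ev_ex.1 hc'
    exact ev_not.1 hf (h f)

theorem ev_ge (k : ℕ) : Ev fun n => k ≤ n :=
  Nat.hyperfilter_le_atTop (Filter.eventually_ge_atTop k)

theorem ev_forall_lt {p : ℕ → ℕ → Prop} (N : ℕ) (h : ∀ i < N, Ev (p i)) : Ev fun n => ∀ i < N, p i n := by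
  induction N with
  | zero => exact ev_of_forall fun n i hi => absurd hi (Nat.not_lt_zero _)
  | succ N ih =>
    refine ((ih fun i hi => h i (hi.trans (Nat.lt_succ_self _))).and (h N (Nat.lt_succ_self _))).mp ?_
    rintro n ⟨h1, h2⟩ i hi
    rcases Nat.lt_succ_iff_lt_or_eq.1 hi with h3 | rfl
    · exact h1 i h3
    · exact h2

/-- countable saturation -/
theorem saturation (P : ℕ → ℕ → ℕ → Prop) (hmono : ∀ m n y, P (m + 1) n y → P m n y)
    (h : ∀ m, Ev fun n => ∃ y, P m n y) : ∃ y : ℕ → ℕ, ∀ m, Ev fun n => P m n (y n) := by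
  classical
  have hmono' : ∀ m m' n y, m ≤ m' → P m' n y → P m n y := by
    intro m m' n y hm
    induction m', hm using Nat.le_induction with
    | base => exact id
    | succ l _ ih => exact fun h => ih (hmono _ _ _ h)
  let S : ℕ → Finset ℕ := fun n => (Finset.range (n + 1)).filter fun m => ∃ y, P m n y
  have hy : ∀ n, ∃ y, ∀ m ∈ S n, P m n y := by
    intro n
    by_cases hS : (S n).Nonempty
    · have hmem := (S n).max'_mem hS
      obtain ⟨y, hy⟩ := (Finset.mem_filter.1 hmem).2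
      exact ⟨y, fun m hm => hmono' _ _ _ _ ((S n).le_max' m hm) hy⟩
    · exact ⟨0, fun m hm => absurd ⟨m, hm⟩ hS⟩
  choose y hy using hy
  refine ⟨y, fun m => ((h m).and (ev_ge m)).mp fun n ⟨h1, h2⟩ => hy n m ?_⟩
  exact Finset.mem_filter.2 ⟨Finset.mem_range.2 (Nat.lt_succ_of_le h2), h1⟩

/-- the ultrapower -/
abbrev H := Filter.Germ (hyperfilter ℕ : Filter ℕ) ℕ

theorem H.all {P : H → Prop} : (∀ x : H, P x) ↔ ∀ f : ℕ → ℕ, P ((f : ℕ → ℕ) : H) :=
  ⟨fun h _ => h _, fun h x => Filter.Germ.inductionOn x h⟩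

theorem H.ex {P : H → Prop} : (∃ x : H, P x) ↔ ∃ f : ℕ → ℕ, P ((f : ℕ → ℕ) : H) :=
  ⟨fun ⟨x, hx⟩ => by
    revert hx
    exact Filter.Germ.inductionOn x fun f hf => ⟨f, hf⟩, fun ⟨f, hf⟩ => ⟨_, hf⟩⟩

theorem H.rep (x : H) : ∃ f : ℕ → ℕ, x = ((f : ℕ → ℕ) : H) :=
  Filter.Germ.inductionOn x fun f => ⟨f, rfl⟩

/-- extension of a unary function -/
noncomputable def ap (F : ℕ → ℕ) (x : H) : H := Filter.Germ.map F x

/-- pairing -/
noncomputable def pp (x y : H) : H := Filter.Germ.map₂ Nat.pair x y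

/-- extensions of functions of several variables -/
noncomputable def ap2 (F : ℕ → ℕ → ℕ) (x y : H) : H :=
  ap (fun w => F w.unpair.1 w.unpair.2) (pp x y)
noncomputable def ap3 (F : ℕ → ℕ → ℕ → ℕ) (x y z : H) : H :=
  ap (fun w => F w.unpair.1 w.unpair.2.unpair.1 w.unpair.2.unpair.2) (pp x (pp y z))
noncomputable def ap4 (F : ℕ → ℕ → ℕ → ℕ → ℕ) (x y z u : H) : H :=
  ap (fun w => F w.unpair.1 w.unpair.2.unpair.1 w.unpair.2.unpair.2.unpair.1
    w.unpair.2.unpair.2.unpair.2) (pp x (pp y (pp z u)))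

/-- bit membership -/
def mem (x z : H) : Prop := Filter.Germ.LiftRel (fun x z : ℕ => z.testBit x = true) x z

/-- standard numbers -/
noncomputable def st (k : ℕ) : H := ((fun _ => k : ℕ → ℕ) : H)

theorem ap_coe {F f : ℕ → ℕ} : ap F (f : H) = ((fun n => F (f n) : ℕ → ℕ) : H) := rfl

theorem pp_coe {f g : ℕ → ℕ} : pp (f : H) (g : H) = ((fun n => Nat.pair (f n) (g n) : ℕ → ℕ) : H) := rfl

theorem ap2_coe {F : ℕ → ℕ → ℕ} {f g : ℕ → ℕ} :
    ap2 F (f : H) (g : H) = ((fun n => F (f n) (g n) : ℕ → ℕ) : H) := by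
  simp only [ap2, pp_coe, ap_coe, Nat.unpair_pair]

theorem ap3_coe {F : ℕ → ℕ → ℕ → ℕ} {f g h : ℕ → ℕ} :
    ap3 F (f : H) (g : H) (h : H) = ((fun n => F (f n) (g n) (h n) : ℕ → ℕ) : H) := by
  simp only [ap3, pp_coe, ap_coe, Nat.unpair_pair]

theorem ap4_coe {F : ℕ → ℕ → ℕ → ℕ → ℕ} {f g h k : ℕ → ℕ} :
    ap4 F (f : H) (g : H) (h : H) (k : H) = ((fun n => F (f n) (g n) (h n) (k n) : ℕ → ℕ) : H) := by
  simp only [ap4, pp_coe, ap_coe, Nat.unpair_pair]

theorem mem_coe {f g : ℕ → ℕ} : mem (f : H) (g : H) ↔ Ev fun n => (g n).testBit (f n) = true := Iff.rfl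

theorem st_coe {k : ℕ} : st k = ((fun _ => k : ℕ → ℕ) : H) := rfl

theorem eq_coe {f g : ℕ → ℕ} : ((f : ℕ → ℕ) : H) = ((g : ℕ → ℕ) : H) ↔ Ev fun n => f n = g n :=
  Filter.Germ.coe_eq

theorem lt_coe {f g : ℕ → ℕ} : ((f : ℕ → ℕ) : H) < ((g : ℕ → ℕ) : H) ↔ Ev fun n => f n < g n :=
  Filter.Germ.coe_lt

theorem le_coe {f g : ℕ → ℕ} : ((f : ℕ → ℕ) : H) ≤ ((g : ℕ → ℕ) : H) ↔ Ev fun n => f n ≤ g n :=
  Filter.Germ.coe_le

theorem add_coe {f g : ℕ → ℕ} :
    ((f : ℕ → ℕ) : H) + ((g : ℕ → ℕ) : H) = ((fun n => f n + g n : ℕ → ℕ) : H) := rfl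
theorem mul_coe {f g : ℕ → ℕ} :
    ((f : ℕ → ℕ) : H) * ((g : ℕ → ℕ) : H) = ((fun n => f n * g n : ℕ → ℕ) : H) := rfl

/-- characteristic function -/
noncomputable def chi (P : ℕ → Prop) : ℕ → ℕ := fun x => by
  classical exact if P x then 1 else 0

theorem chi_eq {P : ℕ → Prop} {x : ℕ} : chi P x = 1 ↔ P x := by
  classical
  unfold chi
  by_cases h : P x <;> simp [h]

/-- least witness, or zero -/
noncomputable def mu (P : ℕ → Prop) : ℕ := by
  classical exact if h : ∃ y, P y then Nat.find h else 0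

theorem mu_spec {P : ℕ → Prop} (h : ∃ y, P y) : P (mu P) := by
  classical
  unfold mu
  rw [dif_pos h]
  convert Nat.find_spec h

theorem mu_le {P : ℕ → Prop} {y : ℕ} (h : P y) : mu P ≤ y := by
  classical
  unfold mu
  rw [dif_pos ⟨y, h⟩]
  convert Nat.find_min' ⟨y, h⟩ h

theorem test_char (F : ℕ → ℕ) (x y : H) :
    ap (chi fun w => ∀ u < w.unpair.1, ∃ v ≤ w.unpair.2, F (Nat.pair u v) = 1) (pp x y) = st 1 ↔
      ∀ u < x, ∃ v ≤ y, ap F (pp u v) = st 1 := by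
  obtain ⟨x, rfl⟩ := x.rep
  obtain ⟨y, rfl⟩ := y.rep
  simp only [H.all, H.ex, ap_coe, pp_coe, st_coe, eq_coe, lt_coe, le_coe, chi_eq, ev_and, ev_imp, ev_all, ev_ex, Nat.unpair_pair]

end Pool.Agent.Helper317.CADS
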