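import Pool.Agent.Helper317.CADS.Sig

/-!
The generic pseudo-intersection.
-/

namespace Pool.Agent.Helper317.CADS

open Function Filter

/-- number of `y < m` accepted by `F` from the join of `x` and `z` at some stage `c ≤ h` -/
noncomputable def numF (F : ℕ → ℕ) (m x z h : ℕ) : ℕ := by
  classical exact
  ((Finset.range m).filter fun y => ∃ c ≤ h, F (Nat.pair y (Nat.pair c (jn c x z))) = 1).card

/-- `(h',z')` extends the condition `(h,z)`; the new elements are accepted by `E` with the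
parameter `p` at a stage at most `b` from the set coded by `x` -/
def extW (E : ℕ → ℕ) (p b x h z h' z' : ℕ) : Prop :=
  h ≤ h' ∧ (∀ y < h, z'.testBit y = z.testBit y) ∧ (∀ y, z'.testBit y = true → y < h') ∧
    ∀ y, h ≤ y → z'.testBit y = true →
      ∃ c ≤ b, E (Nat.pair (Nat.pair p y) (Nat.pair c (x % 2 ^ c))) = 1

/-- operator: `w = ((((h,z),(p,m)),s),(b,x))`; some extension below `b` decides at least `s`
facts -/
noncomputable def psi (E F : ℕ → ℕ) : ℕ → ℕ := chi fun w =>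
  ∃ h' ≤ w.unpair.2.unpair.1, ∃ z' ≤ w.unpair.2.unpair.1,
    extW E w.unpair.1.unpair.1.unpair.2.unpair.1 w.unpair.2.unpair.1 w.unpair.2.unpair.2
      w.unpair.1.unpair.1.unpair.1.unpair.1 w.unpair.1.unpair.1.unpair.1.unpair.2 h' z' ∧
    w.unpair.1.unpair.2 ≤ numF F w.unpair.1.unpair.1.unpair.2.unpair.2 w.unpair.2.unpair.2 z' h'

/-- operator: `w = (((h,z),(p,m)),(b,x))`; an extension below `b` deciding the greatest number of
facts -/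
noncomputable def nxt (E F : ℕ → ℕ) : ℕ → ℕ := fun w => mu fun e =>
  e.unpair.1 ≤ w.unpair.2.unpair.1 ∧ e.unpair.2 ≤ w.unpair.2.unpair.1 ∧
    extW E w.unpair.1.unpair.2.unpair.1 w.unpair.2.unpair.1 w.unpair.2.unpair.2
      w.unpair.1.unpair.1.unpair.1 w.unpair.1.unpair.1.unpair.2 e.unpair.1 e.unpair.2 ∧
    ∀ h' ≤ w.unpair.2.unpair.1, ∀ z' ≤ w.unpair.2.unpair.1,
      extW E w.unpair.1.unpair.2.unpair.1 w.unpair.2.unpair.1 w.unpair.2.unpair.2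
        w.unpair.1.unpair.1.unpair.1 w.unpair.1.unpair.1.unpair.2 h' z' →
      numF F w.unpair.1.unpair.2.unpair.2 w.unpair.2.unpair.2 z' h' ≤
        numF F w.unpair.1.unpair.2.unpair.2 w.unpair.2.unpair.2 e.unpair.2 e.unpair.1

/-- operator: `w = (((h,z),p),(b,x))`; add the least new element accepted by `E` -/
noncomputable def one (E : ℕ → ℕ) : ℕ → ℕ := fun w =>
  Nat.pair ((mu fun y => w.unpair.1.unpair.1.unpair.1 ≤ y ∧ ∃ c ≤ w.unpair.2.unpair.1,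
      E (Nat.pair (Nat.pair w.unpair.1.unpair.2 y)
        (Nat.pair c (w.unpair.2.unpair.2 % 2 ^ c))) = 1) + 1)
    (w.unpair.1.unpair.1.unpair.2 + 2 ^ (mu fun y => w.unpair.1.unpair.1.unpair.1 ≤ y ∧
      ∃ c ≤ w.unpair.2.unpair.1,
        E (Nat.pair (Nat.pair w.unpair.1.unpair.2 y)
          (Nat.pair c (w.unpair.2.unpair.2 % 2 ^ c))) = 1))


theorem cpc_congr {P Q : ℕ → Prop} {n : ℕ} (h : ∀ i < n, (P i ↔ Q i)) : cpc P n = cpc Q n := by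
  apply Nat.eq_of_testBit_eq
  intro i
  rw [Bool.eq_iff_iff, testBit_cpc, testBit_cpc]
  constructor
  · rintro ⟨h1, h2⟩; exact ⟨h1, (h i h1).1 h2⟩
  · rintro ⟨h1, h2⟩; exact ⟨h1, (h i h1).2 h2⟩

theorem testBit_jn {b x z i : ℕ} : (jn b x z).testBit i = true ↔
    i < b ∧ ((∃ k, i = 2 * k ∧ x.testBit k = true) ∨ ∃ k, i = 2 * k + 1 ∧ z.testBit k = true) := by
  unfold jn
  rw [testBit_cpc]
  constructor
  · rintro ⟨h1, h2⟩
    refine ⟨h1, ?_⟩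
    split_ifs at h2 with h3
    · exact Or.inl ⟨i / 2, by omega, h2⟩
    · exact Or.inr ⟨i / 2, by omega, h2⟩
  · rintro ⟨h1, ⟨k, rfl, h2⟩ | ⟨k, rfl, h2⟩⟩
    · refine ⟨h1, ?_⟩
      have e : 2 * k / 2 = k := by omega
      rw [if_pos (by omega), e]; exact h2
    · refine ⟨h1, ?_⟩
      have e : (2 * k + 1) / 2 = k := by omega
      rw [if_neg (by omega), e]; exact h2

theorem jn_congr {b x z x' z' : ℕ} (hx : ∀ i < b, (x.testBit i = true ↔ x'.testBit i = true))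
    (hz : ∀ i < b, (z.testBit i = true ↔ z'.testBit i = true)) : jn b x z = jn b x' z' := by
  unfold jn
  apply cpc_congr
  intro i hi
  split_ifs with h
  · exact hx (i / 2) (by omega)
  · exact hz (i / 2) (by omega)

theorem numF_le {F : ℕ → ℕ} {m x z h : ℕ} : numF F m x z h ≤ m := by
  classical
  unfold numF
  refine (Finset.card_filter_le _ _).trans ?_
  rw [Finset.card_range]

theorem numF_congr {F : ℕ → ℕ} {m x z x' z' h : ℕ}
    (hx : ∀ i < h, (x.testBit i = true ↔ x'.testBit i = true))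
    (hz : ∀ i < h, (z.testBit i = true ↔ z'.testBit i = true)) :
    numF F m x z h = numF F m x' z' h := by
  classical
  unfold numF
  congr 1
  apply Finset.filter_congr
  intro y _
  constructor
  · rintro ⟨c, hc, h1⟩
    refine ⟨c, hc, ?_⟩
    rw [← jn_congr (fun i hi => hx i (by omega)) (fun i hi => hz i (by omega))]
    exact h1
  · rintro ⟨c, hc, h1⟩
    refine ⟨c, hc, ?_⟩
    rw [jn_congr (fun i hi => hx i (by omega)) (fun i hi => hz i (by omega))]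
    exact h1

theorem numF_lt {F : ℕ → ℕ} {m x z h x' z' h' y : ℕ} (hh : h ≤ h')
    (hx : ∀ i < h, (x.testBit i = true ↔ x'.testBit i = true))
    (hz : ∀ i < h, (z.testBit i = true ↔ z'.testBit i = true)) (hy : y < m)
    (h1 : ∃ c ≤ h', F (Nat.pair y (Nat.pair c (jn c x' z'))) = 1)
    (h2 : ∀ c ≤ h, ¬ F (Nat.pair y (Nat.pair c (jn c x z))) = 1) :
    numF F m x z h < numF F m x' z' h' := by
  classical
  unfold numF
  apply Finset.card_lt_card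
  rw [Finset.ssubset_iff_of_subset]
  · refine ⟨y, Finset.mem_filter.2 ⟨Finset.mem_range.2 hy, h1⟩, ?_⟩
    intro h3
    obtain ⟨c, hc, h4⟩ := (Finset.mem_filter.1 h3).2
    exact h2 c hc h4
  · intro u hu
    rw [Finset.mem_filter] at hu ⊢
    refine ⟨hu.1, ?_⟩
    obtain ⟨c, hc, h3⟩ := hu.2
    refine ⟨c, hc.trans hh, ?_⟩
    rw [← jn_congr (fun i hi => hx i (by omega)) (fun i hi => hz i (by omega))]
    exact h3

/-! transfer -/

theorem H_ext {z z' : H} (h : ∀ x, mem x z ↔ mem x z') : z = z' := by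
  obtain ⟨z, rfl⟩ := z.rep
  obtain ⟨z', rfl⟩ := z'.rep
  have key := ev_of_forall (p := fun n => (∀ x, ((z n).testBit x = true ↔ (z' n).testBit x = true)) →
    z n = z' n) (fun n hn => Nat.eq_of_testBit_eq fun i => Bool.eq_iff_iff.2 (hn i))
  simp only [ev_imp, ev_all, ev_iff] at key
  simp only [H.all, mem_coe, eq_coe] at h ⊢
  exact key h

theorem Seg.unique {X : Set H} {b z z' : H} (h : Seg X b z) (h' : Seg X b z') : z = z' :=
  H_ext fun x => (h x).trans (h' x).symm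

/-- truncation -/
noncomputable def cutH (c x : H) : H := ap (fun x : ℕ => x.unpair.2 % 2 ^ x.unpair.1) (pp c x)

theorem mem_cutH {i c x : H} : mem i (cutH c x) ↔ i < c ∧ mem i x := by
  obtain ⟨i, rfl⟩ := i.rep
  obtain ⟨c, rfl⟩ := c.rep
  obtain ⟨x, rfl⟩ := x.rep
  have key := ev_of_forall (p := fun n => ((x n % 2 ^ c n).testBit (i n) = true ↔
    i n < c n ∧ (x n).testBit (i n) = true)) (fun n => by
      rw [Nat.testBit_mod_two_pow]; simp)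
  unfold cutH
  simp only [ev_iff, ev_and] at key
  simp only [ap_coe, pp_coe, mem_coe, lt_coe, Nat.unpair_pair]
  exact key

theorem Seg.cut {X : Set H} {b c x : H} (h : Seg X b x) (hc : c ≤ b) : Seg X c (cutH c x) := by
  intro i
  rw [mem_cutH, h i]
  constructor
  · rintro ⟨h1, _, h2⟩; exact ⟨h1, h2⟩
  · rintro ⟨h1, h2⟩; exact ⟨h1, lt_of_lt_of_le h1 hc, h2⟩

theorem mem_jn {b x z i : H} : mem i (ap3 jn b x z) ↔
    i < b ∧ ((∃ k, i = ap (fun y => 2 * y) k ∧ mem k x) ∨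
      ∃ k, i = ap (fun y => 2 * y + 1) k ∧ mem k z) := by
  obtain ⟨i, rfl⟩ := i.rep
  obtain ⟨b, rfl⟩ := b.rep
  obtain ⟨x, rfl⟩ := x.rep
  obtain ⟨z, rfl⟩ := z.rep
  have key := ev_of_forall (p := fun n => ((jn (b n) (x n) (z n)).testBit (i n) = true ↔
    i n < b n ∧ ((∃ k, i n = 2 * k ∧ (x n).testBit k = true) ∨
      ∃ k, i n = 2 * k + 1 ∧ (z n).testBit k = true))) (fun n => testBit_jn)
  simp only [ev_iff, ev_and, ev_or, ev_ex] at key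
  simp only [H.ex, ap_coe, ap3_coe, mem_coe, lt_coe, eq_coe]
  exact key

theorem jnH_congr {b x z x' z' : H} (hx : ∀ i < b, (mem i x ↔ mem i x'))
    (hz : ∀ i < b, (mem i z ↔ mem i z')) : ap3 jn b x z = ap3 jn b x' z' := by
  obtain ⟨b, rfl⟩ := b.rep
  obtain ⟨x, rfl⟩ := x.rep
  obtain ⟨z, rfl⟩ := z.rep
  obtain ⟨x', rfl⟩ := x'.rep
  obtain ⟨z', rfl⟩ := z'.rep
  have key := ev_of_forall (p := fun n =>
    (∀ i < b n, ((x n).testBit i = true ↔ (x' n).testBit i = true)) →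
    (∀ i < b n, ((z n).testBit i = true ↔ (z' n).testBit i = true)) →
    jn (b n) (x n) (z n) = jn (b n) (x' n) (z' n)) (fun n => jn_congr)
  simp only [ev_imp, ev_all, ev_iff] at key
  simp only [H.all, mem_coe, lt_coe] at hx hz
  simp only [ap3_coe, eq_coe]
  exact key hx hz

/-- counting function on H -/
noncomputable def nF (F : ℕ → ℕ) (m x z h : H) : H := ap4 (numF F) m x z h

theorem nF_le {F : ℕ → ℕ} {m x z h : H} : nF F m x z h ≤ m := by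
  obtain ⟨m, rfl⟩ := m.rep
  obtain ⟨x, rfl⟩ := x.rep
  obtain ⟨z, rfl⟩ := z.rep
  obtain ⟨h, rfl⟩ := h.rep
  unfold nF
  simp only [ap4_coe, le_coe]
  exact ev_of_forall fun n => numF_le

theorem nF_congr {F : ℕ → ℕ} {m x z x' z' h : H} (hx : ∀ i < h, (mem i x ↔ mem i x'))
    (hz : ∀ i < h, (mem i z ↔ mem i z')) : nF F m x z h = nF F m x' z' h := by
  obtain ⟨m, rfl⟩ := m.rep
  obtain ⟨h, rfl⟩ := h.rep
  obtain ⟨x, rfl⟩ := x.rep
  obtain ⟨z, rfl⟩ := z.rep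
  obtain ⟨x', rfl⟩ := x'.rep
  obtain ⟨z', rfl⟩ := z'.rep
  have key := ev_of_forall (p := fun n =>
    (∀ i < h n, ((x n).testBit i = true ↔ (x' n).testBit i = true)) →
    (∀ i < h n, ((z n).testBit i = true ↔ (z' n).testBit i = true)) →
    numF F (m n) (x n) (z n) (h n) = numF F (m n) (x' n) (z' n) (h n)) (fun n => numF_congr)
  simp only [ev_imp, ev_all, ev_iff] at key
  simp only [H.all, mem_coe, lt_coe] at hx hz
  unfold nF
  simp only [ap4_coe, eq_coe]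
  exact key hx hz

theorem nF_lt {F : ℕ → ℕ} {m x z h x' z' h' y : H} (hh : h ≤ h')
    (hx : ∀ i < h, (mem i x ↔ mem i x'))
    (hz : ∀ i < h, (mem i z ↔ mem i z')) (hy : y < m)
    (h1 : ∃ c ≤ h', ap F (pp y (pp c (ap3 jn c x' z'))) = st 1)
    (h2 : ∀ c ≤ h, ¬ ap F (pp y (pp c (ap3 jn c x z))) = st 1) :
    nF F m x z h < nF F m x' z' h' := by
  obtain ⟨m, rfl⟩ := m.rep
  obtain ⟨h, rfl⟩ := h.rep
  obtain ⟨x, rfl⟩ := x.rep
  obtain ⟨z, rfl⟩ := z.rep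
  obtain ⟨x', rfl⟩ := x'.rep
  obtain ⟨z', rfl⟩ := z'.rep
  obtain ⟨h', rfl⟩ := h'.rep
  obtain ⟨y, rfl⟩ := y.rep
  have key := ev_of_forall (p := fun n => h n ≤ h' n →
    (∀ i < h n, ((x n).testBit i = true ↔ (x' n).testBit i = true)) →
    (∀ i < h n, ((z n).testBit i = true ↔ (z' n).testBit i = true)) → y n < m n →
    (∃ c ≤ h' n, F (Nat.pair (y n) (Nat.pair c (jn c (x' n) (z' n)))) = 1) →
    (¬ ∃ c ≤ h n, F (Nat.pair (y n) (Nat.pair c (jn c (x n) (z n)))) = 1) →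
    numF F (m n) (x n) (z n) (h n) < numF F (m n) (x' n) (z' n) (h' n)) (fun n a1 a2 a3 a4 a5 a6 =>
      numF_lt a1 a2 a3 a4 a5 fun c hc h => a6 ⟨c, hc, h⟩)
  have h2' : ¬ ∃ c ≤ (h : H), ap F (pp (y : H) (pp c (ap3 jn c (x : H) (z : H)))) = st 1 :=
    fun ⟨c, hc, hh⟩ => h2 c hc hh
  clear h2
  simp only [ev_imp, ev_all, ev_iff, ev_ex, ev_and] at key
  simp only [H.all, H.ex, mem_coe, lt_coe, le_coe, ap_coe, pp_coe, ap3_coe, st_coe, eq_coe]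
    at hh hx hz hy h1 h2'
  unfold nF
  simp only [ap4_coe, lt_coe]
  exact key hh hx hz hy h1 fun h => (h2' h).elim

/-- the extension relation on H -/
def eH (E : ℕ → ℕ) (p b x h z h' z' : H) : Prop :=
  h ≤ h' ∧ (∀ y < h, (mem y z' ↔ mem y z)) ∧ (∀ y, mem y z' → y < h') ∧
    ∀ y, h ≤ y → mem y z' →
      ∃ c ≤ b, ap E (pp (pp p y) (pp c (cutH c x))) = st 1

theorem extW_iff {E : ℕ → ℕ} {p b x h z h' z' : ℕ} : extW E p b x h z h' z' ↔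
    (h ≤ h' ∧ (∀ y < h, (z'.testBit y = true ↔ z.testBit y = true)) ∧
      (∀ y, z'.testBit y = true → y < h') ∧
    ∀ y, h ≤ y → z'.testBit y = true →
      ∃ c ≤ b, E (Nat.pair (Nat.pair p y) (Nat.pair c (x % 2 ^ c))) = 1) := by
  unfold extW
  constructor
  · rintro ⟨h1, h2, h3⟩
    exact ⟨h1, fun y hy => Bool.eq_iff_iff.1 (h2 y hy), h3⟩
  · rintro ⟨h1, h2, h3⟩
    exact ⟨h1, fun y hy => Bool.eq_iff_iff.2 (h2 y hy), h3⟩

theorem psi_H {E F : ℕ → ℕ} {h z p m s b x : H} :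
    ap (psi E F) (pp (pp (pp (pp h z) (pp p m)) s) (pp b x)) = st 1 ↔
      ∃ h' ≤ b, ∃ z' ≤ b, eH E p b x h z h' z' ∧ s ≤ nF F m x z' h' := by
  obtain ⟨m, rfl⟩ := m.rep
  obtain ⟨h, rfl⟩ := h.rep
  obtain ⟨x, rfl⟩ := x.rep
  obtain ⟨z, rfl⟩ := z.rep
  obtain ⟨p, rfl⟩ := p.rep
  obtain ⟨s, rfl⟩ := s.rep
  obtain ⟨b, rfl⟩ := b.rep
  simp only [eH, nF, cutH, H.all, H.ex, ap_coe, ap4_coe, pp_coe, mem_coe, st_coe, eq_coe, lt_coe,
    le_coe, Nat.unpair_pair, psi, chi_eq, extW_iff, ev_and, ev_imp, ev_iff, ev_all, ev_ex]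

theorem nxt_spec {E F : ℕ → ℕ} {h z p m b x : ℕ} (hh : h ≤ b) (hz : z ≤ b)
    (hb : ∀ y, z.testBit y = true → y < h) :
    (nxt E F (Nat.pair (Nat.pair (Nat.pair h z) (Nat.pair p m)) (Nat.pair b x))).unpair.1 ≤ b ∧
    (nxt E F (Nat.pair (Nat.pair (Nat.pair h z) (Nat.pair p m)) (Nat.pair b x))).unpair.2 ≤ b ∧
    extW E p b x h z
      (nxt E F (Nat.pair (Nat.pair (Nat.pair h z) (Nat.pair p m)) (Nat.pair b x))).unpair.1
      (nxt E F (Nat.pair (Nat.pair (Nat.pair h z) (Nat.pair p m)) (Nat.pair b x))).unpair.2 ∧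
    ∀ h' ≤ b, ∀ z' ≤ b, extW E p b x h z h' z' → numF F m x z' h' ≤ numF F m x
      (nxt E F (Nat.pair (Nat.pair (Nat.pair h z) (Nat.pair p m)) (Nat.pair b x))).unpair.2
      (nxt E F (Nat.pair (Nat.pair (Nat.pair h z) (Nat.pair p m)) (Nat.pair b x))).unpair.1 := by
  classical
  have hex : ∃ e : ℕ, e.unpair.1 ≤ b ∧ e.unpair.2 ≤ b ∧
      extW E p b x h z e.unpair.1 e.unpair.2 ∧
      ∀ h' ≤ b, ∀ z' ≤ b, extW E p b x h z h' z' →
        numF F m x z' h' ≤ numF F m x e.unpair.2 e.unpair.1 := by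
    let S : Finset (ℕ × ℕ) := (Finset.range (b + 1) ×ˢ Finset.range (b + 1)).filter
      fun q => extW E p b x h z q.1 q.2
    have hS : S.Nonempty := by
      refine ⟨(h, z), Finset.mem_filter.2 ⟨Finset.mem_product.2 ⟨Finset.mem_range.2
        (Nat.lt_succ_of_le hh), Finset.mem_range.2 (Nat.lt_succ_of_le hz)⟩, ?_⟩⟩
      refine ⟨le_rfl, fun y _ => rfl, hb, fun y hy hy' => ?_⟩
      exact absurd (hb y hy') (not_lt.2 hy)
    obtain ⟨q, hq, hmax⟩ := S.exists_max_image (fun q => numF F m x q.2 q.1) hS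
    obtain ⟨hq1, hq2⟩ := Finset.mem_filter.1 hq
    obtain ⟨hq3, hq4⟩ := Finset.mem_product.1 hq1
    refine ⟨Nat.pair q.1 q.2, ?_⟩
    rw [Nat.unpair_pair]
    refine ⟨Nat.lt_succ_iff.1 (Finset.mem_range.1 hq3), Nat.lt_succ_iff.1 (Finset.mem_range.1 hq4),
      hq2, ?_⟩
    intro h' hh' z' hz' hx
    exact hmax (h', z') (Finset.mem_filter.2 ⟨Finset.mem_product.2 ⟨Finset.mem_range.2
        (Nat.lt_succ_of_le hh'), Finset.mem_range.2 (Nat.lt_succ_of_le hz')⟩, hx⟩)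
  have h1 := mu_spec hex
  unfold nxt
  simp only [Nat.unpair_pair]
  exact h1

theorem nxt_H {E F : ℕ → ℕ} {h z p m b x : H} (hh : h ≤ b) (hz : z ≤ b)
    (hb : ∀ y, mem y z → y < h) :
    ap (fun x => x.unpair.1) (ap (nxt E F) (pp (pp (pp h z) (pp p m)) (pp b x))) ≤ b ∧
    ap (fun x => x.unpair.2) (ap (nxt E F) (pp (pp (pp h z) (pp p m)) (pp b x))) ≤ b ∧
    eH E p b x h z
      (ap (fun x => x.unpair.1) (ap (nxt E F) (pp (pp (pp h z) (pp p m)) (pp b x))))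
      (ap (fun x => x.unpair.2) (ap (nxt E F) (pp (pp (pp h z) (pp p m)) (pp b x)))) ∧
    ∀ h' ≤ b, ∀ z' ≤ b, eH E p b x h z h' z' → nF F m x z' h' ≤ nF F m x
      (ap (fun x => x.unpair.2) (ap (nxt E F) (pp (pp (pp h z) (pp p m)) (pp b x))))
      (ap (fun x => x.unpair.1) (ap (nxt E F) (pp (pp (pp h z) (pp p m)) (pp b x)))) := by
  obtain ⟨m, rfl⟩ := m.rep
  obtain ⟨h, rfl⟩ := h.rep
  obtain ⟨x, rfl⟩ := x.rep
  obtain ⟨z, rfl⟩ := z.rep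
  obtain ⟨p, rfl⟩ := p.rep
  obtain ⟨b, rfl⟩ := b.rep
  have key := ev_of_forall (p := fun n => h n ≤ b n → z n ≤ b n →
    (∀ y, (z n).testBit y = true → y < h n) → _) (fun n a1 a2 a3 =>
      nxt_spec (E := E) (F := F) (p := p n) (m := m n) (x := x n) a1 a2 a3)
  simp only [extW_iff, ev_imp, ev_all, ev_iff, ev_ex, ev_and] at key
  simp only [eH, nF, cutH, H.all, H.ex, ap_coe, ap4_coe, pp_coe, mem_coe, st_coe, eq_coe, lt_coe,
    le_coe, Nat.unpair_pair] at hh hz hb ⊢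
  exact key hh hz hb

theorem one_spec {E : ℕ → ℕ} {h z p b x : ℕ} (hb : ∀ y, z.testBit y = true → y < h)
    (hy : ∃ y, h ≤ y ∧ ∃ c ≤ b, E (Nat.pair (Nat.pair p y) (Nat.pair c (x % 2 ^ c))) = 1) :
    ∃ y, h ≤ y ∧ (∃ c ≤ b, E (Nat.pair (Nat.pair p y) (Nat.pair c (x % 2 ^ c))) = 1) ∧
      (one E (Nat.pair (Nat.pair (Nat.pair h z) p) (Nat.pair b x))).unpair.1 = y + 1 ∧
      ∀ i, ((one E (Nat.pair (Nat.pair (Nat.pair h z) p) (Nat.pair b x))).unpair.2.testBit i = true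
        ↔ z.testBit i = true ∨ i = y) := by
  have h1 := mu_spec hy
  unfold one
  simp only [Nat.unpair_pair]
  refine ⟨_, h1.1, h1.2, rfl, ?_⟩
  generalize hY : mu (fun y => h ≤ y ∧ ∃ c ≤ b,
    E (Nat.pair (Nat.pair p y) (Nat.pair c (x % 2 ^ c))) = 1) = Y at h1
  have hzh : z < 2 ^ h := by
    apply Nat.lt_pow_two_of_testBit
    intro i hi
    by_contra hc
    exact absurd (hb i (by simpa using hc)) (by omega)
  have hzY : z < 2 ^ Y := lt_of_lt_of_le hzh (Nat.pow_le_pow_right (by norm_num) h1.1)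
  intro i
  rw [add_comm]
  by_cases hi : i = Y
  · subst hi
    rw [Nat.testBit_two_pow_add_eq, Nat.testBit_eq_false_of_lt hzY]
    simp
  · rcases Nat.lt_or_gt_of_ne hi with hlt | hgt
    · rw [Nat.testBit_two_pow_add_gt hlt]
      constructor
      · intro h2; exact Or.inl h2
      · rintro (h2 | h2)
        · exact h2
        · exact absurd h2 hi
    · constructor
      · intro h2
        exfalso
        have h3 : 2 ^ Y + z < 2 ^ i := by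
          have h4 : 2 ^ (Y + 1) ≤ 2 ^ i := Nat.pow_le_pow_right (by norm_num) hgt
          rw [pow_succ] at h4
          omega
        rw [Nat.testBit_eq_false_of_lt h3] at h2
        exact absurd h2 (by simp)
      · rintro (h2 | h2)
        · have := hb i h2
          omega
        · exact absurd h2 hi

theorem one_H {E : ℕ → ℕ} {h z p b x : H} (hb : ∀ y, mem y z → y < h)
    (hy : ∃ y, h ≤ y ∧ ∃ c ≤ b, ap E (pp (pp p y) (pp c (cutH c x))) = st 1) :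
    ∃ y, h ≤ y ∧ (∃ c ≤ b, ap E (pp (pp p y) (pp c (cutH c x))) = st 1) ∧
      ap (fun x => x.unpair.1) (ap (one E) (pp (pp (pp h z) p) (pp b x))) =
        ap (fun x => x + 1) y ∧
      ∀ i, (mem i (ap (fun x => x.unpair.2) (ap (one E) (pp (pp (pp h z) p) (pp b x))))
        ↔ mem i z ∨ i = y) := by
  obtain ⟨h, rfl⟩ := h.rep
  obtain ⟨x, rfl⟩ := x.rep
  obtain ⟨z, rfl⟩ := z.rep
  obtain ⟨p, rfl⟩ := p.rep
  obtain ⟨b, rfl⟩ := b.rep
  have key := ev_of_forall (p := fun n =>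
    (∀ y, (z n).testBit y = true → y < h n) →
    (∃ y, h n ≤ y ∧ ∃ c ≤ b n, E (Nat.pair (Nat.pair (p n) y) (Nat.pair c (x n % 2 ^ c))) = 1) →
     _) (fun n a1 a2 =>
      one_spec (E := E) (p := p n) (x := x n) a1 a2)
  simp only [ev_imp, ev_all, ev_iff, ev_ex, ev_and, ev_or] at key
  simp only [cutH, H.all, H.ex, ap_coe, pp_coe, mem_coe, st_coe, eq_coe, lt_coe,
    le_coe, Nat.unpair_pair] at hb hy ⊢
  exact key hb hy


/-- acceptance at stage c -/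
def Acc (F : ℕ → ℕ) (X : Set H) (z y c : H) : Prop :=
  ∃ x, Seg X c x ∧ ap F (pp y (pp c (ap3 jn c x z))) = st 1

theorem Acc_iff {F : ℕ → ℕ} {X : Set H} {z y c b x : H} (hx : Seg X b x) (hc : c ≤ b) :
    Acc F X z y c ↔ ap F (pp y (pp c (ap3 jn c x z))) = st 1 := by
  constructor
  · rintro ⟨x', hx', h⟩
    rw [← jnH_congr (x := x') (x' := x) (z := z) (z' := z) ?_ (fun i _ => Iff.rfl)]
    · exact h
    · intro i hi
      rw [hx' i, hx i]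
      exact ⟨fun h => ⟨lt_of_lt_of_le h.1 hc, h.2⟩, fun h => ⟨hi, h.2⟩⟩
  · intro h
    refine ⟨cutH c x, hx.cut hc, ?_⟩
    rw [jnH_congr (x := cutH c x) (x' := x) (z := z) (z' := z) ?_ (fun i _ => Iff.rfl)]
    · exact h
    · intro i hi
      rw [mem_cutH]
      exact ⟨fun h => h.2, fun h => ⟨hi, h⟩⟩

theorem T_iffA {E : ℕ → ℕ} {X : Set H} {y c b x : H} (hx : Seg X b x) (hc : c ≤ b) :
    T E X y c ↔ ap E (pp y (pp c (cutH c x))) = st 1 := by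
  constructor
  · rintro ⟨x', hx', h⟩
    rw [(hx.cut hc).unique hx']
    exact h
  · intro h
    exact ⟨_, hx.cut hc, h⟩

theorem eH_mono {E : ℕ → ℕ} {X : Set H} {p b b' x x' h z h' z' : H} (hx : Seg X b x)
    (hx' : Seg X b' x') (hb : b ≤ b') (he : eH E p b x h z h' z') : eH E p b' x' h z h' z' := by
  obtain ⟨h1, h2, h3, h4⟩ := he
  refine ⟨h1, h2, h3, fun y hy hy' => ?_⟩
  obtain ⟨c, hc, h5⟩ := h4 y hy hy'
  refine ⟨c, hc.trans hb, ?_⟩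
  rw [(hx'.cut (hc.trans hb)).unique (hx.cut hc)]
  exact h5

theorem pp_lt {a s t : H} (h : s < t) : pp a s < pp a t := by
  obtain ⟨a, rfl⟩ := a.rep
  obtain ⟨s, rfl⟩ := s.rep
  obtain ⟨t, rfl⟩ := t.rep
  rw [lt_coe] at h
  rw [pp_coe, pp_coe, lt_coe]
  exact h.mp fun n hn => Nat.pair_lt_pair_right _ hn

theorem lt_succH {s m : H} (h : s ≤ m) : s < ap (fun x => x + 1) m := by
  obtain ⟨s, rfl⟩ := s.rep
  obtain ⟨m, rfl⟩ := m.rep
  rw [le_coe] at h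
  rw [ap_coe, lt_coe]
  exact h.mp fun n hn => Nat.lt_succ_of_le hn

theorem le_addH1 {s m : H} : s ≤ ap (fun x : ℕ => x.unpair.1 + x.unpair.2) (pp s m) := by
  obtain ⟨s, rfl⟩ := s.rep
  obtain ⟨m, rfl⟩ := m.rep
  rw [pp_coe, ap_coe, le_coe]
  refine ev_of_forall fun n => ?_
  simp only [Nat.unpair_pair]
  omega

theorem le_addH2 {s m : H} : m ≤ ap (fun x : ℕ => x.unpair.1 + x.unpair.2) (pp s m) := by
  obtain ⟨s, rfl⟩ := s.rep
  obtain ⟨m, rfl⟩ := m.rep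
  rw [pp_coe, ap_coe, le_coe]
  refine ev_of_forall fun n => ?_
  simp only [Nat.unpair_pair]
  omega

theorem Good.ub {FF : Set (ℕ → ℕ)} {I M X : Set H} (hG : Good FF I M X) {x y : H} (hx : x ∈ I)
    (hy : y ∈ I) : ∃ b ∈ M, x ≤ b ∧ y ≤ b := by
  obtain ⟨b, hb, h1⟩ := hG.cof x hx
  obtain ⟨c, hc, h2⟩ := hG.cof y hy
  rcases le_total b c with h | h
  · exact ⟨c, hc, h1.trans h, h2⟩
  · exact ⟨b, hb, h1, h2.trans h⟩

theorem Fam.succ {FF : Set (ℕ → ℕ)} (hF : Fam FF) : (fun x => x + 1) ∈ FF := by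
  have h := hF.comp _ hF.add _ (hF.pair _ hF.id _ (hF.const 1))
  simpa only [Nat.unpair_pair] using h

theorem stepA {FF : Set (ℕ → ℕ)} (hF : Fam FF)
    (hpsi : ∀ E ∈ FF, ∀ F ∈ FF, psi E F ∈ FF) (hnxt : ∀ E ∈ FF, ∀ F ∈ FF, nxt E F ∈ FF)
    (hone : ∀ E ∈ FF, one E ∈ FF)
    {I M X : Set H} (hG : Good FF I M X) {W : H → Prop}
    (hW : Sig FF I M X W) (hunb : ∀ b ∈ I, ∃ y ∈ I, b ≤ y ∧ W y)
    {F : ℕ → ℕ} (hFF : F ∈ FF) {m : H} (hm : m ∈ M) {h z : H} (hh : h ∈ M) (hz : z ∈ M)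
    (hb : ∀ y, mem y z → y < h) :
    ∃ h' ∈ M, ∃ z' ∈ M, (∀ y, mem y z' → y < h') ∧ h ≤ h' ∧ (∀ y < h, (mem y z' ↔ mem y z)) ∧
      (∀ y, h ≤ y → mem y z' → W y) ∧ (∃ y, m ≤ y ∧ mem y z') ∧
      ∃ s ∈ I, s ≤ h' ∧ ∀ h2 ∈ M, ∀ z2 ∈ M, (∀ y, mem y z2 → y < h2) → h' ≤ h2 →
        (∀ y < h', (mem y z2 ↔ mem y z')) → (∀ y, h' ≤ y → mem y z2 → W y) →
        ∀ y < m, ∀ c ≤ h2, Acc F X z2 y c → ∃ c' ≤ s, Acc F X z2 y c' := by
  classical
  obtain ⟨E, hE, p, hp, hWE⟩ := hW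
  have hMI := hG.sub
  -- acceptance gives `W`
  have accW : ∀ {b x y c : H}, b ∈ M → Seg X b x → c ≤ b → y ∈ I →
      ap E (pp (pp p y) (pp c (cutH c x))) = st 1 → W y := by
    intro b x y c hb hx hc hy h
    exact (hWE y hy).2 ⟨c, hG.down b (hMI b hb) c hc, (T_iffA hx hc).2 h⟩
  -- bound for the number of decided facts
  set a : H := pp (pp h z) (pp p m) with ha
  have haM : a ∈ M := hG.mdl.pp _ (hG.mdl.pp _ hh _ hz) _ (hG.mdl.pp _ hp _ hm)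
  obtain ⟨s0, hs0, hsc0⟩ := hG.sc (psi E F) (hpsi E hE F hFF) (pp a (ap (fun x => x + 1) m))
    (hMI _ (hG.mdl.pp _ haM _ (hG.mdl.ap _ hF.succ _ hm)))
  obtain ⟨b1, hb1, hb1a, hb1b⟩ := hG.ub hs0 (hMI _ hh)
  obtain ⟨b, hbM, hb2, hzb⟩ := hG.ub (hMI _ hb1) (hMI _ hz)
  have hs0b : s0 ≤ b := hb1a.trans hb2
  have hhb : h ≤ b := hb1b.trans hb2
  obtain ⟨x, hxM, hx⟩ := hG.cod b hbM
  have hspec := nxt_H (E := E) (F := F) (p := p) (m := m) (x := x) hhb hzb hb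
  set e : H := ap (nxt E F) (pp (pp (pp h z) (pp p m)) (pp b x)) with he
  have heM : e ∈ M := hG.mdl.ap _ (hnxt E hE F hFF) _ (hG.mdl.pp _ haM _ (hG.mdl.pp _ hbM _ hxM))
  set h1 : H := ap (fun x => x.unpair.1) e with hh1
  set z1 : H := ap (fun x => x.unpair.2) e with hz1
  have hh1M : h1 ∈ M := hG.mdl.ap _ hF.fst _ heM
  have hz1M : z1 ∈ M := hG.mdl.ap _ hF.snd _ heM
  obtain ⟨hh1b, hz1b, hext, hmax⟩ := hspec
  obtain ⟨hhh1, hag1, hbd1, hnew1⟩ := hext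
  have hnewW1 : ∀ y, h ≤ y → mem y z1 → W y := by
    intro y hy hy'
    obtain ⟨c, hc, h2⟩ := hnew1 y hy hy'
    exact accW hbM hx hc (hG.down _ (hMI _ hh1M) _ (hbd1 y hy').le) h2
  -- the claim
  have claim : ∀ h2 ∈ M, ∀ z2 ∈ M, ∀ b2 ∈ M, ∀ x2, Seg X b2 x2 → h2 ≤ b2 →
      (∀ y, mem y z2 → y < h2) → h ≤ h2 →
      (∀ y < h, (mem y z2 ↔ mem y z)) → (∀ y, h ≤ y → mem y z2 → W y) →
      nF F m x2 z2 h2 ≤ nF F m x z1 h1 := by
    intro h2 hh2 z2 hz2 b2 hb2M x2 hx2 hh2b hbd hle hag hnew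
    obtain ⟨s1, hs1, hsc1⟩ := hG.sc E hE (pp p h2) (hMI _ (hG.mdl.pp _ hp _ hh2))
    obtain ⟨c1, hc1, h3, h4⟩ := hG.ub hs1 (hMI _ hh2)
    obtain ⟨c2, hc2, h5, h6⟩ := hG.ub (hMI _ hc1) (hMI _ hz2)
    obtain ⟨b3, hb3, h7, h8⟩ := hG.ub (hMI _ hc2) (hMI _ hbM)
    obtain ⟨x3, hx3M, hx3⟩ := hG.cod b3 hb3
    have hs1b : s1 ≤ b3 := h3.trans (h5.trans h7)
    have hh2b3 : h2 ≤ b3 := h4.trans (h5.trans h7)
    have hz2b3 : z2 ≤ b3 := h6.trans h7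
    have he3 : eH E p b3 x3 h z h2 z2 := by
      refine ⟨hle, hag, hbd, fun y hy hy' => ?_⟩
      have hyI : y ∈ I := hG.down _ (hMI _ hh2) _ (hbd y hy').le
      obtain ⟨c, hc, h9⟩ := (hWE y hyI).1 (hnew y hy hy')
      obtain ⟨c', hc', h10⟩ := hsc1 c hc (pp p y) (pp_lt (hbd y hy')) h9
      exact ⟨c', hc'.trans hs1b, (T_iffA hx3 (hc'.trans hs1b)).1 h10⟩
    have heq : nF F m x2 z2 h2 = nF F m x3 z2 h2 := by
      apply nF_congr
      · intro i hi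
        rw [hx2 i, hx3 i]
        exact ⟨fun h => ⟨lt_of_lt_of_le hi hh2b3, h.2⟩, fun h => ⟨lt_of_lt_of_le hi hh2b, h.2⟩⟩
      · exact fun _ _ => Iff.rfl
    rw [heq]
    have hT : T (psi E F) X (pp a (nF F m x3 z2 h2)) b3 :=
      ⟨x3, hx3, psi_H.2 ⟨h2, hh2b3, z2, hz2b3, he3, le_rfl⟩⟩
    obtain ⟨c, hc, hTc⟩ := hsc0 b3 (hMI _ hb3) _ (pp_lt (lt_succH nF_le)) hT
    obtain ⟨xc, hxc, hTc⟩ := hTc
    obtain ⟨h', hh', z', hz', hee, hle'⟩ := psi_H.1 hTc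
    have hcb : c ≤ b := hc.trans hs0b
    have h11 := hmax h' (hh'.trans hcb) z' (hz'.trans hcb) (eH_mono hxc hx hcb hee)
    refine hle'.trans (le_trans (le_of_eq ?_) h11)
    apply nF_congr
    · intro i hi
      rw [hxc i, hx i]
      exact ⟨fun h => ⟨lt_of_lt_of_le h.1 hcb, h.2⟩, fun h => ⟨lt_of_lt_of_le hi hh', h.2⟩⟩
    · exact fun _ _ => Iff.rfl
  -- a new element
  set h2 : H := ap (fun x : ℕ => x.unpair.1 + x.unpair.2) (pp h1 m) with hh2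
  have hh2M : h2 ∈ M := hG.mdl.ap _ hF.add _ (hG.mdl.pp _ hh1M _ hm)
  obtain ⟨y0, hy0I, hy0, hWy0⟩ := hunb h2 (hMI _ hh2M)
  obtain ⟨c0, hc0I, hTy0⟩ := (hWE y0 hy0I).1 hWy0
  obtain ⟨b', hb'M, hc0b'⟩ := hG.cof c0 hc0I
  obtain ⟨x', hx'M, hx'⟩ := hG.cod b' hb'M
  obtain ⟨y1, hy1, ⟨c1, hc1, hacc1⟩, hfst, hsnd⟩ := one_H (E := E) (h := h2) (z := z1) (p := p)
    (b := b') (x := x') (fun y hy => lt_of_lt_of_le (hbd1 y hy) le_addH1)
    ⟨y0, hy0, c0, hc0b', (T_iffA hx' hc0b').1 hTy0⟩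
  set e' : H := ap (one E) (pp (pp (pp h2 z1) p) (pp b' x')) with he'
  have he'M : e' ∈ M := hG.mdl.ap _ (hone E hE) _ (hG.mdl.pp _ (hG.mdl.pp _ (hG.mdl.pp _ hh2M _ hz1M)
    _ hp) _ (hG.mdl.pp _ hb'M _ hx'M))
  have hh'M : ap (fun x => x.unpair.1) e' ∈ M := hG.mdl.ap _ hF.fst _ he'M
  have hz'M : ap (fun x => x.unpair.2) e' ∈ M := hG.mdl.ap _ hF.snd _ he'M
  have hy1lt : y1 < ap (fun x => x.unpair.1) e' := by
    rw [hfst]; exact lt_succH le_rfl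
  have hy1I : y1 ∈ I := hG.down _ (hMI _ hh'M) _ hy1lt.le
  have hWy1 : W y1 := accW hb'M hx' hc1 hy1I hacc1
  have hh1h2 : h1 ≤ h2 := le_addH1
  have hh1y1 : h1 ≤ y1 := hh1h2.trans hy1
  have hh1h' : h1 ≤ ap (fun x => x.unpair.1) e' := hh1y1.trans hy1lt.le
  have hag' : ∀ y < h1, (mem y (ap (fun x => x.unpair.2) e') ↔ mem y z1) := by
    intro y hy
    rw [hsnd y]
    constructor
    · rintro (h | h)
      · exact h
      · exact absurd hy (not_lt.2 (h ▸ hh1y1))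
    · exact Or.inl
  have hnewW' : ∀ y, h1 ≤ y → mem y (ap (fun x => x.unpair.2) e') → W y := by
    intro y hy hy'
    rcases (hsnd y).1 hy' with h | h
    · exact absurd (hbd1 y h) (not_lt.2 hy)
    · rw [h]; exact hWy1
  refine ⟨_, hh'M, _, hz'M, ?_, hhh1.trans hh1h', ?_, ?_, ⟨y1, ?_, ?_⟩, h1, hMI _ hh1M, hh1h', ?_⟩
  · intro y hy
    rcases (hsnd y).1 hy with h | h
    · exact lt_of_lt_of_le (hbd1 y h) hh1h'
    · rw [h]; exact hy1lt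
  · intro y hy
    exact (hag' y (lt_of_lt_of_le hy hhh1)).trans (hag1 y hy)
  · intro y hy hy'
    rcases lt_or_ge y h1 with h3 | h3
    · exact hnewW1 y hy ((hag' y h3).1 hy')
    · exact hnewW' y h3 hy'
  · exact le_trans le_addH2 hy1
  · exact (hsnd y1).2 (Or.inr rfl)
  · intro h3 hh3 z3 hz3 hbd3 hle3 hag3 hnew3 y hy c hc hacc
    by_contra hcon
    have hcon' : ∀ c' ≤ h1, ¬ Acc F X z3 y c' := fun c' hc' h => hcon ⟨c', hc', h⟩
    have hag31 : ∀ y < h1, (mem y z3 ↔ mem y z1) := fun y hy =>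
      (hag3 y (lt_of_lt_of_le hy hh1h')).trans (hag' y hy)
    have hnew31 : ∀ y, h ≤ y → mem y z3 → W y := by
      intro y hy hy'
      rcases lt_or_ge y h1 with h4 | h4
      · exact hnewW1 y hy ((hag31 y h4).1 hy')
      · rcases lt_or_ge y (ap (fun x => x.unpair.1) e') with h5 | h5
        · exact hnewW' y h4 ((hag3 y h5).1 hy')
        · exact hnew3 y h5 hy'
    have hag30 : ∀ y < h, (mem y z3 ↔ mem y z) := fun y hy =>
      (hag31 y (lt_of_lt_of_le hy hhh1)).trans (hag1 y hy)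
    obtain ⟨b4, hb4M, hh3b4, hbb4⟩ := hG.ub (hMI _ hh3) (hMI _ hbM)
    obtain ⟨x4, hx4M, hx4⟩ := hG.cod b4 hb4M
    have h6 := claim h3 hh3 z3 hz3 b4 hb4M x4 hx4 hh3b4 hbd3 (hhh1.trans (hh1h'.trans hle3))
      hag30 hnew31
    have h7 : nF F m x z1 h1 < nF F m x4 z3 h3 := by
      apply nF_lt (y := y) (hh1h'.trans hle3)
      · intro i hi
        rw [hx4 i, hx i]
        exact ⟨fun h => ⟨lt_of_lt_of_le (lt_of_lt_of_le hi hh1b) hbb4, h.2⟩,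
          fun h => ⟨lt_of_lt_of_le hi hh1b, h.2⟩⟩
      · intro i hi
        exact (hag31 i hi).symm
      · exact hy
      · exact ⟨c, hc, (Acc_iff hx4 (hc.trans hh3b4)).1 hacc⟩
      · intro c' hc' h8
        apply hcon' c' hc'
        rw [Acc_iff hx (hc'.trans hh1b)]
        rw [jnH_congr (x := x) (x' := x) (z := z3) (z' := z1) (fun _ _ => Iff.rfl)
          (fun i hi => hag31 i (lt_of_lt_of_le hi hc'))]
        exact h8
    exact absurd h6 (not_le.2 h7)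


/-- TARGET -/
theorem lemmaA0 {FF : Set (ℕ → ℕ)} (hFc : FF.Countable) (hF : Fam FF)
    (hpsi : ∀ E ∈ FF, ∀ F ∈ FF, psi E F ∈ FF) (hnxt : ∀ E ∈ FF, ∀ F ∈ FF, nxt E F ∈ FF)
    (hone : ∀ E ∈ FF, one E ∈ FF)
    {I M X : Set H} (hM : M.Countable) (hG : Good FF I M X) (W : ℕ → H → Prop)
    (hW : ∀ j, Sig FF I M X (W j)) (hdec : ∀ j, ∀ y ∈ I, W (j + 1) y → W j y)
    (hunb : ∀ j, ∀ b ∈ I, ∃ y ∈ I, b ≤ y ∧ W j y) :
    ∃ G : Set H, (∀ x ∈ G, x ∈ I) ∧ Cod M G ∧ SC FF I (join X G) ∧ (∀ b ∈ I, ∃ y ∈ G, b ≤ y) ∧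
      ∀ j, ∃ b ∈ I, ∀ y ∈ G, b ≤ y → W j y := by
  classical
  have hMI := hG.sub
  -- enumerate the pairs
  obtain ⟨f, hf⟩ : ∃ f : ℕ → (ℕ → ℕ) × H, FF ×ˢ M = Set.range f := by
    apply (hFc.prod hM).exists_eq_range
    exact ⟨(fun x => x, st 0), hF.id, hG.mdl.st 0⟩
  have hf1 : ∀ j, (f j).1 ∈ FF := fun j => by
    have : f j ∈ FF ×ˢ M := by rw [hf]; exact ⟨j, rfl⟩
    exact this.1
  have hf2 : ∀ j, (f j).2 ∈ M := fun j => by
    have : f j ∈ FF ×ˢ M := by rw [hf]; exact ⟨j, rfl⟩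
    exact this.2
  -- conditions
  let C : Type := {c : H × H // c.1 ∈ M ∧ c.2 ∈ M ∧ ∀ y, mem y c.2 → y < c.1}
  have hstep : ∀ (j : ℕ) (c : C), ∃ c' : C, c.1.1 ≤ c'.1.1 ∧
      (∀ y < c.1.1, (mem y c'.1.2 ↔ mem y c.1.2)) ∧
      (∀ y, c.1.1 ≤ y → mem y c'.1.2 → W j y) ∧ (∃ y, (f j).2 ≤ y ∧ mem y c'.1.2) ∧
      ∃ s ∈ I, s ≤ c'.1.1 ∧ ∀ d : C, c'.1.1 ≤ d.1.1 →
        (∀ y < c'.1.1, (mem y d.1.2 ↔ mem y c'.1.2)) → (∀ y, c'.1.1 ≤ y → mem y d.1.2 → W j y) →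
        ∀ y < (f j).2, ∀ c ≤ d.1.1, Acc (f j).1 X d.1.2 y c → ∃ c' ≤ s, Acc (f j).1 X d.1.2 y c' := by
    intro j c
    obtain ⟨h', hh', z', hz', hb', h1, h2, h3, h4, s, hs, hs', h5⟩ :=
      stepA hF hpsi hnxt hone hG (hW j) (hunb j) (hf1 j) (hf2 j) c.2.1 c.2.2.1 c.2.2.2
    exact ⟨⟨(h', z'), hh', hz', hb'⟩, h1, h2, h3, h4, s, hs, hs',
      fun d h6 h7 h8 => h5 d.1.1 d.2.1 d.1.2 d.2.2.1 d.2.2.2 h6 h7 h8⟩
  choose nx hnx using hstep
  have h00 : ∀ y, mem y (st 0) → y < st 0 := by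
    intro y
    obtain ⟨y, rfl⟩ := y.rep
    rw [st_coe, mem_coe, lt_coe]
    exact fun h => h.mp fun n hn => by simp at hn
  let c0 : C := ⟨(st 0, st 0), hG.mdl.st 0, hG.mdl.st 0, h00⟩
  let sq : ℕ → C := fun n => Nat.rec c0 (fun j c => nx j c) n
  have hsq : ∀ j, sq (j + 1) = nx j (sq j) := fun j => rfl
  have hWmono : ∀ j k, j ≤ k → ∀ y ∈ I, W k y → W j y := by
    intro j k hjk
    induction k, hjk using Nat.le_induction with
    | base => exact fun _ _ h => h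
    | succ k _ ih => exact fun y hy h => ih y hy (hdec k y hy h)
  have hmem1 : ∀ j y, mem y (sq j).1.2 → y < (sq j).1.1 := fun j => (sq j).2.2.2
  have hsqM : ∀ j, (sq j).1.1 ∈ M := fun j => (sq j).2.1
  have hmemI : ∀ j y, mem y (sq j).1.2 → y ∈ I := fun j y hy =>
    hG.down _ (hMI _ (hsqM j)) _ (hmem1 j y hy).le
  have hcoh : ∀ j k, j ≤ k → (sq j).1.1 ≤ (sq k).1.1 ∧
      (∀ y < (sq j).1.1, (mem y (sq k).1.2 ↔ mem y (sq j).1.2)) ∧
      (∀ y, (sq j).1.1 ≤ y → mem y (sq k).1.2 → W j y) := by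
    intro j k hjk
    induction k, hjk using Nat.le_induction with
    | base => exact ⟨le_rfl, fun _ _ => Iff.rfl, fun y hy hy' => absurd (hmem1 j y hy') (not_lt.2 hy)⟩
    | succ k hjk ih =>
      obtain ⟨i1, i2, i3⟩ := ih
      obtain ⟨n1, n2, n3, -, -⟩ := hnx k (sq k)
      rw [← hsq] at n1 n2 n3
      refine ⟨i1.trans n1, fun y hy => (n2 y (lt_of_lt_of_le hy i1)).trans (i2 y hy), ?_⟩
      intro y hy hy'
      rcases lt_or_ge y (sq k).1.1 with h1 | h1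
      · exact i3 y hy ((n2 y h1).1 hy')
      · exact hWmono j k hjk y (hmemI (k + 1) y hy') (n3 y h1 hy')
  let G : Set H := {y | ∃ j, mem y (sq j).1.2}
  have hGI : ∀ x ∈ G, x ∈ I := fun x ⟨j, hj⟩ => hmemI j x hj
  have hunbG : ∀ b ∈ I, ∃ y ∈ G, b ≤ y := by
    intro b hb
    obtain ⟨m, hm, hbm⟩ := hG.cof b hb
    obtain ⟨j, hj⟩ : (fun x => x, m) ∈ Set.range f := by
      rw [← hf]; exact ⟨hF.id, hm⟩
    obtain ⟨-, -, -, ⟨y, hy1, hy2⟩, -⟩ := hnx j (sq j)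
    rw [← hsq] at hy2
    rw [hj] at hy1
    exact ⟨y, ⟨j + 1, hy2⟩, hbm.trans hy1⟩
  have hcofs : ∀ b ∈ I, ∀ j0, ∃ j, j0 ≤ j ∧ b ≤ (sq j).1.1 := by
    intro b hb j0
    obtain ⟨y, ⟨j, hj⟩, hy⟩ := hunbG b hb
    rcases le_total j0 j with h | h
    · exact ⟨j, h, hy.trans (hmem1 j y hj).le⟩
    · exact ⟨j0, le_rfl, (hy.trans (hmem1 j y hj).le).trans (hcoh j j0 h).1⟩
  have hGmem : ∀ j, ∀ y < (sq j).1.1, (mem y (sq j).1.2 ↔ y ∈ G) := by
    intro j y hy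
    constructor
    · exact fun h => ⟨j, h⟩
    · rintro ⟨k, hk⟩
      rcases le_total j k with h | h
      · exact ((hcoh j k h).2.1 y hy).1 hk
      · exact ((hcoh k j h).2.1 y (hmem1 k y hk)).2 hk
  have hCod : Cod M G := by
    intro b hb
    obtain ⟨j, -, hj⟩ := hcofs b (hMI b hb) 0
    refine ⟨cutH b (sq j).1.2, hG.mdl.ap _ hF.cut _ (hG.mdl.pp _ hb _ (sq j).2.2.1), fun i => ?_⟩
    rw [mem_cutH]
    constructor
    · rintro ⟨h1, h2⟩; exact ⟨h1, j, h2⟩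
    · rintro ⟨h1, h2⟩; exact ⟨h1, (hGmem j i (lt_of_lt_of_le h1 hj)).2 h2⟩
  -- the join
  have hle2 : ∀ k : H, k ≤ ap (fun y => 2 * y) k := by
    intro k
    obtain ⟨k, rfl⟩ := k.rep
    rw [ap_coe, le_coe]
    exact ev_of_forall fun n => by omega
  have hle2' : ∀ k : H, k ≤ ap (fun y => 2 * y + 1) k := by
    intro k
    obtain ⟨k, rfl⟩ := k.rep
    rw [ap_coe, le_coe]
    exact ev_of_forall fun n => by omega
  have hjoin : ∀ k b x, Seg X b x → b ≤ (sq k).1.1 → Seg (join X G) b (ap3 jn b x (sq k).1.2) := by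
    intro k b x hx hb i
    rw [mem_jn]
    constructor
    · rintro ⟨h1, ⟨l, hl, hl'⟩ | ⟨l, hl, hl'⟩⟩
      · exact ⟨h1, Or.inl ⟨l, ((hx l).1 hl').2, hl⟩⟩
      · exact ⟨h1, Or.inr ⟨l, ⟨k, hl'⟩, hl⟩⟩
    · rintro ⟨h1, ⟨l, hl', hl⟩ | ⟨l, hl', hl⟩⟩
      · exact ⟨h1, Or.inl ⟨l, hl, (hx l).2 ⟨lt_of_le_of_lt (hle2 l) (hl ▸ h1), hl'⟩⟩⟩
      · have h2 : l < b := lt_of_le_of_lt (hle2' l) (hl ▸ h1)
        exact ⟨h1, Or.inr ⟨l, hl, (hGmem k l (lt_of_lt_of_le h2 hb)).2 hl'⟩⟩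
  have hTAcc : ∀ (F : ℕ → ℕ) (k : ℕ) (y b : H), b ≤ (sq k).1.1 →
      (T F (join X G) y b ↔ Acc F X (sq k).1.2 y b) := by
    intro F k y b hb
    obtain ⟨b', hb', hbb'⟩ := hG.cof b (hG.down _ (hMI _ (hsqM k)) _ hb)
    obtain ⟨x, hxM, hx⟩ := hG.cod b' hb'
    have hxb := hx.cut hbb'
    constructor
    · rintro ⟨w, hw, h⟩
      refine ⟨_, hxb, ?_⟩
      rw [(hjoin k b _ hxb hb).unique hw]
      exact h
    · rintro ⟨x', hx', h⟩
      exact ⟨_, hjoin k b x' hx' hb, h⟩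
  refine ⟨G, hGI, hCod, ?_, hunbG, ?_⟩
  · intro F hFF m hm
    obtain ⟨m', hm', hmm'⟩ := hG.cof m hm
    obtain ⟨j, hj⟩ : (F, m') ∈ Set.range f := by
      rw [← hf]; exact ⟨hFF, hm'⟩
    obtain ⟨-, -, -, -, s, hs, hsle, hprop⟩ := hnx j (sq j)
    rw [← hsq] at hsle hprop
    rw [hj] at hprop
    refine ⟨s, hs, fun b hb y hy hT => ?_⟩
    obtain ⟨k, hk, hbk⟩ := hcofs b hb (j + 1)
    obtain ⟨q1, q2, q3⟩ := hcoh (j + 1) k hk
    have q3' : ∀ y, (sq (j + 1)).1.1 ≤ y → mem y (sq k).1.2 → W j y := fun y hy hy' =>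
      hdec j y (hmemI k y hy') (q3 y hy hy')
    obtain ⟨c, hc, hacc⟩ := hprop (sq k) q1 q2 q3' y (lt_of_lt_of_le hy hmm') b hbk
      ((hTAcc F k y b hbk).1 hT)
    exact ⟨c, hc, (hTAcc F k y c (hc.trans (hsle.trans q1))).2 hacc⟩
  · intro j
    refine ⟨(sq j).1.1, hMI _ (hsqM j), ?_⟩
    rintro y ⟨k, hk⟩ hy
    rcases le_total j k with h | h
    · exact (hcoh j k h).2.2 y hy hk
    · exfalso
      have := (hmem1 k y hk).trans_le (hcoh k j h).1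
      exact absurd this (not_lt.2 hy)


/-- operators used in the next theorem -/
structure OpsA (FF : Set (ℕ → ℕ)) : Prop where
  psi : ∀ E ∈ FF, ∀ F ∈ FF, psi E F ∈ FF
  nxt : ∀ E ∈ FF, ∀ F ∈ FF, nxt E F ∈ FF
  one : ∀ E ∈ FF, one E ∈ FF

theorem lemmaA {FF : Set (ℕ → ℕ)} {I M X : Set H} (hFc : FF.Countable) (hF : Ops FF) (hA : OpsA FF)
    (hM : M.Countable) (hG : Good FF I M X) (W : ℕ → H → Prop)
    (hW : ∀ j, Sig FF I M X (W j)) (hdec : ∀ j, ∀ y ∈ I, W (j + 1) y → W j y)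
    (hunb : ∀ j, ∀ b ∈ I, ∃ y ∈ I, b ≤ y ∧ W j y) :
    ∃ G : Set H, (∀ x ∈ G, x ∈ I) ∧ Cod M G ∧ SC FF I (join X G) ∧ (∀ b ∈ I, ∃ y ∈ G, b ≤ y) ∧
      ∀ j, ∃ b ∈ I, ∀ y ∈ G, b ≤ y → W j y :=
  lemmaA0 hFc hF.toFam hA.psi hA.nxt hA.one hM hG W hW hdec hunb

end Pool.Agent.Helper317.CADS
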