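import Pool.Agent.Helper317.CADS.Ord

/-!
Decided subsets of linear orders.
-/

namespace Pool.Agent.Helper317.CADS

open Function Filter

variable {FF : Set (ℕ → ℕ)} {I M X : Set H}

/-- one step of the construction -/
theorem lemmaB_step (hF : Ops FF)
    (hprF : (fun w : ℕ => pr w.unpair.1 w.unpair.2) ∈ FF)
    (hG : Good FF I M X) {A R : Set H}
    (hR : Del FF I M X R) (hlin : LinI A R) {x : H} (hx : x ∈ M) (W : H → Prop)
    (hW : Sig FF I M X W) (hWA : ∀ y ∈ I, W y → y ∈ A) (hWu : ∀ b ∈ I, ∃ y ∈ I, b ≤ y ∧ W y) :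
    ∃ W' : H → Prop, (Sig FF I M X W' ∧ (∀ y ∈ I, W' y → y ∈ A) ∧
      (∀ b ∈ I, ∃ y ∈ I, b ≤ y ∧ W' y)) ∧ (∀ y ∈ I, W' y → W y) ∧
      (x ∈ A → (∀ y, W' y → leR R y x) ∨ (∀ y, W' y → leR R x y)) := by
  classical
  by_cases hxA : x ∈ A
  · have hS1 : Sig FF I M X fun y => W y ∧ leR R x y := by
      refine Sig.and hF hG hW ?_
      exact Sig.sub hF hG hR.2.1 hprF hx
    have hS2 : Sig FF I M X fun y => W y ∧ leR R y x := by
      refine Sig.and hF hG hW ?_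
      have hG2 : (fun w : ℕ => (fun w : ℕ => pr w.unpair.1 w.unpair.2)
          ((fun w : ℕ => Nat.pair w.unpair.2 w.unpair.1) w)) ∈ FF := by
        refine hF.comp _ hprF _ ?_
        exact hF.pair _ hF.snd _ hF.fst
      have h := Sig.sub hF hG hR.2.1 hG2 hx
      have he : (fun y => ap (fun w : ℕ => (fun w : ℕ => pr w.unpair.1 w.unpair.2)
          ((fun w : ℕ => Nat.pair w.unpair.2 w.unpair.1) w)) (pp x y) ∈ R) =
          fun y => leR R y x := by
        funext y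
        obtain ⟨y, rfl⟩ := y.rep
        obtain ⟨x, rfl⟩ := x.rep
        simp only [leR, ap2_coe, ap_coe, pp_coe, Nat.unpair_pair]
      rw [he] at h
      exact h
    by_cases hu : ∀ b ∈ I, ∃ y ∈ I, b ≤ y ∧ (W y ∧ leR R x y)
    · exact ⟨_, ⟨hS1, fun y hy h => hWA y hy h.1, hu⟩, fun y _ h => h.1,
        fun _ => Or.inr fun y h => h.2⟩
    · refine ⟨_, ⟨hS2, fun y hy h => hWA y hy h.1, ?_⟩, fun y _ h => h.1,
        fun _ => Or.inl fun y h => h.2⟩
      push Not at hu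
      obtain ⟨b1, hb1, hu⟩ := hu
      intro b hb
      have hbm : max b b1 ∈ I := by
        rcases le_total b b1 with h | h
        · rw [max_eq_right h]; exact hb1
        · rw [max_eq_left h]; exact hb
      obtain ⟨y, hy, hby, hWy⟩ := hWu _ hbm
      refine ⟨y, hy, (le_max_left _ _).trans hby, hWy, ?_⟩
      rcases hlin.total x hxA y (hWA y hy hWy) with h | h
      · exact absurd h (hu y hy ((le_max_right _ _).trans hby) hWy)
      · exact h
  · exact ⟨W, ⟨hW, hWA, hWu⟩, fun y _ h => h, fun h => absurd h hxA⟩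

/-- TARGET -/
theorem lemmaB (hFc : FF.Countable) (hF : Ops FF) (hOA : OpsA FF)
    (hprF : (fun w : ℕ => pr w.unpair.1 w.unpair.2) ∈ FF)
    (heq : chi (fun w : ℕ => w.unpair.1 = w.unpair.2) ∈ FF)
    (hne : chi (fun w : ℕ => w.unpair.1 ≠ w.unpair.2) ∈ FF)
    (hM : M.Countable) (hG : Good FF I M X) {A R : Set H} (hA : Del FF I M X A)
    (hR : Del FF I M X R) (hlin : LinI A R) (hunb : Unb I A) :
    ∃ G : Set H, Good FF I M (join X G) ∧ ∃ A' : Set H, A' ⊆ A ∧ Del FF I M (join X G) A' ∧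
      Unb I A' ∧ Stab I M A' R := by
  classical
  obtain ⟨x, hx⟩ := hM.exists_eq_range ⟨st 0, hG.mdl.st 0⟩
  have hxM : ∀ j, x j ∈ M := fun j => by rw [hx]; exact Set.mem_range_self j
  let S : (H → Prop) → Prop := fun W => Sig FF I M X W ∧ (∀ y ∈ I, W y → y ∈ A) ∧
      (∀ b ∈ I, ∃ y ∈ I, b ≤ y ∧ W y)
  have hstep : ∀ (j : ℕ) (W : {W : H → Prop // S W}), ∃ W' : {W : H → Prop // S W},
      (∀ y ∈ I, W'.1 y → W.1 y) ∧
      (x j ∈ A → (∀ y, W'.1 y → leR R y (x j)) ∨ (∀ y, W'.1 y → leR R (x j) y)) := by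
    rintro j ⟨W, h1, h2, h3⟩
    obtain ⟨W', h4, h5, h6⟩ := lemmaB_step hF hprF hG hR hlin (hxM j) W h1 h2 h3
    exact ⟨⟨W', h4⟩, h5, h6⟩
  choose nx hnx1 hnx2 using hstep
  have h0 : S fun y => y ∈ A := by
    refine ⟨hA.2.1, fun y _ h => h, fun b hb => ?_⟩
    obtain ⟨y, hy, hby⟩ := hunb b hb
    exact ⟨y, hA.1 y hy, hby, hy⟩
  let V : ℕ → {W : H → Prop // S W} := fun j => Nat.rec ⟨_, h0⟩ (fun j W => nx j W) j
  obtain ⟨G, hGI, hcod, hsc, hGu, hGW⟩ := lemmaA hFc hF hOA hM hG (fun j => (V j).1)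
    (fun j => (V j).2.1) (fun j y hy h => hnx1 j (V j) y hy h) (fun j => (V j).2.2.2)
  have hG' := Good.join hF hG hGI hcod hsc
  refine ⟨G, hG', {y | y ∈ G ∧ y ∈ A}, fun y hy => hy.2, ⟨fun y hy => hA.1 y hy.2, ?_, ?_⟩, ?_, ?_⟩
  · exact Sig.and hF hG' (Sig.memG hF hG' hGI).1 (Sig.mono hF hG (le_refl M) hG' hA.2.1)
  · have h := Sig.or hF hG' (Sig.memG hF hG' hGI).2 (Sig.mono hF hG (le_refl M) hG' hA.2.2)
    have he : (fun y => y ∉ G ∨ y ∉ A) = fun y => y ∉ {y | y ∈ G ∧ y ∈ A} := by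
      funext y
      simp only [Set.mem_ofPred_eq, not_and_or]
    rw [he] at h
    exact h
  · intro b hb
    obtain ⟨b0, hb0, h⟩ := hGW 0
    have hbm : max b b0 ∈ I := by
      rcases le_total b b0 with h | h
      · rw [max_eq_right h]; exact hb0
      · rw [max_eq_left h]; exact hb
    obtain ⟨y, hy, hby⟩ := hGu _ hbm
    exact ⟨y, ⟨hy, h y hy ((le_max_right _ _).trans hby)⟩, (le_max_left _ _).trans hby⟩
  · intro z hz hzA
    rw [hx] at hz
    obtain ⟨j, rfl⟩ := hz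
    obtain ⟨b, hb, h⟩ := hGW (j + 1)
    rcases hnx2 j (V j) hzA.2 with h2 | h2
    · exact Or.inr ⟨b, hb, fun y hy hby => h2 y (h y hy.1 hby)⟩
    · exact Or.inl ⟨b, hb, fun y hy hby => h2 y (h y hy.1 hby)⟩


end Pool.Agent.Helper317.CADS
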