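import Pool.Agent.Helper317.CADS.Ord

/-!
The null family for cohesiveness.
-/

namespace Pool.Agent.Helper317.CADS

open Function Filter

variable {FF : Set (ℕ → ℕ)} {I M X : Set H}

/-- functions needed below -/
structure OpsN (FF : Set (ℕ → ℕ)) : Prop where
  pr : (fun w : ℕ => pr w.unpair.1 w.unpair.2) ∈ FF
  le : chi (fun w : ℕ => w.unpair.1 ≤ w.unpair.2) ∈ FF
  /-- `w = (n,(z1,z2))`: the one-element sequence with the partial assignment whose domain is the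
  complement below `n` of the intersection of `z1` and `z2`, with values `z1` -/
  tau : (fun w : ℕ => lamc (fun _ => Nat.pair
    (cpc (fun i => ¬ (w.unpair.2.unpair.1.testBit i = true ∧ w.unpair.2.unpair.2.testBit i = true))
      w.unpair.1) w.unpair.2.unpair.1) 1) ∈ FF


theorem nc_G1 (q u y : H) : ap (fun x => x.unpair.2.unpair.1) (pp q (pp u y)) = u := by
  obtain ⟨q, rfl⟩ := q.rep
  obtain ⟨u, rfl⟩ := u.rep
  obtain ⟨y, rfl⟩ := y.rep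
  simp only [ap_coe, pp_coe, Nat.unpair_pair]

theorem nc_G2 (q u y : H) :
    ap (fun x => pr x.unpair.2.unpair.2 x.unpair.2.unpair.1) (pp q (pp u y)) = ap2 pr y u := by
  obtain ⟨q, rfl⟩ := q.rep
  obtain ⟨u, rfl⟩ := u.rep
  obtain ⟨y, rfl⟩ := y.rep
  simp only [ap_coe, pp_coe, ap2_coe, Nat.unpair_pair]

theorem nc_G3 (b u y : H) :
    ap (fun x => chi (fun w : ℕ => w.unpair.1 ≤ w.unpair.2)
      (Nat.pair x.unpair.1 x.unpair.2.unpair.1)) (pp b (pp u y)) = st 1 ↔ b ≤ u := by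
  obtain ⟨b, rfl⟩ := b.rep
  obtain ⟨u, rfl⟩ := u.rep
  obtain ⟨y, rfl⟩ := y.rep
  simp only [ap_coe, pp_coe, st_coe, eq_coe, le_coe, chi_eq, Nat.unpair_pair]

theorem nc_sig (hF : Ops FF) (hN : OpsN FF) (hG : Good FF I M X) {A Z : Set H}
    (hA : Sig FF I M X (· ∈ A)) (hZ : Sig FF I M X (· ∈ Z)) {b : H} (hb : b ∈ M) :
    Sig FF I M X fun i => ∃ z ∈ I, (z ∈ Z ∧ b ≤ z) ∧ ap2 pr i z ∈ A := by
  have g1 : (fun x : ℕ => x.unpair.2.unpair.1) ∈ FF := hF.comp _ hF.fst _ hF.snd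
  have g1' : (fun x : ℕ => x.unpair.2.unpair.2) ∈ FF := hF.comp _ hF.snd _ hF.snd
  have g2 : (fun x : ℕ => pr x.unpair.2.unpair.2 x.unpair.2.unpair.1) ∈ FF := by
    have h := hF.comp _ hN.pr _ (hF.pair _ g1' _ g1)
    simpa only [Nat.unpair_pair] using h
  have g3 : (fun x : ℕ => chi (fun w : ℕ => w.unpair.1 ≤ w.unpair.2)
      (Nat.pair x.unpair.1 x.unpair.2.unpair.1)) ∈ FF :=
    hF.comp _ hN.le _ (hF.pair _ hF.fst _ g1)
  have s := Sig.ex hF hG (Sig.and hF hG (Sig.and hF hG (Sig.sub hF hG hZ g1 hb)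
    (Sig.int hF hG g3 hb)) (Sig.sub hF hG hA g2 hb))
  simpa only [nc_G1, nc_G2, nc_G3] using s

theorem nc_T (n z1 z2 i : H) :
    mem i (ap (fun x => x.unpair.1) (ap2 ev (ap (fun w : ℕ => lamc (fun _ => Nat.pair
    (cpc (fun i => ¬ (w.unpair.2.unpair.1.testBit i = true ∧ w.unpair.2.unpair.2.testBit i = true))
      w.unpair.1) w.unpair.2.unpair.1) 1) (pp n (pp z1 z2))) (st 0))) ↔
      i < n ∧ ¬ (mem i z1 ∧ mem i z2) := by
  obtain ⟨n, rfl⟩ := n.rep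
  obtain ⟨z1, rfl⟩ := z1.rep
  obtain ⟨z2, rfl⟩ := z2.rep
  obtain ⟨i, rfl⟩ := i.rep
  simp only [ap_coe, pp_coe, ap2_coe, st_coe, mem_coe, lt_coe, Nat.unpair_pair,
    ev_lamc (Nat.zero_lt_one), testBit_cpc, ev_and, ev_not]

theorem nc_T2 (n z1 z2 : H) :
    (ap (fun x => x.unpair.2) (ap2 ev (ap (fun w : ℕ => lamc (fun _ => Nat.pair
    (cpc (fun i => ¬ (w.unpair.2.unpair.1.testBit i = true ∧ w.unpair.2.unpair.2.testBit i = true))
      w.unpair.1) w.unpair.2.unpair.1) 1) (pp n (pp z1 z2))) (st 0))) = z1 := by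
  obtain ⟨n, rfl⟩ := n.rep
  obtain ⟨z1, rfl⟩ := z1.rep
  obtain ⟨z2, rfl⟩ := z2.rep
  simp only [ap_coe, pp_coe, ap2_coe, st_coe, Nat.unpair_pair,
    ev_lamc (Nat.zero_lt_one)]

theorem nc_d (n s : H) : ap2 dcard n s = ap2 bcard n (ap (fun x => x.unpair.1) s) := by
  obtain ⟨n, rfl⟩ := n.rep
  obtain ⟨s, rfl⟩ := s.rep
  simp only [ap_coe, ap2_coe, dcard]

theorem nc_zero {u : H} (h : u < st 1) : u = st 0 := by
  obtain ⟨u, rfl⟩ := u.rep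
  rw [st_coe, lt_coe] at h
  rw [st_coe, eq_coe]
  exact h.mp fun n hn => by omega

theorem nc_pos : st 0 < st 1 := by
  rw [st_coe, st_coe, lt_coe]
  exact ev_of_forall fun n => Nat.zero_lt_one

theorem nc_c {n f r : H} (h : st 2 * ap4 cntc n (st 1) f r ≤ st 1) :
    ∃ i < n, mem i (ap (fun x => x.unpair.1) (ap2 ev f (st 0))) ∧
      mem i (ap (fun x => x.unpair.1) r) ∧
      ¬ (mem i (ap (fun x => x.unpair.2) (ap2 ev f (st 0))) ↔
        mem i (ap (fun x => x.unpair.2) r)) := by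
  obtain ⟨n, rfl⟩ := n.rep
  obtain ⟨f, rfl⟩ := f.rep
  obtain ⟨r, rfl⟩ := r.rep
  rw [st_coe, st_coe, ap4_coe, mul_coe, le_coe] at h
  simp only [H.ex, ap_coe, ap2_coe, st_coe, mem_coe, lt_coe]
  simp only [← ev_iff, ← ev_not, ← ev_and]
  rw [← ev_ex (P := fun k i => i < n k ∧ (ev (f k) 0).unpair.1.testBit i = true ∧
    (r k).unpair.1.testBit i = true ∧ ¬ ((ev (f k) 0).unpair.2.testBit i = true ↔
      (r k).unpair.2.testBit i = true))]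
  refine h.mp fun k hk => ?_
  have h0 : cntc (n k) 1 (f k) (r k) = 0 := by omega
  unfold cntc at h0
  rw [Finset.card_eq_zero, Finset.filter_eq_empty_iff] at h0
  have h1 := h0 (Finset.mem_range.2 Nat.zero_lt_one)
  unfold compat at h1
  push Not at h1
  obtain ⟨i, hi, h2, h3, h4⟩ := h1
  refine ⟨i, hi, h2, h3, ?_⟩
  intro h5
  apply h4
  exact Bool.eq_iff_iff.2 h5

/-- TARGET -/
theorem null_coh (hF : Ops FF) (hN : OpsN FF) (hG : Good FF I M X) {n : H} (hn : n ∈ M)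
    (hbig : ∀ k : ℕ, st k < n) {M0 : Set H} (h1 : st 1 ∈ M0) {ρ : ℕ → H} (hBN : BN n M0 M ρ)
    {R Z : Set H} (hR : Del FF I M X R) (hZ : Del FF I M X Z) (hunb : Unb I Z)
    (hlim : ∀ j, ∀ i < n, mem i (ap (fun x => x.unpair.1) (ρ j)) → ∃ b ∈ I, ∀ z ∈ I, b ≤ z →
      (ap2 pr i z ∈ R ↔ mem i (ap (fun x => x.unpair.2) (ρ j))))
    {b : H} (hb : b ∈ M) (m' : ℕ) :
    ∃ w : H, st m' * ap2 bcard n w ≤ n ∧ ∀ c < n, ¬ mem c w →
      (∃ z ∈ Z, b ≤ z ∧ ap2 pr c z ∈ R) ∧ (∃ z ∈ Z, b ≤ z ∧ ap2 pr c z ∉ R) := by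
  classical
  have hR2 : Sig FF I M X (· ∈ Rᶜ) := hR.2.2
  obtain ⟨z1, hz1M, hz1⟩ := Sig.coded hF hG (nc_sig hF hN hG hR.2.1 hZ.2.1 hb) hn
  obtain ⟨z2, hz2M, hz2⟩ := Sig.coded hF hG (nc_sig hF hN hG hR2 hZ.2.1 hb) hn
  have hfM := hG.mdl.ap _ hN.tau _ (hG.mdl.pp _ hn _ (hG.mdl.pp _ hz1M _ hz2M))
  have hTm := nc_T n z1 z2
  have hT2 := nc_T2 n z1 z2
  generalize hfd : ap (fun w : ℕ => lamc (fun _ => Nat.pair
    (cpc (fun i => ¬ (w.unpair.2.unpair.1.testBit i = true ∧ w.unpair.2.unpair.2.testBit i = true))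
      w.unpair.1) w.unpair.2.unpair.1) 1) (pp n (pp z1 z2)) = f at hfM hTm hT2
  refine ⟨ap (fun x => x.unpair.1) (ap2 ev f (st 0)), ?_, ?_⟩
  · by_contra hcon
    have hcon' := (not_le.1 hcon).le
    rw [← nc_d] at hcon'
    obtain ⟨j, hj⟩ := hBN (st 1) h1 f hfM m' 2 nc_pos (fun u hu => by
      rw [nc_zero hu]
      exact hcon')
    obtain ⟨i, hi, hi1, hi2, hi3⟩ := nc_c hj
    rw [hT2] at hi3
    obtain ⟨b', hb', hlim'⟩ := hlim j i hi hi2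
    have hmax : max b b' ∈ I := by
      rcases max_choice b b' with h | h
      · rw [h]
        exact hG.sub b hb
      · rw [h]
        exact hb'
    obtain ⟨z, hz, hbz⟩ := hunb _ hmax
    have hzI : z ∈ I := hZ.1 z hz
    have h2 := hlim' z hzI ((le_max_right _ _).trans hbz)
    have hbz' : b ≤ z := (le_max_left _ _).trans hbz
    apply hi3
    by_cases hm : mem i (ap (fun x => x.unpair.2) (ρ j))
    · exact ⟨fun _ => hm, fun _ => (hz1 i).2 ⟨hi, z, hzI, ⟨hz, hbz'⟩, h2.2 hm⟩⟩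
    · have h3 : mem i z2 := (hz2 i).2 ⟨hi, z, hzI, ⟨hz, hbz'⟩, fun h => hm (h2.1 h)⟩
      have h4 := ((hTm i).1 hi1).2
      exact ⟨fun h => absurd ⟨h, h3⟩ h4, fun h => absurd h hm⟩
  · intro c hc hcw
    rw [hTm c] at hcw
    have h5 : mem c z1 ∧ mem c z2 := by
      by_contra h
      exact hcw ⟨hc, h⟩
    obtain ⟨_, z, _, ⟨hz, hbz⟩, hzR⟩ := (hz1 c).1 h5.1
    obtain ⟨_, z', _, ⟨hz', hbz'⟩, hzR'⟩ := (hz2 c).1 h5.2
    exact ⟨⟨z, hz, hbz, hzR⟩, ⟨z', hz', hbz', hzR'⟩⟩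


end Pool.Agent.Helper317.CADS
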