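import Pool.Agent.Helper317.CADS.Base

/-!
Nested cuts.
-/

namespace Pool.Agent.Helper317.CADS

open Function Filter

/-- the pairing used for relations -/
def pr (a b : ℕ) : ℕ := (a + b) * (a + b) + a

/-- `d` is below `e` according to the bits of `r` -/
def lek (r d e : ℕ) : Prop := r.testBit (pr d e) = true

/-- number of `u < n` whose value lies in `z` and is at most `d` -/
noncomputable def meas (n z r g d : ℕ) : ℕ := by
  classical exact
  ((Finset.range n).filter fun u => z.testBit (ev g u) = true ∧ lek r (ev g u) d).card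

/-- largest element of `z` of small measure -/
noncomputable def topc (l m' : ℕ) (n z r g : ℕ) : ℕ :=
  mu fun d => z.testBit d = true ∧ 2 * m' * meas n z r g d < l * n ∧
    ∀ d', z.testBit d' = true → 2 * m' * meas n z r g d' < l * n → lek r d' d

/-- smallest element of `z` of large measure -/
noncomputable def botc (l m' : ℕ) (n z r g : ℕ) : ℕ :=
  mu fun d => z.testBit d = true ∧ l * n ≤ 2 * m' * meas n z r g d ∧
    ∀ d', z.testBit d' = true → l * n ≤ 2 * m' * meas n z r g d' → lek r d d'

theorem meas_le (n z r g d : ℕ) : meas n z r g d ≤ n := by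
  classical
  unfold meas
  refine (Finset.card_filter_le _ _).trans ?_
  simp

theorem exists_max_rel (S : Finset ℕ) (R : ℕ → ℕ → Prop) (hS : S.Nonempty)
    (hrefl : ∀ x ∈ S, R x x) (htot : ∀ x ∈ S, ∀ y ∈ S, R x y ∨ R y x)
    (htrans : ∀ x ∈ S, ∀ y ∈ S, ∀ w ∈ S, R x y → R y w → R x w) :
    ∃ d ∈ S, ∀ d' ∈ S, R d' d := by
  classical
  induction hS using Finset.Nonempty.cons_induction with
  | singleton a => exact ⟨a, by simp, fun d' hd' => by
      rw [Finset.mem_singleton] at hd'; subst hd'; exact hrefl _ (by simp)⟩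
  | cons a s ha hs ih =>
    obtain ⟨d, hd, hd2⟩ := ih (fun x hx => hrefl x (Finset.mem_cons_of_mem hx))
      (fun x hx y hy => htot x (Finset.mem_cons_of_mem hx) y (Finset.mem_cons_of_mem hy))
      (fun x hx y hy w hw => htrans x (Finset.mem_cons_of_mem hx) y (Finset.mem_cons_of_mem hy) w
        (Finset.mem_cons_of_mem hw))
    have haS : a ∈ Finset.cons a s ha := Finset.mem_cons_self _ _
    have hdS : d ∈ Finset.cons a s ha := Finset.mem_cons_of_mem hd
    rcases htot a haS d hdS with h | h
    · refine ⟨d, hdS, fun d' hd' => ?_⟩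
      rcases Finset.mem_cons.1 hd' with rfl | h'
      · exact h
      · exact hd2 _ h'
    · refine ⟨a, haS, fun d' hd' => ?_⟩
      rcases Finset.mem_cons.1 hd' with rfl | h'
      · exact hrefl _ haS
      · exact htrans d' hd' d hdS a haS (hd2 _ h') h

theorem testBit_lt' {z d : ℕ} (h : z.testBit d = true) : d < z + 1 := by
  by_contra hc
  have h1 : z < 2 ^ d := lt_of_lt_of_le (by omega : z < d) (Nat.lt_two_pow_self).le
  rw [Nat.testBit_eq_false_of_lt h1] at h
  exact absurd h (by simp)

theorem topc_spec {l m' n z r g v : ℕ} (hrefl : ∀ x, z.testBit x = true → lek r x x)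
    (htot : ∀ x y, z.testBit x = true → z.testBit y = true → lek r x y ∨ lek r y x)
    (htrans : ∀ x y w, z.testBit x = true → z.testBit y = true → z.testBit w = true →
      lek r x y → lek r y w → lek r x w)
    (hv : z.testBit v = true) (hv2 : 2 * m' * meas n z r g v < l * n) :
    z.testBit (topc l m' n z r g) = true ∧ 2 * m' * meas n z r g (topc l m' n z r g) < l * n ∧
    ∀ d', z.testBit d' = true → 2 * m' * meas n z r g d' < l * n →
      lek r d' (topc l m' n z r g) := by
  classical
  unfold topc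
  apply mu_spec (P := fun d => z.testBit d = true ∧ 2 * m' * meas n z r g d < l * n ∧
    ∀ d', z.testBit d' = true → 2 * m' * meas n z r g d' < l * n → lek r d' d)
  obtain ⟨d, hd, hd2⟩ := exists_max_rel
    ((Finset.range (z + 1)).filter fun d => z.testBit d = true ∧ 2 * m' * meas n z r g d < l * n)
    (lek r) ⟨v, Finset.mem_filter.2 ⟨Finset.mem_range.2 (testBit_lt' hv), hv, hv2⟩⟩
    (fun x hx => hrefl x (Finset.mem_filter.1 hx).2.1)
    (fun x hx y hy => htot x y (Finset.mem_filter.1 hx).2.1 (Finset.mem_filter.1 hy).2.1)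
    (fun x hx y hy w hw => htrans x y w (Finset.mem_filter.1 hx).2.1 (Finset.mem_filter.1 hy).2.1
      (Finset.mem_filter.1 hw).2.1)
  refine ⟨d, (Finset.mem_filter.1 hd).2.1, (Finset.mem_filter.1 hd).2.2, fun d' h1 h2 => ?_⟩
  exact hd2 d' (Finset.mem_filter.2 ⟨Finset.mem_range.2 (testBit_lt' h1), h1, h2⟩)

theorem botc_spec {l m' n z r g v : ℕ} (hrefl : ∀ x, z.testBit x = true → lek r x x)
    (htot : ∀ x y, z.testBit x = true → z.testBit y = true → lek r x y ∨ lek r y x)
    (htrans : ∀ x y w, z.testBit x = true → z.testBit y = true → z.testBit w = true →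
      lek r x y → lek r y w → lek r x w)
    (hv : z.testBit v = true) (hv2 : l * n ≤ 2 * m' * meas n z r g v) :
    z.testBit (botc l m' n z r g) = true ∧ l * n ≤ 2 * m' * meas n z r g (botc l m' n z r g) ∧
    ∀ d', z.testBit d' = true → l * n ≤ 2 * m' * meas n z r g d' →
      lek r (botc l m' n z r g) d' := by
  classical
  unfold botc
  apply mu_spec (P := fun d => z.testBit d = true ∧ l * n ≤ 2 * m' * meas n z r g d ∧
    ∀ d', z.testBit d' = true → l * n ≤ 2 * m' * meas n z r g d' → lek r d d')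
  obtain ⟨d, hd, hd2⟩ := exists_max_rel
    ((Finset.range (z + 1)).filter fun d => z.testBit d = true ∧ l * n ≤ 2 * m' * meas n z r g d)
    (fun a b => lek r b a) ⟨v, Finset.mem_filter.2 ⟨Finset.mem_range.2 (testBit_lt' hv), hv, hv2⟩⟩
    (fun x hx => hrefl x (Finset.mem_filter.1 hx).2.1)
    (fun x hx y hy => htot y x (Finset.mem_filter.1 hy).2.1 (Finset.mem_filter.1 hx).2.1)
    (fun x hx y hy w hw h1 h2 => htrans w y x (Finset.mem_filter.1 hw).2.1
      (Finset.mem_filter.1 hy).2.1 (Finset.mem_filter.1 hx).2.1 h2 h1)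
  refine ⟨d, (Finset.mem_filter.1 hd).2.1, (Finset.mem_filter.1 hd).2.2, fun d' h1 h2 => ?_⟩
  exact hd2 d' (Finset.mem_filter.2 ⟨Finset.mem_range.2 (testBit_lt' h1), h1, h2⟩)

/-- condition defining the exceptional set, `b = 0` means no lower element -/
def bad (b z r g d e u : ℕ) : Prop :=
  z.testBit (ev g u) = true ∧ (b = 1 → ¬ lek r (ev g u) d) ∧ ¬ lek r e (ev g u)

theorem bcard_cpc (P : ℕ → Prop) (n : ℕ) [DecidablePred P] :
    bcard n (cpc P n) = ((Finset.range n).filter P).card := by
  unfold bcard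
  congr 1
  apply Finset.filter_congr
  intro x hx
  rw [testBit_cpc]
  simp [Finset.mem_range.1 hx]

theorem count0 {n z r g e : ℕ}
    (htot : ∀ x y, z.testBit x = true → z.testBit y = true → lek r x y ∨ lek r y x)
    (he : z.testBit e = true) (d : ℕ) :
    bcard n (cpc (bad 0 z r g d e) n) ≤ meas n z r g e := by
  classical
  rw [bcard_cpc]
  unfold meas
  apply Finset.card_le_card
  intro u hu
  rw [Finset.mem_filter] at hu ⊢
  obtain ⟨h1, h2, _, h4⟩ := hu
  exact ⟨h1, h2, (htot _ _ h2 he).resolve_right h4⟩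

theorem count1 {n z r g d e : ℕ}
    (htot : ∀ x y, z.testBit x = true → z.testBit y = true → lek r x y ∨ lek r y x)
    (htrans : ∀ x y w, z.testBit x = true → z.testBit y = true → z.testBit w = true →
      lek r x y → lek r y w → lek r x w)
    (hd : z.testBit d = true) (he : z.testBit e = true) (hde : lek r d e) :
    bcard n (cpc (bad 1 z r g d e) n) + meas n z r g d ≤ meas n z r g e := by
  classical
  rw [bcard_cpc]
  unfold meas
  rw [← Finset.card_union_of_disjoint]
  · apply Finset.card_le_card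
    intro u hu
    rw [Finset.mem_union, Finset.mem_filter, Finset.mem_filter] at hu
    rw [Finset.mem_filter]
    rcases hu with ⟨h1, h2, _, h4⟩ | ⟨h1, h2, h3⟩
    · exact ⟨h1, h2, (htot _ _ h2 he).resolve_right h4⟩
    · exact ⟨h1, h2, htrans _ _ _ h2 hd he h3 hde⟩
  · rw [Finset.disjoint_left]
    intro u hu hu2
    rw [Finset.mem_filter] at hu hu2
    exact hu.2.2.1 rfl hu2.2.2

/-- TARGET -/
theorem null_cut (n : H) (hn : ∀ k : ℕ, st k < n) (M : Set H) (hnM : n ∈ M) (z r g : H)
    (hz : z ∈ M) (hr : r ∈ M) (hg : g ∈ M)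
    (htop : ∀ l m' : ℕ, ap4 (topc l m') n z r g ∈ M) (hbot : ∀ l m' : ℕ, ap4 (botc l m') n z r g ∈ M)
    (hrefl : ∀ x, mem x z → mem (ap2 pr x x) r)
    (htot : ∀ x y, mem x z → mem y z → mem (ap2 pr x y) r ∨ mem (ap2 pr y x) r)
    (htrans : ∀ x y w, mem x z → mem y z → mem w z → mem (ap2 pr x y) r → mem (ap2 pr y w) r →
      mem (ap2 pr x w) r)
    (hanti : ∀ x y, mem x z → mem y z → mem (ap2 pr x y) r → mem (ap2 pr y x) r → x = y)
    (Low : H → Prop) (hLU : ∀ d ∈ M, ∀ e ∈ M, mem d z → mem e z → Low d → ¬ Low e → mem (ap2 pr d e) r)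
    (m' : ℕ) :
    ∃ w, st m' * ap2 bcard n w ≤ n ∧ ∀ c < n, ¬ mem c w → mem (ap2 ev g c) z →
      (∃ d ∈ M, mem d z ∧ Low d ∧ mem (ap2 pr (ap2 ev g c) d) r) ∨
      (∃ e ∈ M, mem e z ∧ ¬ Low e ∧ mem (ap2 pr e (ap2 ev g c)) r) := by
  classical
  obtain ⟨n', rfl⟩ := n.rep
  obtain ⟨z', rfl⟩ := z.rep
  obtain ⟨r', rfl⟩ := r.rep
  obtain ⟨g', rfl⟩ := g.rep
  -- internal forms of the order axioms
  have Erefl : Ev fun k => ∀ x, (z' k).testBit x = true → lek (r' k) x x := by
    rw [ev_all]; intro f; rw [ev_imp]; intro hf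
    have := hrefl (f : H) hf
    rwa [ap2_coe] at this
  have Etot : Ev fun k => ∀ x y, (z' k).testBit x = true → (z' k).testBit y = true →
      lek (r' k) x y ∨ lek (r' k) y x := by
    rw [ev_all]; intro f
    rw [ev_all]; intro f2
    rw [ev_imp]; intro hf
    rw [ev_imp]; intro hf2
    rw [ev_or]
    have := htot (f : H) (f2 : H) hf hf2
    rwa [ap2_coe, ap2_coe] at this
  have Etrans : Ev fun k => ∀ x y w, (z' k).testBit x = true → (z' k).testBit y = true →
      (z' k).testBit w = true → lek (r' k) x y → lek (r' k) y w → lek (r' k) x w := by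
    rw [ev_all]; intro f
    rw [ev_all]; intro f2
    rw [ev_all]; intro f3
    rw [ev_imp]; intro hf
    rw [ev_imp]; intro hf2
    rw [ev_imp]; intro hf3
    rw [ev_imp]; intro h1
    rw [ev_imp]; intro h2
    have := htrans (f : H) (f2 : H) (f3 : H) hf hf2 hf3 (by rw [ap2_coe]; exact h1)
      (by rw [ap2_coe]; exact h2)
    rwa [ap2_coe] at this
  have hn0 : Ev fun k => 0 < n' k := by
    have := hn 0
    rw [st_coe, lt_coe] at this
    exact this
  -- representatives
  let rp : H → (ℕ → ℕ) := fun x => x.rep.choose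
  have hrp : ∀ x : H, x = ((rp x : ℕ → ℕ) : H) := fun x => x.rep.choose_spec
  -- big l d : l n ≤ 2 m' meas d
  let big : ℕ → H → Prop := fun l d => Ev fun k =>
    l * n' k ≤ 2 * m' * meas (n' k) (z' k) (r' k) (g' k) (rp d k)
  have hnbig : ∀ l d, ¬ big l d → Ev fun k =>
      2 * m' * meas (n' k) (z' k) (r' k) (g' k) (rp d k) < l * n' k := by
    intro l d h
    exact (ev_not.2 h).mp fun k hk => not_le.1 hk
  -- the largest l
  have hl0 : ∃ l0 : ℕ, (l0 = 0 ∨ ∃ d ∈ M, mem d (z' : H) ∧ Low d ∧ big l0 d) ∧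
      ∀ d ∈ M, mem d (z' : H) → Low d → ¬ big (l0 + 1) d := by
    by_contra hcon
    push Not at hcon
    have hall : ∀ l : ℕ, (l = 0 ∨ ∃ d ∈ M, mem d (z' : H) ∧ Low d ∧ big l d) := by
      intro l
      induction l with
      | zero => exact Or.inl rfl
      | succ l ih =>
        right
        obtain ⟨d, h1, h2, h3, h4⟩ := hcon l ih
        exact ⟨d, h1, h2, h3, h4⟩
    rcases hall (2 * m' + 1) with h | ⟨d, _, _, _, hb⟩
    · omega
    · have : Ev fun _ => False := (hb.and hn0).mp fun k hk => by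
        have h1 := meas_le (n' k) (z' k) (r' k) (g' k) (rp d k)
        have h2 := Nat.mul_le_mul_left (2 * m') h1
        have h3 := hk.1
        have h4 := hk.2
        rw [Nat.add_mul] at h3
        omega
      exact ev_const.1 this
  obtain ⟨l0, hl0, hl1⟩ := hl0
  by_cases hA : ∃ e ∈ M, mem e (z' : H) ∧ ¬ Low e ∧ ¬ big (l0 + 1) e
  · obtain ⟨e, heM, hez, heL, heb⟩ := hA
    have heb' := hnbig _ _ heb
    have hez' : Ev fun k => (z' k).testBit (rp e k) = true := by
      have h := hez
      rw [hrp e] at h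
      exact h
    rcases hl0 with h0 | ⟨d, hdM, hdz, hdL, hdb⟩
    · -- no lower element
      subst h0
      refine ⟨((fun k => cpc (bad 0 (z' k) (r' k) (g' k) 0 (rp e k)) (n' k) : ℕ → ℕ) : H), ?_, ?_⟩
      · rw [st_coe, ap2_coe, mul_coe, le_coe]
        refine ((heb'.and hez').and Etot).mp fun k hk => ?_
        obtain ⟨⟨h1, h2⟩, h3⟩ := hk
        have h4 := count0 (n := n' k) (g := g' k) h3 h2 0
        have h5 := Nat.mul_le_mul_left (2 * m') h4
        have h6 : 2 * m' * bcard (n' k) (cpc (bad 0 (z' k) (r' k) (g' k) 0 (rp e k)) (n' k)) =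
          2 * (m' * bcard (n' k) (cpc (bad 0 (z' k) (r' k) (g' k) 0 (rp e k)) (n' k))) := by ring
        rw [h6] at h5
        omega
      · intro c hc hcw hcz
        right
        refine ⟨e, heM, hez, heL, ?_⟩
        obtain ⟨c', rfl⟩ := c.rep
        rw [lt_coe] at hc
        rw [mem_coe, ← ev_not] at hcw
        rw [ap2_coe] at hcz ⊢
        rw [mem_coe] at hcz
        rw [hrp e, ap2_coe, mem_coe]
        refine ((hc.and hcw).and hcz).mp fun k hk => ?_
        obtain ⟨⟨h1, h2⟩, h3⟩ := hk
        rw [testBit_cpc] at h2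
        by_contra hno
        exact h2 ⟨h1, h3, fun h => absurd h (by norm_num), hno⟩
    · have hdz' : Ev fun k => (z' k).testBit (rp d k) = true := by
        have h := hdz
        rw [hrp d] at h
        exact h
      have hde : Ev fun k => lek (r' k) (rp d k) (rp e k) := by
        have h := hLU d hdM e heM hdz hez hdL heL
        rw [hrp d, hrp e, ap2_coe, mem_coe] at h
        exact h
      refine ⟨((fun k => cpc (bad 1 (z' k) (r' k) (g' k) (rp d k) (rp e k)) (n' k) : ℕ → ℕ) : H),
        ?_, ?_⟩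
      · rw [st_coe, ap2_coe, mul_coe, le_coe]
        have hdb' : Ev fun k =>
            l0 * n' k ≤ 2 * m' * meas (n' k) (z' k) (r' k) (g' k) (rp d k) := hdb
        refine ((((heb'.and hez').and (Etot.and Etrans)).and (hdz'.and hde)).and hdb').mp
          fun k hk => ?_
        obtain ⟨⟨⟨⟨h1, h2⟩, h3, h4⟩, h5, h6⟩, h7⟩ := hk
        have h8 := count1 (n := n' k) (g := g' k) h3 h4 h5 h2 h6
        have h9 := Nat.mul_le_mul_left (2 * m') h8
        rw [Nat.mul_add] at h9
        have h10 : 2 * m' * bcard (n' k) (cpc (bad 1 (z' k) (r' k) (g' k) (rp d k) (rp e k)) (n' k)) =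
          2 * (m' * bcard (n' k) (cpc (bad 1 (z' k) (r' k) (g' k) (rp d k) (rp e k)) (n' k))) := by
          ring
        rw [h10] at h9
        rw [Nat.add_mul] at h1
        omega
      · intro c hc hcw hcz
        obtain ⟨c', rfl⟩ := c.rep
        rw [lt_coe] at hc
        rw [mem_coe, ← ev_not] at hcw
        rw [ap2_coe] at hcz
        rw [mem_coe] at hcz
        have hor : Ev fun k => lek (r' k) (ev (g' k) (c' k)) (rp d k) ∨
            lek (r' k) (rp e k) (ev (g' k) (c' k)) := by
          refine ((hc.and hcw).and hcz).mp fun k hk => ?_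
          obtain ⟨⟨h1, h2⟩, h3⟩ := hk
          rw [testBit_cpc] at h2
          by_contra hno
          rw [not_or] at hno
          exact h2 ⟨h1, h3, fun _ => hno.1, hno.2⟩
        rcases ev_or.1 hor with h | h
        · left
          refine ⟨d, hdM, hdz, hdL, ?_⟩
          rw [hrp d, ap2_coe, ap2_coe, mem_coe]
          exact h
        · right
          refine ⟨e, heM, hez, heL, ?_⟩
          rw [hrp e, ap2_coe, ap2_coe, mem_coe]
          exact h
  · push Not at hA
    refine ⟨((fun _ => 0 : ℕ → ℕ) : H), ?_, ?_⟩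
    · rw [st_coe, ap2_coe, mul_coe, le_coe]
      refine ev_of_forall fun k => ?_
      have : bcard (n' k) 0 = 0 := by
        unfold bcard; simp
      rw [this]; simp
    · intro c hc _ hcz
      obtain ⟨c', rfl⟩ := c.rep
      rw [ap2_coe, mem_coe] at hcz
      rw [ap2_coe]
      by_cases hb : Ev fun k => (l0 + 1) * n' k ≤
          2 * m' * meas (n' k) (z' k) (r' k) (g' k) (ev (g' k) (c' k))
      · right
        have hspec : Ev fun k => (z' k).testBit (botc (l0 + 1) m' (n' k) (z' k) (r' k) (g' k)) = true ∧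
            (l0 + 1) * n' k ≤ 2 * m' * meas (n' k) (z' k) (r' k) (g' k)
              (botc (l0 + 1) m' (n' k) (z' k) (r' k) (g' k)) ∧
            lek (r' k) (botc (l0 + 1) m' (n' k) (z' k) (r' k) (g' k)) (ev (g' k) (c' k)) := by
          refine ((Erefl.and (Etot.and Etrans)).and (hb.and hcz)).mp fun k hk => ?_
          obtain ⟨⟨h1, h2, h3⟩, h4, h5⟩ := hk
          obtain ⟨a1, a2, a3⟩ := botc_spec h1 h2 h3 h5 h4
          exact ⟨a1, a2, a3 _ h5 h4⟩
        rw [ev_and, ev_and] at hspec
        obtain ⟨s1, s2, s3⟩ := hspec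
        have hmemM := hbot (l0 + 1) m'
        have hcoe := ap4_coe (F := botc (l0 + 1) m') (f := n') (g := z') (h := r') (k := g')
        rw [hcoe] at hmemM
        refine ⟨_, hmemM, ?_, ?_, ?_⟩
        · exact s1
        · intro hLow
          have hzz : mem ((fun k => botc (l0 + 1) m' (n' k) (z' k) (r' k) (g' k) : ℕ → ℕ) : H)
            (z' : H) := s1
          refine hl1 _ hmemM hzz hLow ?_
          have hrep := hrp ((fun k => botc (l0 + 1) m' (n' k) (z' k) (r' k) (g' k) : ℕ → ℕ) : H)
          have hrep2 := eq_coe.1 hrep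
          refine (hrep2.and s2).mp fun k hk => ?_
          obtain ⟨h1, h2⟩ := hk
          rw [← h1]
          exact h2
        · rw [ap2_coe, mem_coe]
          exact s3
      · left
        have hb' : Ev fun k => 2 * m' * meas (n' k) (z' k) (r' k) (g' k) (ev (g' k) (c' k)) <
            (l0 + 1) * n' k := (ev_not.2 hb).mp fun k hk => not_le.1 hk
        have hspec : Ev fun k => (z' k).testBit (topc (l0 + 1) m' (n' k) (z' k) (r' k) (g' k)) = true ∧
            2 * m' * meas (n' k) (z' k) (r' k) (g' k)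
              (topc (l0 + 1) m' (n' k) (z' k) (r' k) (g' k)) < (l0 + 1) * n' k ∧
            lek (r' k) (ev (g' k) (c' k)) (topc (l0 + 1) m' (n' k) (z' k) (r' k) (g' k)) := by
          refine ((Erefl.and (Etot.and Etrans)).and (hb'.and hcz)).mp fun k hk => ?_
          obtain ⟨⟨h1, h2, h3⟩, h4, h5⟩ := hk
          obtain ⟨a1, a2, a3⟩ := topc_spec h1 h2 h3 h5 h4
          exact ⟨a1, a2, a3 _ h5 h4⟩
        rw [ev_and, ev_and] at hspec
        obtain ⟨s1, s2, s3⟩ := hspec
        have hmemM := htop (l0 + 1) m'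
        have hcoe := ap4_coe (F := topc (l0 + 1) m') (f := n') (g := z') (h := r') (k := g')
        rw [hcoe] at hmemM
        refine ⟨_, hmemM, ?_, ?_, ?_⟩
        · exact s1
        · by_contra hLow
          have hzz : mem ((fun k => topc (l0 + 1) m' (n' k) (z' k) (r' k) (g' k) : ℕ → ℕ) : H)
            (z' : H) := s1
          have hbig := hA _ hmemM hzz hLow
          have hrep := hrp ((fun k => topc (l0 + 1) m' (n' k) (z' k) (r' k) (g' k) : ℕ → ℕ) : H)
          have hrep2 := eq_coe.1 hrep
          have hF : Ev fun _ => False := by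
            refine ((hrep2.and s2).and hbig).mp fun k hk => ?_
            obtain ⟨⟨h1, h2⟩, h3⟩ := hk
            rw [← h1] at h3
            exact absurd h2 (not_lt.2 h3)
          exact ev_const.1 hF
        · rw [ap2_coe, mem_coe]
          exact s3


end Pool.Agent.Helper317.CADS
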