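import Pool.Agent.Helper317.CADS.Ord

/-!
The null family for decided elements.
-/

namespace Pool.Agent.Helper317.CADS

open Function Filter

variable {FF : Set (ℕ → ℕ)} {I M X : Set H}


theorem nst_pr_lt (x y b : H) (hx : x < b) (hy : y < b) :
    ap2 pr x y < ap (fun x => pr x x) b := by
  obtain ⟨x, rfl⟩ := x.rep
  obtain ⟨y, rfl⟩ := y.rep
  obtain ⟨b, rfl⟩ := b.rep
  rw [lt_coe] at hx hy
  rw [ap2_coe, ap_coe, lt_coe]
  refine (hx.and hy).mp fun n ⟨h1, h2⟩ => ?_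
  show (x n + y n) * (x n + y n) + x n < (b n + b n) * (b n + b n) + b n
  have h3 : x n + y n ≤ b n + b n := by omega
  have h4 := Nat.mul_le_mul h3 h3
  omega

theorem nst_prF (hF : Ops FF) : (fun x : ℕ => pr x x) ∈ FF := by
  have h1 : (fun x : ℕ => Nat.pair x x) ∈ FF := hF.pair _ hF.id _ hF.id
  have h2 := hF.comp _ hF.add _ h1
  have h3 := hF.pair _ h2 _ h2
  have h4 := hF.comp _ hF.mul _ h3
  have h5 := hF.pair _ h4 _ hF.id
  have h6 := hF.comp _ hF.add _ h5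
  simp only [Nat.unpair_pair] at h6
  exact h6

/-- TARGET -/
theorem null_stab (hF : Ops FF)
    (htop : ∀ l m' : ℕ, (fun w : ℕ => topc l m' w.unpair.1 w.unpair.2.unpair.1
      w.unpair.2.unpair.2.unpair.1 w.unpair.2.unpair.2.unpair.2) ∈ FF)
    (hbot : ∀ l m' : ℕ, (fun w : ℕ => botc l m' w.unpair.1 w.unpair.2.unpair.1
      w.unpair.2.unpair.2.unpair.1 w.unpair.2.unpair.2.unpair.2) ∈ FF)
    (hG : Good FF I M X) {n : H} (hn : n ∈ M) (hbig : ∀ k : ℕ, st k < n)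
    {A R : Set H} (hA : Del FF I M X A) (hR : Del FF I M X R) (hlin : LinI A R) (hunb : Unb I A)
    (hst : Stab I M A R) {g b : H} (hg : g ∈ M) (hb : b ∈ M) (m' : ℕ) :
    ∃ w : H, st m' * ap2 bcard n w ≤ n ∧ ∀ c < n, ¬ mem c w → ap2 ev g c < b →
      ap2 ev g c ∈ A → Low I A R (ap2 ev g c) ∨ Up I A R (ap2 ev g c) := by
  obtain ⟨z, hzM, hz⟩ := Sig.coded hF hG hA.2.1 hb
  have hm : ap (fun x => pr x x) b ∈ M := hG.mdl.ap _ (nst_prF hF) b hb
  obtain ⟨r, hrM, hr⟩ := Sig.coded hF hG hR.2.1 hm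
  have hzr : ∀ x y, mem x z → mem y z → (mem (ap2 pr x y) r ↔ leR R x y) := by
    intro x y hx hy
    rw [hr]
    have hx' := ((hz x).1 hx).1
    have hy' := ((hz y).1 hy).1
    exact ⟨fun h => h.2, fun h => ⟨nst_pr_lt x y b hx' hy', h⟩⟩
  have hzA : ∀ x, mem x z → x ∈ A := fun x hx => ((hz x).1 hx).2
  have harg : pp n (pp z (pp r g)) ∈ M :=
    hG.mdl.pp _ hn _ (hG.mdl.pp _ hzM _ (hG.mdl.pp _ hrM _ hg))
  obtain ⟨w, hw1, hw2⟩ := null_cut n hbig M hn z r g hzM hrM hg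
    (fun l m' => hG.mdl.ap _ (htop l m') _ harg) (fun l m' => hG.mdl.ap _ (hbot l m') _ harg)
    (fun x hx => (hzr x x hx hx).2 (hlin.refl x (hzA x hx)))
    (fun x y hx hy => (hlin.total x (hzA x hx) y (hzA y hy)).imp
      (hzr x y hx hy).2 (hzr y x hy hx).2)
    (fun x y w hx hy hw h1 h2 => (hzr x w hx hw).2
      (hlin.trans x (hzA x hx) y (hzA y hy) w (hzA w hw) ((hzr x y hx hy).1 h1)
        ((hzr y w hy hw).1 h2)))
    (fun x y hx hy h1 h2 => hlin.antisymm x (hzA x hx) y (hzA y hy) ((hzr x y hx hy).1 h1)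
      ((hzr y x hy hx).1 h2))
    (Low I A R)
    (by
      intro d hd e he hdz hez hlow hnlow
      have hup := (hst e he (hzA e hez)).resolve_left hnlow
      obtain ⟨b1, hb1, h1⟩ := hlow
      obtain ⟨b2, hb2, h2⟩ := hup
      have key : ∃ y ∈ A, b1 ≤ y ∧ b2 ≤ y := by
        rcases le_total b1 b2 with h | h
        · obtain ⟨y, hy, hby⟩ := hunb b2 hb2
          exact ⟨y, hy, h.trans hby, hby⟩
        · obtain ⟨y, hy, hby⟩ := hunb b1 hb1
          exact ⟨y, hy, hby, h.trans hby⟩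
      obtain ⟨y, hy, h3, h4⟩ := key
      exact (hzr d e hdz hez).2 (hlin.trans d (hzA d hdz) y hy e (hzA e hez) (h1 y hy h3)
        (h2 y hy h4)))
    m'
  refine ⟨w, hw1, ?_⟩
  intro c hc hcw hcb hcA
  have hcz : mem (ap2 ev g c) z := (hz _).2 ⟨hcb, hcA⟩
  rcases hw2 c hc hcw hcz with ⟨d, hd, hdz, hlow, h⟩ | ⟨e, he, hez, hnlow, h⟩
  · left
    obtain ⟨b1, hb1, h1⟩ := hlow
    have h2 := (hzr _ d hcz hdz).1 h
    exact ⟨b1, hb1, fun y hy hby => hlin.trans _ hcA d (hzA d hdz) y hy h2 (h1 y hy hby)⟩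
  · right
    obtain ⟨b2, hb2, h1⟩ := (hst e he (hzA e hez)).resolve_left hnlow
    have h2 := (hzr e _ hez hcz).1 h
    exact ⟨b2, hb2, fun y hy hby => hlin.trans y hy e (hzA e hez) _ hcA (h1 y hy hby) h2⟩


end Pool.Agent.Helper317.CADS
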