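import Pool.Agent.Helper317.CADS.Sig
import Pool.Agent.Helper317.CADS.NCut
import Pool.Agent.Helper317.CADS.LemA

/-!
Linear orders on the cut, decided elements, adjoining a number.
-/

namespace Pool.Agent.Helper317.CADS

open Function Filter

variable {FF : Set (ℕ → ℕ)} {I M X : Set H}

/-- `x` is at most `y` in the relation `R` -/
def leR (R : Set H) (x y : H) : Prop := ap2 pr x y ∈ R

/-- `R` is a linear order of `A` -/
structure LinI (A R : Set H) : Prop where
  refl : ∀ x ∈ A, leR R x x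
  antisymm : ∀ x ∈ A, ∀ y ∈ A, leR R x y → leR R y x → x = y
  trans : ∀ x ∈ A, ∀ y ∈ A, ∀ z ∈ A, leR R x y → leR R y z → leR R x z
  total : ∀ x ∈ A, ∀ y ∈ A, leR R x y ∨ leR R y x

/-- unbounded in the cut -/
def Unb (I A : Set H) : Prop := ∀ b ∈ I, ∃ y ∈ A, b ≤ y

/-- almost all elements of `A` are above `x` -/
def Low (I A R : Set H) (x : H) : Prop := ∃ b ∈ I, ∀ y ∈ A, b ≤ y → leR R x y

/-- almost all elements of `A` are below `x` -/
def Up (I A R : Set H) (x : H) : Prop := ∃ b ∈ I, ∀ y ∈ A, b ≤ y → leR R y x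

/-- all elements of `A` in `M` are decided -/
def Stab (I M A R : Set H) : Prop := ∀ x ∈ M, x ∈ A → Low I A R x ∨ Up I A R x

end Pool.Agent.Helper317.CADS
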