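import Pool.Agent.Helper317.SOA

/-!
Linear orders, stable orders, the principles CADS and COH in a two-sorted structure.
-/

namespace Pool.Agent.Helper317.SOA

/-- `x ≤ y` in the relation coded by `R`. -/
def Model.Le (M : Model) (R : Set M.Num) (x y : M.Num) : Prop := M.pair x y ∈ R

/-- The set `A` with the relation (coded by) `R`, both members of the structure, is a linear
order. -/
structure Model.LinOrd (M : Model) (A R : Set M.Num) : Prop where
  dom : A ∈ M.sets
  rel : R ∈ M.sets
  refl : ∀ x ∈ A, M.Le R x x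
  antisymm : ∀ x ∈ A, ∀ y ∈ A, M.Le R x y → M.Le R y x → x = y
  trans : ∀ x ∈ A, ∀ y ∈ A, ∀ z ∈ A, M.Le R x y → M.Le R y z → M.Le R x z
  total : ∀ x ∈ A, ∀ y ∈ A, M.Le R x y ∨ M.Le R y x

/-- A set of numbers is finite if it is bounded. -/
def Model.Fin (M : Model) (A : Set M.Num) : Prop := ∃ b, ∀ x ∈ A, M.lt x b

/-- `p` is an immediate predecessor of `x` in the suborder `B`. -/
def Model.Adj (M : Model) (B R : Set M.Num) (p x : M.Num) : Prop :=
  p ≠ x ∧ M.Le R p x ∧ ∀ y ∈ B, M.Le R p y → M.Le R y x → y = p ∨ y = x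

/-- The suborder `B` is discrete: each element other than a first one has an immediate
predecessor and each element other than a last one has an immediate successor. -/
def Model.Discrete (M : Model) (B R : Set M.Num) : Prop :=
  ∀ x ∈ B, ((∃ y ∈ B, y ≠ x ∧ M.Le R y x) → ∃ p ∈ B, M.Adj B R p x) ∧
    ((∃ y ∈ B, y ≠ x ∧ M.Le R x y) → ∃ s ∈ B, M.Adj B R x s)

/-- The suborder `B` is stable: infinite, discrete, with at least two elements, and each element
has only finitely many predecessors or only finitely many successors. -/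
def Model.StableOrd (M : Model) (B R : Set M.Num) : Prop :=
  ¬ M.Fin B ∧ M.Discrete B R ∧ (∃ x ∈ B, ∃ y ∈ B, x ≠ y) ∧
    ∀ x ∈ B, M.Fin {y | y ∈ B ∧ y ≠ x ∧ M.Le R y x} ∨ M.Fin {y | y ∈ B ∧ y ≠ x ∧ M.Le R x y}

/-- The principle `CADS`: every infinite linear order has a stable suborder. -/
def CADS (M : Model) : Prop :=
  ∀ A R : Set M.Num, M.LinOrd A R → ¬ M.Fin A → ∃ B ∈ M.sets, B ⊆ A ∧ M.StableOrd B R

/-- The principle `COH`: for every sequence of sets, coded by the set `R` of pairs, there is an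
infinite cohesive set. -/
def COH (M : Model) : Prop :=
  ∀ R ∈ M.sets, ∃ C ∈ M.sets, ¬ M.Fin C ∧
    ∀ i, M.Fin {x | x ∈ C ∧ M.pair i x ∉ R} ∨ M.Fin {x | x ∈ C ∧ M.pair i x ∈ R}

end Pool.Agent.Helper317.SOA
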