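import Pool.Agent.Helper317.CADS.Base

/-!
Closure properties of the semi-decidable relations.
-/

namespace Pool.Agent.Helper317.CADS

open Function Filter

/-- monotone closure of an acceptance function -/
noncomputable def hat (F : ℕ → ℕ) : ℕ → ℕ := chi fun w =>
  ∃ c ≤ w.unpair.2.unpair.1,
    F (Nat.pair w.unpair.1 (Nat.pair c (w.unpair.2.unpair.2 % 2 ^ c))) = 1

/-- ignore the oracle -/
def opInt (F : ℕ → ℕ) : ℕ → ℕ := fun w => F w.unpair.1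

/-- membership of `y` (in `(p,y)`) in the oracle -/
noncomputable def opMem (b : Bool) : ℕ → ℕ := chi fun w =>
  w.unpair.1.unpair.2 < w.unpair.2.unpair.1 ∧
    w.unpair.2.unpair.2.testBit w.unpair.1.unpair.2 = b

/-- conjunction; the parameter is a pair -/
noncomputable def opAnd (F G : ℕ → ℕ) : ℕ → ℕ := chi fun w =>
  F (Nat.pair (Nat.pair w.unpair.1.unpair.1.unpair.1 w.unpair.1.unpair.2) w.unpair.2) = 1 ∧
  G (Nat.pair (Nat.pair w.unpair.1.unpair.1.unpair.2 w.unpair.1.unpair.2) w.unpair.2) = 1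

/-- disjunction; the parameter is a pair -/
noncomputable def opOr (F G : ℕ → ℕ) : ℕ → ℕ := chi fun w =>
  F (Nat.pair (Nat.pair w.unpair.1.unpair.1.unpair.1 w.unpair.1.unpair.2) w.unpair.2) = 1 ∨
  G (Nat.pair (Nat.pair w.unpair.1.unpair.1.unpair.2 w.unpair.1.unpair.2) w.unpair.2) = 1

/-- substitution; the parameter is a pair -/
def opSub (F G : ℕ → ℕ) : ℕ → ℕ := fun w =>
  F (Nat.pair (Nat.pair w.unpair.1.unpair.1.unpair.1
    (G (Nat.pair w.unpair.1.unpair.1.unpair.2 w.unpair.1.unpair.2))) w.unpair.2)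

/-- bound for the values -/
noncomputable def opMax (G : ℕ → ℕ) : ℕ → ℕ := fun w =>
  (Finset.range (w.unpair.2 + 1)).sup fun y => G (Nat.pair w.unpair.1 y)

/-- existential quantification over the first coordinate -/
noncomputable def opEx (F : ℕ → ℕ) : ℕ → ℕ := chi fun w => ∃ u ≤ w.unpair.2.unpair.1,
  F (Nat.pair (Nat.pair w.unpair.1.unpair.1 (Nat.pair u w.unpair.1.unpair.2)) w.unpair.2) = 1

/-- bounded universal quantification over the first coordinate -/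
noncomputable def opBall (F : ℕ → ℕ) : ℕ → ℕ := chi fun w => ∀ u < w.unpair.1.unpair.2.unpair.1,
  F (Nat.pair (Nat.pair w.unpair.1.unpair.1 (Nat.pair u w.unpair.1.unpair.2.unpair.2))
    w.unpair.2) = 1

/-- least `y` accepted, `w = (p,(b,z))` -/
noncomputable def opLw (F : ℕ → ℕ) : ℕ → ℕ := fun w => mu fun y =>
  F (Nat.pair (Nat.pair w.unpair.1 y) w.unpair.2) = 1

/-- code of the set of all `y < m` accepted, `w = ((p,m),(b,z))` -/
noncomputable def opCp (F : ℕ → ℕ) : ℕ → ℕ := fun w =>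
  cpc (fun y => F (Nat.pair (Nat.pair w.unpair.1.unpair.1 y) w.unpair.2) = 1)
    w.unpair.1.unpair.2

/-- use the first part of a join as oracle -/
noncomputable def opFst (F : ℕ → ℕ) : ℕ → ℕ := fun w =>
  F (Nat.pair w.unpair.1 (Nat.pair (w.unpair.2.unpair.1 / 2)
    (cpc (fun i => w.unpair.2.unpair.2.testBit (2 * i) = true) (w.unpair.2.unpair.1 / 2))))

/-- use the second part of a join as oracle -/
noncomputable def opSnd (F : ℕ → ℕ) : ℕ → ℕ := fun w =>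
  F (Nat.pair w.unpair.1 (Nat.pair (w.unpair.2.unpair.1 / 2)
    (cpc (fun i => w.unpair.2.unpair.2.testBit (2 * i + 1) = true) (w.unpair.2.unpair.1 / 2))))

/-- the family is closed under the operators -/
structure Ops (FF : Set (ℕ → ℕ)) : Prop extends Fam FF where
  hat : ∀ F ∈ FF, hat F ∈ FF
  int : ∀ F ∈ FF, opInt F ∈ FF
  mem : ∀ b, opMem b ∈ FF
  and : ∀ F ∈ FF, ∀ G ∈ FF, opAnd F G ∈ FF
  or : ∀ F ∈ FF, ∀ G ∈ FF, opOr F G ∈ FF
  sub : ∀ F ∈ FF, ∀ G ∈ FF, opSub F G ∈ FF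
  max : ∀ F ∈ FF, opMax F ∈ FF
  ex : ∀ F ∈ FF, opEx F ∈ FF
  ball : ∀ F ∈ FF, opBall F ∈ FF
  lw : ∀ F ∈ FF, opLw F ∈ FF
  cp : ∀ F ∈ FF, opCp F ∈ FF
  fst' : ∀ F ∈ FF, opFst F ∈ FF
  snd' : ∀ F ∈ FF, opSnd F ∈ FF
  jn : (fun w : ℕ => jn w.unpair.1 w.unpair.2.unpair.1 w.unpair.2.unpair.2) ∈ FF

variable {FF : Set (ℕ → ℕ)} {I M X : Set H}

theorem seg_unique {b z z' : H} (h : Seg X b z) (h' : Seg X b z') : z = z' := by
  have h1 : ∀ x, mem x z ↔ mem x z' := fun x => (h x).trans (h' x).symm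
  clear h h'
  obtain ⟨z, rfl⟩ := z.rep
  obtain ⟨z', rfl⟩ := z'.rep
  rw [H.all] at h1
  simp only [mem_coe, ← ev_iff] at h1
  rw [← ev_all (P := fun n y => ((z n).testBit y = true ↔ (z' n).testBit y = true))] at h1
  rw [eq_coe]
  exact h1.mp fun n hn => Nat.eq_of_testBit_eq fun i => by
    have := hn i
    revert this
    cases (z n).testBit i <;> cases (z' n).testBit i <;> simp

theorem T_iff {F : ℕ → ℕ} {y b z : H} (h : Seg X b z) :
    T F X y b ↔ ap F (pp y (pp b z)) = st 1 :=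
  ⟨fun ⟨_, h1, h2⟩ => seg_unique h1 h ▸ h2, fun h2 => ⟨z, h, h2⟩⟩

theorem seg_cut {b z c : H} (h : Seg X b z) (hc : c ≤ b) :
    Seg X c (ap (fun x => x.unpair.2 % 2 ^ x.unpair.1) (pp c z)) := by
  intro x
  have key : ∀ x c z : H, mem x (ap (fun x => x.unpair.2 % 2 ^ x.unpair.1) (pp c z)) ↔
      x < c ∧ mem x z := by
    intro x c z
    obtain ⟨x, rfl⟩ := x.rep
    obtain ⟨c, rfl⟩ := c.rep
    obtain ⟨z, rfl⟩ := z.rep
    simp only [ap_coe, pp_coe, mem_coe, lt_coe, Nat.unpair_pair, Nat.testBit_mod_two_pow,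
      Bool.and_eq_true, decide_eq_true_eq, ev_and]
  rw [key, h x]
  constructor
  · rintro ⟨h1, h2, h3⟩; exact ⟨h1, h3⟩
  · rintro ⟨h1, h2⟩; exact ⟨h1, lt_of_lt_of_le h1 hc, h2⟩

theorem Good.seg (hG : Good FF I M X) {b : H} (hb : b ∈ I) : ∃ z, Seg X b z := by
  obtain ⟨c, hc, hbc⟩ := hG.cof b hb
  obtain ⟨z, _, hz⟩ := hG.cod c hc
  exact ⟨_, seg_cut hz hbc⟩

theorem hat_char {F : ℕ → ℕ} {y b z : H} : ap (hat F) (pp y (pp b z)) = st 1 ↔
    ∃ c ≤ b, ap F (pp y (pp c (ap (fun x => x.unpair.2 % 2 ^ x.unpair.1) (pp c z)))) = st 1 := by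
  obtain ⟨y, rfl⟩ := y.rep
  obtain ⟨b, rfl⟩ := b.rep
  obtain ⟨z, rfl⟩ := z.rep
  simp only [hat, H.ex, ap_coe, pp_coe, st_coe, eq_coe, le_coe, chi_eq, ev_and, ev_ex,
    Nat.unpair_pair]

theorem T_hat (hG : Good FF I M X) {F : ℕ → ℕ} {y b : H} (hb : b ∈ I) :
    T (hat F) X y b ↔ ∃ c ≤ b, T F X y c := by
  obtain ⟨z, hz⟩ := hG.seg hb
  rw [T_iff hz, hat_char]
  exact exists_congr fun c => and_congr_right fun hc => (T_iff (seg_cut hz hc)).symm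

theorem T_hat_mono (hG : Good FF I M X) {F : ℕ → ℕ} {y b c : H} (hb : b ∈ I) (hc : c ≤ b)
    (h : T (hat F) X y c) : T (hat F) X y b := by
  rw [T_hat hG (hG.down b hb c hc)] at h
  rw [T_hat hG hb]
  obtain ⟨d, hd, h⟩ := h
  exact ⟨d, hd.trans hc, h⟩

/-- normal form: monotone acceptance, stage in `M` -/
theorem Sig.norm (hF : Ops FF) (hG : Good FF I M X) {P : H → Prop} (h : Sig FF I M X P) :
    ∃ F ∈ FF, ∃ p ∈ M, (∀ y ∈ I, (P y ↔ ∃ b ∈ I, T F X (pp p y) b)) ∧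
      ∀ y, ∀ b ∈ I, ∀ c ≤ b, T F X y c → T F X y b := by
  obtain ⟨F, hFF, p, hp, h⟩ := h
  refine ⟨CADS.hat F, hF.hat F hFF, p, hp, fun y hy => ?_, fun y b hb c hc h1 => T_hat_mono hG hb hc h1⟩
  rw [h y hy]
  constructor
  · rintro ⟨b, hb, h1⟩
    exact ⟨b, hb, (T_hat hG hb).2 ⟨b, le_rfl, h1⟩⟩
  · rintro ⟨b, hb, h1⟩
    obtain ⟨c, hc, h2⟩ := (T_hat hG hb).1 h1
    exact ⟨c, hG.down b hb c hc, h2⟩



theorem nat_pair_mono {x y b c : ℕ} (h1 : x ≤ b) (h2 : y ≤ c) : Nat.pair x y ≤ Nat.pair b c := by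
  have e1 : Nat.pair x y ≤ Nat.pair b y := by
    rcases h1.eq_or_lt with e | h
    · rw [e]
    · exact (Nat.pair_lt_pair_left y h).le
  have e2 : Nat.pair b y ≤ Nat.pair b c := by
    rcases h2.eq_or_lt with e | h
    · rw [e]
    · exact (Nat.pair_lt_pair_right b h).le
  exact e1.trans e2

theorem pp_mono {x y b c : H} (h1 : x ≤ b) (h2 : y ≤ c) : pp x y ≤ pp b c := by
  obtain ⟨x, rfl⟩ := x.rep
  obtain ⟨y, rfl⟩ := y.rep
  obtain ⟨b, rfl⟩ := b.rep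
  obtain ⟨c, rfl⟩ := c.rep
  rw [le_coe] at h1 h2
  rw [pp_coe, pp_coe, le_coe]
  exact (h1.and h2).mp fun n hn => nat_pair_mono hn.1 hn.2

theorem I_pp (hG : Good FF I M X) {x y : H} (hx : x ∈ I) (hy : y ∈ I) : pp x y ∈ I := by
  obtain ⟨b, hb, h1⟩ := hG.cof x hx
  obtain ⟨c, hc, h2⟩ := hG.cof y hy
  exact hG.down _ (hG.sub _ (hG.mdl.pp b hb c hc)) _ (pp_mono h1 h2)

theorem ap_le_opMax {G : ℕ → ℕ} {w b : H} (h : w ≤ b) :
    ap G w ≤ ap (opMax fun x => G x.unpair.2) (pp (st 0) b) := by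
  obtain ⟨w, rfl⟩ := w.rep
  obtain ⟨b, rfl⟩ := b.rep
  rw [le_coe] at h
  rw [st_coe, pp_coe, ap_coe, ap_coe, le_coe]
  refine h.mp fun n hn => ?_
  have h1 : (fun x : ℕ => G (Nat.pair (Nat.pair 0 (b n)).unpair.1 x).unpair.2) (w n) ≤
      opMax (fun x => G x.unpair.2) (Nat.pair 0 (b n)) := by
    unfold opMax
    refine Finset.le_sup (f := fun x : ℕ => G (Nat.pair (Nat.pair 0 (b n)).unpair.1 x).unpair.2) ?_
    rw [Nat.unpair_pair, Finset.mem_range]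
    exact Nat.lt_succ_of_le hn
  simpa only [Nat.unpair_pair] using h1

theorem I_ap (hF : Ops FF) (hG : Good FF I M X) {G : ℕ → ℕ} (h : G ∈ FF) {q y : H} (hq : q ∈ I)
    (hy : y ∈ I) : ap G (pp q y) ∈ I := by
  obtain ⟨b, hb, h1⟩ := hG.cof _ (I_pp hG hq hy)
  have h2 : (opMax fun x => G x.unpair.2) ∈ FF := hF.max _ (hF.comp G h _ hF.snd)
  exact hG.down _ (hG.sub _ (hG.mdl.ap _ h2 _ (hG.mdl.pp _ (hG.mdl.st 0) _ hb))) _ (ap_le_opMax h1)

theorem int_char {F : ℕ → ℕ} {u v : H} : ap (opInt F) (pp u v) = ap F u := by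
  obtain ⟨u, rfl⟩ := u.rep
  obtain ⟨v, rfl⟩ := v.rep
  simp only [opInt, ap_coe, pp_coe, Nat.unpair_pair]

theorem Sig.int (hF : Ops FF) (hG : Good FF I M X) {F : ℕ → ℕ} (h : F ∈ FF) {p : H} (hp : p ∈ M) :
    Sig FF I M X fun y => ap F (pp p y) = st 1 := by
  refine ⟨opInt F, hF.int F h, p, hp, fun y hy => ?_⟩
  constructor
  · intro h1
    obtain ⟨z, hz⟩ := hG.seg (hG.sub _ (hG.mdl.st 0))
    exact ⟨st 0, hG.sub _ (hG.mdl.st 0), z, hz, by rw [int_char]; exact h1⟩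
  · rintro ⟨b, hb, z, hz, h1⟩
    rw [int_char] at h1
    exact h1

theorem mem_char_true {p y b z : H} : ap (opMem true) (pp (pp p y) (pp b z)) = st 1 ↔
    y < b ∧ mem y z := by
  obtain ⟨p, rfl⟩ := p.rep
  obtain ⟨y, rfl⟩ := y.rep
  obtain ⟨b, rfl⟩ := b.rep
  obtain ⟨z, rfl⟩ := z.rep
  simp only [opMem, ap_coe, pp_coe, st_coe, eq_coe, lt_coe, mem_coe, chi_eq, ev_and,
    Nat.unpair_pair]

theorem mem_char_false {p y b z : H} : ap (opMem false) (pp (pp p y) (pp b z)) = st 1 ↔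
    y < b ∧ ¬ mem y z := by
  obtain ⟨p, rfl⟩ := p.rep
  obtain ⟨y, rfl⟩ := y.rep
  obtain ⟨b, rfl⟩ := b.rep
  obtain ⟨z, rfl⟩ := z.rep
  simp only [opMem, ap_coe, pp_coe, st_coe, eq_coe, lt_coe, mem_coe, chi_eq, ev_and,
    Nat.unpair_pair, ← ev_not, Bool.not_eq_true]

theorem I_gt (hF : Ops FF) (hG : Good FF I M X) {y : H} (hy : y ∈ I) : ∃ b ∈ I, y < b := by
  obtain ⟨c, hc, h1⟩ := hG.cof y hy
  refine ⟨_, hG.sub _ (hG.mdl.ap _ hF.add _ (hG.mdl.pp c hc _ (hG.mdl.st 1))), ?_⟩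
  obtain ⟨y, rfl⟩ := y.rep
  obtain ⟨c, rfl⟩ := c.rep
  rw [le_coe] at h1
  rw [st_coe, pp_coe, ap_coe, lt_coe]
  refine h1.mp fun n hn => ?_
  simp only [Nat.unpair_pair]
  omega

theorem Sig.memX (hF : Ops FF) (hG : Good FF I M X) : Sig FF I M X fun y => y ∈ X := by
  refine ⟨opMem true, hF.mem true, st 0, hG.mdl.st 0, fun y hy => ?_⟩
  constructor
  · intro h1
    obtain ⟨b, hb, hyb⟩ := I_gt hF hG hy
    obtain ⟨z, hz⟩ := hG.seg hb
    exact ⟨b, hb, z, hz, mem_char_true.2 ⟨hyb, (hz y).2 ⟨hyb, h1⟩⟩⟩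
  · rintro ⟨b, hb, z, hz, h1⟩
    exact ((hz y).1 (mem_char_true.1 h1).2).2

theorem Sig.nmemX (hF : Ops FF) (hG : Good FF I M X) : Sig FF I M X fun y => y ∉ X := by
  refine ⟨opMem false, hF.mem false, st 0, hG.mdl.st 0, fun y hy => ?_⟩
  constructor
  · intro h1
    obtain ⟨b, hb, hyb⟩ := I_gt hF hG hy
    obtain ⟨z, hz⟩ := hG.seg hb
    exact ⟨b, hb, z, hz, mem_char_false.2 ⟨hyb, fun h2 => h1 ((hz y).1 h2).2⟩⟩
  · rintro ⟨b, hb, z, hz, h1⟩ h2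
    obtain ⟨h3, h4⟩ := mem_char_false.1 h1
    exact h4 ((hz y).2 ⟨h3, h2⟩)

theorem and_char {F G : ℕ → ℕ} {p q y b z : H} :
    ap (opAnd F G) (pp (pp (pp p q) y) (pp b z)) = st 1 ↔
      ap F (pp (pp p y) (pp b z)) = st 1 ∧ ap G (pp (pp q y) (pp b z)) = st 1 := by
  obtain ⟨p, rfl⟩ := p.rep
  obtain ⟨q, rfl⟩ := q.rep
  obtain ⟨y, rfl⟩ := y.rep
  obtain ⟨b, rfl⟩ := b.rep
  obtain ⟨z, rfl⟩ := z.rep
  simp only [opAnd, ap_coe, pp_coe, st_coe, eq_coe, chi_eq, ev_and, Nat.unpair_pair]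

theorem or_char {F G : ℕ → ℕ} {p q y b z : H} :
    ap (opOr F G) (pp (pp (pp p q) y) (pp b z)) = st 1 ↔
      ap F (pp (pp p y) (pp b z)) = st 1 ∨ ap G (pp (pp q y) (pp b z)) = st 1 := by
  obtain ⟨p, rfl⟩ := p.rep
  obtain ⟨q, rfl⟩ := q.rep
  obtain ⟨y, rfl⟩ := y.rep
  obtain ⟨b, rfl⟩ := b.rep
  obtain ⟨z, rfl⟩ := z.rep
  simp only [opOr, ap_coe, pp_coe, st_coe, eq_coe, chi_eq, ev_or, Nat.unpair_pair]

theorem sub_char {F G : ℕ → ℕ} {p q y b z : H} :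
    ap (opSub F G) (pp (pp (pp p q) y) (pp b z)) =
      ap F (pp (pp p (ap G (pp q y))) (pp b z)) := by
  obtain ⟨p, rfl⟩ := p.rep
  obtain ⟨q, rfl⟩ := q.rep
  obtain ⟨y, rfl⟩ := y.rep
  obtain ⟨b, rfl⟩ := b.rep
  obtain ⟨z, rfl⟩ := z.rep
  simp only [opSub, ap_coe, pp_coe, Nat.unpair_pair]

theorem Sig.and (hF : Ops FF) (hG : Good FF I M X) {P Q : H → Prop} (hP : Sig FF I M X P)
    (hQ : Sig FF I M X Q) : Sig FF I M X fun y => P y ∧ Q y := by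
  obtain ⟨F, hFF, p, hp, hP1, hP2⟩ := hP.norm hF hG
  obtain ⟨G, hGF, q, hq, hQ1, hQ2⟩ := hQ.norm hF hG
  refine ⟨opAnd F G, hF.and F hFF G hGF, pp p q, hG.mdl.pp p hp q hq, fun y hy => ?_⟩
  have key : ∀ b ∈ I, (T (opAnd F G) X (pp (pp p q) y) b ↔ T F X (pp p y) b ∧ T G X (pp q y) b) := by
    intro b hb
    obtain ⟨z, hz⟩ := hG.seg hb
    rw [T_iff hz, T_iff hz, T_iff hz, and_char]
  constructor
  · rintro ⟨h1, h2⟩
    obtain ⟨b, hb, h1⟩ := (hP1 y hy).1 h1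
    obtain ⟨c, hc, h2⟩ := (hQ1 y hy).1 h2
    rcases le_total b c with h | h
    · exact ⟨c, hc, (key c hc).2 ⟨hP2 _ c hc b h h1, h2⟩⟩
    · exact ⟨b, hb, (key b hb).2 ⟨h1, hQ2 _ b hb c h h2⟩⟩
  · rintro ⟨b, hb, h1⟩
    obtain ⟨h2, h3⟩ := (key b hb).1 h1
    exact ⟨(hP1 y hy).2 ⟨b, hb, h2⟩, (hQ1 y hy).2 ⟨b, hb, h3⟩⟩

theorem Sig.or (hF : Ops FF) (hG : Good FF I M X) {P Q : H → Prop} (hP : Sig FF I M X P)
    (hQ : Sig FF I M X Q) : Sig FF I M X fun y => P y ∨ Q y := by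
  obtain ⟨F, hFF, p, hp, hP1, hP2⟩ := hP.norm hF hG
  obtain ⟨G, hGF, q, hq, hQ1, hQ2⟩ := hQ.norm hF hG
  refine ⟨opOr F G, hF.or F hFF G hGF, pp p q, hG.mdl.pp p hp q hq, fun y hy => ?_⟩
  have key : ∀ b ∈ I, (T (opOr F G) X (pp (pp p q) y) b ↔ T F X (pp p y) b ∨ T G X (pp q y) b) := by
    intro b hb
    obtain ⟨z, hz⟩ := hG.seg hb
    rw [T_iff hz, T_iff hz, T_iff hz, or_char]
  constructor
  · rintro (h1 | h1)
    · obtain ⟨b, hb, h1⟩ := (hP1 y hy).1 h1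
      exact ⟨b, hb, (key b hb).2 (Or.inl h1)⟩
    · obtain ⟨c, hc, h2⟩ := (hQ1 y hy).1 h1
      exact ⟨c, hc, (key c hc).2 (Or.inr h2)⟩
  · rintro ⟨b, hb, h1⟩
    rcases (key b hb).1 h1 with h2 | h3
    · exact Or.inl ((hP1 y hy).2 ⟨b, hb, h2⟩)
    · exact Or.inr ((hQ1 y hy).2 ⟨b, hb, h3⟩)

theorem Sig.sub (hF : Ops FF) (hG : Good FF I M X) {P : H → Prop} (hP : Sig FF I M X P)
    {G : ℕ → ℕ} (h : G ∈ FF) {q : H} (hq : q ∈ M) : Sig FF I M X fun y => P (ap G (pp q y)) := by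
  obtain ⟨F, hFF, p, hp, hP1⟩ := hP
  refine ⟨opSub F G, hF.sub F hFF G h, pp p q, hG.mdl.pp p hp q hq, fun y hy => ?_⟩
  refine (hP1 _ (I_ap hF hG h (hG.sub q hq) hy)).trans ?_
  refine exists_congr fun b => and_congr_right fun hb => ?_
  obtain ⟨z, hz⟩ := hG.seg hb
  rw [T_iff hz, T_iff hz, sub_char]




theorem b_ex_char {F : ℕ → ℕ} {p y b z : H} : ap (opEx F) (pp (pp p y) (pp b z)) = st 1 ↔
    ∃ u ≤ b, ap F (pp (pp p (pp u y)) (pp b z)) = st 1 := by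
  obtain ⟨p, rfl⟩ := p.rep
  obtain ⟨y, rfl⟩ := y.rep
  obtain ⟨b, rfl⟩ := b.rep
  obtain ⟨z, rfl⟩ := z.rep
  simp only [opEx, H.ex, ap_coe, pp_coe, st_coe, eq_coe, le_coe, chi_eq, ev_and, ev_ex,
    Nat.unpair_pair]

theorem b_ball_char {F : ℕ → ℕ} {p w b z : H} : ap (opBall F) (pp (pp p w) (pp b z)) = st 1 ↔
    ∀ u < ap (fun x => x.unpair.1) w,
      ap F (pp (pp p (pp u (ap (fun x => x.unpair.2) w))) (pp b z)) = st 1 := by
  obtain ⟨p, rfl⟩ := p.rep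
  obtain ⟨w, rfl⟩ := w.rep
  obtain ⟨b, rfl⟩ := b.rep
  obtain ⟨z, rfl⟩ := z.rep
  simp only [opBall, H.all, ap_coe, pp_coe, st_coe, eq_coe, lt_coe, chi_eq, ev_imp, ev_all,
    Nat.unpair_pair]

theorem b_lw_spec {F : ℕ → ℕ} {p y b z : H} (h : ap F (pp (pp p y) (pp b z)) = st 1) :
    ap F (pp (pp p (ap (opLw F) (pp p (pp b z)))) (pp b z)) = st 1 ∧
      ap (opLw F) (pp p (pp b z)) ≤ y := by
  obtain ⟨p, rfl⟩ := p.rep
  obtain ⟨y, rfl⟩ := y.rep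
  obtain ⟨b, rfl⟩ := b.rep
  obtain ⟨z, rfl⟩ := z.rep
  simp only [opLw, ap_coe, pp_coe, st_coe, eq_coe, le_coe, Nat.unpair_pair] at h ⊢
  refine ⟨h.mp fun n hn => ?_, h.mp fun n hn => ?_⟩
  · exact mu_spec (P := fun y => F (Nat.pair (Nat.pair (p n) y) (Nat.pair (b n) (z n))) = 1) ⟨_, hn⟩
  · exact mu_le (P := fun y => F (Nat.pair (Nat.pair (p n) y) (Nat.pair (b n) (z n))) = 1) hn

theorem b_cp_spec {F : ℕ → ℕ} {p m b z x : H} : mem x (ap (opCp F) (pp (pp p m) (pp b z))) ↔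
    x < m ∧ ap F (pp (pp p x) (pp b z)) = st 1 := by
  obtain ⟨p, rfl⟩ := p.rep
  obtain ⟨m, rfl⟩ := m.rep
  obtain ⟨b, rfl⟩ := b.rep
  obtain ⟨z, rfl⟩ := z.rep
  obtain ⟨x, rfl⟩ := x.rep
  simp only [opCp, ap_coe, pp_coe, st_coe, eq_coe, lt_coe, mem_coe, testBit_cpc, ev_and, Nat.unpair_pair]

theorem b_fst_le (w : H) : ap (fun x => x.unpair.1) w ≤ w := by
  obtain ⟨w, rfl⟩ := w.rep
  simp only [ap_coe, le_coe]
  exact ev_of_forall fun n => Nat.unpair_left_le _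

theorem b_snd_le (w : H) : ap (fun x => x.unpair.2) w ≤ w := by
  obtain ⟨w, rfl⟩ := w.rep
  simp only [ap_coe, le_coe]
  exact ev_of_forall fun n => Nat.unpair_right_le _

theorem b_nat_pair_mono {a b c d : ℕ} (h1 : a ≤ c) (h2 : b ≤ d) : Nat.pair a b ≤ Nat.pair c d := by
  have e1 : Nat.pair a b ≤ Nat.pair c b := by
    rcases h1.lt_or_eq with h | rfl
    · exact (Nat.pair_lt_pair_left b h).le
    · exact le_rfl
  have e2 : Nat.pair c b ≤ Nat.pair c d := by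
    rcases h2.lt_or_eq with h | rfl
    · exact (Nat.pair_lt_pair_right c h).le
    · exact le_rfl
  exact e1.trans e2

theorem b_pp_mono {a b c d : H} (h1 : a ≤ c) (h2 : b ≤ d) : pp a b ≤ pp c d := by
  obtain ⟨a, rfl⟩ := a.rep
  obtain ⟨b, rfl⟩ := b.rep
  obtain ⟨c, rfl⟩ := c.rep
  obtain ⟨d, rfl⟩ := d.rep
  simp only [pp_coe, le_coe] at h1 h2 ⊢
  exact (h1.and h2).mp fun n ⟨e1, e2⟩ => b_nat_pair_mono e1 e2

theorem b_lt_succ {a b : H} (h : a ≤ b) : a < ap (fun x => x.unpair.1 + x.unpair.2) (pp b (st 1)) := by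
  obtain ⟨a, rfl⟩ := a.rep
  obtain ⟨b, rfl⟩ := b.rep
  simp only [pp_coe, ap_coe, st_coe, le_coe, lt_coe, Nat.unpair_pair] at h ⊢
  exact h.mp fun n hn => Nat.lt_succ_of_le hn

/-- uniform stage -/
theorem b_unif (hF : Ops FF) (hG : Good FF I M X) {F : ℕ → ℕ} (hFF : F ∈ FF)
    (hmono : ∀ y, ∀ b ∈ I, ∀ c ≤ b, T F X y c → T F X y b) {q : H} (hq : q ∈ I) :
    ∃ b ∈ M, ∀ y ≤ q, (∃ c ∈ I, T F X y c) → T F X y b := by
  have h1 : ap (fun x => x.unpair.1 + x.unpair.2) (pp q (st 1)) ∈ I :=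
    I_ap hF hG hF.add hq (hG.sub _ (hG.mdl.st 1))
  obtain ⟨s, hs, hsc⟩ := hG.sc F hFF _ h1
  obtain ⟨b, hb, hsb⟩ := hG.cof s hs
  refine ⟨b, hb, ?_⟩
  rintro y hy ⟨c, hc, hT⟩
  obtain ⟨d, hd, hT'⟩ := hsc c hc y (b_lt_succ hy) hT
  exact hmono y b (hG.sub b hb) d (hd.trans hsb) hT'

/-! TARGETS -/

theorem Sig.ex (hF : Ops FF) (hG : Good FF I M X) {P : H → Prop} (hP : Sig FF I M X P) :
    Sig FF I M X fun y => ∃ u ∈ I, P (pp u y) := by
  obtain ⟨F, hFF, p, hp, h, hmono⟩ := hP.norm hF hG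
  refine ⟨opEx F, hF.ex F hFF, p, hp, fun y hy => ?_⟩
  constructor
  · rintro ⟨u, hu, hPu⟩
    obtain ⟨b, hb, hT⟩ := (h _ (I_pp hG hu hy)).1 hPu
    have hm : max b u ∈ I := by
      rcases le_total b u with h1 | h1
      · rw [max_eq_right h1]; exact hu
      · rw [max_eq_left h1]; exact hb
    have hT' := hmono _ _ hm b (le_max_left b u) hT
    obtain ⟨z, hz⟩ := hG.seg hm
    refine ⟨max b u, hm, ?_⟩
    rw [T_iff hz] at hT' ⊢
    rw [b_ex_char]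
    exact ⟨u, le_max_right b u, hT'⟩
  · rintro ⟨b, hb, hT⟩
    obtain ⟨z, hz⟩ := hG.seg hb
    rw [T_iff hz, b_ex_char] at hT
    obtain ⟨u, hu, hu2⟩ := hT
    have huI : u ∈ I := hG.down b hb u hu
    refine ⟨u, huI, (h _ (I_pp hG huI hy)).2 ⟨b, hb, ?_⟩⟩
    rw [T_iff hz]
    exact hu2

/-- bounded universal quantification: the bound is the first coordinate -/
theorem Sig.ball (hF : Ops FF) (hG : Good FF I M X) {P : H → Prop} (hP : Sig FF I M X P) :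
    Sig FF I M X fun w => ∀ u < ap (fun x => x.unpair.1) w,
      P (pp u (ap (fun x => x.unpair.2) w)) := by
  obtain ⟨F, hFF, p, hp, h, hmono⟩ := hP.norm hF hG
  refine ⟨opBall F, hF.ball F hFF, p, hp, fun w hw => ?_⟩
  have hw1 : ap (fun x => x.unpair.1) w ∈ I := hG.down w hw _ (b_fst_le w)
  have hw2 : ap (fun x => x.unpair.2) w ∈ I := hG.down w hw _ (b_snd_le w)
  constructor
  · intro hall
    obtain ⟨b, hb, hu⟩ := b_unif hF hG hFF hmono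
      (q := pp p (pp (ap (fun x => x.unpair.1) w) (ap (fun x => x.unpair.2) w)))
      (I_pp hG (hG.sub p hp) (I_pp hG hw1 hw2))
    have hbI := hG.sub b hb
    obtain ⟨z, hz⟩ := hG.seg hbI
    refine ⟨b, hbI, ?_⟩
    rw [T_iff hz, b_ball_char]
    intro u hul
    have huI : u ∈ I := hG.down _ hw1 u hul.le
    rw [← T_iff hz]
    apply hu
    · exact b_pp_mono le_rfl (b_pp_mono hul.le le_rfl)
    · exact (h _ (I_pp hG huI hw2)).1 (hall u hul)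
  · rintro ⟨b, hb, hT⟩ u hul
    obtain ⟨z, hz⟩ := hG.seg hb
    rw [T_iff hz, b_ball_char] at hT
    have huI : u ∈ I := hG.down _ hw1 u hul.le
    refine (h _ (I_pp hG huI hw2)).2 ⟨b, hb, ?_⟩
    rw [T_iff hz]
    exact hT u hul

theorem Sig.witness (hF : Ops FF) (hG : Good FF I M X) {P : H → Prop} (hP : Sig FF I M X P)
    (h : ∃ y ∈ I, P y) : ∃ y ∈ M, P y := by
  obtain ⟨F, hFF, p, hp, h', hmono⟩ := hP.norm hF hG
  obtain ⟨y, hy, hPy⟩ := h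
  obtain ⟨b, hb, hT⟩ := (h' y hy).1 hPy
  obtain ⟨c, hc, hbc⟩ := hG.cof b hb
  have hT' := hmono _ c (hG.sub c hc) b hbc hT
  obtain ⟨z, hzM, hz⟩ := hG.cod c hc
  rw [T_iff hz] at hT'
  obtain ⟨h1, _⟩ := b_lw_spec hT'
  have hM : ap (opLw F) (pp p (pp c z)) ∈ M :=
    hG.mdl.ap _ (hF.lw F hFF) _ (hG.mdl.pp _ hp _ (hG.mdl.pp _ hc _ hzM))
  refine ⟨_, hM, (h' _ (hG.sub _ hM)).2 ⟨c, hG.sub c hc, ?_⟩⟩
  rw [T_iff hz]
  exact h1

/-- the least solution of a decidable relation exists and lies in `M` -/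
theorem Del.least (hF : Ops FF) (hG : Good FF I M X) {A : Set H} (hA : Del FF I M X A)
    (h : ∃ y, y ∈ A) : ∃ y ∈ M, y ∈ A ∧ ∀ x ∈ A, y ≤ x := by
  obtain ⟨hsub, hA1, _⟩ := hA
  obtain ⟨F, hFF, p, hp, h', hmono⟩ := hA1.norm hF hG
  obtain ⟨y, hy⟩ := h
  have hyI := hsub y hy
  obtain ⟨b, hb, hu⟩ := b_unif hF hG hFF hmono (q := pp p y) (I_pp hG (hG.sub p hp) hyI)
  obtain ⟨z, hzM, hz⟩ := hG.cod b hb
  have hbI := hG.sub b hb
  have key : ∀ x ≤ y, x ∈ A → ap F (pp (pp p x) (pp b z)) = st 1 := by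
    intro x hx hxA
    rw [← T_iff hz]
    exact hu _ (b_pp_mono le_rfl hx) ((h' x (hsub x hxA)).1 hxA)
  obtain ⟨h1, h2⟩ := b_lw_spec (key y le_rfl hy)
  have hM : ap (opLw F) (pp p (pp b z)) ∈ M :=
    hG.mdl.ap _ (hF.lw F hFF) _ (hG.mdl.pp _ hp _ (hG.mdl.pp _ hb _ hzM))
  refine ⟨_, hM, (h' _ (hG.sub _ hM)).2 ⟨b, hbI, ?_⟩, ?_⟩
  · rw [T_iff hz]
    exact h1
  · intro x hxA
    rcases le_total x y with hxy | hxy
    · exact (b_lw_spec (key x hxy hxA)).2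
    · exact h2.trans hxy

/-- bounded parts of semi-decidable relations are coded in `M` -/
theorem Sig.coded (hF : Ops FF) (hG : Good FF I M X) {P : H → Prop} (hP : Sig FF I M X P) {m : H}
    (hm : m ∈ M) : ∃ z ∈ M, ∀ x, mem x z ↔ x < m ∧ P x := by
  obtain ⟨F, hFF, p, hp, h', hmono⟩ := hP.norm hF hG
  have hmI := hG.sub m hm
  obtain ⟨b, hb, hu⟩ := b_unif hF hG hFF hmono (q := pp p m) (I_pp hG (hG.sub p hp) hmI)
  obtain ⟨z, hzM, hz⟩ := hG.cod b hb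
  have hbI := hG.sub b hb
  refine ⟨ap (opCp F) (pp (pp p m) (pp b z)),
    hG.mdl.ap _ (hF.cp F hFF) _ (hG.mdl.pp _ (hG.mdl.pp _ hp _ hm) _ (hG.mdl.pp _ hb _ hzM)), ?_⟩
  intro x
  rw [b_cp_spec]
  refine and_congr_right fun hx => ?_
  have hxI : x ∈ I := hG.down m hmI x hx.le
  rw [← T_iff hz, h' x hxI]
  constructor
  · intro hT
    exact ⟨b, hbI, hT⟩
  · intro hT
    exact hu _ (b_pp_mono le_rfl hx.le) hT





theorem par_cases (x : H) : x = ap (fun y => 2 * y) (ap (fun y => y / 2) x) ∨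
    x = ap (fun y => 2 * y + 1) (ap (fun y => y / 2) x) := by
  obtain ⟨x, rfl⟩ := x.rep
  simp only [ap_coe, eq_coe, ← ev_or]
  exact ev_of_forall fun n => by omega

theorem two_inj {x y : H} (h : ap (fun y => 2 * y) x = ap (fun y => 2 * y) y) : x = y := by
  obtain ⟨x, rfl⟩ := x.rep
  obtain ⟨y, rfl⟩ := y.rep
  simp only [ap_coe, eq_coe] at h ⊢
  exact h.mp fun n hn => by omega

theorem twoS_inj {x y : H} (h : ap (fun y => 2 * y + 1) x = ap (fun y => 2 * y + 1) y) : x = y := by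
  obtain ⟨x, rfl⟩ := x.rep
  obtain ⟨y, rfl⟩ := y.rep
  simp only [ap_coe, eq_coe] at h ⊢
  exact h.mp fun n hn => by omega

theorem two_ne {x y : H} (h : ap (fun y => 2 * y) x = ap (fun y => 2 * y + 1) y) : False := by
  obtain ⟨x, rfl⟩ := x.rep
  obtain ⟨y, rfl⟩ := y.rep
  simp only [ap_coe, eq_coe] at h
  exact ev_const.1 (h.mp (q := fun _ => False) fun n hn => by omega)

theorem mem_join_two {X G : Set H} {x : H} : ap (fun y => 2 * y) x ∈ CADS.join X G ↔ x ∈ X := by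
  constructor
  · rintro (⟨y, hy, h⟩ | ⟨y, hy, h⟩)
    · rwa [two_inj h]
    · exact (two_ne h).elim
  · intro h; exact Or.inl ⟨x, h, rfl⟩

theorem mem_join_twoS {X G : Set H} {x : H} : ap (fun y => 2 * y + 1) x ∈ CADS.join X G ↔ x ∈ G := by
  constructor
  · rintro (⟨y, hy, h⟩ | ⟨y, hy, h⟩)
    · exact (two_ne h.symm).elim
    · rwa [twoS_inj h]
  · intro h; exact Or.inr ⟨x, h, rfl⟩

theorem twoF_mem (hF : Fam FF) : (fun x : ℕ => (Nat.pair ((Nat.pair x x).unpair.1 + (Nat.pair x x).unpair.2) 1).unpair.1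
    + (Nat.pair ((Nat.pair x x).unpair.1 + (Nat.pair x x).unpair.2) 1).unpair.2) ∈ FF := by
  have h1 : (fun x : ℕ => Nat.pair x x) ∈ FF := hF.pair _ hF.id _ hF.id
  have h2 : (fun x : ℕ => (Nat.pair x x).unpair.1 + (Nat.pair x x).unpair.2) ∈ FF :=
    hF.comp _ hF.add _ h1
  have h3 := hF.pair _ h2 _ (hF.const 1)
  exact hF.comp _ hF.add _ h3

theorem I_twoS (hF : Ops FF) (hG : Good FF I M X) {x : H} (hx : x ∈ I) :
    ap (fun y => 2 * y + 1) x ∈ I := by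
  obtain ⟨c, hc, hxc⟩ := hG.cof x hx
  have h1 := hG.mdl.ap _ (twoF_mem hF.toFam) c hc
  refine hG.down _ (hG.sub _ h1) _ ?_
  clear h1 hc hx
  obtain ⟨x, rfl⟩ := x.rep
  obtain ⟨c, rfl⟩ := c.rep
  simp only [ap_coe, le_coe, Nat.unpair_pair] at hxc ⊢
  exact hxc.mp fun n hn => by omega

theorem I_two (hF : Ops FF) (hG : Good FF I M X) {x : H} (hx : x ∈ I) :
    ap (fun y => 2 * y) x ∈ I := by
  refine hG.down _ (I_twoS hF hG hx) _ ?_
  obtain ⟨x, rfl⟩ := x.rep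
  simp only [ap_coe, le_coe]
  exact ev_of_forall fun n => by omega

theorem half_le (b : H) : ap (fun x => x / 2) b ≤ b := by
  obtain ⟨b, rfl⟩ := b.rep
  simp only [ap_coe, le_coe]
  exact ev_of_forall fun n => Nat.div_le_self _ _

theorem half_two (b : H) : ap (fun x => x / 2) (ap (fun y => 2 * y) b) = b := by
  obtain ⟨b, rfl⟩ := b.rep
  simp only [ap_coe, eq_coe]
  exact ev_of_forall fun n => by omega

theorem fst_char {F : ℕ → ℕ} {y b z : H} : ap (opFst F) (pp y (pp b z)) =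
    ap F (pp y (pp (ap (fun x => x / 2) b)
      (ap (fun w => cpc (fun i => w.unpair.2.testBit (2 * i) = true) (w.unpair.1 / 2)) (pp b z)))) := by
  obtain ⟨y, rfl⟩ := y.rep
  obtain ⟨b, rfl⟩ := b.rep
  obtain ⟨z, rfl⟩ := z.rep
  simp only [opFst, ap_coe, pp_coe, Nat.unpair_pair]

theorem fst_mem {x b z : H} : mem x (ap (fun w => cpc (fun i => w.unpair.2.testBit (2 * i) = true) (w.unpair.1 / 2)) (pp b z)) ↔
    x < ap (fun x => x / 2) b ∧ mem (ap (fun y => 2 * y) x) z := by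
  obtain ⟨x, rfl⟩ := x.rep
  obtain ⟨b, rfl⟩ := b.rep
  obtain ⟨z, rfl⟩ := z.rep
  simp only [ap_coe, pp_coe, mem_coe, lt_coe, Nat.unpair_pair, testBit_cpc, ev_and]

theorem two_lt {x b : H} (h : x < ap (fun x => x / 2) b) : ap (fun y => 2 * y) x < b := by
  obtain ⟨x, rfl⟩ := x.rep
  obtain ⟨b, rfl⟩ := b.rep
  simp only [ap_coe, lt_coe] at h ⊢
  exact h.mp fun n hn => by omega

theorem T_fst {X G : Set H} {F : ℕ → ℕ} {y b z : H} (hz : Seg (CADS.join X G) b z) :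
    T (opFst F) (CADS.join X G) y b ↔ T F X y (ap (fun x => x / 2) b) := by
  have hseg : Seg X (ap (fun x => x / 2) b)
      (ap (fun w => cpc (fun i => w.unpair.2.testBit (2 * i) = true) (w.unpair.1 / 2)) (pp b z)) := by
    intro x
    rw [fst_mem, hz, mem_join_two]
    constructor
    · rintro ⟨h1, _, h2⟩; exact ⟨h1, h2⟩
    · rintro ⟨h1, h2⟩; exact ⟨h1, two_lt h1, h2⟩
  rw [T_iff hz, T_iff hseg, fst_char]

/-- monotonicity in the oracle and in the set of parameters -/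
theorem Sig.mono (hF : Ops FF) (hG : Good FF I M X) {M' G : Set H} (hMM : M ⊆ M')
    (hG' : Good FF I M' (join X G)) {P : H → Prop} (hP : Sig FF I M X P) :
    Sig FF I M' (join X G) P := by
  obtain ⟨F, hFF, p, hp, h⟩ := hP
  refine ⟨opFst F, hF.fst' F hFF, p, hMM hp, fun y hy => ?_⟩
  rw [h y hy]
  constructor
  · rintro ⟨b, hb, h1⟩
    have hb2 := I_two hF hG hb
    obtain ⟨z, hz⟩ := hG'.seg hb2
    refine ⟨_, hb2, (T_fst hz).2 ?_⟩
    rwa [half_two]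
  · rintro ⟨b, hb, h1⟩
    obtain ⟨z, hz⟩ := hG'.seg hb
    exact ⟨_, hG.down b hb _ (half_le b), (T_fst hz).1 h1⟩

theorem Sig.mono' (hF : Ops FF) (hG : Good FF I M X) {M' : Set H} (hMM : M ⊆ M')
    (hG' : Good FF I M' X) {P : H → Prop} (hP : Sig FF I M X P) :
    Sig FF I M' X P := by
  obtain ⟨F, hFF, p, hp, h⟩ := hP
  exact ⟨F, hFF, p, hMM hp, h⟩

theorem Sig.congr' {P Q : H → Prop} (hP : Sig FF I M X P) (h : ∀ y, P y ↔ Q y) : Sig FF I M X Q := by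
  obtain ⟨F, hFF, p, hp, h1⟩ := hP
  exact ⟨F, hFF, p, hp, fun y hy => (h y).symm.trans (h1 y hy)⟩

theorem Sig.memG (hF : Ops FF) {G : Set H} (hG : Good FF I M (join X G)) (hGI : ∀ x ∈ G, x ∈ I) :
    Sig FF I M (join X G) (fun y => y ∈ G) ∧ Sig FF I M (join X G) (fun y => y ∉ G) := by
  have hfun := hF.comp _ (twoF_mem hF.toFam) _ hF.snd
  have h0 : st 0 ∈ M := hG.mdl.st 0
  have key : ∀ y : H, ap (fun x : ℕ => (fun x : ℕ => (Nat.pair ((Nat.pair x x).unpair.1 + (Nat.pair x x).unpair.2) 1).unpair.1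
      + (Nat.pair ((Nat.pair x x).unpair.1 + (Nat.pair x x).unpair.2) 1).unpair.2) ((fun x : ℕ => x.unpair.2) x)) (pp (st 0) y)
      = ap (fun y => 2 * y + 1) y := by
    intro y
    obtain ⟨y, rfl⟩ := y.rep
    simp only [st_coe, pp_coe, ap_coe, Nat.unpair_pair, eq_coe]
    exact ev_of_forall fun n => by omega
  constructor
  · refine (Sig.sub hF hG (Sig.memX hF hG) hfun h0).congr' fun y => ?_
    rw [key, mem_join_twoS]
  · refine (Sig.sub hF hG (Sig.nmemX hF hG) hfun h0).congr' fun y => ?_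
    rw [key, mem_join_twoS]

theorem jn_two {y b u v : H} : mem (ap (fun y => 2 * y) y)
    (ap (fun w : ℕ => jn w.unpair.1 w.unpair.2.unpair.1 w.unpair.2.unpair.2) (pp b (pp u v))) ↔
    ap (fun y => 2 * y) y < b ∧ mem y u := by
  obtain ⟨y, rfl⟩ := y.rep
  obtain ⟨b, rfl⟩ := b.rep
  obtain ⟨u, rfl⟩ := u.rep
  obtain ⟨v, rfl⟩ := v.rep
  simp only [ap_coe, pp_coe, mem_coe, lt_coe, Nat.unpair_pair, jn, testBit_cpc, ← ev_and]
  refine ev_iff.1 (ev_of_forall fun n => ?_)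
  have h1 : 2 * y n % 2 = 0 := by omega
  have h2 : 2 * y n / 2 = y n := by omega
  rw [if_pos h1, h2]

theorem jn_twoS {y b u v : H} : mem (ap (fun y => 2 * y + 1) y)
    (ap (fun w : ℕ => jn w.unpair.1 w.unpair.2.unpair.1 w.unpair.2.unpair.2) (pp b (pp u v))) ↔
    ap (fun y => 2 * y + 1) y < b ∧ mem y v := by
  obtain ⟨y, rfl⟩ := y.rep
  obtain ⟨b, rfl⟩ := b.rep
  obtain ⟨u, rfl⟩ := u.rep
  obtain ⟨v, rfl⟩ := v.rep
  simp only [ap_coe, pp_coe, mem_coe, lt_coe, Nat.unpair_pair, jn, testBit_cpc, ← ev_and]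
  refine ev_iff.1 (ev_of_forall fun n => ?_)
  have h1 : ¬ ((2 * y n + 1) % 2 = 0) := by omega
  have h2 : (2 * y n + 1) / 2 = y n := by omega
  rw [if_neg h1, h2]

theorem lt_of_two_lt {y b : H} (h : ap (fun y => 2 * y) y < b) : y < b := by
  obtain ⟨y, rfl⟩ := y.rep
  obtain ⟨b, rfl⟩ := b.rep
  simp only [ap_coe, lt_coe] at h ⊢
  exact h.mp fun n hn => by omega

theorem lt_of_twoS_lt {y b : H} (h : ap (fun y => 2 * y + 1) y < b) : y < b := by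
  obtain ⟨y, rfl⟩ := y.rep
  obtain ⟨b, rfl⟩ := b.rep
  simp only [ap_coe, lt_coe] at h ⊢
  exact h.mp fun n hn => by omega

/-- the join is again good -/
theorem Good.join (hF : Ops FF) (hG : Good FF I M X) {G : Set H} (hGI : ∀ x ∈ G, x ∈ I)
    (hcod : Cod M G) (hsc : SC FF I (join X G)) : Good FF I M (join X G) := by
  refine ⟨hG.mdl, hG.sub, hG.cof, hG.down, ?_, ?_, hsc⟩
  · rintro x (⟨y, hy, rfl⟩ | ⟨y, hy, rfl⟩)
    · exact I_two hF hG (hG.xsub y hy)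
    · exact I_twoS hF hG (hGI y hy)
  · intro b hb
    obtain ⟨u, hu, hsu⟩ := hG.cod b hb
    obtain ⟨v, hv, hsv⟩ := hcod b hb
    refine ⟨_, hG.mdl.ap _ hF.jn _ (hG.mdl.pp _ hb _ (hG.mdl.pp _ hu _ hv)), ?_⟩
    intro x
    rcases par_cases x with hx | hx
    · rw [hx, jn_two, hsu, mem_join_two]
      constructor
      · rintro ⟨h1, _, h2⟩; exact ⟨h1, h2⟩
      · rintro ⟨h1, h2⟩; exact ⟨h1, lt_of_two_lt h1, h2⟩
    · rw [hx, jn_twoS, hsv, mem_join_twoS]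
      constructor
      · rintro ⟨h1, _, h2⟩; exact ⟨h1, h2⟩
      · rintro ⟨h1, h2⟩; exact ⟨h1, lt_of_twoS_lt h1, h2⟩



end Pool.Agent.Helper317.CADS
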