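import Pool.Agent.Helper317.CADS.LemB
import Pool.Agent.Helper317.CADS.Choose
import Pool.Agent.Helper317.CADS.BStep
import Pool.Agent.Helper317.CADS.Adj
import Pool.Agent.Helper317.CADS.NCoh
import Pool.Agent.Helper317.CADS.NStab

/-!
One stage.
-/

namespace Pool.Agent.Helper317.CADS

open Function Filter

variable {FF : Set (ℕ → ℕ)} {I M X : Set H}

/-- invariants of a stage -/
structure Inv (FF : Set (ℕ → ℕ)) (I : Set H) (n : H) (M0 : Set H) (ρ : ℕ → H) (R0 : Set H)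
    (M X : Set H) : Prop where
  cnt : M.Countable
  good : Good FF I M X
  sub0 : M0 ⊆ M
  bn : BN n M0 M ρ
  r0 : Del FF I M X R0

/-- all closure conditions used for one stage -/
structure OpsS (FF : Set (ℕ → ℕ)) : Prop where
  cnt : FF.Countable
  ops : Ops FF
  opsA : OpsA FF
  opsC : OpsC FF
  opsN : OpsN FF
  eq : chi (fun w : ℕ => w.unpair.1 = w.unpair.2) ∈ FF
  ne : chi (fun w : ℕ => w.unpair.1 ≠ w.unpair.2) ∈ FF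
  flat : ∀ m : ℕ, (fun w : ℕ => flat m w.unpair.1 w.unpair.2.unpair.1 w.unpair.2.unpair.2) ∈ FF
  top : ∀ l m' : ℕ, (fun w : ℕ => topc l m' w.unpair.1 w.unpair.2.unpair.1
      w.unpair.2.unpair.2.unpair.1 w.unpair.2.unpair.2.unpair.2) ∈ FF
  bot : ∀ l m' : ℕ, (fun w : ℕ => botc l m' w.unpair.1 w.unpair.2.unpair.1
      w.unpair.2.unpair.2.unpair.1 w.unpair.2.unpair.2.unpair.2) ∈ FF

/-- the families of type (a) -/
def j3146_Ca (n : H) (ρ : ℕ → H) (q : (H × H) × (ℕ × ℕ)) : Set H :=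
  {z | ∃ j, ∀ c < n, ¬ mem c z →
      (∀ u < q.1.2, n ≤ st q.2.1 * ap2 dcard n (ap2 ev (ap2 ev q.1.1 c) u)) →
        st q.2.2 * ap4 cntc n q.1.2 (ap2 ev q.1.1 c) (ρ j) ≤ q.1.2}

/-- the families of type (b) -/
def j3146_Cb (n : H) (R0 : Set H) (q : Set H × H) : Set H :=
  {w | ∀ c < n, ¬ mem c w →
      (∃ z ∈ q.1, q.2 ≤ z ∧ ap2 pr c z ∈ R0) ∧ (∃ z ∈ q.1, q.2 ≤ z ∧ ap2 pr c z ∉ R0)}

/-- the families of type (c) -/
def j3146_Cc (I : Set H) (n : H) (q : (Set H × Set H) × (H × H)) : Set H :=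
  {w | ∀ c < n, ¬ mem c w → ap2 ev q.2.1 c < q.2.2 →
      ap2 ev q.2.1 c ∈ q.1.1 → Low I q.1.1 q.1.2 (ap2 ev q.2.1 c) ∨
        Up I q.1.1 q.1.2 (ap2 ev q.2.1 c)}

theorem j3146_del_countable (hFc : FF.Countable) (hM : M.Countable) :
    {Z : Set H | Del FF I M X Z}.Countable := by
  refine ((hFc.prod hM).image
    (fun q : (ℕ → ℕ) × H => {y : H | y ∈ I ∧ ∃ b ∈ I, T q.1 X (pp q.2 y) b})).mono ?_
  rintro Z ⟨hZI, ⟨F, hF, p, hp, hZ⟩, _⟩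
  refine ⟨(F, p), ⟨hF, hp⟩, ?_⟩
  ext y
  constructor
  · rintro ⟨hy, h1⟩
    exact (hZ y hy).2 h1
  · intro hy
    exact ⟨hZI y hy, (hZ y (hZI y hy)).1 hy⟩

theorem j3146_mul (hM : Mdl FF M) (hF : Fam FF) : ∀ x ∈ M, ∀ y ∈ M, x * y ∈ M := by
  intro x hx y hy
  have h1 : x * y = ap (fun x : ℕ => x.unpair.1 * x.unpair.2) (pp x y) := by
    obtain ⟨x, rfl⟩ := x.rep
    obtain ⟨y, rfl⟩ := y.rep
    simp only [pp_coe, ap_coe, mul_coe, Nat.unpair_pair]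
  rw [h1]
  exact hM.ap _ hF.mul _ (hM.pp _ hx _ hy)

theorem j3146_add (hM : Mdl FF M) (hF : Fam FF) : ∀ x ∈ M, ∀ y ∈ M, x + y ∈ M := by
  intro x hx y hy
  have h1 : x + y = ap (fun x : ℕ => x.unpair.1 + x.unpair.2) (pp x y) := by
    obtain ⟨x, rfl⟩ := x.rep
    obtain ⟨y, rfl⟩ := y.rep
    simp only [pp_coe, ap_coe, add_coe, Nat.unpair_pair]
  rw [h1]
  exact hM.ap _ hF.add _ (hM.pp _ hx _ hy)

theorem j3146_lt (x y : H) (h : x ≤ y) : x < y + st 1 := by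
  obtain ⟨x, rfl⟩ := x.rep
  obtain ⟨y, rfl⟩ := y.rep
  rw [le_coe] at h
  rw [st_coe, add_coe, lt_coe]
  exact h.mp fun n hn => Nat.lt_succ_of_le hn

/-- the countable set of families -/
def j3146_fam (FF : Set (ℕ → ℕ)) (I : Set H) (n : H) (M0 : Set H) (ρ : ℕ → H) (R0 : Set H)
    (M X : Set H) : Set (Set H) :=
  {Set.univ} ∪ (j3146_Ca n ρ '' {q | (q.1.1 ∈ M ∧ q.1.2 ∈ M0 ∧ st 0 < q.1.2)} ∪
    (j3146_Cb n R0 '' {q | Del FF I M X q.1 ∧ Unb I q.1 ∧ q.2 ∈ M} ∪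
      j3146_Cc I n '' {q | Del FF I M X q.1.1 ∧ Del FF I M X q.1.2 ∧ LinI q.1.1 q.1.2 ∧
        Unb I q.1.1 ∧ Stab I M q.1.1 q.1.2 ∧ q.2.1 ∈ M ∧ q.2.2 ∈ M}))

theorem j3146_fam_countable (hFc : FF.Countable) {n : H} {M0 : Set H} {ρ : ℕ → H} {R0 : Set H}
    (hM : M.Countable) (hsub : M0 ⊆ M) : (j3146_fam FF I n M0 ρ R0 M X).Countable := by
  have hM0 : M0.Countable := hM.mono hsub
  have hD : {Z : Set H | Del FF I M X Z}.Countable := j3146_del_countable hFc hM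
  refine (Set.countable_singleton _).union (Set.Countable.union ?_ (Set.Countable.union ?_ ?_))
  · apply Set.Countable.image
    refine ((hM.prod hM0).prod (Set.countable_univ (α := ℕ × ℕ))).mono ?_
    rintro ⟨⟨g, K⟩, m⟩ ⟨h1, h2, _⟩
    exact ⟨⟨h1, h2⟩, trivial⟩
  · apply Set.Countable.image
    refine (hD.prod hM).mono ?_
    rintro ⟨Z, b⟩ ⟨h1, _, h2⟩
    exact ⟨h1, h2⟩
  · apply Set.Countable.image
    refine ((hD.prod hD).prod (hM.prod hM)).mono ?_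
    rintro ⟨⟨A, R⟩, ⟨g, b⟩⟩ ⟨h1, h2, _, _, _, h3, h4⟩
    exact ⟨⟨h1, h2⟩, ⟨h3, h4⟩⟩

theorem j3146_fam_null (hF : OpsS FF) {n : H} {M0 : Set H} {ρ : ℕ → H} {R0 : Set H}
    (hM0 : Mdl FF M0) (hn : n ∈ M0) (hbig : ∀ k : ℕ, st k < n)
    (hlim : ∀ j, ∀ i < n, mem i (ap (fun x => x.unpair.1) (ρ j)) → ∃ b ∈ I, ∀ z ∈ I, b ≤ z →
      (ap2 pr i z ∈ R0 ↔ mem i (ap (fun x => x.unpair.2) (ρ j))))
    (hsub : M0 ⊆ M) (hG : Good FF I M X) (hbn : BN n M0 M ρ) (hr0 : Del FF I M X R0)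
    (S : Set H) (hS : S ∈ j3146_fam FF I n M0 ρ R0 M X) (m : ℕ) :
    ∃ z ∈ S, st m * ap2 bcard n z ≤ n := by
  rcases hS with hS | hS | hS | hS
  · rw [Set.mem_singleton_iff] at hS
    subst hS
    refine ⟨st 0, trivial, ?_⟩
    obtain ⟨n, rfl⟩ := n.rep
    simp only [st_coe, ap2_coe, mul_coe, le_coe]
    refine ev_of_forall fun k => ?_
    have h0 : bcard (n k) 0 = 0 := by
      unfold bcard
      simp
    rw [h0, Nat.mul_zero]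
    exact Nat.zero_le _
  · obtain ⟨⟨⟨g, K⟩, ⟨m1, m2⟩⟩, ⟨hg, hK, hK0⟩, rfl⟩ := hS
    obtain ⟨j, z, hz, h1⟩ := bn_step n hbig M0 M ρ hbn hn (j3146_mul hM0 hF.ops.toFam)
      (fun m K hK g hg => hG.mdl.ap _ (hF.flat m) _
        (hG.mdl.pp _ (hsub hn) _ (hG.mdl.pp _ (hsub hK) _ hg))) g hg K hK hK0 m1 m2 m
    exact ⟨z, ⟨j, h1⟩, hz⟩
  · obtain ⟨⟨Z, b⟩, ⟨hZ, hU, hb⟩, rfl⟩ := hS
    obtain ⟨w, hw, h1⟩ := null_coh hF.ops hF.opsN hG (hsub hn) hbig (hM0.st 1) hbn hr0 hZ hU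
      hlim hb m
    exact ⟨w, h1, hw⟩
  · obtain ⟨⟨⟨A, R⟩, ⟨g, b⟩⟩, ⟨hA, hR, hL, hU, hSt, hg, hb⟩, rfl⟩ := hS
    obtain ⟨w, hw, h1⟩ := null_stab hF.ops hF.top hF.bot hG (hsub hn) hbig hA hR hL hU hSt hg hb m
    exact ⟨w, h1, hw⟩

/-- TARGET: one stage of the construction -/
theorem stage (hF : OpsS FF) {n : H} {M0 : Set H} {ρ : ℕ → H} {R0 : Set H} (hM0 : Mdl FF M0)
    (hn : n ∈ M0) (hbig : ∀ k : ℕ, st k < n)
    (hlim : ∀ j, ∀ i < n, mem i (ap (fun x => x.unpair.1) (ρ j)) → ∃ b ∈ I, ∀ z ∈ I, b ≤ z →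
      (ap2 pr i z ∈ R0 ↔ mem i (ap (fun x => x.unpair.2) (ρ j))))
    (h : Inv FF I n M0 ρ R0 M X) {A R : Set H} (hA : Del FF I M X A) (hR : Del FF I M X R)
    (hlin : LinI A R) (hunb : Unb I A) :
    ∃ M' G : Set H, Inv FF I n M0 ρ R0 M' (join X G) ∧ M ⊆ M' ∧
      (∃ A' : Set H, A' ⊆ A ∧ Del FF I M' (join X G) A' ∧ Unb I A' ∧ Stab I M' A' R) ∧
      (∀ P, Sig FF I M X P → Sig FF I M' (join X G) P) ∧
      (∀ A1 R1 : Set H, Del FF I M X A1 → Del FF I M X R1 → LinI A1 R1 → Unb I A1 →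
        Stab I M A1 R1 → Stab I M' A1 R1) ∧
      (∀ Z : Set H, Del FF I M X Z → Unb I Z → ∃ c ∈ M', ∀ b ∈ I,
        (∃ z ∈ Z, b ≤ z ∧ ap2 pr c z ∈ R0) ∧ (∃ z ∈ Z, b ≤ z ∧ ap2 pr c z ∉ R0)) := by
  obtain ⟨G, hG', A', hA'A, hA', hU', hS'⟩ := lemmaB hF.cnt hF.ops hF.opsA hF.opsN.pr hF.eq hF.ne
    h.cnt h.good hA hR hlin hunb
  have hmono : ∀ P, Sig FF I M X P → Sig FF I M (join X G) P := fun P hP =>
    Sig.mono hF.ops h.good (Set.Subset.refl M) hG' hP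
  have hdel : ∀ B, Del FF I M X B → Del FF I M (join X G) B := fun B hB =>
    ⟨hB.1, hmono _ hB.2.1, hmono _ hB.2.2⟩
  have hr0 := hdel _ h.r0
  -- enumeration of the families
  obtain ⟨C, hC⟩ := (j3146_fam_countable (I := I) (X := join X G) hF.cnt (n := n) (ρ := ρ)
    (R0 := R0) h.cnt h.sub0).exists_eq_range ⟨Set.univ, Or.inl rfl⟩
  obtain ⟨c, hcn, hc⟩ := choose_c n hbig C (fun i m => j3146_fam_null hF hM0 hn hbig hlim h.sub0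
    hG' h.bn hr0 (C i) (hC ▸ ⟨i, rfl⟩) m)
  have hc' : ∀ S ∈ j3146_fam FF I n M0 ρ R0 M (join X G), ∃ z ∈ S, ¬ mem c z := by
    intro S hS
    rw [hC] at hS
    obtain ⟨i, rfl⟩ := hS
    exact hc i
  obtain ⟨hgood, hMM, hcM⟩ := adj_good hF.ops hF.opsC hG' (h.sub0 hn) hcn
  have hdel' : ∀ B, Del FF I M (join X G) B → Del FF I (adj M c) (join X G) B := fun B hB =>
    ⟨hB.1, Sig.mono' hF.ops hG' hMM hgood hB.2.1, Sig.mono' hF.ops hG' hMM hgood hB.2.2⟩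
  have hstab : ∀ A1 R1 : Set H, Del FF I M (join X G) A1 → Del FF I M (join X G) R1 →
      LinI A1 R1 → Unb I A1 → Stab I M A1 R1 → Stab I (adj M c) A1 R1 := by
    intro A1 R1 hA1 hR1 hL hU hSt x hx hxA
    obtain ⟨g, hg, rfl⟩ := hx
    obtain ⟨b, hb, hle⟩ := h.good.cof _ (hA1.1 _ hxA)
    obtain ⟨z, hz, hcz⟩ := hc' (j3146_Cc I n ((A1, R1), (g, b + st 1)))
      (Or.inr (Or.inr (Or.inr ⟨((A1, R1), (g, b + st 1)), ⟨hA1, hR1, hL, hU, hSt, hg,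
        j3146_add h.good.mdl hF.ops.toFam _ hb _ (h.good.mdl.st 1)⟩, rfl⟩)))
    exact hz c hcn hcz (j3146_lt _ _ hle) hxA
  refine ⟨adj M c, G, ⟨adj_countable h.cnt c, hgood, h.sub0.trans hMM, ?_, hdel' _ hr0⟩, hMM,
    ⟨A', hA'A, hdel' _ hA', hU', ?_⟩, ?_, ?_, ?_⟩
  · -- BN
    intro K hK f hf m m' hK0 hf1
    obtain ⟨g, hg, rfl⟩ := hf
    obtain ⟨z, ⟨j, hj⟩, hcz⟩ := hc' (j3146_Ca n ρ ((g, K), (m, m')))
      (Or.inr (Or.inl ⟨((g, K), (m, m')), ⟨hg, hK, hK0⟩, rfl⟩))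
    exact ⟨j, hj c hcn hcz hf1⟩
  · exact hstab A' R hA' (hdel _ hR)
      ⟨fun x hx => hlin.refl x (hA'A hx), fun x hx y hy => hlin.antisymm x (hA'A hx) y (hA'A hy),
        fun x hx y hy z hz => hlin.trans x (hA'A hx) y (hA'A hy) z (hA'A hz),
        fun x hx y hy => hlin.total x (hA'A hx) y (hA'A hy)⟩ hU' hS'
  · intro P hP
    exact Sig.mono hF.ops h.good hMM hgood hP
  · intro A1 R1 hA1 hR1 hL hU hSt
    exact hstab A1 R1 (hdel _ hA1) (hdel _ hR1) hL hU hSt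
  · intro Z hZ hU
    refine ⟨c, hcM, fun b hb => ?_⟩
    obtain ⟨b1, hb1, hle⟩ := h.good.cof b hb
    obtain ⟨z, hz, hcz⟩ := hc' (j3146_Cb n R0 (Z, b1))
      (Or.inr (Or.inr (Or.inl ⟨(Z, b1), ⟨hdel _ hZ, hU, hb1⟩, rfl⟩)))
    obtain ⟨⟨z1, hz1, h1, h2⟩, ⟨z2, hz2, h3, h4⟩⟩ := hz c hcn hcz
    exact ⟨⟨z1, hz1, hle.trans h1, h2⟩, ⟨z2, hz2, hle.trans h3, h4⟩⟩


end Pool.Agent.Helper317.CADS
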